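import Pool.Agent.Lib.Kuhn.Kuhn

/-! Zeros of maps on balls. -/

namespace Pool.Agent.P.MP_456758_an

open Filter Topology Module Set

noncomputable section

lemma miranda {n : ℕ} {G : (Fin n → ℝ) → Fin n → ℝ} (hG : Continuous G) {R : ℝ} (hR : 0 < R)
    (h : ∀ x, R ≤ ‖x‖ → G x = x) : ∃ x, G x = 0 := by
  rcases Nat.eq_zero_or_pos n with rfl | hn
  · exact ⟨0, Subsingleton.elim _ _⟩
  by_contra hcon
  push Not at hcon
  have hK := isCompact_closedBall (0 : Fin n → ℝ) R
  obtain ⟨x₀, -, hx₀⟩ := hK.exists_isMinOn ⟨0, by simpa using hR.le⟩ hG.norm.continuousOn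
  have hε : 0 < ‖G x₀‖ := norm_pos_iff.2 (hcon x₀)
  obtain ⟨δ, hδ, huc⟩ := Metric.uniformContinuousOn_iff.1
    (hK.uniformContinuousOn_of_continuous hG.continuousOn) _ hε
  obtain ⟨N, hN⟩ := exists_nat_gt (max 1 (2 * R / δ))
  have hN1 : (1 : ℝ) < N := lt_of_le_of_lt (le_max_left _ _) hN
  have hN2 : 2 * R < N * δ := (div_lt_iff₀ hδ).1 (lt_of_le_of_lt (le_max_right _ _) hN)
  set p : (Fin n → ℤ) → Fin n → ℝ := fun v k => R * (2 * (v k / N) - 1) with hp
  have hin : ∀ v : Fin n → ℤ, (∀ k, 0 ≤ v k ∧ v k ≤ N) → p v ∈ Metric.closedBall 0 R := by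
    intro v hv
    rw [mem_closedBall_zero_iff, pi_norm_le_iff_of_nonneg hR.le]
    intro k
    have a : (0 : ℝ) ≤ v k / N := div_nonneg (by exact_mod_cast (hv k).1) (by positivity)
    have b : (v k : ℝ) / N ≤ 1 := (div_le_one (by positivity)).2 (by exact_mod_cast (hv k).2)
    rw [Real.norm_eq_abs, abs_le]
    constructor <;> simp only [hp] <;> nlinarith
  obtain ⟨w, hw, hcl, hred⟩ := Pool.Agent.Lib.Kuhn.kuhn hn (M := (N : ℤ))
    (by exact_mod_cast hN1.le) (fun v i => 0 < G (p v) i)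
    (fun v _ i hi => by
      have e : p v i = -R := by simp [hp, hi]
      rw [h _ (le_trans (by simp [e, abs_of_pos hR]) (norm_le_pi_norm (p v) i)), e]
      linarith)
    (fun v _ i hi => by
      have e : p v i = R := by
        simp only [hp, hi, Int.cast_natCast]
        rw [div_self (by positivity)]; ring
      rw [h _ (le_trans (by simp [e, abs_of_pos hR]) (norm_le_pi_norm (p v) i)), e]
      exact hR)
  refine (not_le.2 ?_) (show ‖G x₀‖ ≤ ‖G (p (w (Fin.last n)))‖ from hx₀ (hin _ (hw _)))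
  refine (pi_norm_lt_iff hε).2 fun i => ?_
  have a : 0 < G (p (w (Fin.last n))) i :=
    Pool.Agent.Lib.Kuhn.red_lt (P := fun i => 0 < G (p (w (Fin.last n))) i) (by simp [hred])
  have b : ¬ 0 < G (p (w i.castSucc)) i :=
    Pool.Agent.Lib.Kuhn.red_eq (P := fun k => 0 < G (p (w i.castSucc)) k) (by simp [hred])
  have c : dist (p (w (Fin.last n))) (p (w i.castSucc)) < δ := by
    refine (dist_pi_lt_iff hδ).2 fun k => ?_
    have b1 : (w (Fin.last n) k : ℝ) ≤ w i.castSucc k + 1 := by exact_mod_cast hcl _ _ k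
    have b2 : (w i.castSucc k : ℝ) ≤ w (Fin.last n) k + 1 := by exact_mod_cast hcl _ _ k
    have e : p (w (Fin.last n)) k - p (w i.castSucc) k =
        2 * R / N * (w (Fin.last n) k - w i.castSucc k) := by simp only [hp]; ring
    have b3 : 2 * R / N < δ := by rw [div_lt_iff₀ (by positivity)]; linarith
    have b4 : 0 < 2 * R / N := by positivity
    rw [Real.dist_eq, e, abs_lt]
    constructor <;> nlinarith
  have d := (dist_le_pi_dist _ _ i).trans_lt (huc _ (hin _ (hw _)) _ (hin _ (hw _)) c)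
  rw [Real.dist_eq, abs_lt] at d
  rw [Real.norm_eq_abs, abs_of_pos a]
  linarith [d.2]

section Ess

variable {E : Type} [NormedAddCommGroup E] [NormedSpace ℝ E]

/-- Every map with the same values on the unit sphere has a zero in the unit ball. -/
def Ess (F : E → E) : Prop :=
  ∀ G : E → E, Continuous G → (∀ x, ‖x‖ = 1 → G x = F x) → ∃ x, ‖x‖ ≤ 1 ∧ G x = 0

lemma ess_id [FiniteDimensional ℝ E] : Ess fun x : E => x := by
  intro G hG h
  have hm : ∀ x : E, 0 < max 1 ‖x‖ := fun x => by positivity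
  let e : E ≃L[ℝ] (Fin (finrank ℝ E) → ℝ) := ContinuousLinearEquiv.ofFinrankEq (by simp)
  let G' : E → E := fun x => max 1 ‖x‖ • G ((max 1 ‖x‖)⁻¹ • x)
  have hG' : Continuous G' :=
    Continuous.smul (by fun_prop) (hG.comp (Continuous.smul
      (Continuous.inv₀ (by fun_prop) fun x => (hm x).ne') continuous_id))
  obtain ⟨y, hy⟩ := miranda (G := fun y => e (G' (e.symm y))) (by fun_prop)
    (R := ‖e.toContinuousLinearMap‖ + 1) (by positivity) fun y hy => by
      have h1 := e.toContinuousLinearMap.le_opNorm (e.symm y)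
      simp only [ContinuousLinearEquiv.coe_coe, ContinuousLinearEquiv.apply_symm_apply] at h1
      have h2 : 1 ≤ ‖e.symm y‖ := by
        by_contra h2
        nlinarith [norm_nonneg e.toContinuousLinearMap, norm_nonneg (e.symm y)]
      have h3 : 0 < ‖e.symm y‖ := by linarith
      simp only [G', max_eq_right h2]
      rw [h _ (by rw [norm_smul, norm_inv, norm_norm, inv_mul_cancel₀ h3.ne']), smul_smul,
        mul_inv_cancel₀ h3.ne', one_smul, e.apply_symm_apply]
  refine ⟨(max 1 ‖e.symm y‖)⁻¹ • e.symm y, ?_, ?_⟩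
  · rw [norm_smul, norm_inv, Real.norm_of_nonneg (hm _).le, inv_mul_le_iff₀ (hm _), mul_one]
    exact le_max_right _ _
  · simpa [G', (hm _).ne'] using hy

lemma Ess.homotopy {F : ℝ → E → E} (hF : Continuous fun p : ℝ × E => F p.1 p.2)
    (h0 : ∀ t ∈ Icc (0 : ℝ) 1, ∀ x, ‖x‖ = 1 → F t x ≠ 0) (h : Ess (F 1)) : Ess (F 0) := by
  intro G hG hGF
  have hm : ∀ x : E, 0 < max ‖x‖ (1 / 2) := fun x => by positivity
  have hr : Continuous fun x : E => (max ‖x‖ (1 / 2))⁻¹ • x :=
    Continuous.smul (Continuous.inv₀ (by fun_prop) fun x => (hm x).ne') continuous_id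
  obtain ⟨x, hx, hz⟩ := h (fun x => if ‖x‖ ≤ 1 / 2 then G ((2 : ℝ) • x)
    else F (2 * ‖x‖ - 1) ((max ‖x‖ (1 / 2))⁻¹ • x))
    (Continuous.if_le (by fun_prop)
      (hF.comp (Continuous.prodMk (by fun_prop : Continuous fun x : E => 2 * ‖x‖ - 1) hr))
      continuous_norm continuous_const fun x hx => by
        rw [hGF _ (by simp [norm_smul, hx])]
        simp [hx])
    (fun x hx => by
      rw [if_neg (by rw [hx]; norm_num), hx, max_eq_left (by norm_num)]
      norm_num)
  split_ifs at hz with h1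
  · exact ⟨_, by rw [norm_smul, Real.norm_two]; linarith, hz⟩
  · push Not at h1
    refine absurd hz (h0 _ ⟨by linarith, by linarith⟩ _ ?_)
    rw [max_eq_left h1.le, norm_smul, norm_inv, norm_norm, inv_mul_cancel₀ (by linarith)]

end Ess

end

end Pool.Agent.P.MP_456758_an
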