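import Pool.Agent.P.MP_456758_an.Cov

/-! The concrete crossed product. -/

namespace Pool.Agent.P.MP_456758_an

open scoped ENNReal BoundedContinuousFunction InnerProductSpace
open Filter Topology

noncomputable section

/-- The Hilbert space of square summable two-sided sequences. -/
abbrev H : Type := lp (fun _ : ℤ => ℂ) 2

/-- The standard basis. -/
def dl (i : ℤ) : H := lp.single 2 i 1

@[simp] lemma dl_apply (i j : ℤ) : dl i j = if j = i then 1 else 0 := by
  simp [dl, lp.single_apply, Pi.single_apply]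

lemma norm_dl (i : ℤ) : ‖dl i‖ = 1 := by simp [dl, lp.norm_single]

instance : Nontrivial H := ⟨⟨dl 0, 0, fun h => by simpa using congrArg (fun ξ : H => ξ 0) h⟩⟩

lemma H.hasSum (ξ : H) : HasSum (fun n => ‖ξ n‖ ^ 2) (‖ξ‖ ^ 2) := by
  simpa using lp.hasSum_norm (by norm_num) ξ

lemma wop_aux (g : ℤ →ᵇ ℂ) (l : ℤ) (ξ : H) (n : ℤ) :
    ‖g n * ξ (n - l)‖ ^ 2 ≤ ‖g‖ ^ 2 * ‖ξ (n - l)‖ ^ 2 := by
  rw [norm_mul, mul_pow]
  gcongr
  exact g.norm_coe_le_norm n

lemma shift_hasSum (ξ : H) (l : ℤ) : HasSum (fun n => ‖ξ (n - l)‖ ^ 2) (‖ξ‖ ^ 2) :=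
  ((Equiv.subRight l).hasSum_iff (f := fun n => ‖ξ n‖ ^ 2)).2 (H.hasSum ξ)

/-- Weighted shifts, as linear maps. -/
def wopL (g : ℤ →ᵇ ℂ) (l : ℤ) : H →ₗ[ℂ] H where
  toFun ξ := ⟨fun n => g n * ξ (n - l), memℓp_gen (by
    simpa using Summable.of_nonneg_of_le (fun _ => by positivity) (wop_aux g l ξ)
      ((shift_hasSum ξ l).summable.mul_left _))⟩
  map_add' ξ η := by ext n; simp [mul_add]
  map_smul' c ξ := by ext n; simp [mul_left_comm]

lemma wopL_norm (g : ℤ →ᵇ ℂ) (l : ℤ) (ξ : H) : ‖wopL g l ξ‖ ≤ ‖g‖ * ‖ξ‖ := by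
  refine (pow_le_pow_iff_left₀ (norm_nonneg _) (by positivity) two_ne_zero).1 ?_
  rw [mul_pow]
  exact hasSum_le (wop_aux g l ξ) (H.hasSum (wopL g l ξ)) ((shift_hasSum ξ l).mul_left (‖g‖ ^ 2))

/-- Weighted shifts. -/
def wop (g : ℤ →ᵇ ℂ) (l : ℤ) : H →L[ℂ] H := (wopL g l).mkContinuous ‖g‖ (wopL_norm g l)

@[simp] lemma wop_apply (g : ℤ →ᵇ ℂ) (l : ℤ) (ξ : H) (n : ℤ) : wop g l ξ n = g n * ξ (n - l) := rfl

lemma norm_wop (g : ℤ →ᵇ ℂ) (l : ℤ) : ‖wop g l‖ ≤ ‖g‖ :=
  LinearMap.mkContinuous_norm_le _ (norm_nonneg _) _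

lemma star_wop {g g' : ℤ →ᵇ ℂ} {l : ℤ} (h : ∀ n, g' n = star (g (n + l))) :
    star (wop g l) = wop g' (-l) := by
  rw [ContinuousLinearMap.star_eq_adjoint, eq_comm, ContinuousLinearMap.eq_adjoint_iff]
  intro ξ η
  rw [lp.inner_eq_tsum, lp.inner_eq_tsum, eq_comm, ← (Equiv.addRight l).tsum_eq]
  refine tsum_congr fun n => ?_
  simp [h, mul_assoc, mul_comm, mul_left_comm]

/-- Multiplication operators. -/
def mop : (ℤ →ᵇ ℂ) →⋆ₐ[ℂ] (H →L[ℂ] H) where
  toFun g := wop g 0
  map_one' := by ext ξ n; simp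
  map_mul' g g' := by ext ξ n; simp [mul_assoc]
  map_zero' := by ext ξ n; simp
  map_add' g g' := by ext ξ n; simp [add_mul]
  commutes' r := by ext ξ n; simp [Algebra.algebraMap_eq_smul_one]
  map_star' g := (star_wop (l := 0) (by simp)).symm

@[simp] lemma mop_apply (g : ℤ →ᵇ ℂ) (ξ : H) (n : ℤ) : mop g ξ n = g n * ξ n := by
  simp [mop]

lemma star_shift (l : ℤ) : star (wop 1 l) = wop 1 (-l) := star_wop (by simp)

/-- Bounded families of operators. -/
abbrev Amb (X : Type) : Type := lp (fun _ : X => H →L[ℂ] H) ∞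

instance (X : Type) : CStarAlgebra (Amb X) where

/-- A bounded family. -/
def Amb.mk {X : Type} (a : X → H →L[ℂ] H) (C : ℝ) (h : ∀ x, ‖a x‖ ≤ C) : Amb X :=
  ⟨a, memℓp_infty ⟨C, by rintro _ ⟨x, rfl⟩; exact h x⟩⟩

@[simp] lemma Amb.mk_apply {X : Type} (a : X → H →L[ℂ] H) (C : ℝ) (h : ∀ x, ‖a x‖ ≤ C) (x : X) :
    Amb.mk a C h x = a x := rfl

/-- Evaluation of a family. -/
def Amb.ev {X : Type} (x : X) : Amb X →⋆ₐ[ℂ] (H →L[ℂ] H) where
  toFun a := a x
  map_one' := rfl
  map_mul' _ _ := rfl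
  map_zero' := rfl
  map_add' _ _ := rfl
  commutes' _ := rfl
  map_star' _ := rfl

/-- A homomorphism into families from a family of homomorphisms. -/
def Amb.lift {X C : Type} [CStarAlgebra C] (φ : X → C →⋆ₐ[ℂ] (H →L[ℂ] H)) : C →⋆ₐ[ℂ] Amb X where
  toFun a := Amb.mk (fun x => φ x a) ‖a‖ fun x => NonUnitalStarAlgHom.norm_apply_le (φ x) a
  map_one' := lp.ext (funext fun x => map_one (φ x))
  map_mul' a b := lp.ext (funext fun x => map_mul (φ x) a b)
  map_zero' := lp.ext (funext fun x => map_zero (φ x))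
  map_add' a b := lp.ext (funext fun x => map_add (φ x) a b)
  commutes' r := lp.ext (funext fun x => AlgHomClass.commutes (φ x) r)
  map_star' a := lp.ext (funext fun x => map_star (φ x) a)

variable {X : Type} [TopologicalSpace X] [CompactSpace X] (T : X ≃ₜ X)

/-- The values of a function along an orbit. -/
def orb (x : X) : C(X, ℂ) →⋆ₐ[ℂ] (ℤ →ᵇ ℂ) where
  toFun f := BoundedContinuousFunction.ofNormedAddCommGroupDiscrete (fun n => f ((T ^ n) x)) ‖f‖
    fun _ => f.norm_coe_le_norm _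
  map_one' := rfl
  map_mul' _ _ := rfl
  map_zero' := rfl
  map_add' _ _ := rfl
  commutes' _ := rfl
  map_star' _ := rfl

@[simp] lemma orb_apply (x : X) (f : C(X, ℂ)) (n : ℤ) : orb T x f n = f ((T ^ n) x) := rfl

/-- A constant family. -/
def Amb.const (X : Type) : (H →L[ℂ] H) →⋆ₐ[ℂ] Amb X := Amb.lift fun _ => StarAlgHom.id ℂ _

lemma shift_unitary : wop 1 1 ∈ unitary (H →L[ℂ] H) := by
  constructor <;> rw [star_shift] <;> ext ξ n <;> simp

/-- The regular covariant pair. -/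
def ambCov : Cov T (Amb X) where
  π := Amb.lift fun x => mop.comp (orb T x)
  u := ⟨Amb.const X (wop 1 1), Unitary.map_mem _ shift_unitary⟩
  cov f := lp.ext (funext fun x => by
    change wop 1 1 * mop (orb T x f) * star (wop 1 1) = mop (orb T x _)
    rw [star_shift]
    ext ξ n
    have : T.symm ((T ^ n) x) = (T ^ (n - 1)) x := by
      rw [sub_eq_neg_add, ← zpow_zpow, zpow_neg_one]; rfl
    simp [this])

lemma ambCov_zu (l : ℤ) (x : X) : (ambCov T).zu l x = wop 1 l := by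
  have h1 : (ambCov T).zu 1 x = wop 1 1 := by rw [Cov.zu_one]; rfl
  have h2 : (ambCov T).zu (-1) x = wop 1 (-1) := by
    rw [← Cov.star_zu, ← star_shift, ← h1]; rfl
  induction l using Int.induction_on with
  | zero => ext ξ n; simp
  | succ n ih =>
    rw [Cov.zu_add, lp.infty_coeFn_mul, Pi.mul_apply, ih, h1]
    ext ξ k; simp [sub_sub]
  | pred n ih =>
    rw [sub_eq_add_neg, Cov.zu_add, lp.infty_coeFn_mul, Pi.mul_apply, ih, h2]
    ext ξ k
    simp only [mul_apply_eq_comp, wop_apply, BoundedContinuousFunction.coe_one, Pi.one_apply,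
      one_mul, sub_sub]

/-- The closed subalgebra generated by the regular covariant pair. -/
def cpSub : StarSubalgebra ℂ (Amb X) := (ambCov T).polySub.topologicalClosure

instance : IsClosed (cpSub T : Set (Amb X)) := StarSubalgebra.isClosed_topologicalClosure _

/-- The crossed product. -/
def CP : Type := cpSub T

instance : CStarAlgebra (CP T) := StarSubalgebra.cstarAlgebra (cpSub T)

instance : PartialOrder (CP T) := CStarAlgebra.spectralOrder _

instance : StarOrderedRing (CP T) := CStarAlgebra.spectralOrderedRing _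

/-- The inclusion into bounded families. -/
def CP.val : CP T →⋆ₐ[ℂ] Amb X := (cpSub T).subtype

lemma poly_mem (f : ℤ →₀ C(X, ℂ)) : (ambCov T).poly f ∈ cpSub T :=
  StarSubalgebra.le_topologicalClosure _ ⟨f, rfl⟩

/-- The canonical covariant pair. -/
def cp : Cov T (CP T) where
  π := (ambCov T).π.codRestrict (cpSub T) fun f => by simpa using poly_mem T (.single 0 f)
  u := ⟨⟨(ambCov T).u, by simpa [Cov.zu_one] using poly_mem T (.single 1 1)⟩,
    Subtype.ext (ambCov T).u.2.1, Subtype.ext (ambCov T).u.2.2⟩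
  cov f := Subtype.ext ((ambCov T).cov f)

lemma val_poly (f : ℤ →₀ C(X, ℂ)) : CP.val T ((cp T).poly f) = (ambCov T).poly f :=
  Cov.map_poly _ _ _ (fun _ => rfl) (Cov.map_zu _ _ _ rfl) f

lemma cp_dense : DenseRange (cp T).poly := by
  intro a
  refine (IsInducing.subtypeVal.closure_eq_preimage_closure_image _).ge ?_
  refine closure_mono ?_ a.2
  rintro _ ⟨f, rfl⟩
  exact ⟨_, ⟨f, rfl⟩, val_poly T f⟩

variable {T}

/-- The regular representation at a point. -/
def rep (x : X) : CP T →⋆ₐ[ℂ] (H →L[ℂ] H) := (Amb.ev x).comp (CP.val T)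

@[simp] lemma rep_π (x : X) (f : C(X, ℂ)) : rep x ((cp T).π f) = mop (orb T x f) := rfl

@[simp] lemma rep_zu (x : X) (l : ℤ) : rep x ((cp T).zu l) = wop 1 l :=
  (congrArg (Amb.ev x) (Cov.map_zu (cp T) (ambCov T) (CP.val T) rfl l)).trans (ambCov_zu T l x)

lemma norm_le_of_rep {a : CP T} {C : ℝ} (hC : 0 ≤ C) (h : ∀ x, ‖rep x a‖ ≤ C) : ‖a‖ ≤ C :=
  lp.norm_le_of_forall_le hC h

lemma norm_rep_le (x : X) (a : CP T) : ‖rep x a‖ ≤ ‖a‖ := NonUnitalStarAlgHom.norm_apply_le _ _

lemma rep_ext {a b : CP T} (h : ∀ x, rep x a = rep x b) : a = b := Subtype.ext (lp.ext (funext h))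

lemma rep_poly (x : X) (f : ℤ →₀ C(X, ℂ)) (ξ : H) (n : ℤ) :
    rep x ((cp T).poly f) ξ n = ∑ l ∈ f.support, f l ((T ^ n) x) * ξ (n - l) := by
  rw [Cov.poly_eq, map_sum, sum_apply, lp.coeFn_sum, Finset.sum_apply]
  simp

section Hom

variable {Y : Type} [TopologicalSpace Y] [CompactSpace Y] {S : Y ≃ₜ Y}

omit [CompactSpace X] [CompactSpace Y] in
lemma equiv_zpow {φ : X → Y} (h : ∀ x, φ (T x) = S (φ x)) (n : ℤ) (x : X) :
    φ ((T ^ n) x) = (S ^ n) (φ x) := by
  have h2 : ∀ x, φ ((T ^ (-1 : ℤ)) x) = (S ^ (-1 : ℤ)) (φ x) := fun x => by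
    apply S.injective
    rw [← h, zpow_neg_one, zpow_neg_one]
    exact (congrArg φ (T.apply_symm_apply x)).trans (S.apply_symm_apply _).symm
  induction n using Int.induction_on with
  | zero => rfl
  | succ n ih => rw [add_comm, ← zpow_zpow, ← zpow_zpow, zpow_one, zpow_one, h, ih]
  | pred n ih => rw [sub_eq_neg_add, ← zpow_zpow, ← zpow_zpow, h2, ih]

lemma pull_poly (φ : C(X, Y)) (h : ∀ x, φ (T x) = S (φ x)) (f : ℤ →₀ C(Y, ℂ)) (x : X) :
    rep (φ x) ((cp S).poly f) =
      rep x ((cp T).poly (f.mapRange (fun g => g.comp φ) (ContinuousMap.zero_comp φ))) := by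
  induction f using Finsupp.induction_linear with
  | zero => simp
  | add f g hf hg =>
    rw [Finsupp.mapRange_add fun a b => ContinuousMap.add_comp a b φ]
    simp only [map_add, hf, hg]
  | single l a => ext ξ n; simp [equiv_zpow h]

/-- The homomorphism induced by an equivariant map. -/
def pull (φ : C(X, Y)) (h : ∀ x, φ (T x) = S (φ x)) : CP S →⋆ₐ[ℂ] CP T :=
  (Amb.lift fun x => rep (φ x)).codRestrict (cpSub T) fun a => by
    refine map_mem_closure (hom_cont (Amb.lift fun x => rep (φ x))) (cp_dense S a) ?_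
    rintro _ ⟨f, rfl⟩
    exact ⟨_, (val_poly T _).symm.trans (lp.ext (funext fun x => (pull_poly φ h f x).symm))⟩

@[simp] lemma rep_pull (φ : C(X, Y)) (h : ∀ x, φ (T x) = S (φ x)) (a : CP S) (x : X) :
    rep x (pull φ h a) = rep (φ x) a := rfl

lemma pull_poly' (φ : C(X, Y)) (h : ∀ x, φ (T x) = S (φ x)) (f : ℤ →₀ C(Y, ℂ)) :
    pull φ h ((cp S).poly f) =
      (cp T).poly (f.mapRange (fun g => g.comp φ) (ContinuousMap.zero_comp φ)) :=
  rep_ext fun x => pull_poly φ h f x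

lemma pull_dense (φ : C(X, Y)) (h : ∀ x, φ (T x) = S (φ x))
    (hs : DenseRange fun g : C(Y, ℂ) => g.comp φ) : DenseRange (pull φ h) := by
  refine Metric.denseRange_iff.2 fun a ε hε => ?_
  obtain ⟨f, hf, h1⟩ := (cp T).dense_poly (cp_dense T) hs ⟨0, ContinuousMap.zero_comp φ⟩ a
    (show 0 < ε / 2 by positivity)
  choose g hg using hf
  refine ⟨∑ l ∈ f.support, (cp S).poly (.single l (g l)), ?_⟩
  have : pull φ h (∑ l ∈ f.support, (cp S).poly (.single l (g l))) = (cp T).poly f := by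
    rw [map_sum, Cov.poly_eq]
    exact Finset.sum_congr rfl fun l _ => by
      rw [pull_poly', Finsupp.mapRange_single, Cov.poly_single, ← hg l]
  rw [this, dist_eq_norm]
  linarith

lemma pull_cont (φ : ℝ → C(X, Y)) (h : ∀ t x, φ t (T x) = S (φ t x)) (hφ : Continuous φ)
    (a : CP S) : Continuous fun t => pull (φ t) (h t) a := by
  refine continuous_of_uniform_approx_of_continuous fun u hu => ?_
  obtain ⟨ε, hε, hu⟩ := Metric.mem_uniformity_dist.1 hu
  obtain ⟨f, hf⟩ := (cp_dense S).exists_dist_lt a hε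
  refine ⟨fun t => pull (φ t) (h t) ((cp S).poly f), ?_, fun t => hu ?_⟩
  · clear hf
    induction f using Finsupp.induction_linear with
    | zero => simpa using continuous_const
    | add f g hf hg => simp only [map_add]; exact hf.add hg
    | single l g =>
      simp only [pull_poly']
      simp only [Finsupp.mapRange_single, Cov.poly_single]
      exact ((hom_cont (cp T).π).comp (g.continuous_postcomp.comp hφ)).mul continuous_const
  · rw [dist_eq_norm, ← map_sub] at *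
    exact (NonUnitalStarAlgHom.norm_apply_le _ _).trans_lt hf

end Hom

/-- Localisation of the norm of a band operator. -/
lemma norm_le_of_windows {f : ℤ →₀ C(X, ℂ)} {L : ℕ} (hL : 0 < L) (hf : ∀ l ∈ f.support, |l| ≤ L)
    {x : X} {C : ℝ} (hC : 0 ≤ C) (h : ∀ s : ℤ, ∃ y, ‖rep y ((cp T).poly f)‖ ≤ C ∧
      ∀ l ∈ f.support, ∀ r < L, f l ((T ^ (s + r)) x) = f l ((T ^ (s + r)) y)) :
    ‖rep x ((cp T).poly f)‖ ≤ 2 * C := by
  refine ContinuousLinearMap.opNorm_le_bound _ (by positivity) fun ξ => ?_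
  have hs : ∀ (η : H) (M : ℕ) (c : ℤ), HasSum (fun s : ℤ => ∑ r ∈ Finset.range M,
      ‖η (s + r - c)‖ ^ 2) (M * ‖η‖ ^ 2) := fun η M c => by
    have := hasSum_sum (s := Finset.range M) fun r _ => shift_hasSum η (c - r)
    simpa [sub_sub_eq_add_sub] using this
  have h1 := hs (rep x ((cp T).poly f) ξ) L 0
  have h2 := (hs ξ (3 * L) L).mul_left (C ^ 2)
  have h3 := hasSum_le (fun s => ?_) h1 h2
  · refine (pow_le_pow_iff_left₀ (norm_nonneg _) (by positivity) two_ne_zero).1 ?_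
    have hL' : (0 : ℝ) < L := by exact_mod_cast hL
    push_cast at h3
    nlinarith [sq_nonneg (C * ‖ξ‖)]
  obtain ⟨y, hy, hxy⟩ := h s
  set ζ : H := ∑ r ∈ Finset.range (3 * L), lp.single 2 (s + r - L) (ξ (s + r - L)) with hζ
  have hz : ‖ζ‖ ^ 2 = ∑ r ∈ Finset.range (3 * L), ‖ξ (s + r - L)‖ ^ 2 := by
    have hi : Function.Injective fun r : ℕ => s + r - L := fun a b h => by simpa using h
    have := lp.norm_sum_single (p := 2) (by norm_num) ξ ((Finset.range (3 * L)).map ⟨_, hi⟩)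
    simpa [Finset.sum_map] using this
  have hz' : ∀ n, s - L ≤ n → n < s + 2 * L → ζ n = ξ n := fun n h1 h2 => by
    rw [hζ, lp.coeFn_sum, Finset.sum_apply, Finset.sum_eq_single (n - s + L).toNat]
    · have : s + (n - s + L).toNat - L = n := by omega
      rw [this, lp.single_apply_self]
    · exact fun r _ hr => lp.single_apply_ne _ _ _ (by omega)
    · exact fun hr => absurd (Finset.mem_range.2 (by omega)) hr
  calc ∑ r ∈ Finset.range L, ‖rep x ((cp T).poly f) ξ (s + r - 0)‖ ^ 2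
      = ∑ r ∈ Finset.range L, ‖rep y ((cp T).poly f) ζ (s + r)‖ ^ 2 := by
        refine Finset.sum_congr rfl fun r hr => ?_
        rw [sub_zero, rep_poly, rep_poly]
        congr 2
        refine Finset.sum_congr rfl fun l hl => ?_
        have := abs_le.1 (hf l hl)
        have := Finset.mem_range.1 hr
        rw [hxy l hl r (by omega), hz' _ (by omega) (by omega)]
    _ ≤ ‖rep y ((cp T).poly f) ζ‖ ^ 2 := by
        have hi : Function.Injective fun r : ℕ => s + r := fun a b h => by simpa using h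
        have := sum_le_hasSum ((Finset.range L).map ⟨_, hi⟩) (fun _ _ => by positivity)
          (H.hasSum (rep y ((cp T).poly f) ζ))
        simpa only [Finset.sum_map, Function.Embedding.coeFn_mk] using this
    _ ≤ C ^ 2 * ∑ r ∈ Finset.range (3 * L), ‖ξ (s + r - L)‖ ^ 2 := by
        rw [← hz, ← mul_pow]
        exact pow_le_pow_left₀ (norm_nonneg _) (ContinuousLinearMap.le_of_opNorm_le _ hy _) 2

end

end Pool.Agent.P.MP_456758_an
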