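import Pool.Agent.P.MP_456758_an.Inv

/-! The combinatorics of the levels. -/

namespace Pool.Agent.P.MP_456758_an

open Filter Topology Finset
open scoped Classical

noncomputable section

/-- The number of blocks of level `l` in a block of level `l + 1`. -/
def kk (l : ℕ) : ℕ := 2 ^ (l + 3)

/-- The length of a block of level `l`. -/
def qq : ℕ → ℕ
  | 0 => 1
  | l + 1 => kk l * qq l

lemma kk_ge (l : ℕ) : 8 ≤ kk l := Nat.pow_le_pow_right two_pos (by omega : 3 ≤ l + 3)

lemma qq_pos (l : ℕ) : 0 < qq l := by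
  induction l with
  | zero => exact one_pos
  | succ l ih => exact Nat.mul_pos (by linarith [kk_ge l]) ih

lemma qq_pos' (l : ℕ) : (0 : ℤ) < qq l := by exact_mod_cast qq_pos l

lemma qq_posR (l : ℕ) : (0 : ℝ) < qq l := by exact_mod_cast qq_pos l

lemma qq_dvd {n m : ℕ} (h : n ≤ m) : qq n ∣ qq m := by
  induction h with
  | refl => rfl
  | step _ ih => exact ih.mul_left _

lemma qq_dvd' {n m : ℕ} (h : n ≤ m) : (qq n : ℤ) ∣ qq m := by exact_mod_cast qq_dvd h

lemma qq_mono {n m : ℕ} (h : n ≤ m) : qq n ≤ qq m := Nat.le_of_dvd (qq_pos m) (qq_dvd h)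

lemma lt_qq (l : ℕ) : 2 * l < qq l := by
  induction l with
  | zero => exact one_pos
  | succ l ih => have := kk_ge l; rw [qq]; nlinarith

lemma qq_tendsto : Tendsto qq atTop atTop :=
  tendsto_atTop_mono (fun l => by have := lt_qq l; simp only [id]; omega) tendsto_id

lemma ev_qq (C : ℝ) {ε : ℝ} (hε : 0 < ε) : ∀ᶠ n in atTop, C ≤ qq n * ε :=
  ((tendsto_natCast_atTop_atTop.comp qq_tendsto).atTop_mul_const hε).eventually_ge_atTop C

lemma ev_half (C : ℝ) {ε : ℝ} (hε : 0 < ε) : ∀ᶠ n : ℕ in atTop, C * (1 / 2) ^ n ≤ ε := by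
  have := (tendsto_pow_atTop_nhds_zero_of_lt_one (r := (1 / 2 : ℝ)) (by norm_num)
    (by norm_num)).const_mul C
  rw [mul_zero] at this
  exact this.eventually_le_const hε

/-- The positions fixed at level `j`. -/
def Fx (j : ℕ) (a : ℤ) : Prop := a / qq j % kk j = 1 ∨ a / qq j % kk j = 2

lemma Fx_congr {j n : ℕ} (h : j < n) {a b : ℤ} (hab : a ≡ b [ZMOD qq n]) : Fx j a ↔ Fx j b := by
  obtain ⟨t, ht⟩ := (qq_dvd' h).trans hab.dvd
  obtain rfl : b = a + kk j * t * qq j := by rw [qq] at ht; push_cast at ht; linarith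
  simp [Fx, Int.add_mul_ediv_right _ _ (qq_pos' j).ne']

lemma div_small {j : ℕ} {i : ℤ} (h0 : -qq j ≤ i) (h1 : i < qq j) : i / qq j = -1 ∨ i / qq j = 0 := by
  rcases lt_or_ge i 0 with h | h
  · exact .inl (Int.ediv_eq_neg_one_of_neg_of_le h (by omega))
  · exact .inr (Int.ediv_eq_zero_of_lt h h1)

lemma not_Fx {j : ℕ} {i : ℤ} (h0 : -qq j ≤ i) (h1 : i < qq j) : ¬Fx j i := by
  have hk := kk_ge j
  have : (-1 : ℤ) % kk j = kk j - 1 := by
    rw [← Int.add_emod_right, Int.emod_eq_of_lt (by omega) (by omega)]; ring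
  rcases div_small h0 h1 with h | h <;> simp only [Fx, h, this, Int.zero_emod] <;> omega

lemma Fx_slot {j : ℕ} {i : ℤ} (h0 : -qq j ≤ i) (h1 : i < qq j) : Fx j (i + 2 * qq j) := by
  have hk := kk_ge j
  rw [Fx, Int.add_mul_ediv_right _ _ (qq_pos' j).ne']
  rcases div_small h0 h1 with h | h <;> rw [h, Int.emod_eq_of_lt (by omega) (by omega)] <;> simp

lemma Fx_block {n j : ℕ} (h : n ≤ j) {a b : ℤ} (hab : a / qq n = b / qq n) : Fx j a ↔ Fx j b := by
  obtain ⟨c, hc⟩ := qq_dvd' h
  simp only [Fx, hc, ← Int.ediv_ediv_of_nonneg (qq_pos' n).le, hab]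

/-- The positions that are free up to level `n`. -/
def Free (n : ℕ) (a : ℤ) : Prop := ∀ j < n, ¬Fx j a

lemma Free_congr {n : ℕ} {a b : ℤ} (hab : a ≡ b [ZMOD qq n]) : Free n a ↔ Free n b :=
  forall₂_congr fun _ hj => (Fx_congr hj hab).not

lemma Free.mono {n m : ℕ} {a : ℤ} (h : Free m a) (hnm : n ≤ m) : Free n a :=
  fun j hj => h j (hj.trans_le hnm)

lemma Free_small {n m : ℕ} (h : n ≤ m) {i : ℤ} (h0 : -qq n ≤ i) (h1 : i < qq n) :
    Free m i ↔ Free n i := by
  refine ⟨(·.mono h), fun hi j _ => ?_⟩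
  rcases lt_or_ge j n with hj | hj
  · exact hi j hj
  · have := qq_mono hj
    exact not_Fx (by omega) (by omega)

lemma free_zero (n : ℕ) : Free n 0 := fun j _ => not_Fx (by omega) (qq_pos' j)

/-- The positions fixed at a level between `n` and `m`. -/
def Bad (n m : ℕ) (a : ℤ) : Prop := ∃ j, n ≤ j ∧ j < m ∧ Fx j a

lemma sum_periodic {n m : ℕ} (h : n ≤ m) {g : ℤ → ℝ} (hg : ∀ a b, a ≡ b [ZMOD qq n] → g a = g b) :
    qq n * ∑ i ∈ range (qq m), g i = qq m * ∑ i ∈ range (qq n), g i := by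
  obtain ⟨c, hc⟩ := qq_dvd h
  have : ∀ j i : ℕ, g (j * qq n + i : ℕ) = g i := fun j i => hg _ _ (by simp [Int.ModEq])
  rw [hc, mul_comm (qq n) c, sum_range_blocks]
  simp only [this, sum_const, card_range, nsmul_eq_mul]
  push_cast; ring

lemma sum_Fx (m : ℕ) : ∑ i ∈ range (qq (m + 1)), (if Fx m i then 1 else 0 : ℝ) ≤ 2 * qq m := by
  have hk := kk_ge m
  rw [qq, sum_range_blocks]
  have : ∀ j ∈ range (kk m), ∑ i ∈ range (qq m), (if Fx m (j * qq m + i : ℕ) then 1 else 0 : ℝ) =
      if j ∈ ({1, 2} : Finset ℕ) then (qq m : ℝ) else 0 := fun j hj => by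
    have h1 : ∀ i ∈ range (qq m), Fx m (j * qq m + i : ℕ) ↔ j ∈ ({1, 2} : Finset ℕ) := by
      intro i hi
      have := mem_range.1 hj
      push_cast
      rw [Fx, add_comm, Int.add_mul_ediv_right _ _ (qq_pos' m).ne',
        Int.ediv_eq_zero_of_lt (by omega) (by simpa using hi), zero_add,
        Int.emod_eq_of_lt (by omega) (by omega), mem_insert, mem_singleton]
      omega
    rw [sum_congr rfl fun i hi => if_congr (h1 i hi) rfl rfl]
    split_ifs <;> simp
  rw [sum_congr rfl this, sum_ite_mem, sum_const, nsmul_eq_mul]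
  gcongr
  exact_mod_cast (card_le_card inter_subset_right).trans card_le_two

lemma sum_Bad (n m : ℕ) :
    ∑ i ∈ range (qq m), (if Bad n m i then 1 else 0 : ℝ) ≤ qq m * (1 / 2) ^ (n + 1) := by
  have h0 : ∀ m ≤ n, ∑ i ∈ range (qq m), (if Bad n m i then 1 else 0 : ℝ) = 0 := fun m hm =>
    sum_eq_zero fun i _ => if_neg fun ⟨j, h1, h2, _⟩ => by omega
  rcases le_total m n with h | h
  · rw [h0 m h]; positivity
  have : ∑ i ∈ range (qq m), (if Bad n m i then 1 else 0 : ℝ) ≤
      qq m * ((1 / 2) ^ (n + 1) - (1 / 2) ^ (m + 1)) := by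
    induction h with
    | refl => simp [h0 n le_rfl]
    | @step m _ ih =>
      have h1 := sum_periodic (Nat.le_succ m) (g := fun a => if Bad n m a then 1 else 0)
        fun a b hab => if_congr (exists_congr fun j => and_congr_right fun _ =>
          and_congr_right fun hj => Fx_congr hj hab) rfl rfl
      have h2 : ∑ i ∈ range (qq (m + 1)), (if Bad n (m + 1) i then 1 else 0 : ℝ) ≤
          ∑ i ∈ range (qq (m + 1)), (if Bad n m i then 1 else 0 : ℝ) +
          ∑ i ∈ range (qq (m + 1)), (if Fx m i then 1 else 0 : ℝ) := by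
        rw [← sum_add_distrib]
        refine sum_le_sum fun i _ => ?_
        by_cases b : Bad n m i <;> by_cases c : Fx m i <;> simp only [b, c, if_true, if_false] <;>
          split_ifs with a <;> try norm_num
        obtain ⟨j, j1, j2, j3⟩ := a
        rcases Nat.lt_succ_iff_lt_or_eq.1 j2 with h | rfl
        exacts [b ⟨j, j1, h, j3⟩, c j3]
      have h3 : (qq (m + 1) : ℝ) = kk m * qq m := by rw [qq]; push_cast; rfl
      have h4 : (kk m : ℝ) * (1 / 2) ^ (m + 1) = 4 := by
        rw [kk]; push_cast; rw [pow_add 2 (m + 1) 2, mul_right_comm, ← mul_pow]; norm_num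
      have h5 := qq_posR m
      have h6 : (0 : ℝ) ≤ kk m := by positivity
      rw [Nat.succ_eq_add_one, h3, mul_comm (kk m : ℝ), mul_assoc] at h1
      have h7 := mul_le_mul_of_nonneg_left ih h6
      rw [← mul_left_cancel₀ h5.ne' h1] at h7
      have h8 := sum_Fx m
      rw [Nat.succ_eq_add_one, h3, pow_succ _ (m + 1)]
      nlinarith
  refine this.trans (mul_le_mul_of_nonneg_left (sub_le_self _ (by positivity)) (by positivity))

/-- The free positions in a block of level `n`. -/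
def FF (n : ℕ) : Finset ℕ := {i ∈ range (qq n) | Free n i}

lemma zero_mem_FF (n : ℕ) : 0 ∈ FF n := mem_filter.2 ⟨mem_range.2 (qq_pos n), free_zero n⟩

/-- The density of the free positions of level `n`. -/
def rhoN (n : ℕ) : ℝ := (FF n).card / qq n

lemma rhoN_eq (n : ℕ) : ∑ i ∈ range (qq n), (if Free n i then 1 else 0 : ℝ) = qq n * rhoN n := by
  rw [rhoN, mul_div_cancel₀ _ (qq_posR n).ne', FF, card_filter]; simp

lemma sum_Free {n m : ℕ} (h : n ≤ m) :
    ∑ i ∈ range (qq m), (if Free n i then 1 else 0 : ℝ) = qq m * rhoN n := by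
  have := sum_periodic h (g := fun a => if Free n a then 1 else 0)
    fun a b hab => if_congr (Free_congr hab) rfl rfl
  rw [rhoN_eq, mul_left_comm] at this
  exact mul_left_cancel₀ (qq_posR n).ne' this

lemma rhoN_anti : Antitone rhoN := fun n m h => by
  refine le_of_mul_le_mul_left ?_ (qq_posR m)
  rw [← sum_Free h, ← rhoN_eq]
  refine sum_le_sum fun i _ => ?_
  split_ifs with a b <;> try norm_num
  exact b (a.mono h)

lemma half_le_rhoN (n : ℕ) : 1 / 2 ≤ rhoN n := by
  refine le_of_mul_le_mul_left ?_ (qq_posR n)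
  have h1 := sum_Bad 0 n
  have h2 : ∑ i ∈ range (qq n), ((if Free n i then 1 else 0 : ℝ) + if Bad 0 n i then 1 else 0) =
      ∑ i ∈ range (qq n), 1 := sum_congr rfl fun i _ => by
    have : Bad 0 n i ↔ ¬Free n i := by simp [Bad, Free]
    by_cases h : Free n i <;> simp [this, h]
  rw [sum_add_distrib, rhoN_eq] at h2
  simp only [sum_const, card_range, nsmul_eq_mul] at h2
  linarith

/-- The density of the free positions. -/
def rho : ℝ := ⨅ n, rhoN n

lemma rho_bdd : BddBelow (Set.range rhoN) := ⟨1 / 2, by rintro _ ⟨n, rfl⟩; exact half_le_rhoN n⟩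

lemma rho_le (n : ℕ) : rho ≤ rhoN n := ciInf_le rho_bdd n

lemma half_le_rho : 1 / 2 ≤ rho := le_ciInf half_le_rhoN

lemma rho_le_one : rho ≤ 1 := (rho_le 0).trans ((div_le_one (qq_posR 0)).2 (by
  exact_mod_cast (card_filter_le _ _).trans (card_range _).le))

lemma rhoN_tendsto : Tendsto rhoN atTop (𝓝 rho) := tendsto_atTop_ciInf rhoN_anti rho_bdd

variable {K : Type} (w : ℕ → ℤ → K)

/-- The prescribed values at the fixed positions. -/
def sk : ℕ → ℤ → K
  | 0, _ => w 0 0
  | n + 1, a => if Free n a then w n (a % qq (n + 1) - 2 * qq n) else sk n a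

lemma sk_congr {n : ℕ} {a b : ℤ} (h : a ≡ b [ZMOD qq n]) : sk w n a = sk w n b := by
  induction n with
  | zero => rfl
  | succ n ih =>
    have h' := h.of_dvd (qq_dvd' n.le_succ)
    rw [sk, sk, ih h', h.eq, if_congr (Free_congr h') rfl rfl]

lemma sk_mono {n m : ℕ} (h : n ≤ m) {a : ℤ} (ha : ¬Free n a) : sk w m a = sk w n a := by
  induction h with
  | refl => rfl
  | step h ih => rw [sk, if_neg fun h' => ha (h'.mono h), ih]

end

end Pool.Agent.P.MP_456758_an
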