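import Pool.Agent.P.MP_456758_an.KGroup

/-! Covariant pairs and matrix units. -/

namespace Pool.Agent.P.MP_456758_an

open Filter Topology

noncomputable section

variable {X : Type} [TopologicalSpace X] {T : X ≃ₜ X}

/-- Composition with a power of the homeomorphism. -/
def sh (T : X ≃ₜ X) (l : ℤ) {F : Type} [TopologicalSpace F] (f : C(X, F)) : C(X, F) :=
  f.comp ((T ^ l : X ≃ₜ X) : C(X, X))

@[simp] lemma sh_apply (l : ℤ) {F : Type} [TopologicalSpace F] (f : C(X, F)) (x : X) :
    sh T l f x = f ((T ^ l) x) := rfl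

lemma zpow_zpow (T : X ≃ₜ X) (a b : ℤ) (x : X) : (T ^ a) ((T ^ b) x) = (T ^ (a + b)) x := by
  rw [zpow_add]; rfl

lemma sh_sh (a b : ℤ) {F : Type} [TopologicalSpace F] (f : C(X, F)) :
    sh T a (sh T b f) = sh T (a + b) f := by
  ext x; simp [zpow_zpow, add_comm]

@[simp] lemma sh_zero {F : Type} [TopologicalSpace F] (f : C(X, F)) : sh T 0 f = f := by
  ext x; simp

/-- A covariant pair. -/
structure Cov (T : X ≃ₜ X) (D : Type) [CStarAlgebra D] where
  /-- The representation of the functions. -/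
  π : C(X, ℂ) →⋆ₐ[ℂ] D
  /-- The unitary. -/
  u : unitary D
  cov : ∀ f : C(X, ℂ), u * π f * star (u : D) = π (f.comp (T.symm : C(X, X)))

namespace Cov

variable {D : Type} [CStarAlgebra D] (c : Cov T D)

/-- Powers of the unitary. -/
def zu (l : ℤ) : D := (c.u ^ l : unitary D)

lemma zu_add (a b : ℤ) : c.zu (a + b) = c.zu a * c.zu b := by simp [zu, zpow_add]

@[simp] lemma zu_zero : c.zu 0 = 1 := by simp [zu]

lemma zu_one : c.zu 1 = c.u := by simp [zu]

lemma star_zu (a : ℤ) : star (c.zu a) = c.zu (-a) := by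
  rw [zu, zu, zpow_neg, ← Unitary.star_eq_inv, Unitary.coe_star]

lemma norm_zu_le (a : ℤ) : ‖c.zu a‖ ≤ 1 := by
  rcases subsingleton_or_nontrivial D with h | h
  · simp [Subsingleton.elim (c.zu a) 0]
  · exact (CStarRing.norm_coe_unitary _).le

lemma zu_mul_π (l : ℤ) (f : C(X, ℂ)) : c.zu l * c.π f = c.π (sh T (-l) f) * c.zu l := by
  have h1 : ∀ f, c.zu 1 * c.π f = c.π (sh T (-1) f) * c.zu 1 := fun f => by
    have := congrArg (· * (c.u : D)) (c.cov f)
    simp only [mul_assoc, Unitary.star_mul_self_of_mem c.u.2, mul_one] at this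
    rw [zu_one, this]
    congr 2
  have h2 : ∀ f, c.zu (-1) * c.π f = c.π (sh T 1 f) * c.zu (-1) := fun f => by
    have := congrArg (fun x => c.zu (-1) * x * c.zu (-1)) (h1 (sh T 1 f))
    simp only [sh_sh, neg_add_cancel, sh_zero, ← mul_assoc, ← zu_add, zu_zero, one_mul] at this
    rw [this, mul_assoc, ← zu_add, add_neg_cancel, zu_zero, mul_one]
  induction l using Int.induction_on generalizing f with
  | zero => simp
  | succ n ih => rw [zu_add, mul_assoc, h1, ← mul_assoc, ih, sh_sh, mul_assoc, neg_add]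
  | pred n ih =>
    rw [sub_eq_add_neg, zu_add, mul_assoc, h2, ← mul_assoc, ih, sh_sh, mul_assoc, neg_add, neg_neg (1 : ℤ)]

lemma π_mul_zu (l : ℤ) (f : C(X, ℂ)) : c.π f * c.zu l = c.zu l * c.π (sh T l f) := by
  rw [zu_mul_π, sh_sh, neg_add_cancel, sh_zero]

/-- Polynomials in the unitary. -/
def poly : (ℤ →₀ C(X, ℂ)) →ₗ[ℂ] D :=
  Finsupp.lsum ℂ fun l => (LinearMap.mulRight ℂ (c.zu l)).comp c.π.toAlgHom.toLinearMap

@[simp] lemma poly_single (l : ℤ) (f : C(X, ℂ)) : c.poly (.single l f) = c.π f * c.zu l := by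
  simp [poly]

lemma poly_eq (f : ℤ →₀ C(X, ℂ)) : c.poly f = ∑ l ∈ f.support, c.π (f l) * c.zu l := rfl

/-- The star subalgebra of polynomials. -/
def polySub : StarSubalgebra ℂ D where
  carrier := LinearMap.range c.poly
  add_mem' := Submodule.add_mem _
  mul_mem' := by
    rintro _ _ ⟨f, rfl⟩ ⟨g, rfl⟩
    induction f using Finsupp.induction_linear with
    | zero => simp
    | add f f' h h' => rw [map_add, add_mul]; exact Submodule.add_mem _ h h'
    | single l a =>
      induction g using Finsupp.induction_linear with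
      | zero => simp
      | add g g' h h' => rw [map_add, mul_add]; exact Submodule.add_mem _ h h'
      | single m b =>
        refine ⟨.single (l + m) (a * sh T (-l) b), ?_⟩
        simp only [poly_single, map_mul, zu_add]
        rw [mul_assoc, mul_assoc, ← mul_assoc (c.zu l), zu_mul_π, mul_assoc]
  algebraMap_mem' r := ⟨.single 0 (algebraMap ℂ _ r), by simp [AlgHomClass.commutes]⟩
  star_mem' := by
    rintro _ ⟨f, rfl⟩
    induction f using Finsupp.induction_linear with
    | zero => simp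
    | add f f' h h' => rw [map_add, star_add]; exact Submodule.add_mem _ h h'
    | single l a =>
      exact ⟨.single (-l) (sh T l (star a)), by
        rw [poly_single, poly_single, star_mul, star_zu, ← map_star, zu_mul_π, neg_neg]⟩

lemma map_poly {E : Type} [CStarAlgebra E] (c' : Cov T E) (φ : D →⋆ₐ[ℂ] E)
    (h1 : ∀ f, φ (c.π f) = c'.π f) (h2 : ∀ l, φ (c.zu l) = c'.zu l) (f : ℤ →₀ C(X, ℂ)) :
    φ (c.poly f) = c'.poly f := by
  simp [poly_eq, map_sum, h1, h2]

lemma map_zu {Y : Type} [TopologicalSpace Y] {S : Y ≃ₜ Y} {E : Type} [CStarAlgebra E]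
    (c' : Cov S E) (φ : D →⋆ₐ[ℂ] E) (h : φ c.u = c'.u) (l : ℤ) : φ (c.zu l) = c'.zu l := by
  have h1 : φ (c.zu 1) = c'.zu 1 := by rw [zu_one, zu_one, h]
  induction l using Int.induction_on with
  | zero => simp
  | succ n ih => rw [zu_add, zu_add, map_mul, ih, h1]
  | pred n ih => rw [sub_eq_add_neg, zu_add, zu_add, map_mul, ih, ← c.star_zu 1, ← c'.star_zu 1, map_star, h1]

lemma dense_poly [CompactSpace X] (hc : DenseRange c.poly) {P : Set C(X, ℂ)} (hP : Dense P)
    (h0 : 0 ∈ P) (a : D) {ε : ℝ} (hε : 0 < ε) :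
    ∃ f : ℤ →₀ C(X, ℂ), (∀ l, f l ∈ P) ∧ ‖a - c.poly f‖ ≤ ε := by
  classical
  obtain ⟨f, hf⟩ := hc.exists_dist_lt a (show 0 < ε / 2 by positivity)
  choose g hg hg' using fun l => hP.exists_dist_lt (f l)
    (show 0 < ε / 2 / (f.support.card + 1) by positivity)
  refine ⟨Finsupp.onFinset f.support (fun l => if l ∈ f.support then g l else 0)
    fun l h => by_contra fun h' => h (if_neg h'), fun l => ?_, ?_⟩
  · rw [Finsupp.onFinset_apply]
    split_ifs
    exacts [hg l, h0]
  · rw [poly, Finsupp.lsum_apply, Finsupp.onFinset_sum _ fun _ => map_zero _]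
    have h1 : ‖c.poly f - ∑ l ∈ f.support, c.π (g l) * c.zu l‖ ≤
        ∑ _l ∈ f.support, ε / 2 / (f.support.card + 1) := by
      rw [poly_eq, ← Finset.sum_sub_distrib]
      refine norm_sum_le_of_le _ fun l _ => ?_
      rw [← sub_mul, ← map_sub]
      refine (norm_mul_le _ _).trans ((mul_le_of_le_one_right (norm_nonneg _) (c.norm_zu_le l)).trans
        ((NonUnitalStarAlgHom.norm_apply_le _ _).trans ?_))
      rw [← dist_eq_norm]; exact (hg' l).le
    have h2 : ∑ _l ∈ f.support, ε / 2 / (f.support.card + 1) ≤ ε / 2 := by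
      rw [Finset.sum_const, nsmul_eq_mul, mul_div_assoc', div_le_iff₀ (by positivity)]
      nlinarith
    have h3 : ∑ l ∈ f.support, ((LinearMap.mulRight ℂ (c.zu l)).comp c.π.toAlgHom.toLinearMap)
        (if l ∈ f.support then g l else 0) = ∑ l ∈ f.support, c.π (g l) * c.zu l :=
      Finset.sum_congr rfl fun l hl => by rw [if_pos hl]; rfl
    rw [h3]
    rw [dist_eq_norm] at hf
    linarith [norm_sub_le_norm_sub_add_norm_sub a (c.poly f) (∑ l ∈ f.support, c.π (g l) * c.zu l)]

end Cov

/-- Matrix units relative to a homomorphism. -/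
structure MU (ι C D : Type) [DecidableEq ι] [CStarAlgebra C] [CStarAlgebra D] where
  /-- The partial isometries. -/
  w : ι → D
  /-- The common initial projection. -/
  e : D
  /-- The homomorphism. -/
  ψ : C →⋆ₐ[ℂ] D
  orth : ∀ i j, star (w i) * w j = if i = j then e else 0
  comm : ∀ a, e * ψ a = ψ a * e
  mul_e : ∀ i, w i * e = w i

namespace MU

variable {ι C D : Type} [Fintype ι] [DecidableEq ι] [CStarAlgebra C] [CStarAlgebra D]
  (m : MU ι C D)

omit [Fintype ι] in
lemma key (i j k l : ι) (a b : C) : m.w i * m.ψ a * star (m.w j) * (m.w k * m.ψ b * star (m.w l)) =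
    if j = k then m.w i * m.ψ (a * b) * star (m.w l) else 0 := by
  have : m.w i * m.ψ a * star (m.w j) * (m.w k * m.ψ b * star (m.w l)) =
    m.w i * (m.ψ a * (star (m.w j) * m.w k)) * m.ψ b * star (m.w l) := by simp only [mul_assoc]
  rw [this, m.orth]
  split_ifs
  · rw [← m.comm, ← mul_assoc, m.mul_e, map_mul, mul_assoc (m.w i)]
  · simp

/-- The homomorphism given by matrix units. -/
def hom : CStarMatrix ι ι C →⋆ₙₐ[ℂ] D where
  toFun M := ∑ i, ∑ j, m.w i * m.ψ (M i j) * star (m.w j)
  map_smul' c M := by simp [Finset.smul_sum]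
  map_zero' := by simp
  map_add' M N := by simp [mul_add, add_mul, Finset.sum_add_distrib]
  map_mul' M N := by
    have : ∀ i j, m.w i * m.ψ (M i j) * star (m.w j) *
        (∑ k, ∑ l, m.w k * m.ψ (N k l) * star (m.w l)) =
        ∑ l, m.w i * m.ψ (M i j * N j l) * star (m.w l) := fun i j => by
      simp only [Finset.mul_sum, m.key]
      rw [Finset.sum_comm]
      simp
    simp only [Finset.sum_mul, this]
    simp only [CStarMatrix.mul_apply, map_sum m.ψ, Finset.mul_sum, Finset.sum_mul]
    exact Finset.sum_congr rfl fun i _ => Finset.sum_comm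
  map_star' M := by
    rw [Finset.sum_comm]
    simp [CStarMatrix.star_apply, map_star, star_sum, mul_assoc]

lemma hom_apply (M : CStarMatrix ι ι C) :
    m.hom M = ∑ i, ∑ j, m.w i * m.ψ (M i j) * star (m.w j) := rfl

lemma hom_entry (M : CStarMatrix ι ι C) (i j : ι) :
    star (m.w i) * m.hom M * m.w j = m.e * m.ψ (M i j) * m.e := by
  have : ∀ k l, star (m.w i) * (m.w k * m.ψ (M k l) * star (m.w l)) * m.w j =
      (star (m.w i) * m.w k) * m.ψ (M k l) * (star (m.w l) * m.w j) := fun k l => by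
    simp only [mul_assoc]
  simp [hom_apply, Finset.mul_sum, Finset.sum_mul, this, m.orth]

/-- The unital version. -/
def uhom (h : ∑ i, m.w i * star (m.w i) = 1) : CStarMatrix ι ι C →⋆ₐ[ℂ] D :=
  have h1 : m.hom 1 = 1 := by
    rw [hom_apply, ← h]
    refine Finset.sum_congr rfl fun i _ => ?_
    simp [CStarMatrix.one_apply, apply_ite m.ψ]
  { m.hom with
    map_one' := h1
    commutes' := fun r => by
      rw [Algebra.algebraMap_eq_smul_one, Algebra.algebraMap_eq_smul_one]
      exact (map_smul m.hom r 1).trans (congrArg _ h1) }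

end MU

end

end Pool.Agent.P.MP_456758_an
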