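import Pool.Agent.P.MP_456758_an.Defs

/-! Cuntz subequivalence: the basic lemmas. -/

namespace Pool.Agent.P.MP_456758_an

open scoped ComplexOrder
open Filter Topology

noncomputable section

variable {D : Type} [CStarAlgebra D]

lemma cuntz_iff {a b : D} : CuntzLE a b ↔ a ∈ closure (Set.range fun v => v * b * star v) := by
  rw [mem_closure_iff_seq_limit]
  constructor
  · rintro ⟨v, hv⟩; exact ⟨_, fun n => ⟨v n, rfl⟩, hv⟩
  · rintro ⟨x, hx, h⟩
    choose v hv using hx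
    exact ⟨v, by simpa only [hv] using h⟩

lemma cuntz_conj (v b : D) : CuntzLE (v * b * star v) b :=
  cuntz_iff.2 (subset_closure ⟨v, rfl⟩)

lemma CuntzLE.trans {a b c : D} (h₁ : CuntzLE a b) (h₂ : CuntzLE b c) : CuntzLE a c := by
  rw [cuntz_iff] at *
  refine closure_minimal ?_ isClosed_closure h₁
  rintro _ ⟨v, rfl⟩
  refine map_mem_closure (f := fun x => v * x * star v) (by fun_prop) h₂ ?_
  rintro _ ⟨w, rfl⟩
  exact ⟨v * w, by simp [mul_assoc]⟩

lemma cuntz_of_approx {a b : D} (h : ∀ ε > 0, ∃ a', CuntzLE a' b ∧ ‖a - a'‖ ≤ ε) :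
    CuntzLE a b := by
  rw [cuntz_iff, ← closure_closure, Metric.mem_closure_iff]
  intro ε hε
  obtain ⟨a', h1, h2⟩ := h (ε / 2) (by positivity)
  exact ⟨a', cuntz_iff.1 h1, by rw [dist_eq_norm]; linarith⟩

lemma CuntzLE.map {E F : Type} [CStarAlgebra E] [FunLike F D E] [NonUnitalAlgHomClass F ℂ D E]
    [StarHomClass F D E] (φ : F) {a b : D} (h : CuntzLE a b) : CuntzLE (φ a) (φ b) := by
  obtain ⟨v, hv⟩ := h
  refine ⟨fun n => φ (v n), ?_⟩
  have hc : Continuous φ :=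
    (AddMonoidHomClass.lipschitz_of_bound φ 1 fun x => by
      simpa using NonUnitalStarAlgHom.norm_apply_le φ x).continuous
  have := (hc.tendsto a).comp hv
  simpa [Function.comp_def, map_mul, map_star] using this

/-- The positive part of `a - ε`. -/
def pp (ε : ℝ) (a : D) : D := cfc (fun t : ℝ => max (t - ε) 0) a

lemma pp_sa (ε : ℝ) (a : D) : IsSelfAdjoint (pp ε a) := cfc_predicate _ _

/-- Factorisation of a function vanishing to the left of `s'`. -/
lemma fac {f : ℝ → ℝ} (hf : Continuous f) (h0 : ∀ t, 0 ≤ f t) {s s' : ℝ} (hs : s < s')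
    (hz : ∀ t ≤ s', f t = 0) {x : D} (hx : IsSelfAdjoint x) :
    ∃ G : D, IsSelfAdjoint G ∧ G * (x - algebraMap ℝ D s) * G = cfc f x := by
  have hpos : ∀ t, 0 < max (t - s) (s' - s) := fun t => lt_max_of_lt_right (by linarith)
  obtain ⟨g, hg, hg'⟩ : ∃ g : ℝ → ℝ, Continuous g ∧ ∀ t, g t * g t = f t / max (t - s) (s' - s) :=
    ⟨_, (hf.div (by fun_prop) fun t => (hpos t).ne').sqrt,
      fun t => Real.mul_self_sqrt (div_nonneg (h0 t) (hpos t).le)⟩
  refine ⟨cfc g x, cfc_predicate _ _, ?_⟩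
  have e : x - algebraMap ℝ D s = cfc (fun t : ℝ => t - s) x := by
    rw [cfc_sub _ _ x, cfc_id' ℝ x, cfc_const s x]
  rw [e, ← cfc_mul _ _ x, ← cfc_mul _ _ x]
  refine cfc_congr fun t _ => ?_
  rw [mul_right_comm, hg']
  rcases le_total t s' with h | h
  · simp [hz t h]
  · rw [max_eq_left (by linarith), div_mul_cancel₀ _ (by linarith)]

variable [PartialOrder D] [StarOrderedRing D]

lemma pp_nonneg (ε : ℝ) (a : D) : 0 ≤ pp ε a := cfc_nonneg fun _ _ => le_max_right _ _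

lemma sub_le_pp (ε : ℝ) {a : D} (ha : IsSelfAdjoint a) : a - algebraMap ℝ D ε ≤ pp ε a := by
  have e : a - algebraMap ℝ D ε = cfc (fun t : ℝ => t - ε) a := by
    rw [cfc_sub _ _ a, cfc_id' ℝ a, cfc_const ε a]
  rw [e, pp]
  exact cfc_mono fun _ _ => le_max_left _ _

lemma norm_sub_pp {ε : ℝ} (hε : 0 ≤ ε) {a : D} (ha : 0 ≤ a) : ‖a - pp ε a‖ ≤ ε := by
  have e : a - pp ε a = cfc (fun t : ℝ => t - max (t - ε) 0) a := by
    rw [cfc_sub _ _ a, cfc_id' ℝ a, pp]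
  rw [e]
  refine norm_cfc_le hε fun t ht => ?_
  have := spectrum_nonneg_of_nonneg ha ht
  rw [Real.norm_eq_abs, abs_le]
  constructor <;> rcases le_total (t - ε) 0 with h | h <;> simp [h] <;> linarith

lemma exists_q {y : D} (hy : 0 ≤ y) {δ : ℝ} (hδ : 0 < δ) :
    ∃ q : D, IsSelfAdjoint q ∧ q * y * q + δ • (q * q) = 1 := by
  obtain ⟨g, hg, hg'⟩ : ∃ g : ℝ → ℝ, Continuous g ∧ ∀ t, g t * g t = (|t| + δ)⁻¹ :=
    ⟨fun t => √((|t| + δ)⁻¹), (Continuous.inv₀ (by fun_prop) fun t => by positivity).sqrt,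
      fun t => Real.mul_self_sqrt (by positivity)⟩
  refine ⟨cfc g y, cfc_predicate _ _, ?_⟩
  conv_lhs => enter [1, 1, 2]; rw [← cfc_id' ℝ y]
  rw [← cfc_mul _ _ y, ← cfc_mul _ _ y, ← cfc_mul _ _ y, ← cfc_smul δ _ y, ← cfc_add y _ _,
    ← cfc_const_one ℝ y]
  refine cfc_congr fun t ht => ?_
  have h0 := spectrum_nonneg_of_nonneg hy ht
  simp only [smul_eq_mul]
  rw [mul_right_comm, hg', abs_of_nonneg h0]
  field_simp

lemma q_le_one {y q : D} {δ : ℝ} (hδ : 0 < δ) (hq : IsSelfAdjoint q)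
    (h : q * y * q + δ • (q * q) = 1) : q * y * q ≤ 1 := by
  rw [← h, le_add_iff_nonneg_right]
  exact smul_nonneg hδ.le (by simpa [hq.star_eq] using star_mul_self_nonneg q)

lemma cuntz_of_le {a b : D} (ha : 0 ≤ a) (hab : a ≤ b) : CuntzLE a b := by
  refine cuntz_of_approx fun δ hδ => ?_
  obtain ⟨q, hq, h⟩ := exists_q (ha.trans hab) hδ
  obtain ⟨s, hs, rfl⟩ : ∃ s : D, IsSelfAdjoint s ∧ a = s * s :=
    ⟨CFC.sqrt a, (CFC.sqrt_nonneg a).isSelfAdjoint, (CFC.sqrt_mul_sqrt_self a).symm⟩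
  refine ⟨_, cuntz_conj (s * q) b, ?_⟩
  have e : s * s - s * q * b * star (s * q) = δ • (star (q * s) * (q * s)) := by
    have : s * s = s * (q * b * q + δ • (q * q)) * s := by rw [h, mul_one]
    rw [this]
    simp [hs.star_eq, hq.star_eq, mul_add, add_mul, mul_assoc]
  rw [e, norm_smul, Real.norm_of_nonneg hδ.le, CStarRing.norm_star_mul_self,
    ← CStarRing.norm_self_mul_star]
  refine mul_le_of_le_one_right hδ.le ?_
  have h1 : q * s * star (q * s) ≤ 1 := by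
    refine le_trans ?_ (q_le_one hδ hq h)
    have := hq.conjugate_le_conjugate hab
    simpa [hs.star_eq, hq.star_eq, mul_assoc] using this
  exact (CStarAlgebra.norm_le_one_iff_of_nonneg _ (mul_star_self_nonneg _)).2 h1

lemma cuntz_cfc_of_le {f : ℝ → ℝ} (hf : Continuous f) (h0 : ∀ t, 0 ≤ f t) {s s' : ℝ} (hs : s < s')
    (hz : ∀ t ≤ s', f t = 0) {x y : D} (hx : IsSelfAdjoint x)
    (hxy : x - algebraMap ℝ D s ≤ y) : CuntzLE (cfc f x) y := by
  obtain ⟨G, hG, e⟩ := fac hf h0 hs hz hx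
  have := cuntz_conj G y
  rw [hG.star_eq] at this
  refine (cuntz_of_le (cfc_nonneg fun t _ => h0 t) ?_).trans this
  rw [← e]
  exact hG.conjugate_le_conjugate hxy

lemma cuntz_pp_of_le {s s' : ℝ} (hs : s < s') {x y : D} (hx : IsSelfAdjoint x)
    (hxy : x - algebraMap ℝ D s ≤ y) : CuntzLE (pp s' x) y :=
  cuntz_cfc_of_le (by fun_prop) (fun _ => le_max_right _ _) hs
    (fun t ht => max_eq_right (by linarith)) hx hxy

lemma cuntz_of_pp {a b : D} (ha : 0 ≤ a) (h : ∀ ε > 0, CuntzLE (pp ε a) b) : CuntzLE a b :=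
  cuntz_of_approx fun ε hε => ⟨_, h ε hε, norm_sub_pp hε.le ha⟩

lemma sub_le_of_norm_le {x y : D} (hx : IsSelfAdjoint x) (hy : IsSelfAdjoint y) {σ : ℝ}
    (h : ‖x - y‖ ≤ σ) : x - algebraMap ℝ D σ ≤ y := by
  have h1 := (hx.sub hy).le_algebraMap_norm_self
  have h2 : algebraMap ℝ D ‖x - y‖ ≤ algebraMap ℝ D σ := algebraMap_mono D h
  have := h1.trans h2
  rw [sub_le_iff_le_add] at this ⊢
  rwa [add_comm]

end

end Pool.Agent.P.MP_456758_an
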