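import Mathlib

/-!
Definitions for MP_456758_an: the crossed product of `C(X)` by a homeomorphism, the Elliott
invariant and the radius of comparison.
-/

namespace Pool.Agent.P.MP_456758_an

open scoped ENNReal NNReal ComplexOrder
open Filter Topology

noncomputable section

/-! ### The crossed product -/

/-- A covariant pair for the action `f ↦ f ∘ T⁻¹` of `ℤ` on `C(X)`. -/
def IsCovariant {X : Type} [TopologicalSpace X] (T : X ≃ₜ X) {A : Type} [CStarAlgebra A]
    (π : C(X, ℂ) →⋆ₐ[ℂ] A) (u : A) : Prop :=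
  u ∈ unitary A ∧ ∀ f : C(X, ℂ), u * π f * star u = π (f.comp (T.symm : C(X, X)))

/-- `A` is the crossed product `C(X) ⋊ ℤ`: the universal unital C*-algebra for covariant pairs. -/
def IsCrossedProduct {X : Type} [TopologicalSpace X] (T : X ≃ₜ X) (A : Type) [CStarAlgebra A] :
    Prop :=
  ∃ (π : C(X, ℂ) →⋆ₐ[ℂ] A) (u : A), IsCovariant T π u ∧
    ∀ (B : Type) [CStarAlgebra B] (ρ : C(X, ℂ) →⋆ₐ[ℂ] B) (v : B), IsCovariant T ρ v →
      ∃! φ : A →⋆ₐ[ℂ] B, (∀ f, φ (π f) = ρ f) ∧ φ u = v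

/-! ### K-theory -/

variable (A : Type) [CStarAlgebra A] [PartialOrder A] [StarOrderedRing A]

/-- The C*-algebra of `n × n` matrices over `A`. -/
abbrev Mat (n : ℕ) : Type := CStarMatrix (Fin n) (Fin n) A

variable {A}

/-- The block diagonal matrix `a ⊕ b`. -/
def dsum {m n : ℕ} (a : Mat A m) (b : Mat A n) : Mat A (m + n) :=
  Matrix.reindex finSumFinEquiv finSumFinEquiv (Matrix.fromBlocks a 0 0 b)

omit [PartialOrder A] [StarOrderedRing A] in
lemma dsum_mul {m n : ℕ} (a a' : Mat A m) (b b' : Mat A n) :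
    dsum a b * dsum a' b' = dsum (a * a') (b * b') := by
  have h := Matrix.fromBlocks_multiply (α := A) a 0 0 b a' 0 0 b'
  simp only [Matrix.mul_zero, Matrix.zero_mul, add_zero, zero_add] at h
  exact (Matrix.submatrix_mul_equiv _ _ _ _ _).trans
    (congrArg (Matrix.reindex finSumFinEquiv finSumFinEquiv) h)

omit [PartialOrder A] [StarOrderedRing A] in
lemma dsum_star {m n : ℕ} (a : Mat A m) (b : Mat A n) :
    star (dsum a b) = dsum (star a) (star b) := by
  have h := Matrix.fromBlocks_conjTranspose (α := A) a 0 0 b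
  simp only [Matrix.conjTranspose_zero] at h
  exact congrArg (Matrix.reindex finSumFinEquiv finSumFinEquiv) h

omit [PartialOrder A] [StarOrderedRing A] in
lemma dsum_one {m n : ℕ} : dsum (1 : Mat A m) (1 : Mat A n) = 1 :=
  (congrArg (Matrix.reindex finSumFinEquiv finSumFinEquiv) Matrix.fromBlocks_one).trans
    (Matrix.submatrix_one_equiv _)

variable (A)

/-- Projections in matrix algebras over `A`. -/
structure Proj where
  /-- The size. -/
  n : ℕ
  /-- The matrix. -/
  p : Mat A n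
  proj : IsStarProjection p

/-- Unitaries in matrix algebras over `A`. -/
structure Uni where
  /-- The size. -/
  n : ℕ
  /-- The matrix. -/
  u : Mat A n
  uni : u ∈ unitary (Mat A n)

variable {A}

/-- The direct sum of two projections. -/
def Proj.sum (p q : Proj A) : Proj A where
  n := p.n + q.n
  p := dsum p.p q.p
  proj := ⟨by rw [IsIdempotentElem, dsum_mul, p.proj.1.eq, q.proj.1.eq],
    by rw [IsSelfAdjoint, dsum_star, p.proj.2.star_eq, q.proj.2.star_eq]⟩

/-- The direct sum of two unitaries. -/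
def Uni.sum (u v : Uni A) : Uni A where
  n := u.n + v.n
  u := dsum u.u v.u
  uni := ⟨by rw [dsum_star, dsum_mul, u.uni.1, v.uni.1, dsum_one],
    by rw [dsum_star, dsum_mul, u.uni.2, v.uni.2, dsum_one]⟩

/-- Murray-von Neumann equivalence in a matrix algebra. -/
def MvN {n : ℕ} (p q : Mat A n) : Prop := ∃ v : Mat A n, star v * v = p ∧ v * star v = q

/-- Homotopy inside the unitary group of a matrix algebra. -/
def Homot {n : ℕ} (u v : Mat A n) : Prop := JoinedIn (unitary (Mat A n) : Set (Mat A n)) u v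

variable (A)

/-- The relations of `K₀`: Murray-von Neumann equivalence, `[0] = 0`, `[p ⊕ q] = [p] + [q]`. -/
def rel0 : Set (FreeAbelianGroup (Proj A)) :=
  {z | (∃ n p q hp hq, MvN p q ∧ z = .of ⟨n, p, hp⟩ - .of ⟨n, q, hq⟩) ∨
    (∃ p : Proj A, p.p = 0 ∧ z = .of p) ∨ ∃ p q : Proj A, z = .of (p.sum q) - .of p - .of q}

/-- The relations of `K₁`: homotopy of unitaries, `[1] = 0`, `[u ⊕ v] = [u] + [v]`. -/
def rel1 : Set (FreeAbelianGroup (Uni A)) :=
  {z | (∃ n u v hu hv, Homot u v ∧ z = .of ⟨n, u, hu⟩ - .of ⟨n, v, hv⟩) ∨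
    (∃ u : Uni A, u.u = 1 ∧ z = .of u) ∨ ∃ u v : Uni A, z = .of (u.sum v) - .of u - .of v}

/-- The group `K₀(A)`. -/
abbrev K0 : Type := FreeAbelianGroup (Proj A) ⧸ AddSubgroup.closure (rel0 A)

/-- The group `K₁(A)`. -/
abbrev K1 : Type := FreeAbelianGroup (Uni A) ⧸ AddSubgroup.closure (rel1 A)

variable {A}

/-- The class `[p]` of a projection. -/
def cls (p : Proj A) : K0 A := QuotientAddGroup.mk (.of p)

variable (A)

/-- The positive cone `K₀(A)₊`. -/
def K0pos : Set (K0 A) := Set.range cls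

/-- The class of the unit. -/
def K0one : K0 A := cls ⟨1, 1, IsStarProjection.one _⟩

/-- The tracial state space, with the weak-star topology. -/
def TS : Type :=
  {τ : WeakDual ℂ A // τ 1 = 1 ∧ (∀ x, 0 ≤ τ (star x * x)) ∧ ∀ x y, τ (x * y) = τ (y * x)}

instance : TopologicalSpace (TS A) := instTopologicalSpaceSubtype

variable {A}

/-- The value of a tracial state. -/
def TS.ev (τ : TS A) (a : A) : ℂ := τ.1 a

/-- `ω = t σ + (1 - t) τ`. -/
def IsComb (t : ℝ) (σ τ ω : TS A) : Prop := ∀ a, ω.ev a = t * σ.ev a + (1 - t) * τ.ev a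

/-- The unnormalized extension of a tracial state to matrices. -/
def trM (τ : TS A) (n : ℕ) (a : Mat A n) : ℂ := ∑ i, τ.ev (a i i)

omit [PartialOrder A] [StarOrderedRing A] in
lemma trM_comm (τ : TS A) (n : ℕ) (a b : Mat A n) : trM τ n (a * b) = trM τ n (b * a) := by
  simp only [trM, TS.ev, CStarMatrix.mul_apply, map_sum]
  rw [Finset.sum_comm]
  exact Finset.sum_congr rfl fun i _ => Finset.sum_congr rfl fun j _ => τ.2.2.2 _ _

omit [PartialOrder A] [StarOrderedRing A] in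
lemma trM_dsum (τ : TS A) {m n : ℕ} (a : Mat A m) (b : Mat A n) :
    trM τ (m + n) (dsum a b) = trM τ m a + trM τ n b := by
  simp only [trM]
  rw [← finSumFinEquiv.sum_comp, Fintype.sum_sum_type]
  simp [dsum]

/-- The additive map `[p] ↦ (Tr ⊗ τ)(p)` on the free abelian group. -/
def pairing0 (τ : TS A) : FreeAbelianGroup (Proj A) →+ ℝ :=
  FreeAbelianGroup.lift fun p : Proj A => (trM τ p.n p.p).re

omit [PartialOrder A] [StarOrderedRing A] in
lemma pairing_aux (τ : TS A) : AddSubgroup.closure (rel0 A) ≤ (pairing0 τ).ker := by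
  rw [AddSubgroup.closure_le]
  rintro z (⟨n, p, q, hp, hq, ⟨v, rfl, rfl⟩, rfl⟩ | ⟨p, hp, rfl⟩ | ⟨p, q, rfl⟩)
  · simp [pairing0, trM_comm τ n v]
  · simp [pairing0, hp, trM, TS.ev]
  · simp [pairing0, Proj.sum, trM_dsum]

/-- The pairing of `K₀(A)` with a tracial state: `[p] ↦ (Tr ⊗ τ)(p)`. -/
def pairing (τ : TS A) : K0 A →+ ℝ := QuotientAddGroup.lift _ (pairing0 τ) (pairing_aux τ)

variable (A)

/-- `A` and `B` have isomorphic Elliott invariants. -/
def SameEll (B : Type) [CStarAlgebra B] : Prop :=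
  Nonempty (K1 A ≃+ K1 B) ∧ ∃ (φ : K0 A ≃+ K0 B) (γ : TS B ≃ₜ TS A),
    φ '' K0pos A = K0pos B ∧ φ (K0one A) = K0one B ∧
    (∀ (σ τ ω : TS B) (t : ℝ), 0 ≤ t → t ≤ 1 → IsComb t σ τ ω → IsComb t (γ σ) (γ τ) (γ ω)) ∧
    ∀ (τ : TS B) (g : K0 A), pairing τ (φ g) = pairing (γ τ) g

/-! ### The radius of comparison -/

/-- A quasitrace on a unital C*-algebra. -/
structure IsQuasitrace {D : Type} [CStarAlgebra D] (σ : D → ℂ) : Prop where
  nonneg : ∀ x, 0 ≤ σ (star x * x)
  comm : ∀ x, σ (star x * x) = σ (x * star x)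
  linear : ∀ S : StarSubalgebra ℂ D, (∀ x ∈ S, ∀ y ∈ S, x * y = y * x) →
    ∀ x ∈ S, ∀ y ∈ S, ∀ c : ℂ, σ (c • x + y) = c * σ x + σ y
  complex : ∀ a b, IsSelfAdjoint a → IsSelfAdjoint b →
    σ (a + Complex.I • b) = σ a + Complex.I * σ b

/-- A normalized 2-quasitrace, given with its extensions to all matrix algebras. -/
structure QT where
  /-- The quasitrace on `n × n` matrices. -/
  σ : ∀ n, Mat A n → ℂ
  isQuasitrace : ∀ n, IsQuasitrace (σ n)
  corner : ∀ n (a : Mat A n), σ (n + 1) (dsum a (0 : Mat A 1)) = σ n a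
  normalized : σ 1 1 = 1

variable {A}

/-- The dimension function `lim σ (a ^ (1 / n))`. -/
def dimFun {D : Type} [CStarAlgebra D] (σ : D → ℂ) (a : D) : ℝ :=
  limUnder atTop fun n : ℕ => (σ (cfc (fun t : ℝ => t ^ (1 / (n : ℝ))) a)).re

/-- Cuntz subequivalence. -/
def CuntzLE {D : Type} [CStarAlgebra D] (a b : D) : Prop :=
  ∃ v : ℕ → D, Tendsto (fun n => v n * b * star (v n)) atTop (𝓝 a)

variable (A)

/-- `A` has `r`-comparison. -/
def HasComp (r : ℝ) : Prop :=
  ∀ (n : ℕ) (a b : Mat A n), 0 ≤ a → 0 ≤ b →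
    (∀ τ : QT A, dimFun (τ.σ n) a + r < dimFun (τ.σ n) b) → CuntzLE a b

/-- The radius of comparison. -/
def rc : ℝ≥0∞ := ⨅ (r : ℝ≥0) (_ : HasComp A r), (r : ℝ≥0∞)

end

end Pool.Agent.P.MP_456758_an
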