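import Mathlib

/-! General position by counting Hausdorff dimension. -/

namespace Pool.Agent.P.MP_456758_an

open Filter Topology Module Set

noncomputable section

variable {Y E W H P : Type} [MetricSpace Y] [SecondCountableTopology Y]
  [NormedAddCommGroup E] [NormedSpace ℝ E] [FiniteDimensional ℝ E]
  [NormedAddCommGroup W] [NormedSpace ℝ W] [FiniteDimensional ℝ W]
  [NormedAddCommGroup H] [NormedSpace ℝ H] [FiniteDimensional ℝ H]
  [NormedAddCommGroup P] [NormedSpace ℝ P]

/-- Sets of dimension smaller than the dimension of the space. -/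
def Thin (S : Set W) : Prop := dimH S + 1 ≤ finrank ℝ W ∨ S = ∅

omit [FiniteDimensional ℝ W] in
lemma Thin.mono {S T : Set W} (h : Thin T) (hST : S ⊆ T) : Thin S :=
  h.imp (fun h => (add_le_add_left (dimH_mono hST) 1).trans h) fun h => subset_eq_empty hST h

omit [FiniteDimensional ℝ W] in
lemma thin_iUnion {ι : Sort _} [Countable ι] {S : ι → Set W} (h : ∀ i, Thin (S i)) :
    Thin (⋃ i, S i) := by
  by_cases h0 : ∀ i, S i = ∅
  · exact Or.inr (by simp [h0])
  push Not at h0
  obtain ⟨i, hi⟩ := h0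
  have : Nonempty ι := ⟨i⟩
  have h1 : (1 : ENNReal) ≤ finrank ℝ W := le_add_self.trans ((h i).resolve_right hi.ne_empty)
  left
  rw [dimH_iUnion, ENNReal.iSup_add]
  exact iSup_le fun j => (h j).elim id fun e => by simpa [e] using h1

lemma Thin.exists_notMem {S : Set W} (h : Thin S) : ∃ w, w ∉ S := by
  rcases h with h | rfl
  · exact (dense_compl_of_dimH_lt_finrank
      ((ENNReal.lt_add_right (Real.dimH_ne_top S) one_ne_zero).trans_le h)).nonempty
  · exact ⟨0, id⟩

lemma genpos0 {ι : Y → E} {K : NNReal} (hι : AntilipschitzWith K ι) {A : Y → W →L[ℝ] H}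
    {c : Y → H} (hA : LocallyLipschitz A) (hc : LocallyLipschitz c)
    (surj : ∀ y, Function.Surjective (A y)) (hd : finrank ℝ E < finrank ℝ H) :
    Thin {w | ∃ y, A y w = c y} := by
  choose R hR using fun y => (A y : W →ₗ[ℝ] H).exists_rightInverse_of_surjective
    (LinearMap.range_eq_top.2 (surj y))
  let U : Y → Set Y := fun y₀ => {y | IsUnit ((A y).comp (R y₀).toContinuousLinearMap)}
  have hU : ∀ y₀, U y₀ ∈ 𝓝 y₀ := by
    intro y₀
    have h1 : Continuous fun y => (A y).comp (R y₀).toContinuousLinearMap :=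
      hA.continuous.clm_comp continuous_const
    refine (Units.isOpen.preimage h1).mem_nhds ?_
    have : (A y₀).comp (R y₀).toContinuousLinearMap = 1 := by
      ext h; exact LinearMap.congr_fun (hR y₀) h
    simp [this]
  obtain ⟨s, hs, hcov⟩ := TopologicalSpace.countable_cover_nhds hU
  have := hs.to_subtype
  refine (thin_iUnion (ι := s) (S := fun y₀ => {w | ∃ y ∈ U y₀, A y w = c y}) ?_).mono ?_
  · rintro ⟨y₀, -⟩
    left
    set N := LinearMap.ker (A y₀ : W →ₗ[ℝ] H) with hN
    set r := (R y₀).toContinuousLinearMap with hr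
    let Ψ : ((W →L[ℝ] H) × H) × N → W := fun p =>
      p.2 + r (Ring.inverse (p.1.1.comp r) (p.1.2 - p.1.1 p.2))
    let G : Y × N → ((W →L[ℝ] H) × H) × N := fun p => ((A p.1, c p.1), p.2)
    have hG : LocallyLipschitz G :=
      ((hA.comp LipschitzWith.prod_fst.locallyLipschitz).prodMk
        (hc.comp LipschitzWith.prod_fst.locallyLipschitz)).prodMk
        LipschitzWith.prod_snd.locallyLipschitz
    have h1 : {w | ∃ y ∈ U y₀, A y w = c y} ⊆ (Ψ ∘ G) '' (U y₀ ×ˢ univ) := by
      rintro w ⟨y, hy, hw⟩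
      have e0 : A y₀ (R y₀ (A y₀ w)) = A y₀ w := LinearMap.congr_fun (hR y₀) _
      refine ⟨(y, ⟨w - R y₀ (A y₀ w), by simp [hN, e0]⟩), ⟨hy, trivial⟩, ?_⟩
      have e1 : c y - A y (w - R y₀ (A y₀ w)) = (A y).comp r (A y₀ w) := by simp [← hw, hr]
      have e2 : Ring.inverse ((A y).comp r) ((A y).comp r (A y₀ w)) = A y₀ w := by
        rw [← mul_apply_eq_comp, Ring.inverse_mul_cancel _ hy]; rfl
      simp only [Function.comp, Ψ, G, e1, e2]
      simp [hr]
    have h2 : dimH ((Ψ ∘ G) '' (U y₀ ×ˢ univ)) ≤ dimH (U y₀ ×ˢ (univ : Set N)) := by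
      refine dimH_image_le_of_locally_lipschitzOn fun p hp => ?_
      obtain ⟨u, hu⟩ : IsUnit ((G p).1.1.comp r) := hp.1
      have h3 : ContDiffAt ℝ 1 (fun q : ((W →L[ℝ] H) × H) × N => Ring.inverse (q.1.1.comp r))
          (G p) := by
        have h6 : ContDiffAt ℝ 1 Ring.inverse ((G p).1.1.comp r) :=
          hu ▸ contDiffAt_ringInverse ℝ u
        refine h6.comp (f := fun q : ((W →L[ℝ] H) × H) × N => q.1.1.comp r) (G p) ?_
        fun_prop
      have h4 : ContDiffAt ℝ 1 Ψ (G p) := by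
        have := N.subtypeL.contDiff (n := 1)
        have h5 : ContDiff ℝ 1 fun q : ((W →L[ℝ] H) × H) × N => (q.2 : W) :=
          this.comp contDiff_snd
        exact h5.contDiffAt.add (r.contDiff.contDiffAt.comp _ (h3.clm_apply
          (contDiffAt_fst.snd.sub (contDiffAt_fst.fst.clm_apply h5.contDiffAt))))
      obtain ⟨K₁, t₁, ht₁, l₁⟩ := h4.exists_lipschitzOnWith
      obtain ⟨K₂, t₂, ht₂, l₂⟩ := hG p
      exact ⟨K₁ * K₂, t₂ ∩ G ⁻¹' t₁, mem_nhdsWithin_of_mem_nhds
        (inter_mem ht₂ (hG.continuous.continuousAt.preimage_mem_nhds ht₁)),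
        l₁.comp (l₂.mono inter_subset_left) fun _ h => h.2⟩
    have h3 : AntilipschitzWith (max K 1) (Prod.map ι (id : N → N)) := by
      refine AntilipschitzWith.of_le_mul_dist fun p q => ?_
      rw [Prod.dist_eq, Prod.dist_eq]
      have a := hι.le_mul_dist p.1 q.1
      have b1 : (K : ℝ) ≤ (max K 1 : NNReal) := by exact_mod_cast le_max_left _ _
      have b2 : (1 : ℝ) ≤ (max K 1 : NNReal) := by exact_mod_cast le_max_right _ _
      refine max_le (a.trans (mul_le_mul b1 (le_max_left _ _) dist_nonneg (by positivity))) ?_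
      exact (one_mul _).symm.le.trans (mul_le_mul b2 (le_max_right _ _) dist_nonneg (by positivity))
    have h4 := (h3.le_dimH_image (U y₀ ×ˢ univ)).trans
      ((dimH_mono (subset_univ _)).trans_eq (Real.dimH_univ_eq_finrank _))
    have h5 := (A y₀ : W →ₗ[ℝ] H).finrank_range_add_finrank_ker
    rw [LinearMap.range_eq_top.2 (surj y₀), finrank_top, ← hN] at h5
    refine (add_le_add_left (((dimH_mono h1).trans h2).trans h4) 1).trans ?_
    rw [finrank_prod]
    norm_cast
    omega
  · rintro w ⟨y, hy⟩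
    obtain ⟨y₀, h₀, h₁⟩ := mem_iUnion₂.1 (hcov.symm ▸ mem_univ y)
    exact mem_iUnion.2 ⟨⟨y₀, h₀⟩, y, h₁, hy⟩

lemma genpos {ι : Y → E} {K : NNReal} (hι : AntilipschitzWith K ι) {g : Y → P}
    (hg : LocallyLipschitz g) (A : P → W →ₗ[ℝ] H) (c : P → H)
    (hA : ∀ w, ContDiff ℝ 1 fun p => A p w) (hc : ContDiff ℝ 1 c)
    (surj : ∀ y, Function.Surjective (A (g y))) (hd : finrank ℝ E < finrank ℝ H) :
    Thin {w | ∃ y, A (g y) w = c (g y)} :=
  genpos0 (A := fun y => (A (g y)).toContinuousLinearMap) hι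
    ((contDiff_clm_apply_iff.2 hA :
      ContDiff ℝ 1 fun p => (A p).toContinuousLinearMap).locallyLipschitz.comp hg)
    (hc.locallyLipschitz.comp hg) surj hd

end

end Pool.Agent.P.MP_456758_an
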