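import Pool.Agent.P.MP_456758_an.Brouwer
import Pool.Agent.P.MP_456758_an.GenPos

/-! The topological obstruction: sums of tautological line bundles over products of spheres. -/

namespace Pool.Agent.P.MP_456758_an

open Filter Topology Module Set

noncomputable section

/-- The two-sphere. -/
abbrev Sph : Type := {θ : ℝ × ℂ // θ.1 ^ 2 + ‖θ.2‖ ^ 2 = 1}

lemma den_pos (b : ℝ) : 0 < (1 - b) ^ 2 + b ^ 2 := by nlinarith [sq_nonneg (2 * b - 1)]

/-- The collapse of the disc onto the sphere, with the norm as an extra variable. -/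
def th0 (b : ℝ) (z : ℂ) : ℝ × ℂ :=
  (((1 - b) ^ 2 + b ^ 2)⁻¹ * ((1 - b) ^ 2 - b ^ 2),
    (((1 - b) ^ 2 + b ^ 2)⁻¹ * (2 * (1 - b))) • star z)

/-- The collapse of the disc onto the sphere. -/
def th (z : ℂ) : Sph := ⟨th0 ‖z‖ z, by
  have := (den_pos ‖z‖).ne'
  simp only [th0, norm_smul, mul_pow, Real.norm_eq_abs, sq_abs, norm_star]
  field_simp
  ring⟩

variable {ι κ : Type} [Fintype ι] [Fintype κ]

lemma ll_norm : LocallyLipschitz fun z : ι → ℂ => fun i => ‖z i‖ :=
  (LipschitzWith.of_dist_le_mul (K := 1) fun z z' => (dist_pi_le_iff (by positivity)).2 fun i => by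
    simpa using (dist_norm_norm_le _ _).trans
      ((dist_eq_norm (z i) (z' i)).symm.le.trans (dist_le_pi_dist z z' i))).locallyLipschitz

lemma ll_th : LocallyLipschitz fun z : ι → ℂ => fun i => th (z i) := by
  have h1 : ContDiff ℝ 1 fun p : (ι → ℝ) × (ι → ℂ) => fun i => th0 (p.1 i) (p.2 i) := by
    refine contDiff_pi.2 fun i => ?_
    have h2 : ContDiff ℝ 1 fun p : (ι → ℝ) × (ι → ℂ) => ((1 - p.1 i) ^ 2 + p.1 i ^ 2)⁻¹ :=
      ContDiff.inv (by fun_prop) fun p => (den_pos _).ne'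
    have h3 : ContDiff ℝ 1 fun p : (ι → ℝ) × (ι → ℂ) => star (p.2 i) :=
      Complex.conjCLE.contDiff.comp (by fun_prop)
    exact (h2.mul (by fun_prop)).prodMk ((h2.mul (by fun_prop)).smul h3)
  exact fun z => (h1.locallyLipschitz.comp (ll_norm.prodMk LocallyLipschitz.id)) z

/-- Families of vectors indexed by `Option κ`. -/
abbrev QQ (ι κ : Type) : Type := Option κ → (ι → ℂ × ℂ) × (κ → ℂ)

/-- Linear combination of the family. -/
def cmb (ξ : Option κ → ℂ) (v : QQ ι κ) : (ι → ℂ × ℂ) × (κ → ℂ) := ∑ j, ξ j • v j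

/-- Projection onto the lines. -/
def prj (a : ι → ℝ) (z : ι → ℂ) (η : (ι → ℂ × ℂ) × (κ → ℂ)) : (ι → ℂ) × (κ → ℂ) :=
  (fun i => a i * (η.1 i).1 + z i * (η.1 i).2, η.2)

omit [Fintype ι] [Fintype κ] in
lemma prj_smul (a : ι → ℝ) (z : ι → ℂ) (c : ℂ) (η : (ι → ℂ × ℂ) × (κ → ℂ)) :
    prj a z (c • η) = c • prj a z η := by
  ext i <;> simp [prj]; ring

/-- The section of the bundle in the trivialisation over the top cell. -/
def sec (a : ι → ℝ) (z : ι → ℂ) (ξ : Option κ → ℂ) : QQ ι κ →ₗ[ℝ] (ι → ℂ) × (κ → ℂ) where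
  toFun v := prj a z (cmb ξ v)
  map_add' v w := by
    have : cmb ξ (v + w) = cmb ξ v + cmb ξ w := by
      simp only [cmb, Pi.add_apply, smul_add, Finset.sum_add_distrib]
    rw [this]
    ext i <;> simp [prj]; ring
  map_smul' c v := by
    have : cmb ξ (c • v) = (c : ℂ) • cmb ξ v := by
      rw [cmb, cmb, Finset.smul_sum]
      exact Finset.sum_congr rfl fun j _ => by rw [Pi.smul_apply, smul_comm, Complex.coe_smul]
    rw [this, prj_smul, Complex.coe_smul, RingHom.id_apply]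

omit [Fintype ι] in
lemma sec_apply (a : ι → ℝ) (z : ι → ℂ) (ξ : Option κ → ℂ) (v : QQ ι κ) :
    sec a z ξ v = prj a z (cmb ξ v) := rfl

omit [Fintype ι] in
lemma sec_smul (a : ι → ℝ) (z : ι → ℂ) (c : ℂ) (ξ : Option κ → ℂ) (v : QQ ι κ) :
    sec a z (c • ξ) v = c • sec a z ξ v := by
  have : cmb (c • ξ) v = c • cmb ξ v := by
    rw [cmb, cmb, Finset.smul_sum]
    exact Finset.sum_congr rfl fun j _ => by rw [Pi.smul_apply, smul_assoc]
  rw [sec_apply, this, prj_smul, sec_apply]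

lemma sec_smooth : ContDiff ℝ 1 fun p : ((ι → ℝ) × (ι → ℂ) × (Option κ → ℂ)) × QQ ι κ =>
    sec (fun i => 1 - p.1.1 i) p.1.2.1 p.1.2.2 p.2 := by
  have h1 : ContDiff ℝ 1 fun p : (Option κ → ℂ) × QQ ι κ => cmb p.1 p.2 :=
    ContDiff.sum fun j _ => ((contDiff_apply ℝ ℂ j).comp contDiff_fst).smul
      ((contDiff_apply ℝ _ j).comp contDiff_snd)
  have h2 : ContDiff ℝ 1 fun p : ((ι → ℝ) × (ι → ℂ)) × ((ι → ℂ × ℂ) × (κ → ℂ)) =>
      prj (fun i => 1 - p.1.1 i) p.1.2 p.2 := by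
    refine ContDiff.prodMk (contDiff_pi.2 fun i => ?_) contDiff_snd.snd
    have a : ContDiff ℝ 1 fun p : ((ι → ℝ) × (ι → ℂ)) × ((ι → ℂ × ℂ) × (κ → ℂ)) =>
        ((1 - p.1.1 i : ℝ) : ℂ) := Complex.ofRealCLM.contDiff.comp
      (contDiff_const.sub ((contDiff_apply ℝ ℝ i).comp contDiff_fst.fst))
    have b : ContDiff ℝ 1 fun p : ((ι → ℝ) × (ι → ℂ)) × ((ι → ℂ × ℂ) × (κ → ℂ)) => p.2.1 i :=
      (contDiff_apply ℝ _ i).comp contDiff_snd.fst
    exact (a.mul b.fst).add (((contDiff_apply ℝ ℂ i).comp contDiff_fst.snd).mul b.snd)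
  exact h2.comp ((contDiff_fst.fst.prodMk contDiff_fst.snd.fst).prodMk
    (h1.comp (contDiff_fst.snd.snd.prodMk contDiff_snd)))

omit [Fintype ι] in
lemma sec_surj (z : ι → ℂ) {ξ : Option κ → ℂ} (hξ : ξ ≠ 0) :
    Function.Surjective (sec (fun i => 1 - ‖z i‖) z ξ) := by
  classical
  obtain ⟨j, hj⟩ := Function.ne_iff.1 hξ
  rintro ⟨α, β⟩
  let η : (ι → ℂ × ℂ) × (κ → ℂ) := (fun i => ((((1 - ‖z i‖) ^ 2 + ‖z i‖ ^ 2)⁻¹ : ℝ) * α i) •
    (((1 - ‖z i‖ : ℝ) : ℂ), star (z i)), β)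
  have e : cmb ξ (Pi.single j ((ξ j)⁻¹ • η) : QQ ι κ) = η := by
    rw [cmb, Finset.sum_eq_single j (fun k _ hk => by simp [hk]) (by simp), Pi.single_eq_same,
      smul_smul, mul_inv_cancel₀ hj, one_smul]
  refine ⟨Pi.single j ((ξ j)⁻¹ • η), ?_⟩
  rw [sec_apply, e]
  refine Prod.ext (funext fun i => ?_) rfl
  have h1 : (((1 - ‖z i‖) ^ 2 + ‖z i‖ ^ 2 : ℝ) : ℂ) ≠ 0 := by exact_mod_cast (den_pos _).ne'
  have h2 : z i * star (z i) = (‖z i‖ : ℂ) ^ 2 := by simp [Complex.mul_conj, Complex.normSq_eq_norm_sq]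
  simp only [prj, η, Prod.smul_mk, smul_eq_mul, Complex.ofReal_inv]
  rw [mul_left_comm (z i), h2]
  field_simp
  push_cast
  ring

/-- The standard family. -/
def W1 (ι κ : Type) [DecidableEq κ] : QQ ι κ := fun j =>
  j.elim (fun _ => (0, 1), 0) fun k => (0, Pi.single k 1)

omit [Fintype ι] in
lemma sec_W1 [DecidableEq κ] (a : ι → ℝ) (z : ι → ℂ) (ξ : Option κ → ℂ) :
    sec a z ξ (W1 ι κ) = (fun i => z i * ξ none, fun k => ξ (some k)) := by
  ext i <;> simp [sec_apply, prj, cmb, W1, Prod.fst_sum, Prod.snd_sum, Pi.single_apply]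

lemma bad_thin {Y E : Type} [MetricSpace Y] [SecondCountableTopology Y] [NormedAddCommGroup E]
    [NormedSpace ℝ E] [FiniteDimensional ℝ E] {e : Y → E} (he : Isometry e)
    (hd : finrank ℝ E < 2 * Fintype.card ι + 2 * Fintype.card κ) {t : Y → ℝ} {z : Y → ι → ℂ}
    {ξ : Y → Option κ → ℂ} (ht : LocallyLipschitz t) (hz : LocallyLipschitz z)
    (hξ : LocallyLipschitz ξ) (ht' : ∀ y, t y * (1 - t y) ≠ 0) (hξ' : ∀ y, ξ y ≠ 0)
    {V : (ι → Sph) → QQ ι κ} (hV : LocallyLipschitz V) (U : QQ ι κ) :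
    Thin {w | ∃ y, sec (fun i => 1 - ‖z y i‖) (z y) (ξ y)
      ((1 - t y) • V (fun i => th (z y i)) + t y • U + (t y * (1 - t y)) • w) = 0} := by
  have hs := sec_smooth (ι := ι) (κ := κ)
  refine (genpos (P := (ℝ × QQ ι κ) × (ι → ℝ) × (ι → ℂ) × (Option κ → ℂ)) he.antilipschitz
    (g := fun y => ((t y, V fun i => th (z y i)), fun i => ‖z y i‖, z y, ξ y))
    ((ht.prodMk (hV.comp (ll_th.comp hz))).prodMk ((ll_norm.comp hz).prodMk (hz.prodMk hξ)))
    (fun p => (p.1.1 * (1 - p.1.1)) • sec (fun i => 1 - p.2.1 i) p.2.2.1 p.2.2.2)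
    (fun p => -sec (fun i => 1 - p.2.1 i) p.2.2.1 p.2.2.2 ((1 - p.1.1) • p.1.2 + p.1.1 • U))
    (fun w => ?_) ?_ (fun y h => ?_) ?_).mono ?_
  · exact ContDiff.smul (by fun_prop) (hs.comp (contDiff_snd.prodMk contDiff_const))
  · exact (hs.comp (contDiff_snd.prodMk (by fun_prop))).neg
  · obtain ⟨w, hw⟩ := sec_surj (z y) (hξ' y) h
    exact ⟨(t y * (1 - t y))⁻¹ • w, by
      simp only [LinearMap.smul_apply, map_smul, hw, smul_smul, inv_mul_cancel₀ (ht' y), one_smul]⟩
  · simpa [finrank_prod, finrank_pi_fintype, mul_comm] using hd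
  · rintro w ⟨y, hy⟩
    refine ⟨y, ?_⟩
    rw [map_add, map_smul] at hy
    exact eq_neg_of_add_eq_zero_right hy

theorem toplemma {V : (ι → Sph) → QQ ι κ} (hV : LocallyLipschitz V) :
    ∃ (θ : ι → Sph) (ξ : Option κ → ℂ), ξ ≠ 0 ∧ (cmb ξ (V θ)).2 = 0 ∧ ∀ i,
      (1 + (θ i).1.1) * ((cmb ξ (V θ)).1 i).1 +
        star (θ i).1.2 * ((cmb ξ (V θ)).1 i).2 = 0 ∧
      (θ i).1.2 * ((cmb ξ (V θ)).1 i).1 +
        (1 - (θ i).1.1) * ((cmb ξ (V θ)).1 i).2 = 0 := by
  classical
  let ξ : (κ → ℂ) → Option κ → ℂ := fun u j => j.elim ((1 - ‖u‖ : ℝ) : ℂ) u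
  have hξ0 : ∀ u, ξ u ≠ 0 := fun u h => by
    have h1 : u = 0 := funext fun k => congrFun h (some k)
    simpa [ξ, h1] using congrFun h none
  have hξ : LocallyLipschitz ξ := by
    have h1 : ContDiff ℝ 1 fun (p : ℝ × (κ → ℂ)) (j : Option κ) => j.elim ((1 - p.1 : ℝ) : ℂ) p.2 := by
      refine contDiff_pi.2 ?_
      rintro (_ | k)
      · exact Complex.ofRealCLM.contDiff.comp (f := fun p : ℝ × (κ → ℂ) => 1 - p.1) (by fun_prop)
      · simp only [Option.elim]; fun_prop
    have h2 : LocallyLipschitz fun u : κ → ℂ => (‖u‖, u) :=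
      lipschitzWith_one_norm.locallyLipschitz.prodMk .id
    have h3 := h1.locallyLipschitz.comp h2
    exact h3
  let F : QQ ι κ → ℝ → (ι → ℂ) → (Option κ → ℂ) → (ι → ℂ) × (κ → ℂ) := fun w t z x =>
    sec (fun i => 1 - ‖z i‖) z x ((1 - t) • V (fun i => th (z i)) + t • W1 ι κ + (t * (1 - t)) • w)
  have sv : ∀ {E : Type} [MetricSpace E] (s : Set E), LocallyLipschitz (Subtype.val : s → E) :=
    fun s => (LipschitzWith.subtype_val s).locallyLipschitz
  have b1 : ∀ i, Thin {w | ∃ t z u, t * (1 - t) ≠ 0 ∧ z i = 1 ∧ F w t z (ξ u) = 0} := by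
    intro i
    let Z : ℝ × ({j // j ≠ i} → ℂ) × (κ → ℂ) → ι → ℂ := fun p j =>
      if h : j = i then 1 else p.2.1 ⟨j, h⟩
    have hZ : ContDiff ℝ 1 Z := contDiff_pi.2 fun j => by
      by_cases h : j = i <;> simp only [Z, h, dite_true, dite_false] <;> fun_prop
    refine (bad_thin (Y := {p : ℝ × ({j // j ≠ i} → ℂ) × (κ → ℂ) | p.1 * (1 - p.1) ≠ 0})
      isometry_subtype_coe ?_ (t := fun y => y.1.1) (z := fun y => Z y.1) (ξ := fun y => ξ y.1.2.2)
      (LipschitzWith.prod_fst.locallyLipschitz.comp (sv _)) (hZ.locallyLipschitz.comp (sv _))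
      (hξ.comp ((LipschitzWith.prod_snd.comp LipschitzWith.prod_snd).locallyLipschitz.comp (sv _)))
      (fun y => y.2) (fun y => hξ0 _) hV (W1 ι κ)).mono ?_
    · have : 0 < Fintype.card ι := Fintype.card_pos_iff.2 ⟨i⟩
      simp [finrank_prod, finrank_pi_fintype]
      omega
    · rintro w ⟨t, z, u, ht, hz, h⟩
      have : Z (t, fun j => z j, u) = z := funext fun j => by
        by_cases h : j = i <;> simp [Z, h, hz]
      exact ⟨⟨(t, fun j => z j, u), ht⟩, by simpa only [this] using h⟩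
  have b2 : ∀ k, Thin {w | ∃ t z, ∃ u : κ → ℂ, t * (1 - t) ≠ 0 ∧ u k = 1 ∧
      F w t z (fun j => j.elim 0 u) = 0} := by
    intro k
    let Z : ℝ × (ι → ℂ) × ({j // j ≠ k} → ℂ) → Option κ → ℂ := fun p j =>
      j.elim 0 fun j => if h : j = k then 1 else p.2.2 ⟨j, h⟩
    have hZ : ContDiff ℝ 1 Z := contDiff_pi.2 fun j => by
      rcases j with _ | j
      · exact contDiff_const
      · by_cases h : j = k <;> simp only [Z, Option.elim, h, dite_true, dite_false] <;> fun_prop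
    refine (bad_thin (Y := {p : ℝ × (ι → ℂ) × ({j // j ≠ k} → ℂ) | p.1 * (1 - p.1) ≠ 0})
      isometry_subtype_coe ?_ (t := fun y => y.1.1) (z := fun y => y.1.2.1) (ξ := fun y => Z y.1)
      (LipschitzWith.prod_fst.locallyLipschitz.comp (sv _))
      ((LipschitzWith.prod_fst.comp LipschitzWith.prod_snd).locallyLipschitz.comp (sv _))
      (hZ.locallyLipschitz.comp (sv _)) (fun y => y.2)
      (fun y h => by simpa [Z] using congrFun h (some k)) hV (W1 ι κ)).mono ?_
    · have : 0 < Fintype.card κ := Fintype.card_pos_iff.2 ⟨k⟩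
      simp [finrank_prod, finrank_pi_fintype]
      omega
    · rintro w ⟨t, z, u, ht, hu, h⟩
      have : Z (t, z, fun j => u j) = fun j => j.elim 0 u := funext fun j => by
        rcases j with _ | j
        · rfl
        · by_cases h : j = k <;> simp [Z, h, hu]
      exact ⟨⟨(t, z, fun j => u j), ht⟩, by simpa only [this] using h⟩
  obtain ⟨w, hw⟩ := (thin_iUnion (ι := ι ⊕ κ) (S := Sum.elim _ _)
    (Sum.rec b1 b2)).exists_notMem
  have hcont : Continuous fun p : ℝ × (ι → ℂ) × (κ → ℂ) => F w p.1 p.2.1 (ξ p.2.2) := by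
    have c3 : Continuous fun p : ℝ × (ι → ℂ) × (κ → ℂ) => V fun i => th (p.2.1 i) :=
      (hV.comp ll_th).continuous.comp continuous_snd.fst
    exact sec_smooth.continuous.comp (((ll_norm.continuous.comp continuous_snd.fst).prodMk
      (continuous_snd.fst.prodMk (hξ.continuous.comp continuous_snd.snd))).prodMk
      ((((continuous_const.sub continuous_fst).smul c3).add
        (continuous_fst.smul continuous_const)).add
        ((continuous_fst.mul (continuous_const.sub continuous_fst)).smul continuous_const)))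
  by_contra hcon
  have h0 : ∀ z u, F w 0 z (ξ u) ≠ 0 := by
    intro z u h
    refine hcon ⟨fun i => th (z i), ξ u, hξ0 u, ?_, fun i => ?_⟩
    · simpa [F, sec_apply, prj] using congrArg Prod.snd h
    · have h1 := congrFun (congrArg Prod.fst h) i
      simp only [F, sec_apply, prj, sub_zero, one_smul, zero_smul, add_zero,
        zero_mul, Prod.fst_zero, Pi.zero_apply] at h1
      set η := (cmb (ξ u) (V fun i => th (z i))).1 i
      have h2 : (((1 - ‖z i‖) ^ 2 + ‖z i‖ ^ 2 : ℝ) : ℂ) ≠ 0 := by exact_mod_cast (den_pos _).ne'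
      have h3 : star (z i) * z i = (‖z i‖ : ℂ) ^ 2 := by
        simp [Complex.conj_mul']
      simp only [th, th0]
      rw [star_smul, star_star, star_trivial]
      simp only [Complex.real_smul]
      push_cast at h1 h2 ⊢
      constructor
      · field_simp
        linear_combination 2 * (1 - (‖z i‖ : ℂ)) * h1
      · field_simp
        linear_combination 2 * star (z i) * h1 - 2 * η.2 * h3
  have h1 : ∀ z u, F w 1 z (ξ u) = (fun i => z i * (1 - ‖u‖ : ℝ), u) := fun z u => by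
    simp [F, sec_W1, ξ]
  have e1 : Ess fun x : (ι → ℂ) × (κ → ℂ) => F w 1 x.1 (ξ x.2) := by
    have := Ess.homotopy (F := fun t (x : (ι → ℂ) × (κ → ℂ)) =>
      (fun i => x.1 i * (1 - (1 - t) * ‖x.2‖ : ℝ), x.2)) (by fun_prop) (fun t _ x hx h => by
        have a : x.2 = 0 := congrArg Prod.snd h
        have b : x.1 = 0 := funext fun i => by simpa [a] using congrFun (congrArg Prod.fst h) i
        simp [Prod.norm_def, a, b] at hx) (by simpa using ess_id)
    simpa [h1] using this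
  obtain ⟨x, -, hx⟩ := Ess.homotopy (F := fun t (x : (ι → ℂ) × (κ → ℂ)) => F w t x.1 (ξ x.2))
    hcont (fun t _ x hx h => by
      by_cases ht : t * (1 - t) = 0
      · rcases mul_eq_zero.1 ht with rfl | ht
        · exact h0 _ _ h
        · obtain rfl : t = 1 := by linarith
          rw [h1] at h
          have a : x.2 = 0 := congrArg Prod.snd h
          have b : x.1 = 0 := funext fun i => by simpa [a] using congrFun (congrArg Prod.fst h) i
          simp [Prod.norm_def, a, b] at hx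
      by_cases hu : ‖x.2‖ = 1
      · obtain ⟨k, hk⟩ : ∃ k, x.2 k ≠ 0 := Function.ne_iff.1 fun h0 : x.2 = 0 => by
          simp [h0] at hu
        refine hw (mem_iUnion.2 ⟨.inr k, t, x.1, (x.2 k)⁻¹ • x.2, ht, by simp [hk], ?_⟩)
        have : (fun j : Option κ => j.elim 0 ((x.2 k)⁻¹ • x.2)) = (x.2 k)⁻¹ • ξ x.2 :=
          funext fun j => by rcases j with _ | j <;> simp [ξ, hu]
        simp only [this, F, sec_smul] at h ⊢
        rw [h, smul_zero]
      · obtain ⟨i, hi⟩ : ∃ i, ‖x.1 i‖ = 1 := by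
          by_contra hc
          push Not at hc
          have a : ‖x.1‖ < 1 := (pi_norm_lt_iff one_pos).2 fun i => lt_of_le_of_ne
            ((norm_le_pi_norm _ i).trans ((norm_fst_le x).trans hx.le)) (hc i)
          have b : ‖x.2‖ < 1 := lt_of_le_of_ne ((norm_snd_le x).trans hx.le) hu
          exact (max_lt a b).ne hx
        refine hw (mem_iUnion.2 ⟨.inl i, t, Function.update x.1 i 1, x.2, ht, by simp, ?_⟩)
        have a : (fun j => th (Function.update x.1 i 1 j)) = fun j => th (x.1 j) := funext fun j => by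
          by_cases h : j = i
          · subst h; ext <;> simp [th, th0, hi]
          · simp [h]
        simp only [F, a, sec_apply, prj] at h ⊢
        refine Prod.ext (funext fun j => ?_) (Prod.ext_iff.1 h).2
        have b := congrFun (congrArg Prod.fst h) j
        by_cases hj : j = i
        · subst hj
          have c : x.1 j ≠ 0 := fun h0 => by simp [h0] at hi
          simpa [hi, c] using b
        · simpa [hj] using b) e1 _ (hcont.comp (Continuous.prodMk_right 0)) fun _ _ => rfl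
  exact h0 _ _ hx

end

end Pool.Agent.P.MP_456758_an
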