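import Pool.Agent.P.MP_456758_an.KSys
import Pool.Agent.P.MP_456758_an.Top

/-! Products of spheres inside small cubes, and the obstruction to comparison. -/

namespace Pool.Agent.P.MP_456758_an

open Filter Topology Finset Sys
open scoped Classical

noncomputable section

attribute [-simp] zpow_natCast zpow_neg

lemma Sph.le (θ : Sph) : |θ.1.1| ≤ 1 ∧ ‖θ.1.2‖ ≤ 1 := by
  have := θ.2
  exact ⟨abs_le_one_iff_mul_self_le_one.2 (by nlinarith [sq_nonneg ‖θ.1.2‖]),
    by nlinarith [sq_nonneg θ.1.1, norm_nonneg θ.1.2]⟩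

instance : CompactSpace Sph := isCompact_iff_compactSpace.1 (Metric.isCompact_of_isClosed_isBounded
  (isClosed_eq (by fun_prop) continuous_const)
  (isBounded_iff_forall_norm_le.2 ⟨1, fun θ h => max_le (Sph.le ⟨θ, h⟩).1 (Sph.le ⟨θ, h⟩).2⟩))

lemma ll_pi {α ι : Type} {β : ι → Type} [Fintype ι] [PseudoEMetricSpace α]
    [∀ i, PseudoEMetricSpace (β i)] {f : α → ∀ i, β i} (h : ∀ i, LocallyLipschitz fun x => f x i) :
    LocallyLipschitz f := fun x => by
  choose K t ht hK using fun i => h i x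
  refine ⟨univ.sup K, ⋂ i, t i, iInter_mem.2 ht, fun a ha b hb => edist_pi_le_iff.2 fun i =>
    (hK i (Set.mem_iInter.1 ha i) (Set.mem_iInter.1 hb i)).trans ?_⟩
  gcongr
  exact le_sup (mem_univ i)

variable {ι : Finset ℕ}

/-- The radial parameters of the iterated embedding. -/
def tt (θ : ι → ℝ × ℂ) : ℕ → ℝ
  | 0 => 0
  | i + 1 => if h : i ∈ ι then (2 + tt θ i) / 3 * (θ ⟨i, h⟩).1 else tt θ i

lemma tt_smooth (i : ℕ) : ContDiff ℝ 1 fun θ : ι → ℝ × ℂ => tt θ i := by
  induction i with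
  | zero => exact contDiff_const
  | succ i ih => simp only [tt]; split_ifs <;> fun_prop

lemma tt_le (θ : ι → Sph) (i : ℕ) : |tt (fun j => (θ j).1) i| ≤ 1 := by
  induction i with
  | zero => simp [tt]
  | succ i ih =>
    rw [tt]
    split_ifs with h
    · rw [abs_mul]
      exact mul_le_one₀ (by rw [abs_le] at *; constructor <;> linarith) (abs_nonneg _) (θ _).le.1
    · exact ih

lemma exists_emb {Λ : Finset ℕ} (h0 : 0 ∈ Λ) : ∃ e : (Λ.erase 0 → Sph) → Λ → ℝ × ℝ,
    LocallyLipschitz e ∧ Function.Injective e ∧ ∀ θ i, ‖e θ i‖ ≤ 1 := by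
  obtain ⟨q, hq⟩ := Λ.exists_nat_subset_range
  let z : (Λ.erase 0 → ℝ × ℂ) → Λ → ℂ := fun θ i =>
    if h : i.1 ∈ Λ.erase 0 then ((2 + tt θ i) / 3) • (θ ⟨i, h⟩).2 else tt θ q
  have hz : ContDiff ℝ 1 z := contDiff_pi.2 fun i => by
    have := tt_smooth (ι := Λ.erase 0) i
    simp only [z]
    split_ifs
    · fun_prop
    · exact Complex.ofRealCLM.contDiff.comp (tt_smooth q)
  have hz' : ContDiff ℝ 1 fun θ i => Complex.equivRealProdCLM (z θ i) := contDiff_pi.2 fun i =>
    Complex.equivRealProdCLM.contDiff.comp (contDiff_pi.1 hz i)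
  have hv : LipschitzWith 1 fun (θ : Λ.erase 0 → Sph) j => (θ j).1 := fun _ _ => (one_mul _).ge
  refine ⟨fun θ i => Complex.equivRealProdCLM (z (fun j => (θ j).1) i),
    hz'.locallyLipschitz.comp hv.locallyLipschitz, fun θ θ' h => ?_, fun θ i => ?_⟩
  · have h1 : ∀ i, z (fun j => (θ j).1) i = z (fun j => (θ' j).1) i := fun i =>
      Complex.equivRealProdCLM.injective (congrFun h i)
    have key : ∀ i, tt (fun j => (θ j).1) (i + 1) = tt (fun j => (θ' j).1) (i + 1) →
        tt (fun j => (θ j).1) i = tt (fun j => (θ' j).1) i ∧ ∀ h, θ ⟨i, h⟩ = θ' ⟨i, h⟩ := by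
      intro i hi
      by_cases h : i ∈ Λ.erase 0
      swap
      · exact ⟨by simpa only [tt, h, dite_false] using hi, fun h' => (h h').elim⟩
      have h2 := h1 ⟨i, mem_of_mem_erase h⟩
      simp only [tt, z, h, dite_true] at hi h2
      have h3 := congrArg (‖·‖ ^ 2) h2
      simp only [norm_smul, mul_pow, Real.norm_eq_abs, sq_abs] at h3
      have a := abs_le.1 (tt_le θ i)
      have a' := abs_le.1 (tt_le θ' i)
      have h4 : (2 + tt (fun j => (θ j).1) i) / 3 = (2 + tt (fun j => (θ' j).1) i) / 3 := by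
        refine (pow_left_inj₀ (by linarith) (by linarith) two_ne_zero).1 ?_
        have b := (θ ⟨i, h⟩).2
        have b' := (θ' ⟨i, h⟩).2
        have c := congrArg (· ^ 2) hi
        simp only [mul_pow] at c
        linear_combination h3 + c - (2 + tt (fun j => (θ j).1) i) ^ 2 / 9 * b +
          (2 + tt (fun j => (θ' j).1) i) ^ 2 / 9 * b'
      have h5 : (2 + tt (fun j => (θ' j).1) i) / 3 ≠ 0 := by linarith
      rw [h4] at hi h2
      exact ⟨by linarith, fun _ => Subtype.ext (Prod.ext (mul_left_cancel₀ h5 hi)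
        (smul_right_injective _ h5 h2))⟩
    have h2 : ∀ i ≤ q, tt (fun j => (θ j).1) i = tt (fun j => (θ' j).1) i := fun i hi =>
      Nat.decreasingInduction (fun k _ h => (key k h).1) (by simpa [z] using h1 ⟨0, h0⟩) hi
    exact funext fun i => (key i (h2 _ (mem_range.1 (hq (mem_of_mem_erase i.2))))).2 i.2
  · refine (Complex.equivRealProd_apply_le _).trans ?_
    simp only [z]
    split_ifs with h
    · have a := abs_le.1 (tt_le θ i)
      rw [norm_smul, Real.norm_eq_abs]
      exact mul_le_one₀ (by rw [abs_le]; constructor <;> linarith) (norm_nonneg _) (θ _).le.2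
    · simpa using tt_le θ q

variable {S : Seed} {A : Type} [CStarAlgebra A] (R : Reg (TT S True) A)

lemma per_dist {n : ℕ} (y y' : Blk S n) (i : ℤ) : dist (per y i) (per y' i) ≤ dist y y' := by
  unfold per
  split_ifs
  exacts [dist_le_pi_dist _ _ _, by simp]

theorem Reg.obstruction {l n : ℕ} (hn : qq l * (1 / 2 : ℝ) ^ n ≤ 1 / 2) {e : (ι → Sph) → Blk S n}
    (he : LocallyLipschitz e) (b : Fin 2 → Fin 2 → C(Sys S True, ℂ))
    (hb : ∀ p θ (η : Fin 2 → ℂ), bt n p = e θ → (∀ h : (p.o n).toNat ∈ ι,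
      (1 + (θ ⟨_, h⟩).1.1) * η 0 + star (θ ⟨_, h⟩).1.2 * η 1 = 0 ∧
      (θ ⟨_, h⟩).1.2 * η 0 + (1 - (θ ⟨_, h⟩).1.1) * η 1 = 0) → ∀ s, ∑ t, b s t p * η t = 0)
    (v : Fin 2 → A) :
    1 / 2 ≤ ‖∑ t, (∑ s, v s * R.π (b s t)) * star (v t) - R.π ((tw S True l).ch ℂ 0)‖ := by
  by_contra hlt
  obtain ⟨K, hK⟩ := (he.locallyLipschitzOn (s := Set.univ)).exists_lipschitzOnWith_of_compact
    isCompact_univ
  rw [lipschitzOnWith_univ] at hK
  set c := fun t => ∑ s, v s * R.π (b s t) with hc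
  choose g hg hg' using fun t => R.dense_poly R.dense loc_dense loc_zero (star (v t))
    (show 0 < 1 / (2 * (‖c 0‖ + ‖c 1‖ + 1)) by positivity)
  have h1 : ‖∑ t, c t * R.poly (g t) - R.π ((tw S True l).ch ℂ 0)‖ < 1 := by
    have : ‖∑ t, c t * R.poly (g t) - ∑ t, c t * star (v t)‖ ≤ 1 / 2 := by
      rw [← sum_sub_distrib]
      refine (norm_sum_le_of_le _ fun t _ => (congrArg norm (mul_sub _ _ _).symm).trans_le
        ((norm_mul_le _ _).trans (mul_le_mul_of_nonneg_left ((norm_sub_rev _ _).trans_le (hg' t))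
        (norm_nonneg _)))).trans ?_
      rw [Fin.sum_univ_two, ← add_mul, mul_one_div, div_le_iff₀ (by positivity)]
      linarith
    linarith [norm_sub_le_norm_sub_add_norm_sub (∑ t, c t * R.poly (g t)) (∑ t, c t * star (v t))
      (R.π ((tw S True l).ch ℂ 0))]
  obtain ⟨N, hN⟩ := (eventually_all.2 fun t => loc_unif (hg t)).exists
  obtain ⟨m, hm, hm'⟩ := ((eventually_ge_atTop n).and
    (ev_qq ((2 * N + 1) * qq l) one_half_pos)).exists
  let κ := {i : Fin (qq m) // Bad n m (i : ℕ)} × Fin 2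
  have hκ : (2 * N + Fintype.card (Option κ)) * qq l ≤ qq m := by
    have a := sum_Bad n m
    rw [sum_range] at a
    have a' : (Fintype.card (Option κ) : ℝ) =
        (∑ i : Fin (qq m), if Bad n m (i : ℕ) then 1 else 0) * 2 + 1 := by
      simp [κ, Fintype.card_subtype]
    have := qq_posR l
    have := qq_posR m
    have : ((2 * N + Fintype.card (Option κ)) * qq l : ℝ) ≤ qq m := by
      rw [a', pow_succ] at *
      nlinarith [mul_le_mul_of_nonneg_left a (qq_posR l).le]
    exact_mod_cast this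
  let ps : Option κ → ℤ := fun o => (N + (Fintype.equivFin _ o : ℕ)) * qq l
  have ps1 : ∀ o, N ≤ ps o ∧ ps o + N < qq m := fun o => by
    have a : ((Fintype.equivFin _ o : ℕ) : ℤ) + 1 ≤ Fintype.card (Option κ) := by
      exact_mod_cast (Fintype.equivFin _ o).2
    have a' : ((2 * N + Fintype.card (Option κ)) * qq l : ℤ) ≤ qq m := by exact_mod_cast hκ
    have := qq_pos' l
    constructor <;> simp only [ps] <;> nlinarith
  have ps2 : Function.Injective ps := fun o o' h => (Fintype.equivFin _).injective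
    (Fin.ext (by simpa [ps, (qq_pos l).ne'] using h))
  let ix : ℤ → Fin (qq m) := fun a => ⟨(a % qq m).toNat, by
    have := Int.emod_lt_of_pos a (qq_pos' m); have := qq_pos m; omega⟩
  let y : (Fin (qq m) → Sph) → ℤ → Blk S n := fun θ j => e fun r => θ (ix (j * qq n + r))
  let x : (Fin (qq m) → Sph) → Sys S True := fun θ => pt fun a => per (y θ (a / qq n)) a
  let W : (Fin (qq m) → Sph) → Option κ → Fin 2 → ℤ → ℂ := fun θ o t i =>
    g t (i - ps o) ((TT S True ^ i) (x θ))
  have hW : ∀ o t i, LocallyLipschitz fun θ => W θ o t i := fun o t i => by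
    obtain ⟨L, hL, h⟩ := (hN t).2 (i - ps o)
    refine (LipschitzWith.of_dist_le_mul (K := ⟨L, hL⟩ * K) fun θ θ' => ?_).locallyLipschitz
    refine (h _ _ (K * dist θ θ') (by positivity) (by simp [x]) fun j _ => ?_).trans_eq
      (mul_assoc _ _ _).symm
    rw [TT_x, TT_x]
    refine pt_dist (by positivity) ((per_dist _ _ _).trans ((hK.dist_le_mul _ _).trans ?_))
    gcongr
    exact (dist_pi_le_iff dist_nonneg).2 fun r => dist_le_pi_dist _ _ _
  obtain ⟨θ, ξ, hξ, h2, h3⟩ := toplemma (V := fun θ o => (fun i : Fin (qq m) =>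
    (W θ o 0 (i : ℕ), W θ o 1 (i : ℕ)), fun k : κ => W θ o k.2 (k.1.1 : ℕ)))
    (ll_pi fun o => (ll_pi fun i => (hW _ _ _).prodMk (hW _ _ _)).prodMk (ll_pi fun k => hW _ _ _))
  let ζ : H := ∑ o, ξ o • dl (ps o)
  have hζ : ∀ i, ζ i = ∑ o, if i = ps o then ξ o else 0 := fun i => by
    rw [lp.coeFn_sum, Finset.sum_apply]
    exact sum_congr rfl fun o _ => by simp
  have h4 : ∀ t i, R.rep (x θ) (R.poly (g t)) ζ i = ∑ o, ξ o * W θ o t i := fun t i => by
    simp only [R.rep_poly, hζ, mul_sum]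
    rw [sum_comm]
    refine sum_congr rfl fun o _ => ?_
    rw [sum_eq_single (i - ps o) (fun k _ hk => by rw [if_neg (by omega), mul_zero])
      (fun h => by simp [Finsupp.notMem_support_iff.1 h]), if_pos (by omega), mul_comm]
  have h5 : ∀ s, ∑ t, R.rep (x θ) (R.π (b s t)) (R.rep (x θ) (R.poly (g t)) ζ) = 0 := fun s => by
    ext i
    simp only [lp.coeFn_sum, Finset.sum_apply, R.rep_π, mop_apply, orb_apply, h4, lp.coeFn_zero,
      Pi.zero_apply]
    by_cases hi : 0 ≤ i ∧ i < qq m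
    swap
    · refine sum_eq_zero fun t _ => mul_eq_zero_of_right _ (sum_eq_zero fun o _ => ?_)
      have : i - ps o ∉ (g t).support := fun h => by
        have := abs_le.1 ((hN t).1 _ h)
        have := ps1 o
        omega
      simp [W, Finsupp.notMem_support_iff.1 this]
    obtain ⟨i, rfl⟩ : ∃ j : Fin (qq m), i = (j : ℕ) := ⟨⟨i.toNat, by omega⟩, by simp [hi.1]⟩
    by_cases hB : Bad n m (i : ℕ)
    · exact sum_eq_zero fun t _ => mul_eq_zero_of_right _ (by
        simpa [cmb, Prod.snd_sum] using congrFun h2 (⟨i, hB⟩, t))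
    have hq := qq_pos' n
    refine hb _ (fun r => θ (ix ((i : ℕ) / qq n * qq n + r))) _ (funext fun a => ?_) (fun h => ?_) s
    · have := FF_lt a
      rw [bt_pt _ i.2 hm hB, per_apply _ a (by
        rw [add_comm, Int.add_mul_emod_self_right, Int.emod_eq_of_lt (by omega) this]), add_comm,
        Int.add_mul_ediv_right _ _ hq.ne', Int.ediv_eq_zero_of_lt (by omega) this, zero_add]
    · have : ix ((i : ℕ) / qq n * qq n + (((TT S True ^ ((i : ℕ) : ℤ)) (x θ)).o n).toNat) = i := by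
        simp only [TT_o, x, pt_o, zero_add, Int.toNat_of_nonneg (Int.emod_nonneg _ hq.ne'),
          Int.ediv_mul_add_emod, ix, Int.emod_eq_of_lt hi.1 hi.2, Int.toNat_natCast]
      simp only [this]
      simpa [cmb, Prod.fst_sum, Prod.snd_sum] using h3 i
  have h6 : R.rep (x θ) (∑ t, c t * R.poly (g t) - R.π ((tw S True l).ch ℂ 0)) ζ = -ζ := by
    have : R.rep (x θ) (R.π ((tw S True l).ch ℂ 0)) ζ = ζ := by
      ext i
      simp only [R.rep_π, mop_apply, orb_apply, hζ, mul_sum]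
      refine sum_congr rfl fun o _ => ?_
      split_ifs with h <;> simp [h, x, ps]
    simp only [hc, map_sub, sub_apply, this, sum_mul, map_sum, _root_.sum_apply, map_mul,
      mul_apply_eq_comp]
    rw [sum_comm]
    simp only [← map_sum, h5]
    simp
  have h7 : ζ ≠ 0 := fun h => hξ (funext fun o => by
    have := hζ (ps o)
    rw [sum_eq_single o (fun o' _ h => if_neg (ps2.ne h.symm)) (by simp), if_pos rfl, h] at this
    exact this.symm)
  have h8 := (R.rep (x θ) _).le_of_opNorm_le (NonUnitalStarAlgHom.norm_apply_le (R.rep (x θ))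
    (∑ t, c t * R.poly (g t) - R.π ((tw S True l).ch ℂ 0))) ζ
  rw [h6, norm_neg] at h8
  nlinarith [norm_pos_iff.2 h7]

end

end Pool.Agent.P.MP_456758_an
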