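import Mathlib

/-! A back-and-forth argument for compact convex sets of Poulsen type. -/

namespace Pool.Agent.P.MP_456758_an

open Filter Topology

noncomputable section

variable {E : Type} [NormedAddCommGroup E] [NormedSpace ℝ E]

/-- Preservation of finite convex combinations. -/
def Aff {S : Set E} {F : Type} [AddCommGroup F] [Module ℝ F] (f : S → F) : Prop :=
  ∀ (ι : Type) [Fintype ι] (w : ι → ℝ) (ν : ι → S) (x : S), (∀ i, 0 ≤ w i) → ∑ i, w i = 1 →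
    (x : E) = ∑ i, w i • (ν i : E) → f x = ∑ i, w i • f (ν i)

/-- Approximate factorisation of the identity through simplices, with prescribed peaks. -/
def Peak (S : Set E) : Prop :=
  ∀ ε > 0, ∀ (r : Type) [Fintype r] (σ : r → S), ∃ (ι : Type) (_ : Fintype ι)
    (h : r ⊕ ι → S → ℝ) (τ : ι → S), (∀ α, Continuous (h α)) ∧ (∀ α, Aff (h α)) ∧
    (∀ α x, 0 ≤ h α x) ∧ (∀ x, ∑ α, h α x = 1) ∧
    (∀ x : S, ‖(x : E) - ∑ α, h α x • ((Sum.elim σ τ α : S) : E)‖ ≤ ε) ∧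
    ∀ i, ∃ ω, 1 - ε ≤ h (.inl i) ω

lemma norm_comb_le {ι : Type} [Fintype ι] {w : ι → ℝ} (h0 : ∀ i, 0 ≤ w i) {a b : ι → E}
    {c : ι → ℝ} (h : ∀ i, ‖a i - b i‖ ≤ c i) :
    ‖∑ i, w i • a i - ∑ i, w i • b i‖ ≤ ∑ i, w i * c i := by
  rw [← Finset.sum_sub_distrib]
  refine norm_sum_le_of_le _ fun i _ => ?_
  rw [← smul_sub, norm_smul, Real.norm_of_nonneg (h0 i)]
  exact mul_le_mul_of_nonneg_left (h i) (h0 i)

/-- A stage of the back-and-forth. -/
structure St (S₁ S₂ : Set E) where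
  /-- The map. -/
  κ : C(S₁, S₂)
  /-- The density constant. -/
  δ : ℝ
  aff : Aff fun x => (κ x : E)
  pos : 0 < δ
  dense : ∀ y, ∃ x, dist (κ x) y ≤ δ

lemma half {S₁ S₂ : Set E} (c₁ : IsCompact S₁) (v₁ : Convex ℝ S₁) (p₂ : Peak S₂) (a : St S₁ S₂)
    {η : ℝ} (hη : 0 < η) : ∃ b : St S₂ S₁, b.δ ≤ η ∧ (∀ y, dist (a.κ (b.κ y)) y ≤ 2 * a.δ) ∧
      ∀ x x', dist x x' ≤ 2 * b.δ → dist (a.κ x) (a.κ x') ≤ η := by
  classical
  have : CompactSpace S₁ := isCompact_iff_compactSpace.1 c₁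
  obtain ⟨ζ, hζ, huc⟩ := Metric.uniformContinuous_iff.1
    (CompactSpace.uniformContinuous_of_continuous a.κ.continuous) η hη
  set δ' := min η (ζ / 3) with hδ'
  have hδ0 : 0 < δ' := by positivity
  obtain ⟨M, hM⟩ := Metric.isBounded_iff.1 c₁.isBounded
  obtain ⟨t, -, ht, hnet⟩ := finite_cover_balls_of_compact (isCompact_univ (X := S₁))
    (show 0 < δ' / 2 by positivity)
  have := ht.fintype
  set ε := min a.δ (δ' / (2 * (|M| + 1))) with hε
  have hε0 : 0 < ε := lt_min a.pos (by positivity)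
  obtain ⟨ι, _, h, τ, hc, ha, h0, h1, hap, hpk⟩ := p₂ ε hε0 t fun i => a.κ i
  choose ν hν using fun α => a.dense (τ α)
  set ν' : t ⊕ ι → S₁ := Sum.elim (fun i => i) ν with hν'
  have hmem : ∀ y, ∑ α, h α y • (ν' α : E) ∈ S₁ := fun y =>
    v₁.sum_mem (fun α _ => h0 α y) (h1 y) fun α _ => (ν' α).2
  refine ⟨⟨⟨fun y => ⟨_, hmem y⟩, by fun_prop⟩, δ', ?_, hδ0, fun x => ?_⟩, min_le_left _ _,
    fun y => ?_, fun x x' hx => (huc (hx.trans_lt ?_)).le⟩
  · intro κ _ w μ y hw0 hw1 hy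
    simp only [ContinuousMap.coe_mk, Finset.smul_sum, smul_smul]
    rw [Finset.sum_comm]
    refine Finset.sum_congr rfl fun α _ => ?_
    rw [ha α κ w μ y hw0 hw1 hy, Finset.sum_smul]
    rfl
  · obtain ⟨i, hi, hx⟩ := Set.mem_iUnion₂.1 (hnet (Set.mem_univ x))
    obtain ⟨ω, hω⟩ := hpk ⟨i, hi⟩
    refine ⟨ω, ?_⟩
    have e : (i : E) = ∑ α, h α ω • (i : E) := by rw [← Finset.sum_smul, h1, one_smul]
    have h2 : ‖∑ α, h α ω • (ν' α : E) - (i : E)‖ ≤
        ∑ α, h α ω * (|M| - if α = .inl ⟨i, hi⟩ then |M| else 0) := by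
      rw [e]
      refine norm_comb_le (h0 · ω) fun α => ?_
      split_ifs with h3
      · simp [h3, hν']
      · rw [← dist_eq_norm, sub_zero]
        exact (hM (ν' α).2 i.2).trans (le_abs_self M)
    have h3 : ∑ α, h α ω * (|M| - if α = .inl ⟨i, hi⟩ then |M| else 0) ≤ δ' / 2 := by
      simp only [mul_sub, Finset.sum_sub_distrib, ← Finset.sum_mul, h1, mul_ite, mul_zero,
        Finset.sum_ite_eq', Finset.mem_univ, if_true]
      have h4 : ε * (2 * (|M| + 1)) ≤ δ' := (le_div_iff₀ (by positivity)).1 (min_le_right _ _)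
      nlinarith [abs_nonneg M]
    have h4 : dist (i : E) x < δ' / 2 := by rw [dist_comm]; exact hx
    have h5 := dist_triangle (∑ α, h α ω • (ν' α : E)) i x
    rw [dist_eq_norm _ (i : E)] at h5
    change dist (∑ α, h α ω • (ν' α : E)) x ≤ δ'
    linarith
  · have e := a.aff _ (h · y) ν' ⟨_, hmem y⟩ (h0 · y) (h1 y) rfl
    have h2 : ‖∑ α, h α y • (a.κ (ν' α) : E) - ∑ α, h α y • ((Sum.elim (fun i : t => a.κ i) τ α : S₂) : E)‖
        ≤ ∑ α, h α y * a.δ := by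
      refine norm_comb_le (h0 · y) ?_
      rintro (i | α)
      · simpa [hν'] using a.pos.le
      · rw [← dist_eq_norm]; exact hν α
    rw [← Finset.sum_mul, h1, one_mul, ← e] at h2
    have h3 := hap y
    have h4 : ε ≤ a.δ := min_le_left _ _
    change dist (a.κ ⟨_, hmem y⟩ : E) y ≤ _
    rw [← dist_eq_norm] at h2 h3
    linarith [dist_triangle_right (a.κ ⟨_, hmem y⟩ : E) y
      (∑ α, h α y • ((Sum.elim (fun i : t => a.κ i) τ α : S₂) : E))]
  · have : δ' ≤ ζ / 3 := min_le_right _ _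
    change 2 * δ' < ζ
    linarith

lemma aff_lim {S₁ S₂ : Set E} [CompactSpace S₁] {κ : ℕ → C(S₁, S₂)} {γ : C(S₁, S₂)}
    (h : Tendsto κ atTop (𝓝 γ)) (ha : ∀ n, Aff fun x => (κ n x : E)) :
    Aff fun x => (γ x : E) := by
  intro ι _ w ν x h0 h1 hx
  have ev : ∀ z, Tendsto (fun n => (κ n z : E)) atTop (𝓝 (γ z)) := fun z =>
    (continuous_subtype_val.tendsto _).comp (h.eval_const z)
  refine tendsto_nhds_unique (ev x) ?_
  simp only [fun n => ha n ι w ν x h0 h1 hx]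
  exact tendsto_finsetSum _ fun i _ => (ev _).const_smul _

theorem poulsen {S₁ S₂ : Set E} (c₁ : IsCompact S₁) (v₁ : Convex ℝ S₁) (p₁ : Peak S₁)
    (c₂ : IsCompact S₂) (v₂ : Convex ℝ S₂) (p₂ : Peak S₂) (n₁ : S₁.Nonempty) (n₂ : S₂.Nonempty) :
    ∃ γ : S₁ ≃ₜ S₂, Aff fun x => (γ x : E) := by
  have : CompactSpace S₁ := isCompact_iff_compactSpace.1 c₁
  have : CompactSpace S₂ := isCompact_iff_compactSpace.1 c₂
  obtain ⟨x₀, hx₀⟩ := n₁
  obtain ⟨y₀, hy₀⟩ := n₂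
  obtain ⟨M, hM⟩ := Metric.isBounded_iff.1 c₂.isBounded
  let a₀ : St S₁ S₂ := ⟨.const _ ⟨y₀, hy₀⟩, |M| + 1,
    fun ι _ w ν x _ h1 _ => by simp [← Finset.sum_smul, h1], by positivity,
    fun y => ⟨⟨x₀, hx₀⟩, (hM hy₀ y.2).trans (by linarith [le_abs_self M])⟩⟩
  have hη : ∀ n : ℕ, (0 : ℝ) < (1 / 2) ^ n := fun n => by positivity
  choose f f1 f2 f3 using fun (a : St S₁ S₂) (n : ℕ) => half c₁ v₁ p₂ a (hη n)
  choose g g1 g2 g3 using fun (b : St S₂ S₁) (n : ℕ) => half c₂ v₂ p₁ b (hη n)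
  let a : ℕ → St S₁ S₂ := fun n => Nat.rec a₀ (fun n a => g (f a n) n) n
  have ha : ∀ n, a (n + 1) = g (f (a n) n) n := fun n => rfl
  have hδ : ∀ n, (a n).δ ≤ (|M| + 2) * (1 / 2) ^ n := by
    rintro (_ | n)
    · change |M| + 1 ≤ _
      simp
    · refine (g1 _ n).trans ?_
      rw [pow_succ]
      nlinarith [hη n, abs_nonneg M]
  have ca : CauchySeq fun n => (a n).κ := by
    refine cauchySeq_of_le_geometric (1 / 2) (1 + 2 * (|M| + 2)) (by norm_num) fun n => ?_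
    refine (ContinuousMap.dist_le (by positivity)).2 fun x => ?_
    have h1 := f3 (a n) n _ _ (g2 (f (a n) n) n x)
    have h2 := f2 (a n) n ((a (n + 1)).κ x)
    rw [← ha] at h1
    linarith [dist_triangle_left ((a n).κ x) ((a (n + 1)).κ x)
      ((a n).κ ((f (a n) n).κ ((a (n + 1)).κ x))), hδ n]
  have cb : CauchySeq fun n => (f (a n) n).κ := by
    refine cauchySeq_of_le_geometric (1 / 2) 3 (by norm_num) fun n => ?_
    refine (ContinuousMap.dist_le (by positivity)).2 fun y => ?_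
    have h1 := g3 (f (a n) n) n _ _ (f2 (a (n + 1)) (n + 1) y)
    have h2 := g2 (f (a n) n) n ((f (a (n + 1)) (n + 1)).κ y)
    rw [← ha] at h2
    linarith [dist_triangle_left ((f (a n) n).κ y) ((f (a (n + 1)) (n + 1)).κ y)
      ((f (a n) n).κ ((a (n + 1)).κ ((f (a (n + 1)) (n + 1)).κ y))), f1 (a n) n]
  obtain ⟨γ, hγ⟩ := cauchySeq_tendsto_of_complete ca
  obtain ⟨γ', hγ'⟩ := cauchySeq_tendsto_of_complete cb
  have h0 : ∀ C : ℝ, Tendsto (fun n : ℕ => C * (1 / 2) ^ n) atTop (𝓝 0) := fun C => by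
    simpa using (tendsto_pow_atTop_nhds_zero_of_lt_one (r := (1 / 2 : ℝ)) (by norm_num)
      (by norm_num)).const_mul C
  refine ⟨⟨⟨γ, γ', fun x => ?_, fun y => ?_⟩, γ.continuous, γ'.continuous⟩,
    aff_lim hγ fun n => (a n).aff⟩
  · refine tendsto_nhds_unique
      (hγ'.eval (((tendsto_add_atTop_iff_nat 1).2 hγ).eval_const x)) ?_
    refine tendsto_iff_dist_tendsto_zero.2 (squeeze_zero (fun _ => dist_nonneg) (fun n => ?_) (h0 2))
    have := g2 (f (a n) n) n x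
    rw [← ha] at this
    linarith [f1 (a n) n]
  · refine tendsto_nhds_unique (hγ.eval (hγ'.eval_const y)) ?_
    refine tendsto_iff_dist_tendsto_zero.2
      (squeeze_zero (fun _ => dist_nonneg) (fun n => ?_) (h0 (2 * (|M| + 2))))
    linarith [f2 (a n) n y, hδ n]

end

end Pool.Agent.P.MP_456758_an
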