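import Pool.Agent.P.MP_456758_an.Loc
import Pool.Agent.P.MP_456758_an.Poulsen

/-! The trace simplices are affinely homeomorphic. -/

namespace Pool.Agent.P.MP_456758_an

open Filter Topology Finset Sys
open scoped Classical BoundedContinuousFunction ComplexOrder

noncomputable section

attribute [-simp] zpow_natCast zpow_neg

section Abstract

variable {X : Type} [TopologicalSpace X] [CompactSpace X] {T : X ≃ₜ X} {A : Type} [CStarAlgebra A]

/-- The peaking property in terms of functions on the space. -/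
def PeakT (R : Reg T A) : Prop :=
  ∀ ε > 0, ∀ (κ : Type) [Fintype κ] (f : κ → C(X, ℝ)) (r : Type) [Fintype r] (σ : r → TS A),
    ∃ (ι : Type) (_ : Fintype ι) (g : r ⊕ ι → C(X, ℝ)) (τ : ι → TS A), (∀ α x, 0 ≤ g α x) ∧
      ∑ α, g α = 1 ∧ (∀ ω k, |(R.is ω).μ (f k) -
        ∑ α, (R.is ω).μ (g α) * (R.is (Sum.elim σ τ α)).μ (f k)| ≤ ε) ∧
      ∀ i, ∃ ω, 1 - ε ≤ (R.is ω).μ (g (.inl i))

theorem Reg.emb [PartialOrder A] [StarOrderedRing A] [TopologicalSpace.SeparableSpace C(X, ℝ)]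
    (R : Reg T A) (hT : HasTowers T) (hP : PeakT R) :
    ∃ (S : Set (ℕ →ᵇ ℝ)) (j : TS A ≃ₜ S), IsCompact S ∧ Convex ℝ S ∧ Peak S ∧
      ∀ t σ τ ω, IsComb t σ τ ω ↔ (j ω : ℕ →ᵇ ℝ) = t • (j σ : ℕ →ᵇ ℝ) + (1 - t) • j τ := by
  let f := TopologicalSpace.denseSeq C(X, ℝ)
  let c : ℕ → ℝ := fun k => (1 / 2) ^ k / (‖f k‖ + 1)
  have hc : ∀ k, 0 < c k := fun k => by positivity
  have hc1 : ∀ k, c k ≤ 1 := fun k => (div_le_one (by positivity)).2
    ((pow_le_one₀ (by norm_num) (by norm_num)).trans (le_add_of_nonneg_left (norm_nonneg _)))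
  have hb : ∀ τ k, |c k * (R.is τ).μ (f k)| ≤ (1 / 2) ^ k := fun τ k => by
    have := (R.is τ).abs_sub_le (f := f k) (g := 0) (c := ‖f k‖) fun x => by
      simpa using (f k).norm_coe_le_norm x
    rw [map_zero, sub_zero] at this
    rw [abs_mul, abs_of_pos (hc k), div_mul_eq_mul_div, div_le_iff₀ (by positivity)]
    gcongr
    linarith
  let J : TS A → ℕ →ᵇ ℝ := fun τ => .ofNormedAddCommGroupDiscrete
    (fun k => c k * (R.is τ).μ (f k)) 1 fun k =>
      (hb τ k).trans (pow_le_one₀ (by norm_num) (by norm_num))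
  have hJ : ∀ τ k, J τ k = c k * (R.is τ).μ (f k) := fun _ _ => rfl
  have tail : ∀ ε > 0, ∃ K : ℕ, ∀ k ≥ K, 2 * (1 / 2 : ℝ) ^ k ≤ ε := fun ε hε =>
    eventually_atTop.1 (ev_half 2 hε)
  have Jc : Continuous J := by
    refine continuous_iff_continuousAt.2 fun τ => Metric.tendsto_nhds.2 fun ε hε => ?_
    obtain ⟨K, hK⟩ := tail (ε / 2) (half_pos hε)
    have := (eventually_all_finset (range K)).2 fun k _ => Metric.tendsto_nhds.1
      (((continuous_const (y := c k)).mul (R.is_cont (f k))).tendsto τ) _ (half_pos hε)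
    filter_upwards [this] with σ hσ
    refine ((BoundedContinuousFunction.dist_le (half_pos hε).le).2 fun k => ?_).trans_lt
      (half_lt_self hε)
    rcases lt_or_ge k K with h | h
    · exact (hσ k (mem_range.2 h)).le
    · exact (abs_sub _ _).trans ((add_le_add (hb σ k) (hb τ k)).trans (by linarith [hK k h]))
  have key : ∀ (ι : Type) [Fintype ι] (w : ι → ℝ) (ν : ι → TS A) (τ : TS A),
      J τ = ∑ i, w i • J (ν i) → ∀ g, (R.is τ).μ g = ∑ i, w i * (R.is (ν i)).μ g := by
    intro ι _ w ν τ h g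
    refine (TopologicalSpace.denseRange_denseSeq C(X, ℝ)).induction_on
      (p := fun g => (R.is τ).μ g = ∑ i, w i * (R.is (ν i)).μ g) g (isClosed_eq (R.is τ).cont
      (continuous_finsetSum _ fun i _ => continuous_const.mul (R.is _).cont)) fun k => ?_
    have := congrArg (fun u : ℕ →ᵇ ℝ => u k) h
    simp only [BoundedContinuousFunction.sum_apply, BoundedContinuousFunction.smul_apply, hJ,
      smul_eq_mul, mul_left_comm _ (c k), ← mul_sum] at this
    exact mul_left_cancel₀ (hc k).ne' this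
  have Ji : Function.Injective J := fun σ τ h => R.ext_is hT (by
    simpa using key Unit (fun _ => 1) (fun _ => τ) σ (by simpa using h))
  let j : TS A ≃ₜ Set.range J := (Jc.isClosedEmbedding Ji).isEmbedding.toHomeomorph
  have hj : ∀ x : Set.range J, J (j.symm x) = x := fun x => congrArg Subtype.val (j.apply_symm_apply x)
  have cb : ∀ t σ τ ω, IsComb t σ τ ω → J ω = t • J σ + (1 - t) • J τ := fun t σ τ ω h => by
    ext k
    have := congrArg Complex.re (h (R.π (cx (f k))))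
    simp only [← TS.lin_apply, R.ev_cx] at this
    simp at this
    simp [hJ, this]
    ring
  refine ⟨Set.range J, j, isCompact_range Jc, ?_, fun ε hε r _ σ => ?_,
    fun t σ τ ω => ⟨cb t σ τ ω, fun h a => ?_⟩⟩
  · rintro _ ⟨σ, rfl⟩ _ ⟨τ, rfl⟩ a b ha hb hab
    obtain rfl : b = 1 - a := by linarith
    refine ⟨⟨(a : ℂ) • σ.1 + (1 - a : ℂ) • τ.1, ?_, fun x => ?_, fun x y => ?_⟩,
      cb _ _ _ _ fun _ => rfl⟩
    · change a * σ.1 1 + (1 - a) * τ.1 1 = 1
      simp [σ.2.1, τ.2.1]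
    · exact add_nonneg (mul_nonneg (by exact_mod_cast ha) (σ.2.2.1 x))
        (mul_nonneg (by exact_mod_cast hb) (τ.2.2.1 x))
    · change a * σ.1 _ + (1 - a) * τ.1 _ = a * σ.1 _ + (1 - a) * τ.1 _
      rw [σ.2.2.2, τ.2.2.2]
  · obtain ⟨K, hK⟩ := tail ε hε
    obtain ⟨ι, _, g, τ, g0, g1, hg, hp⟩ := hP ε hε (Fin K) (fun k => f k) r fun i => j.symm (σ i)
    have h0 : ∀ α ω, 0 ≤ (R.is ω).μ (g α) := fun α ω => (R.is ω).pos _ (g0 α)
    have h1 : ∀ ω, ∑ α, (R.is ω).μ (g α) = 1 := fun ω => by rw [← map_sum, g1, IS.one]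
    refine ⟨ι, inferInstance, fun α x => (R.is (j.symm x)).μ (g α), fun i => j (τ i),
      fun α => (R.is_cont _).comp j.symm.continuous, fun α κ _ w ν x _ _ hx => ?_,
      fun α x => h0 α _, fun x => h1 _, fun x => ?_, fun i => ?_⟩
    · exact key κ w (fun i => j.symm (ν i)) _ (by simpa only [hj] using hx) _
    · have e : ∀ α, ((Sum.elim σ (fun i => j (τ i)) α : Set.range J) : ℕ →ᵇ ℝ) =
          J (Sum.elim (fun i => j.symm (σ i)) τ α) := by
        rintro (i | i)
        exacts [(hj _).symm, rfl]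
      refine (BoundedContinuousFunction.norm_le hε.le).2 fun k => ?_
      rw [← hj x]
      simp only [e, BoundedContinuousFunction.sub_apply, BoundedContinuousFunction.sum_apply,
        BoundedContinuousFunction.smul_apply, hJ, smul_eq_mul, Real.norm_eq_abs]
      rcases lt_or_ge k K with h | h
      · simp only [mul_left_comm _ (c k), ← mul_sum, ← mul_sub, abs_mul, abs_of_pos (hc k)]
        exact (mul_le_of_le_one_left (abs_nonneg _) (hc1 k)).trans (hg _ ⟨k, h⟩)
      · refine (abs_sub _ _).trans ((add_le_add (hb _ k) ((abs_sum_le_sum_abs _ _).trans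
          (sum_le_sum (g := fun α => (R.is (j.symm x)).μ (g α) * (1 / 2) ^ k) fun α _ => ?_))).trans ?_)
        · rw [abs_mul, abs_of_nonneg (h0 _ _)]
          exact mul_le_mul_of_nonneg_left (hb _ k) (h0 _ _)
        · rw [← sum_mul, h1]
          linarith [hK k h]
    · obtain ⟨ω, h⟩ := hp i
      exact ⟨j ω, by simpa using h⟩
  · simpa using R.comb hT ![t, 1 - t] ![σ, τ] ω (key _ _ _ _ (by rw [Fin.sum_univ_two]; exact h)) a

lemma IS.greedy (m : IS T) {κ : Type} [Fintype κ] (G : κ → C(X, ℝ)) : ∃ (C : ℝ) (y : ℕ → X),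
    ∀ N k, (∑ j ∈ range N, (G k (y j) - m.μ (G k))) ^ 2 ≤ N * C := by
  have h : ∀ s : κ → ℝ, ∃ x, ∑ k, s k * (G k x - m.μ (G k)) ≤ 0 := fun s => by
    obtain ⟨x, hx⟩ := m.exists_le (∑ k, s k • G k)
    exact ⟨x, by simpa [mul_sub] using hx⟩
  choose st hst using h
  let s : ℕ → κ → ℝ := fun N => Nat.rec 0 (fun _ s k => s k + (G k (st s) - m.μ (G k))) N
  have hs : ∀ N k, s (N + 1) k = s N k + (G k (st (s N)) - m.μ (G k)) := fun _ _ => rfl
  have h1 : ∀ N k, ∑ j ∈ range N, (G k (st (s j)) - m.μ (G k)) = s N k := fun N k => by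
    induction N with
    | zero => rfl
    | succ N ih => rw [sum_range_succ, ih, hs]
  have h2 : ∀ N : ℕ, ∑ k, s N k ^ 2 ≤ N * ∑ k, (‖G k‖ + |m.μ (G k)|) ^ 2 := fun N => by
    induction N with
    | zero => simp [s]
    | succ N ih =>
      have : ∑ k, (G k (st (s N)) - m.μ (G k)) ^ 2 ≤ ∑ k, (‖G k‖ + |m.μ (G k)|) ^ 2 :=
        sum_le_sum fun k _ => sq_le_sq.2 (((abs_sub _ _).trans
          (add_le_add_left ((G k).norm_coe_le_norm _) _)).trans (le_abs_self _))
      simp only [hs, add_sq (s N _), sum_add_distrib, mul_assoc, ← mul_sum]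
      push_cast
      linarith [hst (s N)]
  exact ⟨_, fun j => st (s j), fun N k => (h1 N k ▸ single_le_sum (f := fun k => s N k ^ 2)
    (fun _ _ => sq_nonneg _) (mem_univ k)).trans (h2 N)⟩

omit [CompactSpace X] in
lemma bs_blocks (f : X → ℝ) (q N : ℕ) (x : X) :
    bs T (N * q) f x = ∑ j ∈ range N, bs T q f ((T ^ (j * q : ℤ)) x) := by
  simp [bs, sum_range_blocks, zpow_zpow, add_comm]

lemma exists_pu {Z κ r : Type} [MetricSpace Z] [CompactSpace Z] [Fintype κ] [Fintype r]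
    (G : κ → C(Z, ℝ)) {ε : ℝ} (hε : 0 < ε) {y : r → Z} (hy : Function.Injective y) :
    ∃ (ι : Type) (_ : Fintype ι) (g : r ⊕ ι → C(Z, ℝ)) (c : ι → Z), (∀ α z, 0 ≤ g α z) ∧
      ∑ α, g α = 1 ∧ (∀ i, g (.inl i) (y i) = 1) ∧
      ∀ α z, g α z ≠ 0 → ∀ k, |G k z - G k (Sum.elim y c α)| ≤ ε := by
  let W : Z → Set Z := fun c => ⋂ k, {z | |G k z - G k c| < ε}
  have hW : ∀ c, IsOpen (W c) := fun c =>
    isOpen_iInter_of_finite fun k => isOpen_lt (by fun_prop) continuous_const
  obtain ⟨t, ht⟩ := isCompact_univ.elim_finite_subcover W hW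
    fun z _ => Set.mem_iUnion.2 ⟨z, by simp [W, hε]⟩
  let U : r ⊕ t → Set Z := fun α => W (Sum.elim y (↑) α) \ y '' {i | α ≠ .inl i}
  obtain ⟨g, hg⟩ := PartitionOfUnity.exists_isSubordinate isClosed_univ U
    (fun α => (hW _).sdiff (Set.toFinite _).isClosed) fun z _ => by
      by_cases h : ∃ i, y i = z
      · obtain ⟨i, rfl⟩ := h
        exact Set.mem_iUnion.2 ⟨.inl i, by simp [W, hε], fun ⟨j, h1, h2⟩ => h1 (by rw [hy h2])⟩
      · obtain ⟨c, hc, hz⟩ := Set.mem_iUnion₂.1 (ht (Set.mem_univ z))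
        exact Set.mem_iUnion.2 ⟨.inr ⟨c, hc⟩, hz, fun ⟨j, _, h2⟩ => h ⟨j, h2⟩⟩
  have h1 : ∀ z, ∑ α, g α z = 1 := fun z =>
    (finsum_eq_sum_of_fintype _).symm.trans (g.sum_eq_one (Set.mem_univ z))
  refine ⟨t, inferInstance, g, (↑), g.nonneg, by ext z; simpa using h1 z, fun i => ?_,
    fun α z hz k => (Set.mem_iInter.1 (hg α (subset_closure hz)).1 k).le⟩
  rw [← h1 (y i), sum_eq_single (Sum.inl i) (fun α _ hα => by_contra fun h =>
    (hg α (subset_closure h)).2 ⟨i, hα, rfl⟩) (by simp)]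

end Abstract

variable {S : Seed}

lemma exists_block (m : IS (TT S True)) {κ : Type} [Fintype κ] (f : κ → C(Sys S True, ℝ)) {ε : ℝ}
    (hε : 0 < ε) (κ₀ : S.K) : ∀ᶠ n in atTop, ∃ y : Blk S n, y ⟨0, zero_mem_FF n⟩ = κ₀ ∧
      ∀ k, |m.μ (f k) - av n (f k) y| ≤ 6 * ε := by
  have h1 := eventually_all.2 fun k => block_approx (f k) hε
  obtain ⟨l, a1, a2, a3⟩ := (h1.and ((eventually_all.2 fun k => is_approx (f k) hε).and
    (ev_half ‖f‖ hε))).exists
  have hb : ∀ k y, |av l (f k) y| ≤ ‖f‖ := fun k y => (av_le _ _ _).trans (norm_le_pi_norm f k)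
  obtain ⟨C, x, hx⟩ := m.greedy fun k => (av l (f k)).comp (bt l)
  let z : ℤ → S.K := fun a => if a = 0 then κ₀ else per (bt l (x (a / qq l).toNat)) a
  filter_upwards [h1, eventually_ge_atTop l, ev_qq (qq l * C) (pow_pos hε 2),
    ev_qq (qq l * (2 * ‖f‖)) hε] with n b1 b2 b3 b4
  refine ⟨bt n (pt z), ?_, fun k => ?_⟩
  · rw [bt_apply, pt_x z (n := n) (by simp) (by simpa using qq_pos n)]
    simp [free_zero, z]
  obtain ⟨N, hN⟩ := qq_dvd b2
  have hq := qq_posR l
  have hq' := qq_pos' l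
  have hN' : (qq n : ℝ) = N * qq l := by rw [hN]; push_cast; ring
  have c1 := b1 k (pt z) rfl
  have c2 : |bs (TT S True) (qq n) (f k) (pt z) -
      bs (TT S True) (qq n) ((av l (f k)).comp (bt l)) (pt z)| ≤ qq n * ε := by
    rw [hN', hN, mul_comm (qq l), bs_blocks, bs_blocks, ← sum_sub_distrib]
    refine (abs_sum_le_sum_abs _ _).trans ((sum_le_sum (g := fun _ => qq l * ε) fun j _ => ?_).trans_eq
      (by simp [mul_assoc]))
    rw [bs_bt _ (by simp)]
    exact a1 k _ (by simp)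
  have c3 := bs_pt z b2 (av l (f k)) (hb k)
  have c4 : |∑ i ∈ range (qq n), (av l (f k) fun a => z (i / qq l * qq l + a)) -
      qq l * ∑ j ∈ range N, av l (f k) (bt l (x j))| ≤ qq l * (2 * ‖f‖) := by
    rw [hN, mul_comm (qq l), sum_range_blocks, mul_sum, ← sum_sub_distrib]
    have e : ∀ j : ℕ, ∀ i ∈ range (qq l), ((j * qq l + i : ℕ) : ℤ) / qq l = j := fun j i hi => by
      push_cast
      rw [add_comm, Int.add_mul_ediv_right _ _ hq'.ne',
        Int.ediv_eq_zero_of_lt (by omega) (by simpa using hi), zero_add]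
    simp only [fun j => sum_congr rfl fun i hi => congrArg
      (fun t => av l (f k) fun a => z (t * qq l + a)) (e j i hi), sum_const, card_range,
      nsmul_eq_mul, ← mul_sub, ← mul_sum, abs_mul, abs_of_pos hq]
    gcongr
    refine (abs_sum_le_sum_abs _ _).trans ((sum_le_sum (g := fun j => if j = 0 then 2 * ‖f‖ else 0)
      fun j _ => ?_).trans ?_)
    · split_ifs with h
      · exact (abs_sub _ _).trans ((add_le_add (hb _ _) (hb _ _)).trans (by linarith))
      · have : (fun a : FF l => z (j * qq l + a)) = bt l (x j) := funext fun a => by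
          have h2 := FF_lt a
          have h3 : (0 : ℤ) < j * qq l := by positivity
          have h4 := e j a (mem_range.2 (by omega))
          push_cast at h4
          simp only [z, if_neg (show (j : ℤ) * qq l + a ≠ 0 by omega), h4, Int.toNat_natCast]
          exact per_apply _ a (by
            rw [add_comm, Int.add_mul_emod_self_right, Int.emod_eq_of_lt (by omega) h2])
        simp [this]
    · rw [sum_ite_eq']
      split_ifs
      exacts [le_rfl, by positivity]
  have c5 : |∑ j ∈ range N, (av l (f k) (bt l (x j)) - m.μ ((av l (f k)).comp (bt l)))| ≤ N * ε := by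
    refine abs_le_of_sq_le_sq ((hx N k).trans ?_) (by positivity)
    rw [hN', mul_comm (N : ℝ), mul_assoc] at b3
    have := mul_le_mul_of_nonneg_left (le_of_mul_le_mul_left b3 hq) (Nat.cast_nonneg N)
    linarith
  have c6 := mul_le_mul_of_nonneg_left (a2 k m) (qq_posR n).le
  have c7 := mul_le_mul_of_nonneg_left c5 hq.le
  have c8 := mul_le_mul_of_nonneg_left a3 (qq_posR n).le
  rw [sum_sub_distrib, sum_const, card_range, nsmul_eq_mul, ← abs_of_pos hq, ← abs_mul,
    abs_of_pos hq, mul_sub, ← mul_assoc, ← mul_assoc, mul_comm _ (N : ℝ), ← hN'] at c7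
  refine le_of_mul_le_mul_left ?_ (qq_posR n)
  rw [← abs_of_pos (qq_posR n), ← abs_mul, abs_of_pos (qq_posR n), mul_sub] at c6 ⊢
  rw [abs_le] at *
  constructor <;> linarith

theorem peakT [Infinite S.K] {A : Type} [CStarAlgebra A] (R : Reg (TT S True) A) : PeakT R := by
  intro ε hε κ _ f r _ σ
  have hε' : 0 < ε / 8 := by positivity
  obtain ⟨mk⟩ : Nonempty (r ↪ S.K) :=
    ⟨((Fintype.equivFin r).toEmbedding.trans Fin.valEmbedding).trans (Infinite.natEmbedding _)⟩
  obtain ⟨n, a1, a2, a3, a4⟩ := ((eventually_all.2 fun i => exists_block (R.is (σ i)) f hε' (mk i)).and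
    ((eventually_all.2 fun k => is_approx (f k) hε').and ((ev_half ‖f‖ hε').and (ev_half 1 hε)))).exists
  choose y hy hy' using a1
  choose τ hτ using fun y : Blk S n => exists_per R y
  obtain ⟨ι, _, g, c, g0, g1, g2, g3⟩ := exists_pu (fun k => av n (f k)) hε' (y := y)
    fun i j h => mk.injective (by rw [← hy, h, hy])
  have g4 : ∀ z, ∑ α, g α z = 1 := fun z => by simpa using congrArg (· z) g1
  refine ⟨ι, inferInstance, fun α => (g α).comp (bt n), fun α => τ (c α), fun α x => g0 α _,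
    by ext x; simpa using g4 _, fun ω k => ?_, fun i => ⟨τ (y i), ?_⟩⟩
  · have h1 : ∀ α, |av n (f k) (Sum.elim y c α) -
        (R.is (Sum.elim σ (fun α => τ (c α)) α)).μ (f k)| ≤ 6 * (ε / 8) := by
      rintro (i | α)
      · exact (abs_sub_comm _ _).trans_le (hy' i k)
      · have b1 := abs_le.1 (hτ (c α) (av n (f k)) _
          fun y => (av_le _ _ _).trans (norm_le_pi_norm f k))
        have b2 := abs_le.1 (a2 k (R.is (τ (c α))))
        simp only [Sum.elim_inr, abs_le]
        constructor <;> linarith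
    have h2 := (R.is ω).abs_sub_le (f := (av n (f k)).comp (bt n)) (c := 7 * (ε / 8))
      (g := ∑ α, (R.is (Sum.elim σ (fun α => τ (c α)) α)).μ (f k) • (g α).comp (bt n)) fun x => by
        rw [← one_mul ((av n (f k)).comp (bt n) x), ← one_mul (7 * _ : ℝ), ← g4 (bt n x), sum_mul, sum_mul,
          ContinuousMap.coe_sum, Finset.sum_apply, ← sum_sub_distrib]
        refine (abs_sum_le_sum_abs _ _).trans (sum_le_sum fun α _ => ?_)
        change |g α (bt n x) * av n (f k) (bt n x) - _ * g α (bt n x)| ≤ _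
        rw [mul_comm _ (g α _), ← mul_sub, abs_mul, abs_of_nonneg (g0 _ _)]
        by_cases h : g α (bt n x) = 0
        · simp [h]
        · exact mul_le_mul_of_nonneg_left ((abs_sub_le _ _ _).trans
            ((add_le_add (g3 α _ h k) (h1 α)).trans (by linarith))) (g0 _ _)
    simp only [map_sum, map_smul, smul_eq_mul] at h2
    simp only [mul_comm ((R.is ω).μ _)]
    exact (abs_sub_le _ _ _).trans ((add_le_add (a2 k (R.is ω)) h2).trans (by linarith))
  · have := (abs_le.1 (hτ (y i) (g (.inl i)) 1 fun z => by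
      rw [abs_of_nonneg (g0 _ _), ← g4 z]
      exact single_le_sum (fun α _ => g0 α z) (mem_univ _))).1
    linarith [g2 i]

theorem exists_gamma {S S' : Seed} [Infinite S.K] [Infinite S'.K] {A A' : Type} [CStarAlgebra A]
    [PartialOrder A] [StarOrderedRing A] [CStarAlgebra A'] [PartialOrder A'] [StarOrderedRing A']
    (R : Reg (TT S True) A) (R' : Reg (TT S' True) A') : ∃ γ : TS A' ≃ₜ TS A,
      ∀ (σ τ ω : TS A') (t : ℝ), 0 ≤ t → t ≤ 1 → IsComb t σ τ ω → IsComb t (γ σ) (γ τ) (γ ω) := by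
  obtain ⟨E, j, c, v, p, h⟩ := R.emb (hasTowers _ _) (peakT R)
  obtain ⟨E', j', c', v', p', h'⟩ := R'.emb (hasTowers _ _) (peakT R')
  obtain ⟨τ, -⟩ := exists_per R (n := 0) 0
  obtain ⟨τ', -⟩ := exists_per R' (n := 0) 0
  obtain ⟨γ, hγ⟩ := poulsen c' v' p' c v p ⟨_, (j' τ').2⟩ ⟨_, (j τ).2⟩
  refine ⟨j'.trans (γ.trans j.symm), fun σ τ ω t h0 h1 hc => (h _ _ _ _).2 ?_⟩
  simpa using hγ (Fin 2) ![t, 1 - t] ![j' σ, j' τ] (j' ω) (by simp [Fin.forall_fin_two, h0, h1])
    (by simp) (by simpa using (h' _ _ _ _).1 hc)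

end

end Pool.Agent.P.MP_456758_an
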