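import Pool.Agent.P.MP_456758_an.Hom

/-! The upper bound: comparison up to a weighted count of the free coordinates. -/

namespace Pool.Agent.P.MP_456758_an

open Filter Topology Finset Sys
open scoped Classical ComplexOrder

noncomputable section

attribute [-simp] zpow_natCast zpow_neg

section Alg

variable {D : Type} [CStarAlgebra D] [PartialOrder D] [StarOrderedRing D] {τ : D →ₗ[ℂ] ℂ}

lemma le_compress {a c x : D} (ha : 0 ≤ a) (hc : IsStarProjection c) (hx : IsSelfAdjoint x) {σ : ℝ}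
    (h : ‖c * a * c - x‖ ≤ σ) (θ : ℝ) :
    a - algebraMap ℝ D (2 * (σ + θ)) ≤ (2 : ℝ) • (x - algebraMap ℝ D θ + ‖a‖ • (1 - c)) := by
  have h1 := (hc.2.sub hc.one_sub.2).conjugate_nonneg ha
  have h2 := hc.one_sub.2.conjugate_le_conjugate ha.isSelfAdjoint.le_algebraMap_norm_self
  rw [Algebra.algebraMap_eq_smul_one, mul_smul_comm, smul_mul_assoc, mul_one, hc.one_sub.1.eq] at h2
  have h3 := sub_le_of_norm_le (hc.2.conjugate_nonneg ha).isSelfAdjoint hx h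
  have h4 := add_nonneg h1 (smul_nonneg (zero_le_two (α := ℝ))
    (add_nonneg (sub_nonneg.2 h2) (sub_nonneg.2 h3)))
  refine sub_nonneg.1 (h4.trans_eq ?_)
  simp only [mul_sub, sub_mul, mul_one, one_mul, Algebra.algebraMap_eq_smul_one]
  module

omit [PartialOrder D] [StarOrderedRing D] in
lemma conj_two (y : D) : algebraMap ℝ D √2 * y * star (algebraMap ℝ D √2) = (2 : ℝ) • y := by
  simp [Algebra.algebraMap_eq_smul_one, smul_smul]

lemma up_a1 {a c x : D} (ha : 0 ≤ a) (hc : IsStarProjection c) (hx : IsSelfAdjoint x) {σ ε : ℝ}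
    (h : ‖c * a * c - x‖ ≤ σ) (hε : σ < ε) :
    CuntzLE (pp (6 * ε) a) (pp (2 * ε) (x + (‖a‖ : ℂ) • (1 - c))) := by
  rw [Complex.coe_smul]
  refine (cuntz_pp_of_le (s := 2 * (σ + 2 * ε)) (by linarith) ha.isSelfAdjoint ?_).trans
    (cuntz_conj (algebraMap ℝ D √2) _)
  rw [conj_two]
  refine (le_compress ha hc hx h _).trans (smul_le_smul_of_nonneg_left ?_ zero_le_two)
  rw [sub_add_eq_add_sub]
  exact sub_le_pp _ (hx.add (.smul (.all _) hc.one_sub.2))

lemma up_a2 (hτ : IsTrace τ) {a c x : D} (ha : 0 ≤ a) (hc : IsStarProjection c)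
    (hx : IsSelfAdjoint x) {σ ε : ℝ} (h : ‖c * a * c - x‖ ≤ σ) (h0 : 0 < ε) (hε : σ ≤ ε / 8) :
    (τ (fc (ramp (ε / 2)) (x + (‖a‖ : ℂ) • (1 - c)))).re ≤
      LL τ a (ramp (ε / 16)) + (τ (1 - c)).re := by
  rw [Complex.coe_smul]
  refine hτ.cfc_le (v := c) (s := σ + ε / 8) (s' := ε / 2) (θ := ε / 8)
    (hx.add (.smul (.all _) hc.one_sub.2)) hc.one_sub (norm_nonneg a) (by linarith) ?_ (ramp_cont _)
    (ramp_nonneg (by linarith)) (ramp_le_one _) (fun _ => ramp_zero) (ramp_cont _)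
    (ramp_nonneg (by linarith)) fun t ht => ramp_one (by linarith) (by linarith)
  have h1 := sub_le_of_norm_le hx (hc.2.conjugate_nonneg ha).isSelfAdjoint
    ((norm_sub_rev _ _).trans_le h)
  have h2 := hc.2.conjugate_le_conjugate (sub_le_pp (ε / 8) ha.isSelfAdjoint)
  have h3 := smul_nonneg (show 0 ≤ ε / 8 by linarith) hc.one_sub.nonneg
  refine sub_nonneg.1 ((add_nonneg (add_nonneg (sub_nonneg.2 h1) (sub_nonneg.2 h2)) h3).trans_eq ?_)
  simp only [mul_sub, sub_mul, Algebra.algebraMap_eq_smul_one, mul_smul_comm, smul_mul_assoc,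
    mul_one, hc.1.eq, hc.2.star_eq]
  module

lemma up_b1 {b c x : D} (hb : 0 ≤ b) (hc : IsStarProjection c) (hx : IsSelfAdjoint x) {σ θ : ℝ}
    (h : ‖c * b * c - x‖ ≤ σ) (hθ : σ < θ) : CuntzLE (pp θ x) b := by
  refine (cuntz_pp_of_le hθ hx ?_).trans (cuntz_conj c b)
  rw [hc.2.star_eq]
  exact sub_le_of_norm_le hx (hc.2.conjugate_nonneg hb).isSelfAdjoint ((norm_sub_rev _ _).trans_le h)

lemma up_b2 (hτ : IsTrace τ) {b c x : D} (hb : 0 ≤ b) (hc : IsStarProjection c)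
    (hx : IsSelfAdjoint x) {σ θ : ℝ} (h : ‖c * b * c - x‖ ≤ σ) (h0 : 0 < θ) (hθ : σ < θ) :
    LL τ b (ramp (6 * θ)) ≤ (τ (fc (ramp θ) x)).re + (τ (1 - c)).re := by
  refine hτ.cfc_le (v := algebraMap ℝ D √2) (s := 2 * (σ + 2 * θ)) (s' := 6 * θ) (θ := 2 * θ)
    (C := 2 * ‖b‖) hb.isSelfAdjoint hc.one_sub (by positivity) (by linarith) ?_ (ramp_cont _)
    (ramp_nonneg (by linarith)) (ramp_le_one _) (fun _ => ramp_zero) (ramp_cont _)
    (ramp_nonneg h0.le) fun t ht => ramp_one h0 ht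
  rw [conj_two, mul_smul, ← smul_add]
  exact (le_compress hb hc hx h _).trans (smul_le_smul_of_nonneg_left
    (add_le_add_left (sub_le_pp _ hx) _) zero_le_two)

lemma gap {Ω : Type} [TopologicalSpace Ω] [CompactSpace Ω] {tr : Ω → D →ₗ[ℂ] ℂ}
    (htr : ∀ ω, IsTrace (tr ω)) (hc : ∀ d, Continuous fun ω => tr ω d) {h : Ω → ℝ}
    (hh : Continuous h) {a b : D} (ha : 0 ≤ a) (hb : 0 ≤ b)
    (hab : ∀ ω, dimFun (tr ω) a + h ω < dimFun (tr ω) b) {ε : ℝ} (hε : 0 < ε) :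
    ∃ δ > 0, ∀ ω, LL (tr ω) a (ramp ε) + h ω + δ < LL (tr ω) b (ramp δ) := by
  have hL : ∀ d f, Continuous fun ω => LL (tr ω) d f := fun d f => Complex.continuous_re.comp (hc _)
  have mono : ∀ ω (δ δ' : ℝ), 0 < δ → δ ≤ δ' → LL (tr ω) b (ramp δ') ≤ LL (tr ω) b (ramp δ) :=
    fun ω δ δ' h0 h1 => (htr ω).qt.LL_mono (ramp_cont _) (ramp_cont _) fun t _ => ramp_anti h0 h1 t
  have := isCompact_univ.eventually_forall_of_forall_eventually (x₀ := (0 : ℝ))
    (P := fun δ ω => 0 < δ → LL (tr ω) a (ramp ε) + h ω + δ < LL (tr ω) b (ramp δ)) fun ω _ => by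
      obtain ⟨δ, hδ, h1⟩ := (htr ω).qt.dim_le_LL hb ((add_le_add_left ((htr ω).qt.LL_le_dim ha
        (ramp_cont ε) (ramp_zero hε.le).le (ramp_le_one ε)) _).trans_lt (hab ω))
      have h2 : ∀ᶠ z : ℝ × Ω in 𝓝 (0, ω),
          LL (tr z.2) a (ramp ε) + h z.2 + z.1 < LL (tr z.2) b (ramp δ) :=
        ContinuousAt.eventually_lt (((((hL _ _).add hh).comp continuous_snd).add
          continuous_fst).continuousAt) ((hL _ _).comp continuous_snd).continuousAt
          (by simpa using h1)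
      have h3 : ∀ᶠ z : ℝ × Ω in 𝓝 (0, ω), z.1 < δ :=
        ContinuousAt.eventually_lt continuousAt_fst continuousAt_const hδ
      filter_upwards [h2, h3] with z h2 h3 h4 using h2.trans_le (mono _ _ _ h4 h3.le)
  obtain ⟨δ, h1, h2⟩ := ((this.filter_mono nhdsWithin_le_nhds).and
    (self_mem_nhdsWithin (s := Set.Ioi 0))).exists
  exact ⟨δ, h2, fun ω => h1 ω trivial h2⟩

end Alg

variable {S : Seed} {A : Type} [CStarAlgebra A] (R : Reg (TT S True) A)

/-- The weighted indicator function of the free coordinates. -/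
def hf (φ : C(S.K, ℝ)) (n : ℕ) : C(Sys S True, ℝ) :=
  (tw S True n).fn (fun a => if Free n a then 1 else 0) * φ.comp ⟨fun p => p.x 0, x_cont 0⟩

lemma bs_hf (φ : C(S.K, ℝ)) {n : ℕ} {p : Sys S True} (hp : p.o n = 0) (N : ℕ) :
    bs (TT S True) N (hf φ n) p = ∑ i ∈ range N, if Free n i then φ (p.x i) else 0 :=
  sum_congr rfl fun i _ => by simp [hf, hp, Free_congr (Int.mod_modEq i (qq n))]

/-- The weighted count of the coordinates of a block. -/
def wt (φ : C(S.K, ℝ)) (m : ℕ) : C(Blk S m, ℝ) :=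
  ⟨fun y => (qq m : ℝ)⁻¹ * ∑ a, φ (y a), by fun_prop⟩

lemma wt_le (φ : C(S.K, ℝ)) (m : ℕ) (y : Blk S m) : |wt φ m y| ≤ ‖φ‖ := by
  change |(_ * _ : ℝ)| ≤ _
  rw [abs_mul, abs_inv, Nat.abs_cast, inv_mul_le_iff₀ (qq_posR m)]
  refine (norm_sum_le_of_le _ fun a _ => φ.norm_coe_le_norm (y a)).trans ?_
  rw [sum_const, card_univ, Fintype.card_coe, nsmul_eq_mul]
  gcongr
  exact (card_filter_le _ _).trans (card_range _).le

lemma wt_le_hf {φ : C(S.K, ℝ)} (h0 : ∀ κ, 0 ≤ φ κ) {n m : ℕ} (h : n ≤ m) (μ : IS (TT S True)) :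
    μ.μ ((wt φ m).comp (bt m)) ≤ μ.μ (hf φ n) := by
  refine ((tw S True m).le_add μ (c := 0) fun p hp => ?_).trans_eq (add_zero _)
  have hp' : p.o m = 0 := hp
  rw [bs_bt _ hp, bs_hf _ (by rw [← p.o_mod h, hp', Int.zero_emod]), mul_zero, add_zero]
  refine (mul_inv_cancel_left₀ (qq_posR m).ne' _).trans_le ?_
  simp only [bt_apply, hp', sub_zero]
  rw [sum_coe_sort (FF m) fun a => φ (p.x a), FF, sum_filter]
  refine sum_le_sum fun i _ => ?_
  split_ifs with h1 h2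
  exacts [le_rfl, (h2 (h1.mono h)).elim, h0 _, le_rfl]

lemma homog_blk {φ : C(S.K, ℝ)} {W : S.K → Prop} (hW : ∀ κ, W κ → κ.1.2 = 0)
    (h1 : ∀ κ, 1 / 2 ≤ φ κ) (h2 : ∀ κ, ¬W κ → 1 ≤ φ κ) {ι : Type} [Fintype ι] [DecidableEq ι] {m : ℕ}
    {α β : MB S ι m} (hα : IsSelfAdjoint α) (hβ : IsSelfAdjoint β) (lα : Lip α) (lβ : Lip β)
    {ε θ : ℝ} (hε : 0 < ε)
    (hr : ∀ y, trf (fc (ramp (ε / 2)) α) y + wt φ m y ≤ trf (fc (ramp θ) β) y) :
    CuntzLE (pp (2 * ε) α) (pp θ β) := by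
  refine homog hα hβ lα lβ hε (fun y => ({a | ¬W (y a)} : Finset (FF m))) (fun s => FF m ⊕ s)
    (fun s z => Sum.elim (fun a => (z.1 a).1.1) fun a => (z.1 a).1.2) (fun s => ?_) fun y => ?_
  · refine .of_le_mul_dist fun z z' => ?_
    rw [NNReal.coe_one, one_mul, Subtype.dist_eq]
    have := dist_le_pi_dist (Sum.elim (fun a => (z.1 a).1.1) fun a : s => (z.1 a).1.2)
      (Sum.elim (fun a => (z'.1 a).1.1) fun a : s => (z'.1 a).1.2)
    refine (dist_pi_le_iff dist_nonneg).2 fun a => max_le (this (.inl a)) ?_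
    by_cases h : a ∈ s
    · exact this (.inr ⟨a, h⟩)
    · rw [hW _ (by simpa [← z.2] using h), hW _ (by simpa [← z'.2] using h), dist_self]
      exact dist_nonneg
  · have a1 := rank_le_tr (hα.map (evz y)) (ramp_cont (ε / 2)) (ramp_nonneg (by linarith))
      (ε := ε) fun t ht => (ramp_one (by linarith) (by linarith)).ge
    have a2 := tr_le_rank (hβ.map (evz y)) (ramp_cont θ) (fun t ht => (ramp_zero ht).le)
      (ramp_le_one θ)
    have a3 := mul_le_mul_of_nonneg_left (hr y) (qq_posR m).le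
    rw [mul_add, trf_mul, trf_mul, map_fc _ (ramp_cont _) hα, map_fc _ (ramp_cont _) hβ] at a3
    have a4 : (Fintype.card (FF m ⊕ ({a | ¬W (y a)} : Finset (FF m))) : ℝ) ≤
        2 * (qq m * wt φ m y) := by
      refine le_trans ?_ (congrArg (2 * ·) (mul_inv_cancel_left₀ (qq_posR m).ne' _)).ge
      rw [Fintype.card_sum, Fintype.card_coe (filter _ _), card_filter, ← card_univ,
        card_eq_sum_ones, ← sum_add_distrib, mul_sum, Nat.cast_sum]
      refine sum_le_sum fun a _ => ?_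
      split_ifs with h <;> push_cast
      exacts [by linarith [h1 (y a)], by linarith [h2 _ h]]
    exact_mod_cast (by linarith : (2 * (toM (pp ε (evz y α))).rank + Fintype.card
      (FF m ⊕ ({a | ¬W (y a)} : Finset (FF m))) : ℝ) < 2 * (toM (pp θ (evz y β))).rank + 2)

theorem Reg.upper [PartialOrder A] [StarOrderedRing A] {φ : C(S.K, ℝ)} {W : S.K → Prop}
    (hW : ∀ κ, W κ → κ.1.2 = 0) (h1 : ∀ κ, 1 / 2 ≤ φ κ) (h2 : ∀ κ, ¬W κ → 1 ≤ φ κ) (n : ℕ) {k : ℕ}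
    {a b : Mat A k} (ha : 0 ≤ a) (hb : 0 ≤ b)
    (h : ∀ τ, dimFun (trM τ k) a + (R.is τ).μ (hf φ n) < dimFun (trM τ k) b) : CuntzLE a b := by
  refine cuntz_of_pp ha fun ε' hε' => ?_
  obtain ⟨ε, rfl⟩ : ∃ ε, ε' = 6 * ε := ⟨ε' / 6, by ring⟩
  have hε : 0 < ε := by linarith
  have hc : ∀ d, Continuous fun τ : TS A => trL τ k d := fun d =>
    continuous_finsetSum (f := fun i (τ : TS A) => τ.ev (d i i)) univ fun i _ => TS.cont_ev _
  have h' : ∀ τ, dimFun (trL τ k) a + (R.is τ).μ (hf φ n) < dimFun (trL τ k) b := h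
  have t1 := gap (D := Mat A k) (tr := fun τ : TS A => trL τ k) (trL_isTrace · k)
  obtain ⟨δ', hδ', hg⟩ := t1 hc (R.is_cont (hf φ n)) ha hb h' (show 0 < ε / 16 by positivity)
  obtain ⟨θ, rfl⟩ : ∃ θ, δ' = 6 * θ := ⟨δ' / 6, by ring⟩
  have hθ : 0 < θ := by linarith
  obtain ⟨J, hα, hβ⟩ := ((R.compress ha.isSelfAdjoint (show 0 < ε / 8 by positivity)).and
    (R.compress hb.isSelfAdjoint (half_pos hθ))).exists
  obtain ⟨m, ⟨α, α1, α2, α3⟩, ⟨β, β1, β2, β3⟩, m1, m2, m3, m4⟩ := (hα.and (hβ.and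
    ((eventually_ge_atTop n).and ((ev_qq (k * (2 * J)) hθ).and ((ev_half k hθ).and
    (ev_half ‖φ‖ hθ)))))).exists
  have hc := (Cm_proj (S := S) k m J).map (R.Φ k m)
  have hp := (Cm_proj (S := S) k m J).one_sub
  have e : R.Φ k m α + (‖a‖ : ℂ) • (1 - R.Φ k m (Cm S k m J)) =
      R.Φ k m (α + (‖a‖ : ℂ) • (1 - Cm S k m J)) := by
    rw [map_add, map_smul, map_sub, map_one]
  have α4 : IsSelfAdjoint (α + (‖a‖ : ℂ) • (1 - Cm S k m J)) :=
    α1.add (.smul (Complex.conj_ofReal _) hp.2)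
  refine (up_a1 ha hc (α1.map _) α3 (by linarith)).trans
    (CuntzLE.trans ?_ (up_b1 hb hc (β1.map _) β3 (half_lt_self hθ)))
  rw [e, ← map_pp _ _ α4, ← map_pp _ _ β1]
  refine (homog_blk hW h1 h2 α4 β1 (lip_of fun i j => ?_) (lip_of β2) hε fun y => ?_).map _
  · obtain ⟨L, hL⟩ := α2 i j
    refine ⟨L, .of_dist_le_mul fun z z' => le_of_eq_of_le ?_ (hL.dist_le_mul z z')⟩
    have : (1 - Cm S k m J) i j z = (1 - Cm S k m J) i j z' := by
      simp only [Cm, CStarMatrix.one_apply, CStarMatrix.sub_apply, CStarMatrix.ofMatrix_apply]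
      split_ifs <;> rfl
    change dist (α i j z + _ * (1 - Cm S k m J) i j z) (α i j z' + _ * (1 - Cm S k m J) i j z') = _
    rw [this, dist_add_right]
  obtain ⟨τ, hτ⟩ := exists_per R y
  have key : ∀ γ : MB S (Fin k × Fin (qq m)) m, IsSelfAdjoint γ → ∀ s > 0,
      |(trL τ k (fc (ramp s) (R.Φ k m γ))).re - trf (fc (ramp s) γ) y| ≤ θ := fun γ hγ s hs => by
    rw [← map_fc _ (ramp_cont s) hγ, R.tr_Φ]
    refine (hτ _ k fun z => abs_le.2 ⟨(neg_nonpos.2 k.cast_nonneg).trans (le_of_mul_le_mul_left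
      ?_ (qq_posR m)), le_of_mul_le_mul_left ?_ (qq_posR m)⟩).trans m3 <;>
      rw [trf_mul, map_fc _ (ramp_cont s) hγ]
    · exact (mul_zero _).trans_le ((Nat.cast_nonneg _).trans (rank_le_tr (hγ.map _) (ramp_cont s)
        (ramp_nonneg hs.le) fun t ht => (ramp_one hs ht.le).ge))
    · refine (tr_le_rank (hγ.map _) (ramp_cont s) (fun t ht => (ramp_zero ht).le)
        (ramp_le_one s)).trans ?_
      exact_mod_cast (Matrix.rank_le_card_width _).trans_eq (by simp [mul_comm])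
  have b1 := up_a2 (trL_isTrace τ k) ha hc (α1.map _) α3 hε le_rfl
  have b2 := up_b2 (trL_isTrace τ k) hb hc (β1.map _) β3 hθ (half_lt_self hθ)
  have b3 : (trL τ k (1 - R.Φ k m (Cm S k m J))).re ≤ θ := by
    rw [← map_one (R.Φ k m), ← map_sub, R.tr_Φ, ← (R.is τ).const θ]
    exact (R.is τ).mono fun p => le_of_mul_le_mul_left ((trf_Cm k m J _).trans m2) (qq_posR m)
  have b4 := abs_le.1 (key _ α4 _ (half_pos hε))
  have b5 := abs_le.1 (key _ β1 _ hθ)
  have b6 := abs_le.1 ((hτ _ _ (wt_le φ m)).trans m4)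
  have b7 := wt_le_hf (fun κ => by linarith [h1 κ]) m1 (R.is τ)
  rw [e] at b1
  linarith [hg τ]

end

end Pool.Agent.P.MP_456758_an
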