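import Pool.Agent.P.MP_456758_an.Lower
import Pool.Agent.P.MP_456758_an.Upper
import Pool.Agent.P.MP_456758_an.Simplex

/-! The radius of comparison and the invariant that separates the two algebras. -/

namespace Pool.Agent.P.MP_456758_an

open Filter Topology Finset Sys
open scoped Classical ComplexOrder NNReal

noncomputable section

attribute [-simp] zpow_natCast zpow_neg

variable {A : Type} [CStarAlgebra A] [PartialOrder A] [StarOrderedRing A]

/-- A tracial state as a quasitrace. -/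
def TS.qt (τ : TS A) : QT A where
  σ := trM τ
  isQuasitrace n := (trL_isTrace τ n).qt
  corner n a := by rw [trM_dsum]; simp [trM, ← TS.lin_apply]
  normalized := by simpa [trM, TS.ev] using τ.2.1

lemma QT.E0_one (τ : QT A) : τ.σ 2 (E0 1) = 1 := by
  rw [← τ.normalized, ← τ.corner 1 1]
  congr 1
  ext i j
  fin_cases i <;> fin_cases j <;> rfl

theorem Reg.rc_eq {S : Seed} (R : Reg (TT S True) A) {u : ℝ × ℝ} {δ : ℝ} (hδ : 0 < δ)
    (hu : ∀ v : ℝ × ℝ, ‖v‖ ≤ 1 → u + δ • v ∈ S.K) : rc A = ENNReal.ofReal rho := by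
  refine le_antisymm (le_of_forall_gt_imp_ge_of_dense fun r hr => ?_) (le_iInf₂ fun r hr => ?_)
  · induction r with
    | top => exact le_top
    | coe r =>
    rw [ENNReal.ofReal_lt_coe_iff (by linarith [half_le_rho])] at hr
    obtain ⟨n, hn⟩ := (rhoN_tendsto.eventually_lt_const hr).exists
    refine iInf₂_le r fun k a b ha hb h => R.upper (φ := 1) (W := fun _ => False) (by simp)
      (by norm_num) (by simp) n ha hb fun τ => lt_of_le_of_lt ?_ (h τ.qt)
    have := (tw S True n).le_add (R.is τ) (f := hf 1 n) (g := 0) (c := rhoN n) fun p hp => by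
      rw [bs_hf _ hp, ← rhoN_eq]; simp [bs]
    rw [map_zero, zero_add] at this
    exact add_le_add_right (this.trans hn.le) _
  · refine ENNReal.ofReal_le_coe.2 (not_lt.1 fun h => ?_)
    obtain ⟨a, b, ha, hb, h1, h2⟩ := R.lower (f := .const _ r)
      (fun _ => (h.le.trans rho_le_one).trans (by norm_num)) h (Eventually.of_forall fun n =>
      ⟨Set.univ, fun _ => u, δ, isOpen_univ, hδ,
        fun v hv => ⟨fun i => ⟨_, hu _ (hv i)⟩, trivial, fun _ => rfl⟩, fun p _ _ => by simp [bs]⟩)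
    exact h1 (hr 2 a b ha hb fun τ => by
      simpa only [IS.const] using h2 _ (τ.isQuasitrace 2) τ.E0_one)

variable (A) in
/-- Comparison up to a function on the traces that is small somewhere. -/
def PP (c : ℝ) : Prop := ∃ h : A, ‖h‖ ≤ 1 ∧ (∃ τ : TS A, (τ.ev h).re < c) ∧
  ∀ a b : Mat A 2, 0 ≤ a → 0 ≤ b →
    (∀ τ : TS A, dimFun (trM τ 2) a + (τ.ev h).re < dimFun (trM τ 2) b) → CuntzLE a b

lemma dimFun_map {D E : Type} [CStarAlgebra D] [CStarAlgebra E] (ψ : D →⋆ₐ[ℂ] E) (σ : E → ℂ)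
    {a : D} (ha : IsSelfAdjoint a) : dimFun σ (ψ a) = dimFun (fun x => σ (ψ x)) a :=
  congrArg (limUnder atTop) (funext fun n => congrArg (fun x => (σ x).re)
    (map_fc ψ (Real.continuous_rpow_const (by positivity)) ha).symm)

lemma hom_nonneg {D E : Type} [CStarAlgebra D] [CStarAlgebra E] [PartialOrder D] [StarOrderedRing D]
    [PartialOrder E] [StarOrderedRing E] (ψ : D →⋆ₐ[ℂ] E) {a : D} (ha : 0 ≤ a) : 0 ≤ ψ a :=
  map_nonneg ψ ha

lemma PP.map {B : Type} [CStarAlgebra B] [PartialOrder B] [StarOrderedRing B] (φ : A →⋆ₐ[ℂ] B)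
    (ψ : B →⋆ₐ[ℂ] A) (h1 : ∀ a, ψ (φ a) = a) (h2 : ∀ b, φ (ψ b) = b) {c : ℝ} (h : PP A c) :
    PP B c := by
  obtain ⟨h, h3, ⟨τ, h4⟩, h5⟩ := h
  refine ⟨φ h, (NonUnitalStarAlgHom.norm_apply_le φ h).trans h3,
    ⟨τ.comap ψ, by rwa [TS.comap_ev, h1]⟩, fun a b ha hb h6 => ?_⟩
  have e : ∀ a : Mat B 2, amp _ φ (amp _ ψ a) = a := fun a => CStarMatrix.ext fun i j => h2 _
  have := (h5 _ _ (hom_nonneg (amp _ ψ) ha) (hom_nonneg (amp _ ψ) hb) fun σ => ?_).map (amp _ φ)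
  · rwa [e, e] at this
  · have := h6 (σ.comap ψ)
    rwa [TS.comap_ev, h1, show trM (σ.comap ψ) 2 = fun x => trM σ 2 (amp _ ψ x) from rfl,
      ← dimFun_map _ _ ha.isSelfAdjoint, ← dimFun_map _ _ hb.isSelfAdjoint] at this

/-- The square. -/
def S1 : Seed where
  K := Set.Icc 0 1 ×ˢ Set.Icc 0 1
  compact := isCompact_Icc.prod isCompact_Icc
  zero := ⟨by simp, by simp⟩
  star κ h t h0 h1 := ⟨⟨mul_nonneg h0 h.1.1, mul_le_one₀ h1 h.1.1 h.1.2⟩,
    mul_nonneg h0 h.2.1, mul_le_one₀ h1 h.2.1 h.2.2⟩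

/-- A rectangle with a whisker. -/
def S2 : Seed where
  K := Set.Icc 0 (1 / 2) ×ˢ Set.Icc 0 1 ∪ Set.Icc 0 1 ×ˢ {0}
  compact := (isCompact_Icc.prod isCompact_Icc).union (isCompact_Icc.prod isCompact_singleton)
  zero := by simp
  star κ h t h0 h1 := h.imp (fun h => ⟨⟨mul_nonneg h0 h.1.1,
    (mul_le_of_le_one_left h.1.1 h1).trans h.1.2⟩, mul_nonneg h0 h.2.1, mul_le_one₀ h1 h.2.1 h.2.2⟩)
    fun h => ⟨⟨mul_nonneg h0 h.1.1, mul_le_one₀ h1 h.1.1 h.1.2⟩, mul_eq_zero_of_right t h.2⟩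

lemma box_mem (v : ℝ × ℝ) (hv : ‖v‖ ≤ 1) :
    ((1 / 4, 1 / 4) + (1 / 4 : ℝ) • v : ℝ × ℝ) ∈ Set.Icc (0 : ℝ) (1 / 2) ×ˢ Set.Icc (0 : ℝ) 1 := by
  have h1 := abs_le.1 ((norm_fst_le v).trans hv)
  have h2 := abs_le.1 ((norm_snd_le v).trans hv)
  refine ⟨⟨?_, ?_⟩, ?_, ?_⟩ <;> simp <;> linarith

instance : Infinite S1.K := Set.Infinite.to_subtype
  ((Set.Icc_infinite zero_lt_one).prod_left ⟨0, by simp⟩)

instance : Infinite S2.K := Set.Infinite.to_subtype
  (((Set.Icc_infinite zero_lt_one).prod_left (Set.singleton_nonempty 0)).mono Set.subset_union_right)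

theorem not_PP (R : Reg (TT S1 True) A) : ¬PP A (3 / 4 * rho) := by
  rintro ⟨h, h1, ⟨τ₀, h2⟩, h3⟩
  have r0 := half_le_rho
  have r1 := rho_le_one
  have hε : 0 < rho / 32 := by linarith
  obtain ⟨g, hg⟩ := R.dense.exists_dist_lt h hε
  rw [dist_eq_norm] at hg
  have h4 : ∀ τ : TS A, |(τ.ev h).re - (R.is τ).μ (rp (g 0))| ≤ rho / 32 := fun τ => by
    have := (τ.abs_re_le _).trans hg.le
    rwa [← TS.lin_apply, map_sub, R.ev_poly (hasTowers _ _), Complex.sub_re, R.re_π] at this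
  let f := rp (g 0) + .const _ (rho / 32)
  have h5 : ∀ τ, (R.is τ).μ f = (R.is τ).μ (rp (g 0)) + rho / 32 := fun τ => by
    rw [map_add, IS.const]
  obtain ⟨a, b, ha, hb, h6, h7⟩ := R.lower (f := f) (c := 7 / 8 * rho) (fun p => by
    have h6 := (Complex.re_le_norm _).trans (R.norm_coeff_le g p)
    have h7 := norm_sub_norm_le (R.poly g) h
    rw [norm_sub_rev] at h7
    simp only [f, ContinuousMap.add_apply, rp_apply, ContinuousMap.const_apply]
    linarith) (by linarith) (by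
    filter_upwards [block_approx f hε, is_approx f hε] with n a1 a2
    obtain ⟨p₀, hp₀⟩ := (R.is τ₀).exists_le ((av n f).comp (bt n))
    have hV : IsOpen {y | av n f y < 27 / 32 * rho} := isOpen_lt (by fun_prop) continuous_const
    obtain ⟨r, hr, hr'⟩ := Metric.isOpen_iff.1 hV (bt n p₀) (hp₀.trans_lt (by
      linarith [abs_le.1 (a2 (R.is τ₀)), abs_le.1 (h4 τ₀), h5 τ₀]))
    obtain ⟨s, s0, s1, s2⟩ : ∃ s : ℝ, 0 < s ∧ s ≤ 1 ∧ s < r :=
      ⟨min (r / 2) 1, by positivity, min_le_right _ _, (min_le_left _ _).trans_lt (by linarith)⟩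
    have key : ∀ x v : ℝ, x ∈ Set.Icc (0 : ℝ) 1 → |v| ≤ 1 → (1 - s) * x + s / 2 + s / 2 * v ∈
        Set.Icc (0 : ℝ) 1 ∧ dist ((1 - s) * x + s / 2 + s / 2 * v) x < r := fun x v hx hv => by
      rw [Real.dist_eq, abs_lt]
      rw [abs_le] at hv
      refine ⟨⟨?_, ?_⟩, ?_, ?_⟩ <;> nlinarith [hx.1, hx.2]
    refine ⟨_, fun i => (1 - s) • (bt n p₀ i).1 + (s / 2, s / 2), s / 2, hV, half_pos s0,
      fun v hv => ?_, fun p hp hp' => ?_⟩
    · have k1 := fun i => key _ _ (bt n p₀ i).2.1 ((norm_fst_le (v i)).trans (hv i))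
      have k2 := fun i => key _ _ (bt n p₀ i).2.2 ((norm_snd_le (v i)).trans (hv i))
      exact ⟨fun i => ⟨_, (k1 i).1, (k2 i).1⟩, hr' ((dist_pi_lt_iff hr).2 fun i =>
        max_lt (k1 i).2 (k2 i).2), fun _ => rfl⟩
    · have := mul_le_mul_of_nonneg_left (le_of_lt hp') (qq_posR n).le
      linarith [abs_le.1 (a1 p hp)])
  refine h6 (h3 a b ha hb fun τ => lt_of_le_of_lt ?_ (h7 _ (τ.qt.isQuasitrace 2) τ.qt.E0_one))
  have : (IS.ofQ (τ.qt.isQuasitrace 2) E0 τ.qt.E0_one R.toCov).μ f = (R.is τ).μ f := by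
    simp [IS.ofQ_apply, R.is_apply, TS.qt, trM, E0_apply, ← TS.lin_apply]
  rw [this]
  exact add_le_add_right (by linarith [abs_le.1 (h4 τ), h5 τ]) _

theorem is_PP (R : Reg (TT S2 True) A) : PP A (3 / 4 * rho) := by
  let φ : C(S2.K, ℝ) := ⟨fun κ => min 1 (3 / 2 - κ.1.1), by fun_prop⟩
  have h1 : ∀ κ, 1 / 2 ≤ φ κ := fun κ => le_min (by norm_num) (by
    rcases κ.2 with h | h <;> linarith [h.1.2])
  have h2 : ∀ κ, φ κ ≤ 1 := fun κ => min_le_left _ _
  obtain ⟨n, hn⟩ := (rhoN_tendsto.eventually_lt_const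
    (show rho < 5 / 4 * rho by linarith [half_le_rho])).exists
  let κ₀ : S2.K := ⟨(1, 0), .inr (by simp)⟩
  obtain ⟨τ, hτ⟩ := R.exists_trace (pt fun _ => κ₀) qq_tendsto
  refine ⟨R.π (cx (hf φ n)), (NonUnitalStarAlgHom.norm_apply_le _ _).trans
    ((ContinuousMap.norm_le _ zero_le_one).2 fun p => ?_), ⟨τ, (hτ _ (rhoN n - rho / 2) ?_).trans_lt
    (by linarith)⟩, fun a b ha hb h => R.upper (W := fun κ => 1 / 2 < κ.1.1) (fun κ hκ => ?_) h1
    (fun κ hκ => le_min le_rfl (by linarith [not_lt.1 hκ])) n ha hb h⟩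
  · simp only [cx_apply, hf, ContinuousMap.mul_apply, Tower.fn_apply, Complex.norm_real]
    split_ifs
    · rw [one_mul]
      exact abs_le.2 ⟨le_trans (by norm_num) (h1 _), h2 _⟩
    · simp
  · filter_upwards [eventually_ge_atTop n] with m hm
    have := mul_le_mul_of_nonneg_left (rho_le m) (qq_posR m).le
    rw [← rhoN_eq] at this
    rw [bs_hf _ rfl, mul_sub, ← sum_Free hm]
    refine (sum_le_sum (g := fun i : ℕ => (if Free n i then 1 else 0) -
      1 / 2 * if Free m i then 1 else 0) fun i hi => ?_).trans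
      (by rw [sum_sub_distrib, ← mul_sum]; linarith)
    by_cases h : Free m i
    · rw [pt_x _ (n := m) (by omega) (by simpa using hi)]
      simp only [h, h.mono hm, if_true]
      exact (min_le_right _ _).trans (by norm_num [κ₀])
    · split_ifs
      exacts [(h2 _).trans (by norm_num), by norm_num]
  · rcases κ.2 with h | h
    exacts [absurd h.1.2 hκ.not_ge, h.2]

end

end Pool.Agent.P.MP_456758_an
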