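import Pool.Agent.P.MP_456758_an.KGroup
import Pool.Agent.P.MP_456758_an.GenPos

/-! Comparison in homogeneous algebras over stratified spaces. -/

namespace Pool.Agent.P.MP_456758_an

open scoped ComplexOrder
open Filter Topology Module Matrix

noncomputable section

lemma IsTrace.pp_sq_le {D : Type} [CStarAlgebra D] [PartialOrder D] [StarOrderedRing D]
    {τ : D →ₗ[ℂ] ℂ} (h : IsTrace τ) (ε : ℝ) {a b : D} (ha : IsSelfAdjoint a)
    (hb : IsSelfAdjoint b) :
    (τ ((pp ε a - pp ε b) * (pp ε a - pp ε b))).re ≤ (τ ((a - b) * (a - b))).re := by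
  have key : ∀ x : D, IsSelfAdjoint x → ∃ y, 0 ≤ y ∧ x = pp ε x - y + algebraMap ℝ D ε ∧
      pp ε x * y = 0 := by
    intro x hx
    refine ⟨cfc (fun t : ℝ => max (ε - t) 0) x, cfc_nonneg fun _ _ => le_max_right _ _, ?_, ?_⟩
    · rw [pp, ← cfc_sub _ _ x, ← cfc_const ε x, ← cfc_add x _ _]
      refine (cfc_id' ℝ x).symm.trans (cfc_congr fun t _ => ?_)
      rcases le_total t ε with h | h <;> simp [h]
    · rw [pp, ← cfc_mul _ _ x, ← cfc_zero ℝ x]
      refine cfc_congr fun t _ => ?_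
      rcases le_total t ε with h | h <;> simp [h]
  have pos : ∀ x y : D, 0 ≤ x → 0 ≤ y → 0 ≤ (τ (x * y)).re := by
    intro x y hx hy
    have := h.mul_le (x := 1 - x) (by simpa using hx) hy
    simpa [sub_mul] using this
  obtain ⟨na, ha0, ea, ma⟩ := key a ha
  obtain ⟨nb, hb0, eb, mb⟩ := key b hb
  have e : a - b = (pp ε a - pp ε b) - (na - nb) := by
    conv_lhs => rw [ea, eb]
    abel
  have h1 := pos _ _ (pp_nonneg ε a) hb0
  have h2 := pos _ _ (pp_nonneg ε b) ha0
  have h3 : 0 ≤ (τ ((na - nb) * (na - nb))).re := by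
    have := (h.nonneg (na - nb)).1
    rwa [(ha0.isSelfAdjoint.sub hb0.isSelfAdjoint).star_eq] at this
  have h4 : (τ ((pp ε a - pp ε b) * (na - nb))).re ≤ 0 := by
    simp only [mul_sub, sub_mul, ma, mb, map_sub, map_zero, Complex.sub_re, Complex.zero_re]
    linarith
  rw [e, mul_sub _ (pp ε a - pp ε b), sub_mul _ (na - nb), sub_mul _ (na - nb), map_sub, map_sub,
    map_sub, h.comm (na - nb) (pp ε a - pp ε b)]
  simp only [Complex.sub_re]
  linarith

/-- The real continuous functional calculus in a C*-algebra. -/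
def fc {D : Type} [CStarAlgebra D] (f : ℝ → ℝ) (a : D) : D := cfc f a

lemma map_fc {D E : Type} [CStarAlgebra D] [CStarAlgebra E] (φ : D →⋆ₐ[ℂ] E) {f : ℝ → ℝ}
    (hf : Continuous f) {a : D} (ha : IsSelfAdjoint a) : φ (fc f a) = fc f (φ a) :=
  φ.map_cfc f a hf.continuousOn (hom_cont _) ha (ha.map _)

lemma map_pp {D E : Type} [CStarAlgebra D] [CStarAlgebra E] (φ : D →⋆ₐ[ℂ] E) (ε : ℝ) {a : D}
    (ha : IsSelfAdjoint a) : φ (pp ε a) = pp ε (φ a) := map_fc φ (by fun_prop) ha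

lemma sum_sq_zero {D : Type} [CStarAlgebra D] [PartialOrder D] [StarOrderedRing D] {a b : D}
    (h : star a * a + star b * b = 0) : a = 0 ∧ b = 0 := by
  rwa [add_eq_zero_iff_of_nonneg (star_mul_self_nonneg _) (star_mul_self_nonneg _),
    CStarRing.star_mul_self_eq_zero_iff, CStarRing.star_mul_self_eq_zero_iff] at h

lemma homog_alg {D : Type} [CStarAlgebra D] [PartialOrder D] [StarOrderedRing D] {α b W : D}
    (hb : 0 ≤ b) {ε : ℝ} (hε : 0 < ε)
    (hu : ∀ g k r q : D, g = pp ε α * k → r * r = b → q * q = 1 - g * g →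
      IsUnit (star (r * W * g) * (r * W * g) + star q * q)) : CuntzLE (pp (2 * ε) α) b := by
  set g := cfc (ramp ε) α with hg
  have gs : IsSelfAdjoint g := cfc_predicate _ _
  obtain ⟨k, hk⟩ : ∃ k, g = pp ε α * k := by
    have hc : Continuous fun t : ℝ => (max ε (t - ε))⁻¹ :=
      Continuous.inv₀ (by fun_prop) fun t => (lt_max_of_lt_left hε).ne'
    refine ⟨cfc (fun t : ℝ => (max ε (t - ε))⁻¹) α, ?_⟩
    rw [pp, ← cfc_mul _ _ α (hg := hc.continuousOn)]
    refine cfc_congr fun t _ => ?_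
    rcases le_total (2 * ε) t with h | h
    · rw [ramp_one hε h, max_eq_left (by linarith), max_eq_right (by linarith),
        mul_inv_cancel₀ (by linarith)]
    · rw [max_eq_left (a := ε) (by linarith), ramp, min_eq_right, div_eq_mul_inv]
      rw [div_le_one hε]
      exact max_le (by linarith) hε.le
  obtain ⟨r, rs, hr'⟩ : ∃ r, IsSelfAdjoint r ∧ r * r = b :=
    ⟨_, (CFC.sqrt_nonneg _).isSelfAdjoint, CFC.sqrt_mul_sqrt_self _ hb⟩
  obtain ⟨q, qs, hq⟩ : ∃ q, IsSelfAdjoint q ∧ q * q = 1 - g * g := by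
    refine ⟨_, (CFC.sqrt_nonneg _).isSelfAdjoint, CFC.sqrt_mul_sqrt_self _ ?_⟩
    rw [sub_nonneg, hg, ← cfc_mul _ _ α]
    exact cfc_le_one _ _ fun t _ => mul_le_one₀ (ramp_le_one _ _) (ramp_nonneg hε.le _)
      (ramp_le_one _ _)
  have mu := hu g k r q hk hr' hq
  set m := star (r * W * g) * (r * W * g) + star q * q with hm
  have m0 : 0 ≤ m := add_nonneg (star_mul_self_nonneg _) (star_mul_self_nonneg _)
  obtain ⟨γ, hγ, hγm⟩ : ∃ γ > 0, algebraMap ℝ D γ ≤ m := by
    rcases subsingleton_or_nontrivial D with h | h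
    · exact ⟨1, one_pos, (Subsingleton.elim _ _).le⟩
    refine (CFC.exists_pos_algebraMap_le_iff m0.isSelfAdjoint).2 fun t ht => ?_
    refine lt_of_le_of_ne (spectrum_nonneg_of_nonneg m0 ht) ?_
    rintro rfl
    exact spectrum.zero_notMem ℝ mu ht
  set s := cfc (fun t : ℝ => √(max (t - 2 * ε) 0)) α with hs
  have ss : IsSelfAdjoint s := cfc_predicate _ _
  have s2 : s * s = pp (2 * ε) α := by
    rw [hs, ← cfc_mul _ _ α]
    exact cfc_congr fun t _ => Real.mul_self_sqrt (le_max_right _ _)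
  have sg : g * s = s := by
    rw [hs, hg, ← cfc_mul _ _ α]
    refine cfc_congr fun t _ => ?_
    rcases le_total (2 * ε) t with h | h
    · rw [ramp_one hε h, one_mul]
    · simp [h]
  have sg' : s * g = s := by simpa [ss.star_eq, gs.star_eq] using congrArg star sg
  refine (cuntz_of_le (pp_nonneg _ _) ?_).trans (cuntz_conj (√γ⁻¹ • (s * star W)) b)
  have h1 := smul_le_smul_of_nonneg_left (ss.conjugate_le_conjugate hγm) (inv_pos.2 hγ).le
  have e1 : s * m * s = s * star W * b * star (s * star W) := by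
    have : s * (star q * q) * s = 0 := by
      rw [qs.star_eq, hq, mul_sub, ← mul_assoc, sg', sg', mul_one, sub_self, zero_mul]
    rw [hm, mul_add, add_mul, this, add_zero, ← hr']
    simp only [star_mul, star_star, gs.star_eq, rs.star_eq, ss.star_eq, mul_assoc, sg]
    rw [← mul_assoc, sg']
  rw [e1, Algebra.algebraMap_eq_smul_one, mul_smul_comm, smul_mul_assoc, mul_one, s2, smul_smul,
    inv_mul_cancel₀ hγ.ne', one_smul] at h1
  refine h1.trans_eq ?_
  rw [star_smul, star_trivial (√γ⁻¹), smul_mul_assoc, smul_mul_assoc, mul_smul_comm, smul_smul,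
    Real.mul_self_sqrt (inv_pos.2 hγ).le]

variable {n : Type} [Fintype n] [DecidableEq n]

/-- The underlying matrix. -/
def toM : CStarMatrix n n ℂ →⋆ₐ[ℂ] Matrix n n ℂ where
  toFun X := CStarMatrix.ofMatrix.symm X
  map_one' := rfl
  map_mul' _ _ := rfl
  map_zero' := rfl
  map_add' _ _ := rfl
  commutes' _ := rfl
  map_star' _ := rfl

/-- The trace of a complex matrix. -/
def tr0 : CStarMatrix n n ℂ →ₗ[ℂ] ℂ where
  toFun X := ∑ i, X i i
  map_add' X Y := by simp [Finset.sum_add_distrib]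
  map_smul' c X := by simp [Finset.mul_sum]

omit [DecidableEq n] in
lemma tr0_star_mul (X : CStarMatrix n n ℂ) : tr0 (star X * X) = (∑ i, ∑ j, ‖X j i‖ ^ 2 : ℝ) := by
  simp [tr0, CStarMatrix.mul_apply, CStarMatrix.star_apply, Complex.conj_mul']

lemma tr0_isTrace : IsTrace (tr0 (n := n)) :=
  ⟨fun X => by rw [tr0_star_mul]; positivity, fun X Y => Matrix.trace_mul_comm (toM X) (toM Y)⟩

lemma exists_diag {X : CStarMatrix n n ℂ} (hX : IsSelfAdjoint X) : ∃ ev : n → ℝ,
    ∀ f : ℝ → ℝ, Continuous f → (tr0 (fc f X)).re = ∑ i, f (ev i) ∧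
      (toM (fc f X)).rank = Fintype.card {i // f (ev i) ≠ 0} := by
  have hA : (toM X).IsHermitian := hX.map toM
  refine ⟨hA.eigenvalues, fun f hf => ?_⟩
  have e0 : ∀ {D : Type} [CStarAlgebra D] (φ : D →⋆ₐ[ℂ] Matrix n n ℂ) (a : D), Continuous φ →
      IsSelfAdjoint a → φ (fc f a) = cfc f (φ a) := fun φ a hφ ha =>
    φ.map_cfc f a hf.continuousOn hφ ha (ha.map _)
  have e : toM (fc f X) = cfc f (toM X) := e0 toM X continuous_id hX
  have e' : tr0 (fc f X) = (toM (fc f X)).trace := rfl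
  rw [e', e, hA.cfc_eq, IsHermitian.cfc, Unitary.conjStarAlgAut_apply]
  constructor
  · rw [Matrix.trace_mul_cycle, Unitary.coe_star_mul_self, one_mul]
    simp
  · rw [rank_mul_eq_left_of_isUnit_det (star (hA.eigenvectorUnitary : Matrix n n ℂ)) _
        (UnitaryGroup.det_isUnit (star hA.eigenvectorUnitary)),
      rank_mul_eq_right_of_isUnit_det _ _ (UnitaryGroup.det_isUnit _), rank_diagonal]
    simp

lemma rank_le_tr {X : CStarMatrix n n ℂ} (hX : IsSelfAdjoint X) {ε : ℝ} {f : ℝ → ℝ}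
    (hf : Continuous f) (h0 : ∀ t, 0 ≤ f t) (h1 : ∀ t, ε < t → 1 ≤ f t) :
    ((toM (pp ε X)).rank : ℝ) ≤ (tr0 (fc f X)).re := by
  obtain ⟨ev, h⟩ := exists_diag hX
  rw [show pp ε X = fc (fun t => max (t - ε) 0) X from rfl, (h _ (by fun_prop)).2, (h f hf).1, Fintype.card_subtype, Finset.card_filter]
  push_cast
  refine Finset.sum_le_sum fun i _ => ?_
  split_ifs with hi
  · refine h1 _ (not_le.1 fun h2 => hi (max_eq_right (by linarith)))
  · exact h0 _

lemma tr_le_rank {X : CStarMatrix n n ℂ} (hX : IsSelfAdjoint X) {θ : ℝ} {g : ℝ → ℝ}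
    (hg : Continuous g) (h0 : ∀ t ≤ θ, g t ≤ 0) (h1 : ∀ t, g t ≤ 1) :
    (tr0 (fc g X)).re ≤ ((toM (pp θ X)).rank : ℝ) := by
  obtain ⟨ev, h⟩ := exists_diag hX
  rw [show pp θ X = fc (fun t => max (t - θ) 0) X from rfl, (h _ (by fun_prop)).2, (h g hg).1, Fintype.card_subtype, Finset.card_filter]
  push_cast
  refine Finset.sum_le_sum fun i _ => ?_
  split_ifs with hi
  · exact h1 _
  · refine h0 _ (not_lt.1 fun h2 => hi ?_)
    rw [max_eq_left (by linarith)]
    linarith

lemma pp_entry_le (ε : ℝ) {X Y : CStarMatrix n n ℂ} (hX : IsSelfAdjoint X) (hY : IsSelfAdjoint Y)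
    {c : ℝ} (hc : 0 ≤ c) (h : ∀ i j, ‖X i j - Y i j‖ ≤ c) (i j : n) :
    ‖pp ε X i j - pp ε Y i j‖ ≤ Fintype.card n * c := by
  have h1 := tr0_isTrace.pp_sq_le ε hX hY
  conv at h1 => enter [1, 1, 2, 1]; rw [← ((pp_sa ε X).sub (pp_sa ε Y)).star_eq]
  conv at h1 => enter [2, 1, 2, 1]; rw [← (hX.sub hY).star_eq]
  rw [tr0_star_mul, tr0_star_mul, Complex.ofReal_re, Complex.ofReal_re] at h1
  have h2 : ‖(pp ε X - pp ε Y) i j‖ ^ 2 ≤ ∑ i, ∑ j, ‖(pp ε X - pp ε Y) j i‖ ^ 2 :=
    (Finset.single_le_sum (f := fun k => ‖(pp ε X - pp ε Y) k j‖ ^ 2) (fun _ _ => by positivity)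
      (Finset.mem_univ i)).trans (Finset.single_le_sum
      (f := fun l => ∑ k, ‖(pp ε X - pp ε Y) k l‖ ^ 2) (fun _ _ => by positivity)
      (Finset.mem_univ j))
  have h3 : ∑ i, ∑ j, ‖(X - Y) j i‖ ^ 2 ≤ ∑ _i : n, ∑ _j : n, c ^ 2 :=
    Finset.sum_le_sum fun i _ => Finset.sum_le_sum fun j _ =>
      pow_le_pow_left₀ (norm_nonneg _) (h j i) 2
  simp only [Finset.sum_const, Finset.card_univ, nsmul_eq_mul] at h3
  refine (pow_le_pow_iff_left₀ (norm_nonneg _) (by positivity) two_ne_zero).1 ?_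
  calc _ ≤ _ := (h2.trans h1).trans h3
    _ = _ := by ring

omit [DecidableEq n] in
lemma exists_sub (v : n → n → ℂ) : ∃ S : Finset n, LinearIndependent ℂ (fun i : S => v i) ∧
    Set.range v ⊆ Submodule.span ℂ (v '' S) ∧
    S.card = finrank ℂ (Submodule.span ℂ (Set.range v)) := by
  classical
  obtain ⟨b, -, -, h1, h2⟩ := exists_linearIndepOn_extension (linearIndepOn_empty ℂ v)
    (Set.empty_subset Set.univ)
  rw [Set.image_univ] at h1
  obtain ⟨S, rfl⟩ := b.toFinite.exists_finset_coe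
  refine ⟨S, h2, h1, ?_⟩
  have e : Submodule.span ℂ (Set.range v) = Submodule.span ℂ (Set.range fun i : S => v i) := by
    refine le_antisymm (Submodule.span_le.2 (h1.trans (Submodule.span_mono ?_)))
      (Submodule.span_mono ?_)
    · rintro _ ⟨i, hi, rfl⟩; exact ⟨⟨i, hi⟩, rfl⟩
    · rintro _ ⟨i, rfl⟩; exact ⟨i, rfl⟩
  rw [e, finrank_span_eq_card (b := fun i : S => v i) h2, Fintype.card_coe]

omit [DecidableEq n] in
lemma exists_rows (M : Matrix n n ℂ) : ∃ T : Finset n, T.card = M.rank ∧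
    Function.Surjective fun (v : n → ℂ) (t : T) => (M *ᵥ v) t := by
  obtain ⟨T, h1, -, h3⟩ := exists_sub M.row
  refine ⟨T, by rw [h3, rank_eq_finrank_span_row], ?_⟩
  have := LinearIndependent.rank_matrix (M := M.submatrix (Subtype.val : T → n) id) h1
  have h4 : LinearMap.range (M.submatrix (Subtype.val : T → n) id).mulVecLin = ⊤ :=
    Submodule.eq_top_of_finrank_eq (this.trans (by simp))
  exact LinearMap.range_eq_top.1 h4

omit [DecidableEq n] in
lemma exists_cols (M : Matrix n n ℂ) : ∃ S : Finset n, S.card = M.rank ∧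
    ∀ v, ∃ l : n → ℂ, (∀ i ∉ S, l i = 0) ∧ M *ᵥ v = M *ᵥ l := by
  classical
  obtain ⟨S, -, h2, h3⟩ := exists_sub M.col
  refine ⟨S, by rw [h3, rank_eq_finrank_span_cols], fun v => ?_⟩
  have : M *ᵥ v ∈ Submodule.span ℂ (M.col '' S) := by
    refine Submodule.span_le.2 h2 ?_
    rw [← Matrix.range_mulVecLin]
    exact ⟨v, rfl⟩
  obtain ⟨c, hc⟩ := (Submodule.mem_span_image_finset_iff_exists_fun' ℂ).1 this
  refine ⟨fun i => if i ∈ S then c i else 0, fun i hi => if_neg hi, ?_⟩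
  rw [← hc]
  ext k
  simp [mulVec, dotProduct, Finset.sum_ite_mem, mul_comm]

variable {Z : Type} [MetricSpace Z] [CompactSpace Z]

lemma exists_const {α β : Z → n → n → ℂ} (hα : LocallyLipschitz α) (hβ : LocallyLipschitz β)
    {σ : Type} [Fintype σ] (st : Z → σ) (J : σ → Type) [∀ s, Fintype (J s)]
    (e : ∀ s, {z // st z = s} → J s → ℝ) (he : ∀ s, AntilipschitzWith 1 (e s))
    (hr : ∀ z, 2 * (of (α z)).rank + Fintype.card (J (st z)) < 2 * (of (β z)).rank + 2) :
    ∃ w : Matrix n n ℂ, ∀ z v, of (β z) *ᵥ (w *ᵥ (of (α z) *ᵥ v)) = 0 → of (α z) *ᵥ v = 0 := by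
  have key : ∀ (s : σ) (S T : Finset n) (j : S), Thin {w : n → n → ℂ |
      2 * S.card + Fintype.card (J s) < 2 * T.card + 2 ∧ ∃ z, st z = s ∧ ∃ l : n → ℂ, l j = 1 ∧
      (∀ i ∉ S, l i = 0) ∧ of (α z) *ᵥ l ≠ 0 ∧
      (Function.Surjective fun (v : n → ℂ) (t : T) => (of (β z) *ᵥ v) t) ∧
      of (β z) *ᵥ (of w *ᵥ (of (α z) *ᵥ l)) = 0} := by
    intro s S T j
    by_cases hc : 2 * S.card + Fintype.card (J s) < 2 * T.card + 2
    swap
    · exact Or.inr (by simp [hc])
    let L : (S.erase j → ℂ) → n → ℂ := fun l i =>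
      if h : i ∈ S.erase j then l ⟨i, h⟩ else if i = j then 1 else 0
    have hL : ContDiff ℝ 1 L := contDiff_pi.2 fun i => by
      by_cases h : i ∈ S.erase j <;> simp only [L, h, dite_true, dite_false] <;> fun_prop
    have hm : ContDiff ℝ 1 fun p : (n → n → ℂ) × (n → ℂ) => of p.1 *ᵥ p.2 :=
      contDiff_pi.2 fun i => by simp only [mulVec, dotProduct, of_apply]; fun_prop
    let Y := {p : {z // st z = s} × (S.erase j → ℂ) | of (α p.1) *ᵥ L p.2 ≠ 0 ∧
      Function.Surjective fun (v : n → ℂ) (t : T) => (of (β p.1) *ᵥ v) t}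
    have h1 : LocallyLipschitz fun y : Y => (y.1.1 : Z) := ((LipschitzWith.subtype_val _).comp
      (LipschitzWith.prod_fst.comp (LipschitzWith.subtype_val _))).locallyLipschitz
    have h2 : LocallyLipschitz fun y : Y => y.1.2 :=
      (LipschitzWith.prod_snd.comp (LipschitzWith.subtype_val _)).locallyLipschitz
    have h3 : LocallyLipschitz fun y : Y => (α y.1.1, L y.1.2) :=
      (hα.comp h1).prodMk (hL.locallyLipschitz.comp h2)
    have h4 := (hm.locallyLipschitz.comp h3).prodMk (hβ.comp h1)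
    have h5 : AntilipschitzWith 1 fun y : Y => (e s y.1.1, y.1.2) := by
      refine AntilipschitzWith.of_le_mul_dist fun p q => ?_
      have := (he s).le_mul_dist p.1.1 q.1.1
      rw [Subtype.dist_eq, Prod.dist_eq, Prod.dist_eq]
      simp only [NNReal.coe_one, one_mul] at this ⊢
      exact max_le_max this le_rfl
    let A : (n → ℂ) × (n → n → ℂ) → (n → n → ℂ) →ₗ[ℝ] T → ℂ := fun p =>
      { toFun := fun w t => (of p.2 *ᵥ (of w *ᵥ p.1)) t
        map_add' := fun w w' => by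
          ext t; rw [← of_add_of, add_mulVec, mulVec_add]; rfl
        map_smul' := fun c w => by
          ext t; rw [← smul_of, smul_mulVec, mulVec_smul]; rfl }
    refine (genpos h5 h4 A (fun _ => 0) (fun w => ?_) contDiff_const (fun y h => ?_) ?_).mono ?_
    · refine contDiff_pi.2 fun t => ?_
      have a := hm.comp ((contDiff_snd (𝕜 := ℝ) (E := n → ℂ) (F := n → n → ℂ)).prodMk
        (hm.comp ((contDiff_const (c := w)).prodMk contDiff_fst)))
      exact (contDiff_apply ℝ ℂ (t : n)).comp a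
    · obtain ⟨v, hv⟩ := y.2.2 h
      obtain ⟨i, hi⟩ := Function.ne_iff.1 y.2.1
      refine ⟨vecMulVec v (Pi.single i ((of (α y.1.1) *ᵥ L y.1.2) i)⁻¹), ?_⟩
      have : of (vecMulVec v (Pi.single i ((of (α y.1.1) *ᵥ L y.1.2) i)⁻¹)) *ᵥ
          (of (α y.1.1) *ᵥ L y.1.2) = v := by
        change vecMulVec _ _ *ᵥ _ = _
        rw [vecMulVec_mulVec, single_dotProduct, inv_mul_cancel₀ hi]
        simp
      exact (congrArg (fun v (t : T) => (of (β y.1.1) *ᵥ v) t) this).trans hv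
    · have := Finset.card_pos.2 ⟨_, j.2⟩
      simp [finrank_prod, finrank_pi_fintype]
      omega
    · rintro w ⟨-, z, hz, l, l1, l2, l3, l4, l5⟩
      have : L (fun i => l i) = l := funext fun i => by
        by_cases h : i ∈ S.erase j
        · simp only [L, h, dite_true]
        · simp only [L, h, dite_false]
          split_ifs with h'
          · rw [h', l1]
          · exact (l2 i fun h'' => h (Finset.mem_erase.2 ⟨h', h''⟩)).symm
      refine ⟨⟨(⟨z, hz⟩, fun i => l i), by simpa only [this] using l3, l4⟩, ?_⟩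
      funext t
      simpa only [A, this, Function.comp, LinearMap.coe_mk, AddHom.coe_mk, Pi.zero_apply]
        using congrFun l5 t
  obtain ⟨w, hw⟩ := (thin_iUnion fun s => thin_iUnion fun S => thin_iUnion fun T =>
    thin_iUnion (key s S T)).exists_notMem
  refine ⟨of w, fun z v hv => by_contra fun h0 => hw ?_⟩
  obtain ⟨S, hS, hS'⟩ := exists_cols (of (α z))
  obtain ⟨T, hT, hT'⟩ := exists_rows (of (β z))
  obtain ⟨l, hl, hl'⟩ := hS' v
  rw [hl'] at hv h0
  obtain ⟨j, hj⟩ : ∃ j, l j ≠ 0 := Function.ne_iff.1 fun h : l = 0 => h0 (by simp [h])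
  simp only [Set.mem_iUnion]
  refine ⟨st z, S, T, ⟨j, by_contra fun h => hj (hl j h)⟩, by rw [hS, hT]; exact hr z, z, rfl,
    (l j)⁻¹ • l, by simp [hj], fun i hi => by simp [hl i hi], ?_, hT', ?_⟩
  · rw [mulVec_smul]; exact smul_ne_zero (inv_ne_zero hj) h0
  · rw [mulVec_smul, mulVec_smul, mulVec_smul, hv, smul_zero]

/-- Evaluation of a matrix of functions. -/
def evz (z : Z) : CStarMatrix n n C(Z, ℂ) →⋆ₐ[ℂ] CStarMatrix n n ℂ :=
  amp n (ContinuousMap.evalStarAlgHom ℂ ℂ z)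

/-- Matrices with Lipschitz entries. -/
def Lip (a : CStarMatrix n n C(Z, ℂ)) : Prop :=
  ∃ L : ℝ, 0 ≤ L ∧ ∀ i j z z', ‖a i j z - a i j z'‖ ≤ L * dist z z'

lemma Lip.pp {a : CStarMatrix n n C(Z, ℂ)} (h : Lip a) (ha : IsSelfAdjoint a) (ε : ℝ) :
    LocallyLipschitz fun z i j => pp ε (evz z a) i j := by
  obtain ⟨L, hL, h⟩ := h
  refine (LipschitzWith.of_dist_le_mul (K := ⟨Fintype.card n * L, by positivity⟩)
    fun z z' => ?_).locallyLipschitz
  refine (dist_pi_le_iff (by positivity)).2 fun i => (dist_pi_le_iff (by positivity)).2 fun j => ?_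
  rw [dist_eq_norm]
  exact (pp_entry_le ε (ha.map _) (ha.map _) (by positivity) (fun i j => h i j z z') i j).trans_eq
    (mul_assoc _ _ _).symm

theorem homog {α β : CStarMatrix n n C(Z, ℂ)} (hα : IsSelfAdjoint α) (hβ : IsSelfAdjoint β)
    (lα : Lip α) (lβ : Lip β) {ε θ : ℝ} (hε : 0 < ε) {σ : Type} [Fintype σ] (st : Z → σ)
    (J : σ → Type) [∀ s, Fintype (J s)] (e : ∀ s, {z // st z = s} → J s → ℝ)
    (he : ∀ s, AntilipschitzWith 1 (e s))
    (hr : ∀ z, 2 * (toM (pp ε (evz z α))).rank + Fintype.card (J (st z)) <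
      2 * (toM (pp θ (evz z β))).rank + 2) : CuntzLE (pp (2 * ε) α) (pp θ β) := by
  obtain ⟨w, hw⟩ := exists_const (lα.pp hα ε) (lβ.pp hβ θ) st J e he hr
  let W : CStarMatrix n n C(Z, ℂ) := CStarMatrix.ofMatrix fun i j => .const Z (w i j)
  refine homog_alg (W := W) (pp_nonneg θ β) hε fun g k r q hk hr' hq => ?_
  set m := star (r * W * g) * (r * W * g) + star q * q with hm
  refine (Matrix.isUnit_iff_isUnit_det (CStarMatrix.ofMatrix.symm m)).2
    ((ContinuousMap.isUnit_iff_forall_ne_zero _).2 fun z hz => ?_)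
  have h1 : (toM (evz z m)).det = 0 :=
    ((ContinuousMap.evalStarAlgHom ℂ ℂ z).toAlgHom.map_det _).symm.trans hz
  obtain ⟨v, hv, hmv⟩ := Matrix.exists_mulVec_eq_zero_iff.2 h1
  let x : CStarMatrix n n ℂ := CStarMatrix.ofMatrix fun i _ => v i
  have hx : ∀ y : CStarMatrix n n ℂ, y * x = 0 ↔ toM y *ᵥ v = 0 := fun y => by
    obtain ⟨i, -⟩ := Function.ne_iff.1 hv
    exact ⟨fun h => funext fun j => congrFun (congrFun h j) i,
      fun h => CStarMatrix.ext fun j _ => congrFun h j⟩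
  have h2 : star (evz z (r * W * g) * x) * (evz z (r * W * g) * x) +
      star (evz z q * x) * (evz z q * x) = 0 := by
    have := congrArg (star x * ·) ((hx _).2 hmv)
    simpa [hm, map_star, mul_add, add_mul, mul_assoc] using this
  replace h2 := sum_sq_zero h2
  have h3 : evz z g * x = 0 := by
    have a : evz z (pp θ β * (W * (pp ε α * k))) * x = 0 := by
      rw [← hk, ← hr', mul_assoc, ← mul_assoc r W, map_mul, mul_assoc, h2.1, mul_zero]
    rw [hx] at a ⊢
    rw [hk]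
    simp only [map_mul, map_pp (evz z) _ hα, map_pp (evz z) _ hβ, ← mulVec_mulVec] at a ⊢
    exact hw z _ a
  have h4 : evz z (1 - g * g) * x = 0 := by rw [← hq, map_mul, mul_assoc, h2.2, mul_zero]
  rw [map_sub, map_one, map_mul, sub_mul, mul_assoc, h3, mul_zero, sub_zero, hx] at h4
  exact hv (by simpa using h4)
end

end Pool.Agent.P.MP_456758_an
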