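import Pool.Agent.P.MP_456758_an.Loc
import Pool.Agent.P.MP_456758_an.Homog

/-! The homogeneous subalgebras given by towers. -/

namespace Pool.Agent.P.MP_456758_an

open Filter Topology Finset Sys
open scoped Classical ComplexOrder

noncomputable section

attribute [-simp] zpow_natCast zpow_neg

/-- A big matrix as a matrix of matrices. -/
def unc (ι κ C : Type) [Fintype ι] [DecidableEq ι] [Fintype κ] [DecidableEq κ] [CStarAlgebra C] :
    CStarMatrix (ι × κ) (ι × κ) C →⋆ₐ[ℂ] CStarMatrix ι ι (CStarMatrix κ κ C) where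
  toFun M := .ofMatrix fun s t => .ofMatrix fun i j => M (s, i) (t, j)
  map_one' := by
    ext s t i j
    by_cases h : s = t <;> simp [CStarMatrix.one_apply, h]
  map_mul' M N := by
    ext s t i j
    refine (Fintype.sum_prod_type _).trans (Eq.trans ?_ (Matrix.sum_apply i j _ _).symm)
    rfl
  map_zero' := rfl
  map_add' _ _ := rfl
  commutes' r := by
    ext s t i j
    by_cases h : s = t <;> simp [CStarMatrix.algebraMap_apply, h]
  map_star' _ := rfl

section Tow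

variable {X : Type} [TopologicalSpace X] [CompactSpace X] {T : X ≃ₜ X} {q : ℕ} (t : Tower T q)
  {A : Type} [CStarAlgebra A] (c : Cov T A) {Z : Type} [TopologicalSpace Z] [CompactSpace Z]
  (β : C(X, Z))

omit [CompactSpace X] in
lemma Tower.sh_ch (i : Fin q) : sh T (-(i : ℕ)) (t.ch ℂ 0) = t.ch ℂ (i : ℕ) := by
  ext x
  simp [← t.pos_eq_iff (r := (i : ℕ)) (by omega) (by omega), zpow_zpow]

/-- The matrix units of a tower. -/
def twMU : MU (Fin q) C(Z, ℂ) A where
  w i := c.zu (i : ℕ) * c.π (t.ch ℂ 0)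
  e := c.π (t.ch ℂ 0)
  ψ := c.π.comp (ContinuousMap.compStarAlgHom' ℂ ℂ β)
  orth i j := by
    have : star (t.ch ℂ 0) * sh T (i : ℕ) (t.ch ℂ (j : ℕ)) = if i = j then t.ch ℂ 0 else 0 := by
      ext x
      by_cases h : t.pos x = 0
      · by_cases h' : i = j <;> simp [h, h', t.pos_base h, Fin.val_inj]
      · by_cases h' : i = j <;> simp [h, h']
    rw [star_mul, c.star_zu, c.zu_mul_π, t.sh_ch, mul_assoc, ← mul_assoc (c.zu _), c.zu_mul_π,
      ← mul_assoc, ← mul_assoc, ← map_star, ← map_mul, neg_neg, this]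
    split_ifs with h
    · rw [h, mul_assoc, ← c.zu_add, neg_add_cancel, c.zu_zero, mul_one]
    · simp
  comm a := ((Commute.all _ _).map c.π).eq
  mul_e i := by
    rw [mul_assoc, ← map_mul]
    congr 2
    ext x; simp

/-- The unital homomorphism given by a tower. -/
def twHom : CStarMatrix (Fin q) (Fin q) C(Z, ℂ) →⋆ₐ[ℂ] A := (twMU t c β).uhom (by
  rw [← map_one c.π, ← t.sum_ch ℂ, map_sum, sum_range]
  refine sum_congr rfl fun i _ => ?_
  change c.zu _ * c.π _ * star (c.zu _ * c.π _) = _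
  rw [star_mul, c.star_zu, ← map_star, ← mul_assoc, mul_assoc (c.zu _), ← map_mul,
    show t.ch ℂ 0 * star (t.ch ℂ 0) = t.ch ℂ 0 by ext x; simp, c.zu_mul_π, t.sh_ch, mul_assoc,
    ← c.zu_add, add_neg_cancel, c.zu_zero, mul_one])

omit [CompactSpace X] in
lemma twHom_apply (hβ : ∀ x, β ((T ^ (-t.pos x)) x) = β x) (M : CStarMatrix (Fin q) (Fin q) C(Z, ℂ)) :
    twHom t c β M = ∑ i : Fin q, ∑ j : Fin q,
      c.π (t.ch ℂ (i : ℕ) * (M i j).comp β) * c.zu ((i : ℕ) - (j : ℕ)) := by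
  refine ((twMU t c β).hom_apply M).trans (sum_congr rfl fun i _ => sum_congr rfl fun j _ => ?_)
  change c.zu _ * c.π _ * c.π ((M i j).comp β) * star (c.zu _ * c.π _) = _
  rw [star_mul, c.star_zu, ← map_star, ← mul_assoc, mul_assoc (c.zu _), mul_assoc (c.zu _),
    ← map_mul, ← map_mul, c.zu_mul_π, mul_assoc, ← c.zu_add, ← sub_eq_add_neg]
  congr 2
  ext x
  have := congrArg (· x) (t.sh_ch i)
  simp only [sh_apply, Tower.ch_apply] at this
  by_cases h : t.pos x = (i : ℕ)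
  · simp [this, h, ← hβ x]
  · simp [this, h]

end Tow

variable {S : Seed} {A : Type} [CStarAlgebra A] (R : Reg (TT S True) A)

lemma bt_base (m : ℕ) (p : Sys S True) : bt m ((TT S True ^ (-p.o m)) p) = bt m p := by
  rw [← bt_zpow (by simp) (p.o_nonneg m) (p.o_lt m), zpow_zpow]; simp

/-- Matrices of functions on the blocks. -/
abbrev MB (S : Seed) (ι : Type) (m : ℕ) : Type := CStarMatrix ι ι C(Blk S m, ℂ)

/-- The homomorphism given by the tower of level `m`. -/
def Reg.Φ₀ (m : ℕ) : MB S (Fin (qq m)) m →⋆ₐ[ℂ] A := twHom (tw S True m) R.toCov (bt m)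

lemma Reg.Φ₀_apply {m : ℕ} (M : MB S (Fin (qq m)) m) : R.Φ₀ m M = ∑ i : Fin (qq m), ∑ j : Fin (qq m),
    R.π ((tw S True m).ch ℂ (i : ℕ) * (M i j).comp (bt m)) * R.zu ((i : ℕ) - (j : ℕ)) :=
  twHom_apply _ _ _ (bt_base m) M

/-- Its amplification. -/
def Reg.Φ (k m : ℕ) : MB S (Fin k × Fin (qq m)) m →⋆ₐ[ℂ] Mat A k :=
  (amp (Fin k) (R.Φ₀ m)).comp (unc _ _ _)

lemma Reg.Φ_apply {k m : ℕ} (M : MB S (Fin k × Fin (qq m)) m) (s t : Fin k) :
    R.Φ k m M s t = R.Φ₀ m (.ofMatrix fun i j => M (s, i) (t, j)) := rfl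

/-- The normalised pointwise trace. -/
def trf {ι : Type} [Fintype ι] {m : ℕ} (M : MB S ι m) : C(Blk S m, ℝ) :=
  (qq m : ℝ)⁻¹ • ∑ a, rp (M a a)

lemma trf_mul {ι : Type} [Fintype ι] [DecidableEq ι] {m : ℕ} (M : MB S ι m) (y : Blk S m) :
    qq m * trf M y = (tr0 (evz y M)).re := by
  simp [trf, (qq_pos m).ne', tr0, evz]

lemma Reg.tr_Φ [PartialOrder A] [StarOrderedRing A] {k m : ℕ} (τ : TS A)
    (M : MB S (Fin k × Fin (qq m)) m) :
    (trL τ k (R.Φ k m M)).re = (R.is τ).μ ((trf M).comp (bt m)) := by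
  have h1 : trL τ k (R.Φ k m M) = τ.lin (R.π (∑ s, ∑ i : Fin (qq m),
      (tw S True m).ch ℂ (i : ℕ) * (M (s, i) (s, i)).comp (bt m))) := by
    simp only [map_sum]
    change ∑ s : Fin k, _ = _
    refine sum_congr rfl fun s _ => ?_
    rw [← TS.lin_apply, Φ_apply, Φ₀_apply, map_sum]
    refine sum_congr rfl fun i _ => ?_
    rw [map_sum, sum_eq_single i (fun j _ hj => R.vanish (hasTowers _ _) τ _ (by omega)) (by simp)]
    simp
  rw [h1, R.re_π]
  refine sub_eq_zero.1 (abs_nonpos_iff.1 ((tw S True m).abs_sub_le _ fun p hp => ?_))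
  have h2 : ∀ i : Fin (qq m), bt m ((TT S True ^ ((i : ℕ) : ℤ)) p) = bt m p := fun i =>
    bt_zpow hp (by omega) (by omega)
  have h3 : ∀ i : Fin (qq m), ((i : ℕ) : ℤ) % qq m = (i : ℕ) := fun i =>
    Int.emod_eq_of_lt (by omega) (by omega)
  rw [bs_bt _ hp, trf_mul, bs, sum_range]
  simp [h2, show p.o m = 0 from hp, h3, Fin.val_inj, tr0, evz, Fintype.sum_prod_type_right]

/-- The middle levels of the tower. -/
def mid (m J : ℕ) (a : ℤ) : Prop := J ≤ a ∧ a + J < qq m

/-- The indicator function of the middle levels. -/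
def cmid (S : Seed) (m J : ℕ) : C(Sys S True, ℂ) := (tw S True m).fn fun a => if mid m J a then 1 else 0

/-- Elements whose compressions lie in the homogeneous subalgebras. -/
def Reg.Cp (d : A) : Prop := ∀ᶠ J in atTop, ∀ᶠ m in atTop, ∃ α : MB S (Fin (qq m)) m,
  (∀ i j, ∃ L, LipschitzWith L (α i j)) ∧ R.π (cmid S m J) * d * R.π (cmid S m J) = R.Φ₀ m α

lemma Reg.cp_single {g : C(Sys S True, ℂ)} (hg : Loc g) (l : ℤ) : R.Cp (R.π g * R.zu l) := by
  obtain ⟨N, L, hL, hg⟩ := hg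
  filter_upwards [eventually_ge_atTop N, eventually_ge_atTop l.natAbs] with J h1 h2
  filter_upwards [eventually_ge_atTop N] with m h3
  refine ⟨.ofMatrix fun i j => if ((i : ℕ) : ℤ) - (j : ℕ) = l ∧ mid m J (i : ℕ) ∧ mid m J (j : ℕ) then
    (sh (TT S True) (i : ℕ) g).comp (sc m) else 0, fun i j => ⟨⟨L, hL⟩, ?_⟩, ?_⟩
  · rw [CStarMatrix.ofMatrix_apply]
    split_ifs
    · exact .of_dist_le_mul fun y y' => hg _ _ _ dist_nonneg (by simp) fun k _ => by
        simpa using sc_dist _ _ _ _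
    · exact (LipschitzWith.const 0).weaken zero_le
  rw [mul_assoc, mul_assoc, R.zu_mul_π, ← mul_assoc, ← mul_assoc, ← map_mul, ← map_mul, Φ₀_apply]
  have : ∀ (i j : Fin (qq m)) (u : C(Sys S True, ℂ)) (w : C(Blk S m, ℂ)) (P : Prop)
      [Decidable (((i : ℕ) : ℤ) - (j : ℕ) = l ∧ P)],
      R.π (u * (if ((i : ℕ) : ℤ) - (j : ℕ) = l ∧ P then w else 0).comp (bt m)) *
        R.zu ((i : ℕ) - (j : ℕ)) = R.π (u * (if ((i : ℕ) : ℤ) - (j : ℕ) = l ∧ P then w else 0).comp
          (bt m)) * R.zu l := by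
    intro i j u w P _
    split_ifs with h
    · rw [h.1]
    · simp
  simp only [CStarMatrix.ofMatrix_apply, this, ← sum_mul, ← map_sum]
  congr 2
  ext p
  have h4 := p.o_nonneg m
  have h5 := p.o_lt m
  simp only [ContinuousMap.sum_apply, ContinuousMap.mul_apply, Tower.ch_apply, tw_pos, ← mul_sum,
    ContinuousMap.comp_apply, apply_ite (fun u : C(Blk S m, ℂ) => u (bt m p)), cmid, Tower.fn_apply,
    sh_apply, TT_o, ContinuousMap.zero_apply]
  rw [sum_eq_single ⟨(p.o m).toNat, by omega⟩ (fun i _ hi => by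
    rw [if_neg fun h => hi (Fin.ext (by simp only; omega)), zero_mul]) (by simp)]
  simp only [Int.toNat_of_nonneg h4, if_true, one_mul]
  by_cases h6 : mid m J (p.o m)
  swap
  · simp [h6]
  obtain ⟨h7, h8⟩ := id h6
  rw [sum_eq_single ⟨(p.o m - l).toNat, by omega⟩ (fun j _ hj => if_neg fun h =>
    hj (Fin.ext (by simp only; omega))) (by simp), Int.emod_eq_of_lt (by omega) (by omega)]
  simp only [Int.toNat_of_nonneg (show 0 ≤ p.o m - l by omega), sub_sub_cancel, h6, true_and,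
    if_true, one_mul, mul_ite, mul_one, mul_zero, ← sub_eq_add_neg]
  refine if_congr Iff.rfl (hg.eq (o_eq h3 (by simp [p.o_mod])) fun i hi => ?_) rfl
  rw [abs_le] at hi
  rw [TT_x, ← bt_base, sc_bt (by simp) (by omega) (by omega), TT_x]
  simp

lemma Reg.cp_poly {f : ℤ →₀ C(Sys S True, ℂ)} (hf : ∀ l, Loc (f l)) : R.Cp (R.poly f) := by
  rw [Cov.poly_eq]
  refine sum_induction _ R.Cp (fun a b ha hb => ?_) (Eventually.of_forall fun J =>
    Eventually.of_forall fun m => ⟨0, fun _ _ => ⟨0, .const 0⟩, by simp⟩)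
    fun l _ => R.cp_single (hf l) l
  filter_upwards [ha, hb] with J ha hb
  filter_upwards [ha, hb] with m ⟨α, h1, h2⟩ ⟨β, h3, h4⟩
  refine ⟨α + β, fun i j => ?_, by rw [mul_add, add_mul, h2, h4, map_add]⟩
  obtain ⟨L, hL⟩ := h1 i j
  obtain ⟨L', hL'⟩ := h3 i j
  exact ⟨_, hL.add hL'⟩

/-- The projection onto the middle levels. -/
def Cm (S : Seed) (k m J : ℕ) : MB S (Fin k × Fin (qq m)) m :=
  .ofMatrix fun a b => if a = b ∧ mid m J (a.2 : ℕ) then 1 else 0

lemma Cm_proj (k m J : ℕ) : IsStarProjection (Cm S k m J) := by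
  constructor
  · refine CStarMatrix.ext fun a b => ?_
    rw [CStarMatrix.mul_apply, sum_eq_single a (fun c _ hc => by simp [Cm, hc.symm]) (by simp)]
    by_cases h : mid m J (a.2 : ℕ) <;> simp [Cm, h]
  · refine CStarMatrix.ext fun a b => ?_
    by_cases h : a = b <;> simp [Cm, CStarMatrix.star_apply, h, eq_comm (a := b), apply_ite star]

lemma Reg.Φ_Cm (k m J : ℕ) (s t : Fin k) :
    R.Φ k m (Cm S k m J) s t = if s = t then R.π (cmid S m J) else 0 := by
  rw [Φ_apply, Φ₀_apply]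
  split_ifs with h
  swap
  · simp [Cm, h]
  rw [← one_mul (cmid S m J), ← (tw S True m).sum_ch ℂ, sum_range, sum_mul, map_sum]
  refine sum_congr rfl fun i _ => ?_
  rw [sum_eq_single i (fun j _ hj => by simp [Cm, hj.symm]) (by simp), sub_self, R.zu_zero, mul_one]
  congr 1
  ext p
  by_cases h1 : p.o m = (i : ℕ) <;> by_cases h2 : mid m J (i : ℕ) <;> simp [Cm, cmid, h, h1, h2]

lemma trf_Cm (k m J : ℕ) (y : Blk S m) : qq m * trf (1 - Cm S k m J) y ≤ k * (2 * J) := by
  have h := card_edge (qq m) J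
  rw [sum_range] at h
  have : ∀ a, rp ((1 - Cm S k m J) a a) y =
      if J ≤ (a.2 : ℕ) ∧ (a.2 : ℕ) + J < qq m then 0 else 1 := fun a => by
    have : mid m J (a.2 : ℕ) ↔ J ≤ (a.2 : ℕ) ∧ (a.2 : ℕ) + J < qq m := by unfold mid; omega
    by_cases h : mid m J (a.2 : ℕ) <;> simp [Cm, ← this, h]
  simp only [trf, ContinuousMap.smul_apply, ContinuousMap.sum_apply, smul_eq_mul,
    mul_inv_cancel_left₀ (qq_posR m).ne']
  rw [sum_congr rfl fun a _ => this a, Fintype.sum_prod_type]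
  exact (sum_le_sum fun _ _ => h).trans_eq (by simp)

lemma lip_of {ι Z : Type} [Fintype ι] [MetricSpace Z] [CompactSpace Z] {α : CStarMatrix ι ι C(Z, ℂ)}
    (h : ∀ i j, ∃ L, LipschitzWith L (α i j)) : Lip α := by
  choose L hL using h
  refine ⟨∑ i, ∑ j, L i j, by positivity, fun i j z z' => ?_⟩
  rw [← dist_eq_norm]
  refine ((hL i j).dist_le_mul z z').trans (mul_le_mul_of_nonneg_right ?_ dist_nonneg)
  exact (single_le_sum (f := fun j => (L i j : ℝ)) (fun _ _ => by positivity) (mem_univ j)).trans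
    (single_le_sum (f := fun i => ∑ j, (L i j : ℝ)) (fun _ _ => by positivity) (mem_univ i))

lemma Reg.compress [PartialOrder A] [StarOrderedRing A] {k : ℕ} {a : Mat A k} (ha : IsSelfAdjoint a)
    {σ : ℝ} (hσ : 0 < σ) : ∀ᶠ J in atTop, ∀ᶠ m in atTop, ∃ α : MB S (Fin k × Fin (qq m)) m,
      IsSelfAdjoint α ∧ (∀ i j, ∃ L, LipschitzWith L (α i j)) ∧
      ‖R.Φ k m (Cm S k m J) * a * R.Φ k m (Cm S k m J) - R.Φ k m α‖ ≤ σ := by
  obtain ⟨K, hK, h⟩ := exists_K A (Fin k)
  choose f hf hf' using fun s t => R.dense_poly R.dense loc_dense loc_zero (a s t) (div_pos hσ hK)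
  filter_upwards [eventually_all.2 fun s => eventually_all.2 fun t => R.cp_poly (hf s t)] with J hJ
  filter_upwards [eventually_all.2 fun s => eventually_all.2 (hJ s)] with m hm
  choose α h1 h2 using hm
  let β : MB S (Fin k × Fin (qq m)) m := .ofMatrix fun a b => α a.1 b.1 a.2 b.2
  have hc := (Cm_proj (S := S) k m J).map (R.Φ k m)
  have h3 : ‖R.Φ k m (Cm S k m J) * a * R.Φ k m (Cm S k m J) - R.Φ k m β‖ ≤ σ := by
    have : R.Φ k m β = R.Φ k m (Cm S k m J) * (.ofMatrix fun s t => R.poly (f s t)) *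
        R.Φ k m (Cm S k m J) := by
      ext s t
      simp only [CStarMatrix.mul_apply, Φ_Cm, CStarMatrix.ofMatrix_apply, ite_mul, mul_ite,
        zero_mul, mul_zero, sum_ite_eq, sum_ite_eq', mem_univ, if_true, h2]
      rfl
    rw [this, ← sub_mul, ← mul_sub]
    refine norm_mul₃_le.trans ?_
    have h4 := h (a - .ofMatrix fun s t => R.poly (f s t)) _ (div_pos hσ hK).le hf'
    rw [mul_div_cancel₀ _ hK.ne'] at h4
    calc _ ≤ 1 * σ * 1 := by gcongr <;> exact hc.norm_le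
      _ = σ := by ring
  refine ⟨(2⁻¹ : ℂ) • (β + star β), by
    rw [IsSelfAdjoint, star_smul, star_add, star_star, add_comm]; simp, fun i j => ?_, ?_⟩
  · obtain ⟨L, hL⟩ := h1 i.1 j.1 i.2 j.2
    obtain ⟨L', hL'⟩ := h1 j.1 i.1 j.2 i.2
    exact ⟨_, (lipschitzWith_smul (2⁻¹ : ℂ)).comp (hL.add (star_isometry.lipschitz.comp hL'))⟩
  · set x := R.Φ k m (Cm S k m J) * a * R.Φ k m (Cm S k m J) with hx
    have h4 : star x = x := by rw [hx, star_mul, star_mul, hc.2.star_eq, ha.star_eq, mul_assoc]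
    have : x - R.Φ k m ((2⁻¹ : ℂ) • (β + star β)) =
        (2⁻¹ : ℂ) • ((x - R.Φ k m β) + star (x - R.Φ k m β)) := by
      rw [map_smul, map_add, map_star, star_sub, h4]
      module
    rw [this, norm_smul]
    refine (mul_le_mul_of_nonneg_left (norm_add_le_of_le h3 ((norm_star _).trans_le h3))
      (norm_nonneg _)).trans_eq ?_
    simp [← two_mul]

end

end Pool.Agent.P.MP_456758_an
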