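import Pool.Agent.P.MP_456758_an.Cuntz

/-! Quasitraces, dimension functions and traces. -/

namespace Pool.Agent.P.MP_456758_an

open scoped ComplexOrder
open Filter Topology

noncomputable section

variable {D : Type} [CStarAlgebra D] {σ : D → ℂ}

lemma IsQuasitrace.lin (h : IsQuasitrace σ) {a b : D} (ha : IsSelfAdjoint a)
    (hb : IsSelfAdjoint b) (hab : Commute a b) (c : ℂ) : σ (c • a + b) = c * σ a + σ b := by
  have hc : ∀ x ∈ ({a, b} : Set D), ∀ y ∈ ({a, b} : Set D), x * y = y * x := by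
    rintro x (rfl | rfl) y (rfl | rfl)
    exacts [rfl, hab.eq, hab.eq.symm, rfl]
  have hs : ∀ x ∈ ({a, b} : Set D), star x = x := by
    rintro x (rfl | rfl)
    exacts [ha, hb]
  have := StarAlgebra.isMulCommutative_adjoin ℂ hc (fun x hx y hy => by rw [hs y hy, hc x hx y hy])
  refine h.linear (StarAlgebra.adjoin ℂ {a, b}) (fun x hx y hy => ?_) a
    (StarAlgebra.subset_adjoin ℂ _ (by simp)) b (StarAlgebra.subset_adjoin ℂ _ (by simp)) c
  exact congrArg Subtype.val (this.is_comm.comm (⟨x, hx⟩ : StarAlgebra.adjoin ℂ {a, b}) ⟨y, hy⟩)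

lemma IsQuasitrace.zero (h : IsQuasitrace σ) : σ 0 = 0 := by
  simpa using h.lin (.zero D) (.zero D) (Commute.refl 0) 1

lemma IsQuasitrace.add (h : IsQuasitrace σ) {a b : D} (ha : IsSelfAdjoint a)
    (hb : IsSelfAdjoint b) (hab : Commute a b) : σ (a + b) = σ a + σ b := by
  simpa using h.lin ha hb hab 1

lemma IsQuasitrace.smul (h : IsQuasitrace σ) {a : D} (ha : IsSelfAdjoint a) (c : ℝ) :
    σ (c • a) = c * σ a := by
  simpa [h.zero] using h.lin ha (.zero D) (Commute.zero_right a) c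

lemma IsQuasitrace.sum (h : IsQuasitrace σ) {ι : Type} (s : Finset ι) {a : ι → D}
    (ha : ∀ i, IsSelfAdjoint (a i)) (hab : ∀ i j, Commute (a i) (a j)) :
    σ (∑ i ∈ s, a i) = ∑ i ∈ s, σ (a i) := by
  classical
  induction s using Finset.induction_on with
  | empty => simpa using h.zero
  | insert i s hi ih =>
    rw [Finset.sum_insert hi, Finset.sum_insert hi, ← ih]
    exact h.add (ha i) (isSelfAdjoint_sum _ fun j _ => ha j)
      (Commute.sum_right _ _ _ fun j _ => hab i j)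

/-- The positive functional on continuous functions given by a quasitrace and an element. -/
def LL (σ : D → ℂ) (a : D) (f : ℝ → ℝ) : ℝ := (σ (cfc f a)).re

lemma IsQuasitrace.LL_add (h : IsQuasitrace σ) (a : D) {f g : ℝ → ℝ} (hf : Continuous f)
    (hg : Continuous g) : LL σ a (fun t => f t + g t) = LL σ a f + LL σ a g := by
  rw [LL, cfc_add a f g, h.add (cfc_predicate _ _) (cfc_predicate _ _) (cfc_commute_cfc f g a)]
  rfl

lemma IsQuasitrace.LL_mul (h : IsQuasitrace σ) (a : D) (c : ℝ) {f : ℝ → ℝ} (hf : Continuous f) :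
    LL σ a (fun t => c * f t) = c * LL σ a f := by
  rw [LL, cfc_const_mul c f a, h.smul (cfc_predicate _ _)]
  simp [LL]

variable [PartialOrder D] [StarOrderedRing D]

lemma IsQuasitrace.nonneg' (h : IsQuasitrace σ) {a : D} (ha : 0 ≤ a) : 0 ≤ σ a := by
  have := h.nonneg (CFC.sqrt a)
  rwa [(CFC.sqrt_nonneg a).isSelfAdjoint.star_eq, CFC.sqrt_mul_sqrt_self a] at this

lemma IsQuasitrace.LL_mono (h : IsQuasitrace σ) {a : D} {f g : ℝ → ℝ} (hf : Continuous f)
    (hg : Continuous g) (hfg : ∀ t ∈ spectrum ℝ a, f t ≤ g t) : LL σ a f ≤ LL σ a g := by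
  have e : g = fun t => f t + (g t - f t) := by ext; ring
  rw [e, h.LL_add a (g := fun t => g t - f t) hf (hg.sub hf), le_add_iff_nonneg_right]
  exact (h.nonneg' (cfc_nonneg fun t ht => sub_nonneg.2 (hfg t ht))).1

lemma cont_rpow (c : ℝ) (n : ℕ) : Continuous fun t : ℝ => (t / c) ^ (1 / ((n : ℝ) + 1)) :=
  Continuous.rpow_const (by fun_prop) fun _ => Or.inr (by positivity)

lemma spec_bound {a : D} (ha : 0 ≤ a) {t : ℝ} (ht : t ∈ spectrum ℝ a) :
    0 ≤ t / (‖a‖ + 1) ∧ t / (‖a‖ + 1) ≤ 1 := by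
  have h0 := spectrum_nonneg_of_nonneg ha ht
  refine ⟨by positivity, (div_le_one (by positivity)).2 ?_⟩
  rcases subsingleton_or_nontrivial D with hD | hD
  · simp [spectrum.of_subsingleton] at ht
  have := spectrum.norm_le_norm_of_mem ht
  rw [Real.norm_of_nonneg h0] at this
  linarith

lemma IsQuasitrace.dim_isLUB (h : IsQuasitrace σ) {a : D} (ha : 0 ≤ a) :
    IsLUB (Set.range fun n : ℕ => LL σ a fun t => (t / (‖a‖ + 1)) ^ (1 / ((n : ℝ) + 1)))
      (dimFun σ a) := by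
  set u : ℕ → ℝ := fun n => LL σ a fun t => (t / (‖a‖ + 1)) ^ (1 / ((n : ℝ) + 1)) with hu
  have hm : Monotone u := by
    refine monotone_nat_of_le_succ fun n => h.LL_mono (cont_rpow _ _) (cont_rpow _ _) ?_
    intro t ht
    refine Real.rpow_le_rpow_of_exponent_ge' (spec_bound ha ht).1 (spec_bound ha ht).2
      (by positivity) ?_
    push_cast
    exact one_div_le_one_div_of_le (by positivity) (by linarith)
  have hb : BddAbove (Set.range u) := by
    refine ⟨LL σ a fun _ => 1, ?_⟩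
    rintro _ ⟨n, rfl⟩
    exact h.LL_mono (cont_rpow _ _) continuous_const fun t ht =>
      Real.rpow_le_one (spec_bound ha ht).1 (spec_bound ha ht).2 (by positivity)
  have h1 := tendsto_atTop_ciSup hm hb
  have h2 : Tendsto (fun n : ℕ => (‖a‖ + 1) ^ (1 / ((n : ℝ) + 1))) atTop (𝓝 1) := by
    have := (tendsto_const_nhds (x := ‖a‖ + 1)).rpow tendsto_one_div_add_atTop_nhds_zero_nat
      (Or.inl (by positivity))
    simpa using this
  have h3 : Tendsto (fun n : ℕ => (σ (cfc (fun t : ℝ => t ^ (1 / (n : ℝ))) a)).re) atTop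
      (𝓝 (⨆ n, u n)) := by
    rw [← tendsto_add_atTop_iff_nat 1]
    have := h2.mul h1
    rw [one_mul] at this
    refine this.congr fun n => ?_
    rw [hu, ← h.LL_mul a _ (cont_rpow _ _), LL]
    congr 2
    refine cfc_congr fun t ht => ?_
    have h0 := spectrum_nonneg_of_nonneg ha ht
    rw [← Real.mul_rpow (by positivity) (by positivity), mul_div_cancel₀ _ (by positivity)]
    push_cast; rfl
  rw [dimFun, h3.limUnder_eq]
  exact isLUB_ciSup hb

lemma IsQuasitrace.LL_le_dim (h : IsQuasitrace σ) {a : D} (ha : 0 ≤ a) {G : ℝ → ℝ}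
    (hG : Continuous G) (h0 : G 0 ≤ 0) (h1 : ∀ t, G t ≤ 1) : LL σ a G ≤ dimFun σ a := by
  have hL : 0 ≤ LL σ a fun _ => 1 := (h.nonneg' (cfc_nonneg fun _ _ => zero_le_one)).1
  refine le_of_forall_pos_le_add fun ε hε => ?_
  set η := ε / (LL σ a (fun _ => 1) + 1) with hη
  have hη0 : 0 < η := by positivity
  obtain ⟨δ, hδ, hd⟩ := Metric.continuous_iff.1 hG 0 η hη0
  have h2 : Tendsto (fun n : ℕ => (δ / (‖a‖ + 1)) ^ (1 / ((n : ℝ) + 1))) atTop (𝓝 1) := by
    have := (tendsto_const_nhds (x := δ / (‖a‖ + 1))).rpow tendsto_one_div_add_atTop_nhds_zero_nat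
      (Or.inl (by positivity))
    simpa using this
  obtain ⟨n, hn⟩ := (h2.eventually (lt_mem_nhds (show 1 - η < 1 by linarith))).exists
  have h3 := (h.dim_isLUB ha).1 ⟨n, rfl⟩
  have h4 : LL σ a G ≤ LL σ a fun t => (t / (‖a‖ + 1)) ^ (1 / ((n : ℝ) + 1)) + η * 1 := by
    refine h.LL_mono hG ((cont_rpow _ _).add continuous_const) fun t ht => ?_
    have t0 := spectrum_nonneg_of_nonneg ha ht
    rcases lt_or_ge t δ with h5 | h5
    · have := hd t (by simpa [abs_of_nonneg t0] using h5)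
      rw [Real.dist_eq, abs_lt] at this
      have : 0 ≤ (t / (‖a‖ + 1)) ^ (1 / ((n : ℝ) + 1)) := by positivity
      linarith
    · have : (δ / (‖a‖ + 1)) ^ (1 / ((n : ℝ) + 1)) ≤ (t / (‖a‖ + 1)) ^ (1 / ((n : ℝ) + 1)) := by
        gcongr
      linarith [h1 t]
  rw [h.LL_add a (cont_rpow _ _) continuous_const, h.LL_mul a η continuous_const] at h4
  have h5 : η * LL σ a (fun _ => 1) ≤ ε := by
    rw [hη, div_mul_eq_mul_div, div_le_iff₀ (by positivity)]
    nlinarith
  simp only at h3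
  linarith

/-- The ramp that is `0` up to `δ` and `1` from `2 δ` on. -/
def ramp (δ t : ℝ) : ℝ := min 1 (max (t - δ) 0 / δ)

@[fun_prop] lemma ramp_cont (δ : ℝ) : Continuous (ramp δ) := by unfold ramp; fun_prop

lemma ramp_nonneg {δ : ℝ} (hδ : 0 ≤ δ) (t : ℝ) : 0 ≤ ramp δ t := by unfold ramp; positivity

lemma ramp_le_one (δ t : ℝ) : ramp δ t ≤ 1 := min_le_left _ _

lemma ramp_zero {δ t : ℝ} (h : t ≤ δ) : ramp δ t = 0 := by
  simp [ramp, max_eq_right (sub_nonpos.2 h)]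

lemma ramp_one {δ t : ℝ} (hδ : 0 < δ) (h : 2 * δ ≤ t) : ramp δ t = 1 := by
  refine min_eq_left ?_
  rw [le_div_iff₀ hδ]
  exact le_max_of_le_left (by linarith)

lemma ramp_anti {δ δ' : ℝ} (hδ : 0 < δ) (h : δ ≤ δ') (t : ℝ) : ramp δ' t ≤ ramp δ t := by
  unfold ramp
  gcongr

lemma IsQuasitrace.dim_le_LL (h : IsQuasitrace σ) {a : D} (ha : 0 ≤ a) {c : ℝ}
    (hc : c < dimFun σ a) : ∃ δ > 0, c < LL σ a (ramp δ) := by
  have hL : 0 ≤ LL σ a fun _ => 1 := (h.nonneg' (cfc_nonneg fun _ _ => zero_le_one)).1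
  obtain ⟨_, ⟨n, rfl⟩, hn⟩ := (lt_isLUB_iff (h.dim_isLUB ha)).1 hc
  set u := LL σ a fun t => (t / (‖a‖ + 1)) ^ (1 / ((n : ℝ) + 1)) with hu
  have hn' : c < u := hn
  set η := (u - c) / (LL σ a (fun _ => 1) + 1) with hη
  have hη0 : 0 < η := div_pos (by linarith) (by positivity)
  obtain ⟨δ, hδ, hd⟩ := Metric.continuous_iff.1 (cont_rpow (‖a‖ + 1) n) 0 η hη0
  refine ⟨δ / 2, by positivity, ?_⟩
  have h4 : u ≤ LL σ a fun t => ramp (δ / 2) t + η * 1 := by
    refine h.LL_mono (cont_rpow _ _) (by fun_prop) fun t ht => ?_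
    have t0 := spectrum_nonneg_of_nonneg ha ht
    rcases lt_or_ge t δ with h5 | h5
    · have := hd t (by simpa [abs_of_nonneg t0] using h5)
      rw [zero_div, Real.zero_rpow (by positivity), Real.dist_eq, abs_lt] at this
      linarith [ramp_nonneg (show 0 ≤ δ / 2 by positivity) t]
    · rw [ramp_one (by positivity) (by linarith)]
      have := Real.rpow_le_one (spec_bound ha ht).1 (spec_bound ha ht).2
        (show 0 ≤ 1 / ((n : ℝ) + 1) by positivity)
      linarith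
  rw [h.LL_add a (ramp_cont _) continuous_const, h.LL_mul a η continuous_const] at h4
  have h5 : η * LL σ a (fun _ => 1) < u - c := by
    rw [hη, div_mul_eq_mul_div, div_lt_iff₀ (by positivity)]
    nlinarith
  linarith

omit [PartialOrder D] [StarOrderedRing D] in
lemma dim_proj (σ : D → ℂ) {p : D} (hp : IsStarProjection p) : dimFun σ p = (σ p).re := by
  refine Tendsto.limUnder_eq (tendsto_const_nhds.congr' ?_)
  filter_upwards [eventually_gt_atTop 0] with n hn
  have : cfc (fun t : ℝ => t ^ (1 / (n : ℝ))) p = p := by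
    refine (cfc_congr fun t ht => ?_).trans (cfc_id' ℝ p hp.2)
    rcases hp.1.spectrum_subset ℝ ht with rfl | rfl
    · exact Real.zero_rpow (by positivity)
    · exact Real.one_rpow _
  rw [this]

/-- A positive tracial linear functional. -/
structure IsTrace (τ : D →ₗ[ℂ] ℂ) : Prop where
  nonneg : ∀ x, 0 ≤ τ (star x * x)
  comm : ∀ x y, τ (x * y) = τ (y * x)

variable {τ : D →ₗ[ℂ] ℂ}

omit [PartialOrder D] [StarOrderedRing D] in
lemma IsTrace.qt (h : IsTrace τ) : IsQuasitrace τ :=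
  ⟨h.nonneg, fun _ => h.comm _ _, fun _ _ _ _ _ _ _ => by simp, fun _ _ _ _ => by simp⟩

lemma IsTrace.mono (h : IsTrace τ) {x y : D} (hxy : x ≤ y) : (τ x).re ≤ (τ y).re := by
  have := (h.qt.nonneg' (sub_nonneg.2 hxy)).1
  simpa using this

lemma IsTrace.mul_le (h : IsTrace τ) {x y : D} (hx : x ≤ 1) (hy : 0 ≤ y) :
    (τ (x * y)).re ≤ (τ y).re := by
  obtain ⟨s, hs, rfl⟩ : ∃ s : D, IsSelfAdjoint s ∧ y = s * s :=
    ⟨CFC.sqrt y, (CFC.sqrt_nonneg y).isSelfAdjoint, (CFC.sqrt_mul_sqrt_self y).symm⟩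
  rw [← mul_assoc, h.comm, ← mul_assoc]
  exact h.mono (by simpa using hs.conjugate_le_conjugate hx)

lemma IsTrace.le_add (h : IsTrace τ) {e w₁ w₂ e₁ e₂ : D} (he : e ≤ 1)
    (hw : e ≤ w₁ * star w₁ + w₂ * star w₂) (h₁ : 0 ≤ e₁) (h₂ : 0 ≤ e₂) (hw₁ : w₁ * e₁ = w₁)
    (hw₂ : w₂ * e₂ = w₂) : (τ e).re ≤ (τ e₁).re + (τ e₂).re := by
  have hL : 0 ≤ (τ 1).re := (h.qt.nonneg' zero_le_one).1
  refine le_of_forall_pos_le_add fun ε hε => ?_
  have hδ : 0 < ε / ((τ 1).re + 1) := by positivity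
  have p₁ := mul_star_self_nonneg w₁
  have p₂ := mul_star_self_nonneg w₂
  obtain ⟨q, hq, hqe⟩ := exists_q (add_nonneg p₁ p₂) hδ
  have hq1 := q_le_one hδ hq hqe
  have key : ∀ w e' : D, 0 ≤ e' → w * e' = w → w * star w ≤ w₁ * star w₁ + w₂ * star w₂ →
      (τ (q * (w * star w) * q)).re ≤ (τ e').re := by
    intro w e' h0 hwe hle
    have e1 : q * (w * star w) * q = q * w * star (q * w) := by simp [hq.star_eq, mul_assoc]
    have h1 : q * w * star (q * w) ≤ 1 := e1 ▸ (hq.conjugate_le_conjugate hle).trans hq1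
    have h2 : star (q * w) * (q * w) ≤ 1 := by
      rw [← CStarAlgebra.norm_le_one_iff_of_nonneg _ (star_mul_self_nonneg _),
        CStarRing.norm_star_mul_self, ← CStarRing.norm_self_mul_star,
        CStarAlgebra.norm_le_one_iff_of_nonneg _ (mul_star_self_nonneg _)]
      exact h1
    rw [e1, h.comm]
    have e2 : star (q * w) * (q * w) = star (q * w) * (q * w) * e' := by
      rw [mul_assoc, mul_assoc, hwe]
    rw [e2]
    exact h.mul_le h2 h0
  have k₁ := key w₁ e₁ h₁ hw₁ (le_add_of_nonneg_right p₂)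
  have k₂ := key w₂ e₂ h₂ hw₂ (le_add_of_nonneg_left p₁)
  have k₃ := h.mul_le he (hq.conjugate_nonneg (add_nonneg p₁ p₂))
  have k₄ : (τ (e * (q * q))).re ≤ (τ 1).re := by
    rw [← mul_assoc, h.comm, ← mul_assoc]
    exact h.mono ((hq.conjugate_le_conjugate hw).trans hq1)
  have k₅ : (τ e).re = (τ (e * (q * (w₁ * star w₁ + w₂ * star w₂) * q))).re +
      ε / ((τ 1).re + 1) * (τ (e * (q * q))).re := by
    conv_lhs => rw [← mul_one e, ← hqe, mul_add, map_add, mul_smul_comm, LinearMap.map_smul_of_tower]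
    rw [Complex.add_re, Complex.smul_re, smul_eq_mul]
  have k₆ : (τ (q * (w₁ * star w₁ + w₂ * star w₂) * q)).re =
      (τ (q * (w₁ * star w₁) * q)).re + (τ (q * (w₂ * star w₂) * q)).re := by
    rw [mul_add, add_mul, map_add, Complex.add_re]
  have k₇ : ε / ((τ 1).re + 1) * (τ (e * (q * q))).re ≤ ε := by
    refine (mul_le_mul_of_nonneg_left k₄ hδ.le).trans ?_
    rw [div_mul_eq_mul_div, div_le_iff₀ (by positivity)]
    nlinarith
  linarith

lemma IsTrace.cfc_le (h : IsTrace τ) {x y p v : D} (hx : IsSelfAdjoint x)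
    (hp : IsStarProjection p) {C s s' θ : ℝ} (hC : 0 ≤ C) (hs : s < s')
    (hle : x - algebraMap ℝ D s ≤ v * pp θ y * star v + C • p) {f g : ℝ → ℝ} (hf : Continuous f)
    (hf0 : ∀ t, 0 ≤ f t) (hf1 : ∀ t, f t ≤ 1) (hfz : ∀ t ≤ s', f t = 0) (hg : Continuous g)
    (hg0 : ∀ t, 0 ≤ g t) (hg1 : ∀ t, θ ≤ t → g t = 1) :
    (τ (cfc f x)).re ≤ (τ (cfc g y)).re + (τ p).re := by
  obtain ⟨G, hG, e⟩ := fac hf hf0 hs hfz hx
  set r : D := cfc (fun t : ℝ => √(max (t - θ) 0)) y with hr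
  have hrs : IsSelfAdjoint r := cfc_predicate _ _
  have hrr : r * r = pp θ y := by
    rw [hr, ← cfc_mul _ _ y]
    exact cfc_congr fun t _ => Real.mul_self_sqrt (le_max_right _ _)
  refine h.le_add (w₁ := G * v * r) (w₂ := √C • (G * p)) (cfc_le_one f x fun t _ => hf1 t) ?_
    (cfc_nonneg fun t _ => hg0 t) hp.nonneg ?_ ?_
  · rw [← e]
    refine (hG.conjugate_le_conjugate hle).trans (le_of_eq ?_)
    have : p * (p * G) = p * G := by rw [← mul_assoc, hp.1.eq]
    simp [← hrr, hG.star_eq, hrs.star_eq, hp.2.star_eq, mul_add, add_mul, mul_assoc, smul_smul,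
      Real.mul_self_sqrt hC, this]
  · rw [mul_assoc, hr, ← cfc_mul _ _ y]
    congr 1
    refine cfc_congr fun t _ => ?_
    rcases le_total θ t with h1 | h1
    · simp [hg1 t h1]
    · simp [max_eq_right (sub_nonpos.2 h1)]
  · rw [smul_mul_assoc, mul_assoc, hp.1.eq]

end

end Pool.Agent.P.MP_456758_an
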