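import Pool.Agent.P.MP_456758_an.Univ
import Pool.Agent.P.MP_456758_an.Trace

/-! Invariant states, towers and traces on the crossed product. -/

namespace Pool.Agent.P.MP_456758_an

open scoped ComplexOrder
open Filter Topology

noncomputable section

attribute [-simp] zpow_natCast zpow_neg

variable {X : Type} [TopologicalSpace X] {T : X ≃ₜ X}

/-- Birkhoff sums. -/
def bs (T : X ≃ₜ X) (N : ℕ) (f : X → ℝ) (x : X) : ℝ := ∑ i ∈ Finset.range N, f ((T ^ (i : ℤ)) x)

lemma sum_range_blocks {M : Type} [AddCommMonoid M] (g : ℕ → M) (q N : ℕ) :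
    ∑ i ∈ Finset.range (N * q), g i = ∑ j ∈ Finset.range N, ∑ i ∈ Finset.range q, g (j * q + i) := by
  induction N with
  | zero => simp
  | succ N ih => rw [Nat.succ_mul, Finset.sum_range_add, ih, Finset.sum_range_succ]

/-- An invariant state. -/
structure IS (T : X ≃ₜ X) where
  /-- The functional. -/
  μ : C(X, ℝ) →ₗ[ℝ] ℝ
  pos : ∀ f : C(X, ℝ), (∀ x, 0 ≤ f x) → 0 ≤ μ f
  one : μ 1 = 1
  inv : ∀ f, μ (sh T 1 f) = μ f

namespace IS

variable (m : IS T)

lemma const (c : ℝ) : m.μ (.const X c) = c := by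
  rw [show ContinuousMap.const X c = c • (1 : C(X, ℝ)) by ext; simp, map_smul, m.one]; simp

lemma le_add {f g : C(X, ℝ)} {c : ℝ} (h : ∀ x, f x ≤ g x + c) : m.μ f ≤ m.μ g + c := by
  have := m.pos (g + .const X c - f) fun x => by simpa using h x
  rw [map_sub, map_add, m.const] at this
  linarith

lemma mono {f g : C(X, ℝ)} (h : ∀ x, f x ≤ g x) : m.μ f ≤ m.μ g := by
  simpa using m.le_add (c := 0) (by simpa using h)

lemma abs_sub_le {f g : C(X, ℝ)} {c : ℝ} (h : ∀ x, |f x - g x| ≤ c) : |m.μ f - m.μ g| ≤ c := by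
  have h1 := m.le_add (f := f) (g := g) (c := c) fun x => by linarith [abs_le.1 (h x)]
  have h2 := m.le_add (f := g) (g := f) (c := c) fun x => by linarith [abs_le.1 (h x)]
  rw [abs_le]; constructor <;> linarith

lemma inv_zpow (l : ℤ) (f : C(X, ℝ)) : m.μ (sh T l f) = m.μ f := by
  induction l using Int.induction_on with
  | zero => simp
  | succ n ih => rw [add_comm, ← sh_sh, m.inv, ih]
  | pred n ih => rw [← m.inv, sh_sh, add_sub_cancel, ih]

lemma cont [CompactSpace X] : Continuous m.μ :=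
  (LipschitzWith.of_dist_le_mul (K := 1) fun f g => by
    simpa [Real.dist_eq] using m.abs_sub_le (f := f) (g := g)
      fun x => ContinuousMap.dist_apply_le_dist (f := f) (g := g) x).continuous

lemma exists_le [CompactSpace X] (f : C(X, ℝ)) : ∃ x, f x ≤ m.μ f := by
  rcases isEmpty_or_nonempty X with h | h
  · exact absurd m.one (by simp [Subsingleton.elim (1 : C(X, ℝ)) 0])
  obtain ⟨x, -, hx⟩ := isCompact_univ.exists_isMinOn Set.univ_nonempty f.continuous.continuousOn
  exact ⟨x, by simpa [m.const] using m.mono (f := .const X (f x)) fun y => hx (Set.mem_univ y)⟩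

end IS

/-- A tower of constant height. -/
structure Tower (T : X ≃ₜ X) (q : ℕ) where
  /-- The level of a point. -/
  pos : C(X, ℤ)
  nonneg : ∀ x, 0 ≤ pos x
  lt : ∀ x, pos x < q
  succ : ∀ x, pos (T x) = (pos x + 1) % q

namespace Tower

variable {q : ℕ} (t : Tower T q)

lemma emod (x : X) : t.pos x % q = t.pos x := Int.emod_eq_of_lt (t.nonneg x) (t.lt x)

lemma pos_zpow (n : ℤ) (x : X) : t.pos ((T ^ n) x) = (t.pos x + n) % q := by
  have h1 : ∀ n : ℤ, t.pos ((T ^ (n + 1)) x) = (t.pos ((T ^ n) x) + 1) % q := fun n => by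
    rw [add_comm, ← zpow_zpow, zpow_one, t.succ]
  induction n using Int.induction_on with
  | zero => simp [t.emod]
  | succ n ih => rw [h1, ih, Int.emod_add_emod, add_assoc]
  | pred n ih =>
    have := h1 (-n - 1)
    rw [sub_add_cancel, ih] at this
    rw [← t.emod, ← Int.emod_add_cancel_right 1, ← this]
    congr 1; ring

lemma pos_base {x : X} (hx : t.pos x = 0) {i : ℤ} (h0 : 0 ≤ i) (h1 : i < q) :
    t.pos ((T ^ i) x) = i := by rw [pos_zpow, hx, zero_add, Int.emod_eq_of_lt h0 h1]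

/-- Functions of the level. -/
def fn {F : Type} [TopologicalSpace F] (g : ℤ → F) : C(X, F) :=
  ⟨fun x => g (t.pos x), continuous_of_discreteTopology.comp t.pos.continuous⟩

@[simp] lemma fn_apply {F : Type} [TopologicalSpace F] (g : ℤ → F) (x : X) :
    t.fn g x = g (t.pos x) := rfl

/-- The indicator function of a level. -/
def ch (F : Type) [TopologicalSpace F] [Zero F] [One F] (r : ℤ) : C(X, F) :=
  t.fn fun a => if a = r then 1 else 0

@[simp] lemma ch_apply (F : Type) [TopologicalSpace F] [Zero F] [One F] (r : ℤ) (x : X) :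
    t.ch F r x = if t.pos x = r then 1 else 0 := rfl

lemma sum_ch (F : Type) [TopologicalSpace F] [Semiring F] [ContinuousAdd F] :
    ∑ r ∈ Finset.range q, t.ch F r = 1 := by
  ext x
  rw [ContinuousMap.coe_sum, Finset.sum_apply, Finset.sum_eq_single (t.pos x).toNat]
  · simp [t.nonneg x]
  · intro b _ hb
    exact if_neg (by omega)
  · intro h
    have := t.lt x
    have := t.nonneg x
    exact absurd (Finset.mem_range.2 (by omega)) h

lemma pos_eq_iff {r : ℤ} (h0 : 0 ≤ r) (h1 : r < q) (x : X) :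
    t.pos ((T ^ r) x) = r ↔ t.pos x = 0 := by
  refine ⟨fun h => ?_, fun h => t.pos_base h h0 h1⟩
  have := t.pos_zpow (-r) ((T ^ r) x)
  simpa [h, zpow_zpow] using this

lemma le_add (m : IS T) {f g : C(X, ℝ)} {c : ℝ}
    (h : ∀ x, t.pos x = 0 → bs T q f x ≤ bs T q g x + q * c) : m.μ f ≤ m.μ g + c := by
  have key : ∀ f : C(X, ℝ), m.μ f = m.μ (t.ch ℝ 0 * ∑ r ∈ Finset.range q, sh T r f) := fun f => by
    conv_lhs => rw [← one_mul f, ← t.sum_ch ℝ, Finset.sum_mul]
    rw [Finset.mul_sum, map_sum, map_sum]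
    refine Finset.sum_congr rfl fun r hr => ?_
    rw [← m.inv_zpow r]
    congr 1
    ext x
    simp [t.pos_eq_iff (r := r) (by omega) (by simpa using hr)]
  rw [← m.const c, ← map_add, key f, key (g + _)]
  refine m.mono fun x => ?_
  by_cases hx : t.pos x = 0
  · simpa [hx, bs, Finset.sum_add_distrib] using h x hx
  · simp [hx]

lemma abs_sub_le (m : IS T) {f g : C(X, ℝ)} {c : ℝ}
    (h : ∀ x, t.pos x = 0 → |bs T q f x - bs T q g x| ≤ q * c) : |m.μ f - m.μ g| ≤ c := by
  have h1 := t.le_add m (f := f) (g := g) (c := c) fun x hx => by linarith [abs_le.1 (h x hx)]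
  have h2 := t.le_add m (f := g) (g := f) (c := c) fun x hx => by linarith [abs_le.1 (h x hx)]
  rw [abs_le]; constructor <;> linarith

end Tower

/-- A real function as a complex one. -/
def cx (f : C(X, ℝ)) : C(X, ℂ) := ⟨fun x => f x, by fun_prop⟩

@[simp] lemma cx_apply (f : C(X, ℝ)) (x : X) : cx f x = f x := rfl

/-- The real part of a function. -/
def rp (f : C(X, ℂ)) : C(X, ℝ) := ⟨fun x => (f x).re, by fun_prop⟩

@[simp] lemma rp_apply (f : C(X, ℂ)) (x : X) : rp f x = (f x).re := rfl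

lemma cx_sa (f : C(X, ℝ)) : IsSelfAdjoint (cx f) := by ext x; simp

/-- The invariant state of a quasitrace. -/
def IS.ofQ {A D : Type} [CStarAlgebra A] [CStarAlgebra D] {σ : D → ℂ} (hσ : IsQuasitrace σ)
    (E : A →⋆ₙₐ[ℂ] D) (h1 : σ (E 1) = 1) (c : Cov T A) : IS T :=
  have sa : ∀ f, IsSelfAdjoint (E (c.π (cx f))) := fun f => ((cx_sa f).map _).map _
  have hs : ∀ f : C(X, ℝ), (∀ x, 0 ≤ f x) → ∃ g : C(X, ℝ), cx f = star (cx g) * cx g := fun f h =>
    ⟨⟨fun x => √(f x), by fun_prop⟩, by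
      ext x; simp [← Complex.ofReal_mul, Real.mul_self_sqrt (h x)]⟩
  have ad : ∀ f g, σ (E (c.π (cx (f + g)))) = σ (E (c.π (cx f))) + σ (E (c.π (cx g))) :=
    fun f g => by
      rw [show cx (f + g) = cx f + cx g by ext; simp, map_add, map_add]
      exact hσ.add (sa f) (sa g) (((Commute.all _ _).map _).map _)
  { μ :=
      { toFun := fun f => (σ (E (c.π (cx f)))).re
        map_add' := fun f g => congrArg Complex.re (ad f g)
        map_smul' := fun r f => by
          rw [show cx (r • f) = (r : ℂ) • cx f by ext; simp, map_smul, map_smul, Complex.coe_smul,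
            hσ.smul (sa f)]
          simp }
    pos := fun f h => by
      obtain ⟨g, hg⟩ := hs f h
      have := (hσ.nonneg (E (c.π (cx g)))).1
      rwa [← map_star, ← map_star, ← map_mul, ← map_mul, ← hg] at this
    one := by
      change (σ (E (c.π (cx 1)))).re = 1
      rw [show cx (1 : C(X, ℝ)) = 1 by ext; simp, map_one, h1, Complex.one_re]
    inv := fun f => by
      have k : ∀ f : C(X, ℝ), (∀ x, 0 ≤ f x) →
          σ (E (c.π (cx (sh T 1 f)))) = σ (E (c.π (cx f))) := fun f h => by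
        obtain ⟨g, hg⟩ := hs f h
        have := hσ.comm (E (c.π (cx g) * c.zu 1))
        rw [← map_star, ← map_mul, ← map_mul, star_mul, c.star_zu, ← map_star, mul_assoc,
          ← mul_assoc (c.π _), ← map_mul, ← hg, ← mul_assoc, c.zu_mul_π, mul_assoc, ← c.zu_add,
          mul_assoc, ← mul_assoc (c.zu 1), ← c.zu_add] at this
        simp only [neg_add_cancel, add_neg_cancel, c.zu_zero, mul_one, one_mul, neg_neg, ← map_mul,
          mul_comm (cx g), ← hg] at this
        exact this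
      have a := ad f f⁻
      have b := ad (sh T 1 f) (sh T 1 f⁻)
      have k1 := k (f + f⁻) fun x => by
        have := le_max_left (-f x) 0
        change 0 ≤ f x + max (-f x) 0
        linarith
      have k2 := k f⁻ fun x => le_max_right (-f x) 0
      change (σ _).re = (σ _).re
      congr 1
      exact add_right_cancel ((k2 ▸ b).symm.trans (k1.trans a)) }

lemma IS.ofQ_apply {A D : Type} [CStarAlgebra A] [CStarAlgebra D] {σ : D → ℂ}
    (hσ : IsQuasitrace σ) (E : A →⋆ₙₐ[ℂ] D) (h1 : σ (E 1) = 1) (c : Cov T A) (f : C(X, ℝ)) :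
    (IS.ofQ hσ E h1 c).μ f = (σ (E (c.π (cx f)))).re := rfl

section Tr

variable {A : Type} [CStarAlgebra A]

/-- A tracial state as a linear map. -/
def TS.lin (τ : TS A) : A →ₗ[ℂ] ℂ := (WeakDual.toStrongDual τ.1).toLinearMap

lemma TS.lin_apply (τ : TS A) (a : A) : τ.lin a = τ.ev a := rfl

lemma TS.isTrace (τ : TS A) : IsTrace τ.lin := ⟨τ.2.2.1, τ.2.2.2⟩

lemma TS.ev_cont (τ : TS A) : Continuous τ.ev := (WeakDual.toStrongDual τ.1).continuous

lemma TS.cont_ev (a : A) : Continuous fun τ : TS A => τ.ev a :=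
  (WeakDual.eval_continuous a).comp continuous_subtype_val

instance : T2Space (TS A) := inferInstanceAs (T2Space (Subtype _))

/-- The trace on matrices as a linear map. -/
def trL (τ : TS A) (n : ℕ) : Mat A n →ₗ[ℂ] ℂ where
  toFun := trM τ n
  map_add' a b := by simp [trM, ← TS.lin_apply, Finset.sum_add_distrib]
  map_smul' c a := by simp [trM, ← TS.lin_apply, Finset.mul_sum]

variable [PartialOrder A] [StarOrderedRing A]

lemma trL_isTrace (τ : TS A) (n : ℕ) : IsTrace (trL τ n) :=
  ⟨fun x => Finset.sum_nonneg (f := fun i => τ.lin ((star x * x) i i)) fun i _ => by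
    rw [CStarMatrix.mul_apply, map_sum]
    exact Finset.sum_nonneg fun j _ => τ.2.2.1 _, trM_comm τ n⟩

lemma TS.im_eq (τ : TS A) {a : A} (ha : IsSelfAdjoint a) : (τ.ev a).im = 0 := by
  have h1 := (τ.isTrace.qt.nonneg' (sub_nonneg.2 ha.le_algebraMap_norm_self)).2
  have h2 : τ.lin 1 = 1 := τ.2.1
  simpa [Algebra.algebraMap_eq_smul_one, h2, ← TS.lin_apply] using h1

lemma TS.abs_re_le (τ : TS A) (a : A) : |(τ.ev a).re| ≤ ‖a‖ := by
  have h2 : τ.lin 1 = 1 := τ.2.1
  have key : ∀ a : A, (τ.ev a).re ≤ ‖a‖ := fun a => by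
    have h1 := τ.isTrace.mono (realPart a).2.le_algebraMap_norm_self
    have h3 := congrArg (fun x => (τ.lin x).re) (realPart_add_I_smul_imaginaryPart a)
    have h4 := τ.im_eq (imaginaryPart a).2
    have h5 : ‖(realPart a : A)‖ ≤ ‖a‖ := realPart.norm_le a
    rw [← TS.lin_apply] at h4 ⊢
    simp [Algebra.algebraMap_eq_smul_one, h2, h4] at h1 h3
    linarith
  have := key (-a)
  rw [← TS.lin_apply, map_neg, norm_neg, Complex.neg_re, TS.lin_apply] at this
  exact abs_le.2 ⟨by linarith, key a⟩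

instance : CompactSpace (TS A) := by
  refine isCompact_iff_compactSpace.1 ((WeakDual.isCompact_closedBall 0 2).of_isClosed_subset ?_ ?_)
  · have := WeakDual.eval_continuous (𝕜 := ℂ) (E := A)
    refine (isClosed_eq (this _) continuous_const).and (IsClosed.and ?_ ?_) <;>
      simp only [Set.ofPred_forall]
    · exact isClosed_iInter fun x => isClosed_le continuous_const (this _)
    · exact isClosed_iInter fun x => isClosed_iInter fun y => isClosed_eq (this _) (this _)
  · intro τ hτ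
    refine mem_closedBall_zero_iff.2 (ContinuousLinearMap.opNorm_le_bound _ zero_le_two fun a => ?_)
    have h1 := TS.abs_re_le ⟨τ, hτ⟩ a
    have h2 := TS.abs_re_le ⟨τ, hτ⟩ (Complex.I • a)
    rw [← TS.lin_apply, map_smul, norm_smul] at h2
    simp only [smul_eq_mul, Complex.mul_re, Complex.I_re, zero_mul, Complex.I_im, one_mul, zero_sub,
      abs_neg, Complex.norm_I] at h2
    exact (Complex.norm_le_abs_re_add_abs_im _).trans (by rw [two_mul]; exact add_le_add h1 h2)

end Tr

variable [CompactSpace X]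

/-- A covariant pair with dense polynomials and regular representations. -/
structure Reg (T : X ≃ₜ X) (A : Type) [CStarAlgebra A] extends Cov T A where
  dense : DenseRange toCov.poly
  /-- The regular representations. -/
  rep : X → A →⋆ₐ[ℂ] (H →L[ℂ] H)
  rep_π : ∀ x f, rep x (π f) = mop (orb T x f)
  rep_zu : ∀ x l, rep x (toCov.zu l) = wop 1 l

/-- The concrete crossed product. -/
def cpReg (T : X ≃ₜ X) : Reg T (CP T) := ⟨cp T, cp_dense T, rep, rep_π, rep_zu⟩

/-- Existence of arbitrarily high towers. -/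
def HasTowers (T : X ≃ₜ X) : Prop := ∀ N : ℕ, ∃ q > N, Nonempty (Tower T q)

/-- Diagonal entries of an operator. -/
def dg (i : ℤ) : (H →L[ℂ] H) →L[ℂ] ℂ := (innerSL ℂ (dl i)).comp (ContinuousLinearMap.apply ℂ H (dl i))

lemma dg_apply (i : ℤ) (a : H →L[ℂ] H) : dg i a = a (dl i) i := by
  simp [dg, dl, lp.inner_single_left]

lemma norm_dg (i : ℤ) (a : H →L[ℂ] H) : ‖dg i a‖ ≤ ‖a‖ := by
  rw [dg_apply]
  refine (lp.norm_apply_le_norm two_ne_zero _ _).trans ((a.le_opNorm _).trans ?_)
  rw [norm_dl, mul_one]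

namespace Reg

variable {A : Type} [CStarAlgebra A] (R : Reg T A)

lemma rep_poly (x : X) (f : ℤ →₀ C(X, ℂ)) (ξ : H) (n : ℤ) :
    R.rep x (R.poly f) ξ n = ∑ l ∈ f.support, f l ((T ^ n) x) * ξ (n - l) := by
  rw [Cov.poly_eq, map_sum, sum_apply, lp.coeFn_sum, Finset.sum_apply]
  simp [R.rep_π, R.rep_zu]

lemma norm_coeff_le (f : ℤ →₀ C(X, ℂ)) (x : X) : ‖f 0 x‖ ≤ ‖R.poly f‖ := by
  have h1 : R.rep x (R.poly f) (dl 0) 0 = f 0 x := by
    rw [rep_poly, Finset.sum_eq_single 0 (fun l _ hl => by simp [hl])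
      fun h => by simp [Finsupp.notMem_support_iff.1 h]]
    simp
  rw [← h1, ← dg_apply]
  exact (norm_dg _ _).trans (NonUnitalStarAlgHom.norm_apply_le _ _)

/-- The invariant state of a trace on the crossed product. -/
def is (τ : TS A) : IS T := IS.ofQ τ.isTrace.qt (NonUnitalStarAlgHom.id ℂ _) τ.2.1 R.toCov

lemma is_apply (τ : TS A) (f : C(X, ℝ)) : (R.is τ).μ f = (τ.ev (R.π (cx f))).re := rfl

lemma is_cont (f : C(X, ℝ)) : Continuous fun τ => (R.is τ).μ f :=
  Complex.continuous_re.comp (TS.cont_ev _)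

lemma vanish (h : HasTowers T) (τ : TS A) (f : C(X, ℂ)) {l : ℤ} (hl : l ≠ 0) :
    τ.lin (R.π f * R.zu l) = 0 := by
  obtain ⟨q, hq, ⟨t⟩⟩ := h l.natAbs
  rw [← one_mul f, ← t.sum_ch ℂ, Finset.sum_mul, map_sum, Finset.sum_mul, map_sum]
  refine Finset.sum_eq_zero fun r _ => ?_
  have e1 : t.ch ℂ r * f = t.ch ℂ r * (t.ch ℂ r * f) := by
    ext x; by_cases h : t.pos x = r <;> simp [h]
  have e2 : t.ch ℂ r * f * sh T (-l) (t.ch ℂ r) = 0 := by
    ext x
    by_cases h : t.pos x = r
    · have : t.pos ((T ^ (-l)) x) ≠ r := fun h' => by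
        rw [t.pos_zpow, ← h] at h'
        have h1 : (q : ℤ) ∣ l := by
          simpa using Int.ModEq.dvd (h'.trans (t.emod x).symm)
        exact hl (Int.eq_zero_of_dvd_of_natAbs_lt_natAbs h1 (by simpa using hq))
      simp [this]
    · simp [h]
  rw [e1, map_mul R.π, mul_assoc, τ.isTrace.comm, mul_assoc, Cov.zu_mul_π, ← mul_assoc, ← map_mul, e2]
  simp

lemma ev_poly (h : HasTowers T) (τ : TS A) (f : ℤ →₀ C(X, ℂ)) :
    τ.lin (R.poly f) = τ.lin (R.π (f 0)) := by
  rw [Cov.poly_eq, map_sum, Finset.sum_eq_single 0 (fun l _ hl => R.vanish h τ _ hl)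
    fun h => by simp [Finsupp.notMem_support_iff.1 h]]
  simp

theorem exists_trace (x : X) {N : ℕ → ℕ} (hN : Tendsto N atTop atTop) :
    ∃ τ : TS A, ∀ (f : C(X, ℝ)) (c : ℝ), (∀ᶠ m in atTop, bs T (N m) f x ≤ N m * c) →
      (R.is τ).μ f ≤ c := by
  let r : A →L[ℂ] (H →L[ℂ] H) := ⟨(R.rep x).toAlgHom.toLinearMap, hom_cont (R.rep x)⟩
  have hr : ∀ a, ‖R.rep x a‖ ≤ ‖a‖ := NonUnitalStarAlgHom.norm_apply_le _
  let ω : ℕ → WeakDual ℂ A := fun m => StrongDual.toWeakDual
    (((N m : ℂ)⁻¹ • ∑ i ∈ Finset.range (N m), dg i).comp r)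
  have hω : ∀ m a, ω m a = (N m : ℂ)⁻¹ * ∑ i ∈ Finset.range (N m), dg i (R.rep x a) := fun m a =>
    congrArg (fun z => (N m : ℂ)⁻¹ * z) (sum_apply (Finset.range (N m)) (fun i : ℕ => dg i) _)
  have hb : ∀ m, ω m ∈ WeakDual.toStrongDual ⁻¹' Metric.closedBall 0 1 := fun m => by
    refine mem_closedBall_zero_iff.2 (ContinuousLinearMap.opNorm_le_bound _ zero_le_one fun a => ?_)
    refine (congrArg norm (hω m a)).trans_le ?_
    have : ‖∑ i ∈ Finset.range (N m), dg i (R.rep x a)‖ ≤ N m * ‖a‖ := by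
      simpa using norm_sum_le_of_le (Finset.range (N m)) (n := fun _ => ‖a‖) fun i _ =>
        (norm_dg i _).trans (hr a)
    rw [norm_mul, norm_inv, Complex.norm_natCast]
    refine (mul_le_mul_of_nonneg_left this (by positivity)).trans ?_
    rw [← mul_assoc]
    exact mul_le_mul_of_nonneg_right inv_mul_le_one (norm_nonneg _)
  let U := Ultrafilter.of (atTop : Filter ℕ)
  have hU : (U : Filter ℕ) ≤ atTop := Ultrafilter.of_le _
  obtain ⟨τ, -, hτ⟩ := (WeakDual.isCompact_closedBall (0 : StrongDual ℂ A) 1).ultrafilter_le_nhds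
    (U.map ω) (le_principal_iff.2 (mem_map.2 (Eventually.of_forall hb)))
  have ev : ∀ a, Tendsto (fun m => ω m a) U (𝓝 (τ a)) := fun a =>
    ((WeakDual.eval_continuous a).tendsto τ).comp hτ
  have hpos : ∀ᶠ m in atTop, (0 : ℝ) < N m := (hN.eventually_gt_atTop 0).mono fun m h => by
    exact_mod_cast h
  have hπ : ∀ f a, τ (R.π f * a) = τ (a * R.π f) := fun f a => by
    refine tendsto_nhds_unique (ev _) ((ev _).congr fun m => ?_)
    simp only [hω, map_mul, R.rep_π, dg_apply, mul_apply_eq_comp, mop_apply]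
    congr 1
    refine Finset.sum_congr rfl fun i _ => ?_
    rw [show mop (orb T x f) (dl i) = orb T x f i • dl i by
      ext n; by_cases h : n = i <;> simp [h], map_smul]
    rfl
  have hu : ∀ a, τ (R.zu (-1) * a * R.zu 1) = τ a := fun a => by
    have e : ∀ i : ℤ, dg i (R.rep x (R.zu (-1) * a * R.zu 1)) = dg (i + 1) (R.rep x a) := by
      intro i
      simp only [map_mul, R.rep_zu, dg_apply, mul_apply_eq_comp, wop_apply]
      rw [show wop 1 1 (dl i) = dl (i + 1) by ext n; simp [sub_eq_iff_eq_add]]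
      simp
    have h0 : Tendsto (fun m => ω m (R.zu (-1) * a * R.zu 1) - ω m a) atTop (𝓝 0) := by
      refine squeeze_zero_norm (a := fun m => (N m : ℝ)⁻¹ * (2 * ‖a‖)) (fun m => ?_) ?_
      · have := Finset.sum_range_sub (fun i : ℕ => dg i (R.rep x a)) (N m)
        rw [hω, hω, ← mul_sub, ← Finset.sum_sub_distrib, norm_mul, norm_inv, Complex.norm_natCast]
        simp only [e]
        push_cast at this
        rw [this, two_mul]
        gcongr
        exact (norm_sub_le _ _).trans (add_le_add ((norm_dg _ _).trans (hr a))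
          ((norm_dg _ _).trans (hr a)))
      · simpa using (tendsto_inv_atTop_zero.comp (tendsto_natCast_atTop_atTop.comp hN)).mul_const
          (2 * ‖a‖)
    exact sub_eq_zero.1 (tendsto_nhds_unique ((ev _).sub (ev _)) (h0.mono_left hU))
  have hz : ∀ l a, τ (R.zu l * a) = τ (a * R.zu l) := fun l => by
    have h1 : ∀ a, τ (R.zu 1 * a) = τ (a * R.zu 1) := fun a => by
      rw [← hu, ← mul_assoc, ← Cov.zu_add]; simp
    have h2 : ∀ a, τ (R.zu (-1) * a) = τ (a * R.zu (-1)) := fun a => by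
      rw [← hu (a * _), mul_assoc, mul_assoc, ← Cov.zu_add]; simp
    induction l using Int.induction_on with
    | zero => simp
    | succ n ih => intro a; rw [Cov.zu_add, mul_assoc, ih, mul_assoc, h1, mul_assoc]
    | pred n ih => intro a; rw [sub_eq_add_neg, Cov.zu_add, mul_assoc, ih, mul_assoc, h2, mul_assoc]
  have hc : Continuous τ := (WeakDual.toStrongDual τ).continuous
  refine ⟨⟨τ, ?_, fun a => ?_, fun a b => ?_⟩, fun f c hf => ?_⟩
  · refine tendsto_nhds_unique (ev 1) (tendsto_const_nhds.congr' ((hpos.filter_mono hU).mono ?_))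
    intro m hm
    have : (N m : ℂ) ≠ 0 := by exact_mod_cast hm.ne'
    simp [hω, dg_apply, this]
  · refine ge_of_tendsto' (ev _) fun m => ?_
    rw [hω]
    refine mul_nonneg (by positivity) (Finset.sum_nonneg fun i _ => ?_)
    rw [map_mul, map_star]
    change 0 ≤ inner ℂ (dl i) (ContinuousLinearMap.adjoint (R.rep x a) (R.rep x a (dl i)))
    rw [ContinuousLinearMap.adjoint_inner_right, inner_self_eq_norm_sq_to_K]
    positivity
  · refine R.dense.induction_on (p := fun a => τ (a * b) = τ (b * a)) a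
      (isClosed_eq (by fun_prop) (by fun_prop)) fun f => ?_
    simp only [Cov.poly_eq, Finset.sum_mul, Finset.mul_sum, map_sum]
    exact Finset.sum_congr rfl fun l _ => by rw [mul_assoc, hπ, mul_assoc, hz, mul_assoc]
  · refine le_of_tendsto ((Complex.continuous_re.tendsto _).comp (ev (R.π (cx f))))
      (((hf.and hpos).filter_mono hU).mono fun m hm => ?_)
    have : (ω m (R.π (cx f))) = ((N m : ℝ)⁻¹ * bs T (N m) f x : ℝ) := by
      simp [hω, dg_apply, bs, R.rep_π]
    rw [Function.comp, this, Complex.ofReal_re, inv_mul_le_iff₀ hm.2]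
    exact hm.1

variable [PartialOrder A] [StarOrderedRing A]

lemma ev_cx (τ : TS A) (f : C(X, ℝ)) : τ.lin (R.π (cx f)) = (R.is τ).μ f :=
  Complex.ext rfl (τ.im_eq ((cx_sa f).map _))

lemma re_π (τ : TS A) (f : C(X, ℂ)) : (τ.lin (R.π f)).re = (R.is τ).μ (rp f) := by
  have : f = cx (rp f) + Complex.I • cx (rp (-Complex.I • f)) := by
    ext x; apply Complex.ext <;> simp
  conv_lhs => rw [this]
  simp only [map_add, map_smul, R.ev_cx]
  simp

lemma comb (h : HasTowers T) {ι : Type} [Fintype ι] (w : ι → ℝ) (ν : ι → TS A)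
    (τ : TS A) (hw : ∀ f, (R.is τ).μ f = ∑ i, w i * (R.is (ν i)).μ f) (a : A) :
    τ.ev a = ∑ i, w i * (ν i).ev a := by
  refine R.dense.induction_on (p := fun a => τ.ev a = ∑ i, w i * (ν i).ev a) a
    (isClosed_eq τ.ev_cont (continuous_finsetSum _ fun i _ =>
      continuous_const.mul (ν i).ev_cont)) fun f => ?_
  have : f 0 = cx (rp (f 0)) + Complex.I • cx (rp (-Complex.I • f 0)) := by
    ext x; apply Complex.ext <;> simp
  simp only [← TS.lin_apply, R.ev_poly h]
  rw [this]
  simp only [map_add, map_smul, R.ev_cx, hw, mul_add, Finset.sum_add_distrib, smul_eq_mul]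
  simp [Finset.mul_sum, mul_left_comm]

lemma ext_is (h : HasTowers T) {σ τ : TS A} (hw : ∀ f, (R.is σ).μ f = (R.is τ).μ f) : σ = τ :=
  Subtype.ext (DFunLike.ext _ _ fun a => by
    simpa [TS.ev] using R.comb h (fun _ : Unit => 1) (fun _ => τ) σ (by simpa using hw) a)

end Reg

end

end Pool.Agent.P.MP_456758_an
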