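import Pool.Agent.P.MP_456758_an.Trace

/-! Approximate deformation retractions preserve classes of projections and unitaries. -/

namespace Pool.Agent.P.MP_456758_an

open Filter Topology

noncomputable section

variable {D : Type} [CStarAlgebra D]

/-- Murray-von Neumann equivalence. -/
def Eqv (p q : D) : Prop := ∃ v : D, star v * v = p ∧ v * star v = q

lemma partial_iso {v : D} (h : IsStarProjection (star v * v)) : v * (star v * v) = v := by
  have : star (v * (star v * v) - v) * (v * (star v * v) - v) = 0 := by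
    have h2 : star v * (v * (star v * v)) = star v * v := by simpa [mul_assoc] using h.1.eq
    simp [mul_sub, sub_mul, mul_assoc, h2]
  exact sub_eq_zero.1 ((CStarRing.star_mul_self_eq_zero_iff _).1 this)

lemma Eqv.symm {p q : D} (h : Eqv p q) : Eqv q p := by
  obtain ⟨v, h1, h2⟩ := h
  exact ⟨star v, by simpa using h2, by simpa using h1⟩

lemma Eqv.trans {p q r : D} (hq : IsStarProjection q) (h : Eqv p q) (h' : Eqv q r) :
    Eqv p r := by
  obtain ⟨v, h1, h2⟩ := h
  obtain ⟨w, h3, h4⟩ := h'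
  have e1 := partial_iso (v := star v) (by simpa [h2] using hq)
  have e2 := partial_iso (v := w) (by simpa [h3] using hq)
  rw [star_star, h2] at e1
  rw [h3] at e2
  refine ⟨w * v, ?_, ?_⟩
  · rw [star_mul, mul_assoc, ← mul_assoc (star w), h3, ← mul_assoc, e1, h1]
  · rw [star_mul, mul_assoc, ← mul_assoc v, h2, ← mul_assoc, e2, h4]

lemma proj_eq_zero {p : D} (hp : IsStarProjection p) (h : ‖p‖ < 1) : p = 0 := by
  have : ‖p‖ * ‖p‖ = ‖p‖ := by rw [← CStarRing.norm_star_mul_self, hp.2.star_eq, hp.1.eq]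
  rw [← norm_eq_zero]
  nlinarith [norm_nonneg p]

lemma polar {p q w : D} (hp : IsStarProjection p) (hq : IsStarProjection q) (hw : w * p = w)
    (hw' : q * w = w) (h1 : ‖star w * w - p‖ < 1) (h2 : ‖w * star w - q‖ < 1) :
    ∃ y : D, star y * y = p ∧ y * star y = q ∧ ‖y - w‖ ≤ ‖star w * w - p‖ := by
  let _ := CStarAlgebra.spectralOrder D
  have := CStarAlgebra.spectralOrderedRing D
  set c := ‖star w * w - p‖ with hc
  set x := star w * w - p with hx
  have hxs : IsSelfAdjoint x := (IsSelfAdjoint.star_mul_self w).sub hp.2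
  have hsp : ∀ t ∈ spectrum ℝ x, |t| ≤ c := by
    intro t ht
    rcases subsingleton_or_nontrivial D with hD | hD
    · simp [spectrum.of_subsingleton] at ht
    · exact spectrum.norm_le_norm_of_mem ht
  have pw : p * star w = star w := by simpa [hp.2.star_eq] using congrArg star hw
  have px : p * x = x := by rw [hx, mul_sub, ← mul_assoc, pw, hp.1.eq]
  have xp : x * p = x := by rw [hx, sub_mul, mul_assoc, hw, hp.1.eq]
  obtain ⟨g, hg, hg'⟩ : ∃ g : ℝ → ℝ, Continuous g ∧ ∀ t, |t| ≤ c → g t = (√(1 + t))⁻¹ :=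
    ⟨fun t => (√(max (1 + t) (1 - c)))⁻¹,
      Continuous.inv₀ (by fun_prop) fun t =>
        (Real.sqrt_pos.2 (lt_max_of_lt_right (by linarith))).ne',
      fun t ht => by simp only [max_eq_left (show 1 - c ≤ 1 + t by linarith [neg_abs_le t])]⟩
  set R := cfc g x with hR
  have hRs : IsSelfAdjoint R := cfc_predicate _ _
  have hRp : Commute R p := Commute.cfc_real (show Commute x p from xp.trans px.symm) g
  have e1 : 1 + x = cfc (fun t : ℝ => 1 + t) x := by
    rw [cfc_add x _ _, cfc_const_one ℝ x, cfc_id' ℝ x]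
  have hRR : R * (1 + x) * R = 1 := by
    rw [e1, hR, ← cfc_mul _ _ x, ← cfc_mul _ _ x, ← cfc_const_one ℝ x]
    refine cfc_congr fun t ht => ?_
    have h3 := hsp t ht
    have h4 : 0 < 1 + t := by linarith [neg_abs_le t]
    rw [hg' t h3]
    have := Real.mul_self_sqrt h4.le
    have h5 := (Real.sqrt_pos.2 h4).ne'
    field_simp
    linarith
  have hRx : Commute R (1 + x) := by rw [e1]; exact cfc_commute_cfc _ _ _
  have ww : star w * w = (1 + x) * p := by rw [add_mul, xp, one_mul, hx, add_sub_cancel]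
  have y1 : star (w * R) * (w * R) = p := by
    rw [star_mul, hRs.star_eq, mul_assoc, ← mul_assoc (star w), ww, mul_assoc, ← hRp.eq,
      ← mul_assoc, ← mul_assoc, hRR, one_mul]
  have hq1 : IsStarProjection (w * R * star (w * R)) :=
    ⟨by rw [IsIdempotentElem, mul_assoc, ← mul_assoc (star _), ← mul_assoc, ← mul_assoc,
      mul_assoc (w * R) (star _), partial_iso (y1 ▸ hp)], IsSelfAdjoint.mul_star_self _⟩
  set q₁ := w * R * star (w * R) with hq₁
  have qq : q * q₁ = q₁ := by rw [hq₁, ← mul_assoc, ← mul_assoc, hw']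
  have hd : IsStarProjection (q - q₁) := hq1.sub_of_mul_eq_right hq qq
  have dw : (q - q₁) * w = 0 := by
    have : q₁ * w = w * (R * (R * (1 + x))) * p := by
      rw [hq₁, star_mul, hRs.star_eq, mul_assoc, mul_assoc R, ww]
      simp only [mul_assoc]
    rw [sub_mul, hw', this, hRx.eq, ← mul_assoc R, hRR, mul_one, hw, sub_self]
  have dq : (q - q₁) * q = q - q₁ := by
    have : q₁ * q = q₁ := by simpa [hq.2.star_eq, hq1.2.star_eq] using congrArg star qq
    rw [sub_mul, hq.1.eq, this]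
  have d0 : q - q₁ = 0 := by
    refine proj_eq_zero hd ?_
    have : q - q₁ = -((q - q₁) * (w * star w - q)) := by
      rw [mul_sub, ← mul_assoc, dw, dq]; simp
    rw [this, norm_neg]
    exact (norm_mul_le _ _).trans_lt
      ((mul_le_of_le_one_left (norm_nonneg _) hd.norm_le).trans_lt h2)
  refine ⟨w * R, y1, (sub_eq_zero.1 d0).symm, ?_⟩
  have e2 : star (w * R - w) * (w * R - w) = (R - 1) * (1 + x) * (R - 1) * p := by
    have : w * R - w = w * (R - 1) := by rw [mul_sub, mul_one]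
    have hc' : Commute (R - 1) p := hRp.sub_left (Commute.one_left p)
    rw [this, star_mul, star_sub, star_one, hRs.star_eq, mul_assoc, ← mul_assoc (star w), ww,
      mul_assoc, ← hc'.eq]
    simp only [mul_assoc]
  have e3 : R - 1 = cfc (fun t => g t - 1) x := by rw [cfc_sub _ _ x, cfc_const_one ℝ x]
  have h3 : ‖(R - 1) * (1 + x) * (R - 1)‖ ≤ c * c := by
    rw [e3, e1, ← cfc_mul _ _ x, ← cfc_mul _ _ x]
    refine norm_cfc_le (by positivity) fun t ht => ?_
    have h3 := hsp t ht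
    have h4 : 0 < 1 + t := by linarith [neg_abs_le t]
    rw [hg' t h3]
    have h5 := Real.mul_self_sqrt h4.le
    have h6 := Real.sqrt_pos.2 h4
    set s := √(1 + t)
    have h7 : (s⁻¹ - 1) * (1 + t) * (s⁻¹ - 1) = (1 - s) * (1 - s) := by
      rw [← h5]; field_simp
    have h8 : t = (s - 1) * (s + 1) := by linarith
    rw [h7, Real.norm_of_nonneg (mul_self_nonneg _)]
    have h9 : t * t ≤ c * c := by
      rw [← abs_mul_abs_self t]; exact mul_self_le_mul_self (abs_nonneg t) h3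
    have h10 : 1 ≤ (s + 1) * (s + 1) := by nlinarith
    have : t * t = (1 - s) * (1 - s) * ((s + 1) * (s + 1)) := by rw [h8]; ring
    nlinarith [mul_self_nonneg (1 - s)]
  have h4 : ‖w * R - w‖ * ‖w * R - w‖ ≤ c * c := by
    rw [← CStarRing.norm_star_mul_self, e2]
    exact (norm_mul_le _ _).trans ((mul_le_of_le_one_right (norm_nonneg _) hp.norm_le).trans h3)
  exact (mul_self_le_mul_self_iff (norm_nonneg _) (norm_nonneg _)).2 h4

lemma eqv_of_close {p q : D} (hp : IsStarProjection p) (hq : IsStarProjection q)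
    (h : ‖p - q‖ < 1) : Eqv p q := by
  have k : ∀ {p q : D}, IsStarProjection p → IsStarProjection q → ‖p - q‖ < 1 →
      ‖p * q * p - p‖ < 1 := by
    intro p q hp hq h
    have : p * q * p - p = -(p * (p - q) * p) := by simp [mul_sub, sub_mul, hp.1.eq]
    rw [this, norm_neg]
    refine (norm_mul₃_le).trans_lt (lt_of_le_of_lt ?_ h)
    refine (mul_le_of_le_one_right (by positivity) hp.norm_le).trans ?_
    exact mul_le_of_le_one_left (norm_nonneg _) hp.norm_le
  have e1 : star (q * p) * (q * p) = p * q * p := by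
    rw [star_mul, hp.2.star_eq, hq.2.star_eq, mul_assoc, ← mul_assoc q, hq.1.eq, mul_assoc]
  have e2 : q * p * star (q * p) = q * p * q := by
    rw [star_mul, hp.2.star_eq, hq.2.star_eq, mul_assoc, ← mul_assoc p, hp.1.eq, mul_assoc]
  obtain ⟨y, h1, h2, -⟩ := polar (w := q * p) hp hq (by rw [mul_assoc, hp.1.eq])
    (by rw [← mul_assoc, hq.1.eq]) (e1 ▸ k hp hq h) (e2 ▸ k hq hp (by rwa [norm_sub_rev]))
  exact ⟨y, h1, h2⟩

lemma near_unitary {x : D} (h1 : ‖star x * x - 1‖ < 1) (h2 : ‖x * star x - 1‖ < 1) :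
    ∃ u ∈ unitary D, ‖u - x‖ ≤ ‖star x * x - 1‖ := by
  obtain ⟨y, a, b, c⟩ := polar (.one D) (.one D) (mul_one x) (one_mul x) h1 h2
  exact ⟨y, ⟨a, b⟩, c⟩

lemma near_proj {x : D} (hx : IsSelfAdjoint x) (h : ‖x * x - x‖ ≤ 1 / 8) :
    ∃ p, IsStarProjection p ∧ ‖p - x‖ ≤ 1 / 4 := by
  have e : x * x - x = cfc (fun t : ℝ => t * t - t) x := by
    rw [cfc_sub _ _ x, cfc_mul _ _ x, cfc_id' ℝ x]
  have hsp : ∀ t ∈ spectrum ℝ x, |t| ≤ 1 / 4 ∨ |t - 1| ≤ 1 / 4 := by
    intro t ht
    have h1 : ‖t * t - t‖ ≤ ‖cfc (fun t : ℝ => t * t - t) x‖ :=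
      norm_apply_le_norm_cfc (fun t : ℝ => t * t - t) x ht
    rw [← e, Real.norm_eq_abs] at h1
    have h2 := abs_le.1 (h1.trans h)
    rcases le_total t (1 / 2) with h3 | h3
    · left; rw [abs_le]; constructor <;> nlinarith
    · right; rw [abs_le]; constructor <;> nlinarith
  refine ⟨cfc (ramp (1 / 3)) x, ⟨?_, cfc_predicate _ _⟩, ?_⟩
  · rw [IsIdempotentElem, ← cfc_mul _ _ x]
    refine cfc_congr fun t ht => ?_
    rcases hsp t ht with h1 | h1
    · simp only [ramp_zero (show t ≤ 1 / 3 by linarith [le_abs_self t]), mul_zero]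
    · simp only [ramp_one (show (0 : ℝ) < 1 / 3 by norm_num)
        (show 2 * (1 / 3) ≤ t by linarith [neg_abs_le (t - 1)]), mul_one]
  · have e : cfc (ramp (1 / 3)) x - x = cfc (fun t : ℝ => ramp (1 / 3) t - t) x := by
      rw [cfc_sub _ _ x, cfc_id' ℝ x]
    rw [e]
    refine norm_cfc_le (by norm_num) fun t ht => ?_
    rcases hsp t ht with h1 | h1
    · simpa only [ramp_zero (show t ≤ 1 / 3 by linarith [le_abs_self t]), zero_sub, norm_neg]
    · rw [ramp_one (show (0 : ℝ) < 1 / 3 by norm_num)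
        (show 2 * (1 / 3) ≤ t by linarith [neg_abs_le (t - 1)]), norm_sub_rev]
      exact h1

lemma joinedIn_of_close {u v : D} (hu : u ∈ unitary D) (hv : v ∈ unitary D) (h : ‖u - v‖ < 2) :
    JoinedIn (unitary D : Set D) u v :=
  (joinedIn_iff_joined hu hv).2 (Unitary.joined ⟨u, hu⟩ ⟨v, hv⟩ (by rwa [norm_sub_rev]))

/-- An approximate deformation retraction of `A` onto `B`. -/
structure ADR (B C A : Type) [CStarAlgebra B] [CStarAlgebra C] [CStarAlgebra A] where
  /-- The inclusion of `B` into the big algebra. -/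
  s : B →⋆ₐ[ℂ] C
  /-- The quotient map. -/
  ev : C →⋆ₐ[ℂ] A
  /-- The homotopies. -/
  θ : ℕ → ℝ → C →⋆ₐ[ℂ] A
  /-- The retractions. -/
  σ : ℕ → C →⋆ₐ[ℂ] B
  /-- The constant. -/
  K : ℝ
  dense : DenseRange ev
  inj : Function.Injective fun b => ev (s b)
  one : ∀ n d, θ n 1 d = ev d
  zero : ∀ n d, θ n 0 d = ev (s (σ n d))
  ret : ∀ n b, σ n (s b) = b
  cont : ∀ n d, Continuous fun t => θ n t d
  bound : ∀ d, ∀ ε > 0, ∀ᶠ n in atTop, ∀ t, ‖θ n t d‖ ≤ K * ‖ev d‖ + ε

namespace ADR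

variable {B C A : Type} [CStarAlgebra B] [CStarAlgebra C] [CStarAlgebra A] (R : ADR B C A)

/-- The inclusion. -/
def ι : B →⋆ₐ[ℂ] A := R.ev.comp R.s

lemma norm_ι (b : B) : ‖R.ι b‖ = ‖b‖ := NonUnitalStarAlgHom.norm_map R.ι R.inj b

lemma small {c : ℝ} (hc : 0 < c) : ∃ η > 0, η ≤ c ∧ ∀ d, ‖R.ev d‖ ≤ η →
    ∀ᶠ n in atTop, ‖R.σ n d‖ < c ∧ ∀ t, ‖R.θ n t d‖ < c := by
  refine ⟨min c (c / (3 * (|R.K| + 1))), by positivity, min_le_left _ _, fun d hd => ?_⟩
  filter_upwards [R.bound d (c / 3) (by positivity)] with n hn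
  have h1 : ‖R.ev d‖ * (3 * (|R.K| + 1)) ≤ c :=
    (le_div_iff₀ (by positivity)).1 (hd.trans (min_le_right _ _))
  have h2 : ∀ t, ‖R.θ n t d‖ < c := fun t => by
    nlinarith [hn t, le_abs_self R.K, norm_nonneg (R.ev d), abs_nonneg R.K]
  refine ⟨?_, h2⟩
  rw [← R.norm_ι]
  exact (R.zero n d) ▸ h2 0

lemma proj_surj {p : A} (hp : IsStarProjection p) :
    ∃ p', IsStarProjection p' ∧ Eqv (R.ι p') p := by
  obtain ⟨η, hη, hη', h⟩ := R.small (show (0 : ℝ) < 1 / 8 by norm_num)
  let r : A → A := fun x => (2⁻¹ : ℂ) • (x + star x)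
  have hr : r p = p := by simp only [r, hp.2.star_eq, ← two_smul ℂ p, smul_smul]; simp
  obtain ⟨d, h1, h2⟩ : ∃ d, ‖r (R.ev d) * r (R.ev d) - r (R.ev d)‖ < η ∧ ‖r (R.ev d) - p‖ < η := by
    refine R.dense.exists_mem_open (s := {x | ‖r x * r x - r x‖ < η ∧ ‖r x - p‖ < η})
      (IsOpen.and (isOpen_lt (by fun_prop) continuous_const)
        (isOpen_lt (by fun_prop) continuous_const)) ⟨p, ?_⟩
    simpa [hr, hp.1.eq] using hη
  set e : C := (2⁻¹ : ℂ) • (d + star d) with he
  have es : IsSelfAdjoint e := by simp [he, IsSelfAdjoint, add_comm]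
  have ee : r (R.ev d) = R.ev e := by simp [he, r, map_star]
  rw [ee] at h1 h2
  obtain ⟨n, hn, hn'⟩ := (h (e * e - e) (by simpa using h1.le)).exists
  choose P hP hP' using fun t => near_proj (es.map (R.θ n t)) (by simpa using (hn' t).le)
  obtain ⟨p', hp', hp''⟩ := near_proj (es.map (R.σ n)) (by simpa using hn.le)
  refine ⟨p', hp', ?_⟩
  have a1 : Eqv (R.ι p') (P 0) := by
    refine eqv_of_close (hp'.map R.ι) (hP 0) ?_
    have : ‖R.ι p' - R.θ n 0 e‖ ≤ 1 / 4 := by
      rw [R.zero, ← R.norm_ι, map_sub] at *; exact hp''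
    linarith [hP' 0, norm_sub_le_norm_sub_add_norm_sub (R.ι p') (R.θ n 0 e) (P 0),
      norm_sub_rev (R.θ n 0 e) (P 0)]
  have a2 : Eqv (P 0) (P 1) := by
    refine PreconnectedSpace.induction₂' (fun s t => Eqv (P s) (P t)) (fun s => ?_)
      ⟨fun a b c h1 h2 => h1.trans (hP b) h2⟩ 0 1
    have : ∀ᶠ t in 𝓝 s, ‖R.θ n s e - R.θ n t e‖ < 1 / 2 :=
      (continuous_const.sub (R.cont n e)).norm.continuousAt.eventually_lt continuousAt_const
        (by simp)
    filter_upwards [this] with t ht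
    have : Eqv (P s) (P t) := by
      refine eqv_of_close (hP s) (hP t) ?_
      linarith [hP' s, hP' t, norm_sub_le_norm_sub_add_norm_sub (P s) (R.θ n s e) (P t),
        norm_sub_le_norm_sub_add_norm_sub (R.θ n s e) (R.θ n t e) (P t),
        norm_sub_rev (R.θ n t e) (P t)]
    exact ⟨this, this.symm⟩
  have a3 : Eqv (P 1) p := by
    refine eqv_of_close (hP 1) hp ?_
    have := hP' 1
    rw [R.one] at this
    linarith [norm_sub_le_norm_sub_add_norm_sub (P 1) (R.ev e) p]
  exact (a1.trans (hP 0) a2).trans (hP 1) a3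

lemma proj_inj {p q : B} (hp : IsStarProjection p) (hq : IsStarProjection q)
    (h : Eqv (R.ι p) (R.ι q)) : Eqv p q := by
  obtain ⟨η, hη, -, hs⟩ := R.small (show (0 : ℝ) < 1 by norm_num)
  obtain ⟨v, h1, h2⟩ := h
  let r : A → A := fun x => R.ι q * x * R.ι p
  have hr : r v = v := by
    have := partial_iso (v := v) (h1 ▸ hp.map R.ι)
    simp only [r]
    rw [← h2, mul_assoc v, this, ← h1, this]
  obtain ⟨d, h3, h4⟩ : ∃ d, ‖star (r (R.ev d)) * r (R.ev d) - R.ι p‖ < η ∧
      ‖r (R.ev d) * star (r (R.ev d)) - R.ι q‖ < η := by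
    refine R.dense.exists_mem_open
      (s := {x | ‖star (r x) * r x - R.ι p‖ < η ∧ ‖r x * star (r x) - R.ι q‖ < η})
      (IsOpen.and (isOpen_lt (by fun_prop) continuous_const)
        (isOpen_lt (by fun_prop) continuous_const)) ⟨v, ?_⟩
    simpa [hr, h1, h2] using hη
  set e : C := R.s q * d * R.s p with he
  have ee : r (R.ev d) = R.ev e := by simp [he, r, ι]
  rw [ee] at h3 h4
  obtain ⟨n, hn, hn'⟩ := ((hs (star e * e - R.s p) (by simpa [map_star, ι] using h3.le)).and
    (hs (e * star e - R.s q) (by simpa [map_star, ι] using h4.le))).exists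
  obtain ⟨y, a, b, -⟩ := polar (w := R.σ n e) hp hq (by simp [he, R.ret, mul_assoc, hp.1.eq])
    (by simp [he, R.ret, ← mul_assoc, hq.1.eq]) (by simpa [map_star, R.ret] using hn.1)
    (by simpa [map_star, R.ret] using hn'.1)
  exact ⟨y, a, b⟩

lemma approx_uni {u : A} (hu : u ∈ unitary A) {η : ℝ} (hη : 0 < η) :
    ∃ d, ‖R.ev (star d * d - 1)‖ < η ∧ ‖R.ev (d * star d - 1)‖ < η ∧ ‖R.ev d - u‖ < η := by
  obtain ⟨d, h⟩ := R.dense.exists_mem_open
    (s := {x | ‖star x * x - 1‖ < η ∧ ‖x * star x - 1‖ < η ∧ ‖x - u‖ < η})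
    (IsOpen.and (isOpen_lt (by fun_prop) continuous_const)
      (IsOpen.and (isOpen_lt (by fun_prop) continuous_const)
        (isOpen_lt (by fun_prop) continuous_const))) ⟨u, by simpa [hu.1, hu.2] using hη⟩
  exact ⟨d, by simpa [map_star] using h⟩

lemma uni_surj {u : A} (hu : u ∈ unitary A) :
    ∃ u' ∈ unitary B, JoinedIn (unitary A : Set A) (R.ι u') u := by
  obtain ⟨η, hη, hη', h⟩ := R.small (show (0 : ℝ) < 1 / 2 by norm_num)
  obtain ⟨d, h1, h2, h3⟩ := R.approx_uni hu hη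
  obtain ⟨n, ⟨a1, a2⟩, b1, b2⟩ := ((h _ h1.le).and (h _ h2.le)).exists
  simp only [map_sub, map_mul, map_star, map_one] at a1 a2 b1 b2
  choose P hP hP' using fun t => near_unitary (x := R.θ n t d) (by linarith [a2 t])
    (by linarith [b2 t])
  obtain ⟨u', hu', hu''⟩ := near_unitary (x := R.σ n d) (by linarith) (by linarith)
  refine ⟨u', hu', ?_⟩
  have c1 : JoinedIn (unitary A : Set A) (R.ι u') (P 0) := by
    refine joinedIn_of_close (Unitary.map_mem R.ι hu') (hP 0) ?_
    have : ‖R.ι u' - R.θ n 0 d‖ ≤ 1 / 2 := by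
      rw [R.zero, show R.ev (R.s (R.σ n d)) = R.ι (R.σ n d) from rfl, ← map_sub, R.norm_ι]
      linarith
    linarith [hP' 0, a2 0, norm_sub_le_norm_sub_add_norm_sub (R.ι u') (R.θ n 0 d) (P 0),
      norm_sub_rev (R.θ n 0 d) (P 0)]
  have c2 : JoinedIn (unitary A : Set A) (P 0) (P 1) := by
    refine PreconnectedSpace.induction₂' (fun s t => JoinedIn (unitary A : Set A) (P s) (P t))
      (fun s => ?_) ⟨fun a b c h1 h2 => h1.trans h2⟩ 0 1
    have : ∀ᶠ t in 𝓝 s, ‖R.θ n s d - R.θ n t d‖ < 1 / 2 :=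
      (continuous_const.sub (R.cont n d)).norm.continuousAt.eventually_lt continuousAt_const
        (by simp)
    filter_upwards [this] with t ht
    have : JoinedIn (unitary A : Set A) (P s) (P t) := by
      refine joinedIn_of_close (hP s) (hP t) ?_
      linarith [hP' s, hP' t, a2 s, a2 t, norm_sub_le_norm_sub_add_norm_sub (P s) (R.θ n s d) (P t),
        norm_sub_le_norm_sub_add_norm_sub (R.θ n s d) (R.θ n t d) (P t),
        norm_sub_rev (R.θ n t d) (P t)]
    exact ⟨this, this.symm⟩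
  have c3 : JoinedIn (unitary A : Set A) (P 1) u := by
    refine joinedIn_of_close (hP 1) hu ?_
    have h4 := hP' 1
    have h5 := a2 1
    rw [R.one] at h4 h5
    linarith [norm_sub_le_norm_sub_add_norm_sub (P 1) (R.ev d) u]
  exact (c1.trans c2).trans c3

lemma uni_inj {u v : B} (hu : u ∈ unitary B) (hv : v ∈ unitary B)
    (h : JoinedIn (unitary A : Set A) (R.ι u) (R.ι v)) : JoinedIn (unitary B : Set B) u v := by
  obtain ⟨η, hη, -, hs⟩ := R.small (show (0 : ℝ) < 1 / 2 by norm_num)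
  obtain ⟨γ, hγ⟩ := h
  let P : unitInterval → unitInterval → Prop := fun s t => ∀ d d', ‖R.ev d - γ s‖ ≤ η / 3 →
    ‖R.ev d' - γ t‖ ≤ η / 3 → ∀ᶠ n in atTop, ∀ y ∈ unitary B, ∀ y' ∈ unitary B,
      ‖y - R.σ n d‖ ≤ 1 / 2 → ‖y' - R.σ n d'‖ ≤ 1 / 2 → JoinedIn (unitary B : Set B) y y'
  have loc : ∀ s t, ‖γ s - γ t‖ < η / 3 → P s t := by
    intro s t hst d d' h1 h2
    have : ‖R.ev (d - d')‖ ≤ η := by
      rw [map_sub]
      linarith [norm_sub_le_norm_sub_add_norm_sub (R.ev d) (γ s) (R.ev d'),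
        norm_sub_le_norm_sub_add_norm_sub (γ s) (γ t) (R.ev d'), norm_sub_rev (γ t) (R.ev d')]
    filter_upwards [hs _ this] with n hn y hy y' hy' h3 h4
    refine joinedIn_of_close hy hy' ?_
    have h5 := hn.1
    rw [map_sub] at h5
    linarith [norm_sub_le_norm_sub_add_norm_sub y (R.σ n d) y',
      norm_sub_le_norm_sub_add_norm_sub (R.σ n d) (R.σ n d') y', norm_sub_rev (R.σ n d') y']
  have key : P 0 1 := by
    refine PreconnectedSpace.induction₂' P (fun s => ?_) ⟨fun a b c h1 h2 d d'' k1 k2 => ?_⟩ 0 1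
    · have : ∀ᶠ t in 𝓝 s, ‖γ s - γ t‖ < η / 3 :=
        (continuous_const.sub γ.continuous).norm.continuousAt.eventually_lt continuousAt_const
          (by simpa using hη)
      filter_upwards [this] with t ht
      exact ⟨loc s t ht, loc t s (by rwa [norm_sub_rev])⟩
    · obtain ⟨d', a1, a2, a3⟩ := R.approx_uni (hγ b) (show 0 < η / 3 by positivity)
      filter_upwards [h1 d d' k1 a3.le, h2 d' d'' a3.le k2, hs _ (a1.le.trans (by linarith)),
        hs _ (a2.le.trans (by linarith))] with n b1 b2 b3 b4 y hy y'' hy'' c1 c2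
      have b5 := b3.1
      have b6 := b4.1
      simp only [map_sub, map_mul, map_star, map_one] at b5 b6
      obtain ⟨y', hy', c3⟩ := near_unitary (x := R.σ n d') (by linarith) (by linarith)
      exact (b1 y hy y' hy' c1 (by linarith)).trans (b2 y' hy' y'' hy'' (by linarith) c2)
  obtain ⟨n, hn⟩ := (key (R.s u) (R.s v)
    (by rw [γ.source, show R.ev (R.s u) = R.ι u from rfl, sub_self, norm_zero]; positivity)
    (by rw [γ.target, show R.ev (R.s v) = R.ι v from rfl, sub_self, norm_zero]; positivity)).exists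
  exact hn u hu v hv (by simp [R.ret]) (by simp [R.ret])

end ADR

end

end Pool.Agent.P.MP_456758_an
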