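import Pool.Agent.P.MP_456758_an.KAbs

/-! Isomorphisms of K-groups. -/

namespace Pool.Agent.P.MP_456758_an

open scoped ComplexOrder
open Filter Topology

noncomputable section

section Amp

variable {A B : Type} [CStarAlgebra A] [CStarAlgebra B]

/-- Entrywise application of a homomorphism. -/
def amp (ι : Type) [Fintype ι] [DecidableEq ι] (φ : A →⋆ₐ[ℂ] B) :
    CStarMatrix ι ι A →⋆ₐ[ℂ] CStarMatrix ι ι B where
  toFun M := M.map φ
  map_one' := by ext i j; simp [CStarMatrix.one_apply, apply_ite φ]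
  map_mul' M N := by ext i j; simp [CStarMatrix.mul_apply]
  map_zero' := by ext i j; simp
  map_add' M N := by ext i j; simp
  commutes' r := by ext i j; simp [CStarMatrix.algebraMap_apply, apply_ite φ, AlgHomClass.commutes]
  map_star' M := by ext i j; simp [CStarMatrix.star_apply, map_star]

@[simp] lemma amp_apply {ι : Type} [Fintype ι] [DecidableEq ι] (φ : A →⋆ₐ[ℂ] B)
    (M : CStarMatrix ι ι A) (i j : ι) : amp ι φ M i j = φ (M i j) := rfl

lemma amp_dsum (φ : A →⋆ₐ[ℂ] B) {m n : ℕ} (a : Mat A m) (b : Mat A n) :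
    amp _ φ (dsum a b) = dsum (amp _ φ a) (amp _ φ b) := by
  ext i j
  obtain ⟨i, rfl⟩ := finSumFinEquiv.surjective i
  obtain ⟨j, rfl⟩ := finSumFinEquiv.surjective j
  rcases i with i | i <;> rcases j with j | j <;> simp [dsum]

lemma exists_K (A : Type) [CStarAlgebra A] [PartialOrder A] [StarOrderedRing A] (ι : Type)
    [Fintype ι] : ∃ K > 0, ∀ (M : CStarMatrix ι ι A) (c : ℝ), 0 ≤ c → (∀ i j, ‖M i j‖ ≤ c) →
      ‖M‖ ≤ K * c := by
  let f : (ι → ι → A) →L[ℂ] CStarMatrix ι ι A :=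
    (CStarMatrix.ofMatrixL (m := ι) (n := ι) (A := A)).toContinuousLinearMap
  obtain ⟨K, hK, h⟩ := f.bound
  refine ⟨K, hK, fun M c hc hM => (h M).trans (mul_le_mul_of_nonneg_left ?_ hK.le)⟩
  exact (pi_norm_le_iff_of_nonneg hc).2 fun i => (pi_norm_le_iff_of_nonneg hc).2 (hM i)

end Amp

variable {B C A : Type} [CStarAlgebra B] [CStarAlgebra C] [CStarAlgebra A]
  [PartialOrder B] [StarOrderedRing B] [PartialOrder C] [StarOrderedRing C]
  [PartialOrder A] [StarOrderedRing A]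

/-- Amplification of an approximate deformation retraction. -/
def ADR.mat (R : ADR B C A) (k : ℕ) : ADR (Mat B k) (Mat C k) (Mat A k) where
  s := amp _ R.s
  ev := amp _ R.ev
  θ n t := amp _ (R.θ n t)
  σ n := amp _ (R.σ n)
  K := (exists_K A (Fin k)).choose * |R.K|
  dense := DenseRange.piMap fun _ => DenseRange.piMap fun _ => R.dense
  inj a b h := by ext i j; exact R.inj (congrFun (congrFun h i) j)
  one n d := by ext i j; exact R.one n _
  zero n d := by ext i j; exact R.zero n _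
  ret n b := by ext i j; exact R.ret n _
  cont n d := continuous_pi fun i => continuous_pi fun j => R.cont n _
  bound d ε hε := by
    obtain ⟨hK, h⟩ := (exists_K A (Fin k)).choose_spec
    set K := (exists_K A (Fin k)).choose
    have := eventually_all.2 fun i => eventually_all.2 fun j =>
      R.bound (d i j) (ε / K) (by positivity)
    filter_upwards [this] with n hn t
    refine (h _ (|R.K| * ‖amp _ R.ev d‖ + ε / K) (by positivity) fun i j => ?_).trans (le_of_eq ?_)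
    · refine (hn i j t).trans ?_
      have := CStarMatrix.norm_entry_le_norm (M := amp _ R.ev d) (i := i) (j := j)
      gcongr
      · exact le_abs_self _
      · exact this
    · field_simp

omit [PartialOrder C] [StarOrderedRing C] in
lemma ADR.mat_ι [PartialOrder C] [StarOrderedRing C] (R : ADR B C A) (k : ℕ) (b : Mat B k) :
    (R.mat k).ι b = amp _ R.ι b := rfl

open FreeAbelianGroup in
lemma quot_equiv {P Q : Type} {RP : Set (FreeAbelianGroup P)} {RQ : Set (FreeAbelianGroup Q)}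
    (f : P → Q) (g : Q → P) (h1 : ∀ z ∈ RP, map f z ∈ AddSubgroup.closure RQ)
    (h2 : ∀ z ∈ RQ, map g z ∈ AddSubgroup.closure RP)
    (h3 : ∀ p, of (g (f p)) - of p ∈ AddSubgroup.closure RP)
    (h4 : ∀ q, of (f (g q)) - of q ∈ AddSubgroup.closure RQ) :
    ∃ e : (FreeAbelianGroup P ⧸ AddSubgroup.closure RP) ≃+
      (FreeAbelianGroup Q ⧸ AddSubgroup.closure RQ), ∀ p,
      e (QuotientAddGroup.mk (of p)) = QuotientAddGroup.mk (of (f p)) := by
  let F := QuotientAddGroup.map (AddSubgroup.closure RP) (AddSubgroup.closure RQ) (map f)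
    ((AddSubgroup.closure_le _).2 fun z hz => h1 z hz)
  let G := QuotientAddGroup.map (AddSubgroup.closure RQ) (AddSubgroup.closure RP) (map g)
    ((AddSubgroup.closure_le _).2 fun z hz => h2 z hz)
  refine ⟨AddMonoidHom.toAddEquiv F G ?_ ?_, fun p => rfl⟩
  · ext p
    exact QuotientAddGroup.eq_iff_sub_mem.2 (h3 p)
  · ext q
    exact QuotientAddGroup.eq_iff_sub_mem.2 (h4 q)

omit [PartialOrder A] [StarOrderedRing A] in
lemma Eqv.dsum [PartialOrder A] [StarOrderedRing A] {m n : ℕ} {a a' : Mat A m} {b b' : Mat A n}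
    (h : Eqv a a') (h' : Eqv b b') : Eqv (dsum a b) (dsum a' b') := by
  obtain ⟨v, rfl, rfl⟩ := h
  obtain ⟨w, rfl, rfl⟩ := h'
  exact ⟨MP_456758_an.dsum v w, by rw [dsum_star, dsum_mul], by rw [dsum_star, dsum_mul]⟩

omit [PartialOrder A] [StarOrderedRing A] in
lemma Homot.dsum {m n : ℕ} {a a' : Mat A m} {b b' : Mat A n}
    (h : Homot a a') (h' : Homot b b') : Homot (dsum a b) (dsum a' b') := by
  obtain ⟨γ, hγ⟩ := h
  obtain ⟨γ', hγ'⟩ := h'
  refine ⟨⟨⟨fun t => MP_456758_an.dsum (γ t) (γ' t), ?_⟩, by simp, by simp⟩,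
    fun t => (Uni.sum ⟨m, γ t, hγ t⟩ ⟨n, γ' t, hγ' t⟩).uni⟩
  exact (Continuous.matrix_fromBlocks γ.continuous continuous_const continuous_const
    γ'.continuous).matrix_reindex _ _

omit [PartialOrder A] [StarOrderedRing A] [PartialOrder B] [StarOrderedRing B] in
lemma Homot.amp (φ : B →⋆ₐ[ℂ] A) {m : ℕ} {a a' : Mat B m} (h : Homot a a') :
    Homot (amp _ φ a) (amp _ φ a') := by
  have hc : Continuous φ :=
    (AddMonoidHomClass.lipschitz_of_bound φ 1 fun x => by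
      simpa using NonUnitalStarAlgHom.norm_apply_le φ x).continuous
  have hc' : Continuous (MP_456758_an.amp (Fin m) φ) :=
    continuous_pi fun i => continuous_pi fun j =>
      hc.comp ((continuous_apply j).comp (continuous_apply i))
  refine (h.map hc').mono ?_
  rintro _ ⟨u, hu, rfl⟩
  exact Unitary.map_mem _ hu

omit [PartialOrder A] [StarOrderedRing A] [PartialOrder B] [StarOrderedRing B] in
/-- The image of a projection. -/
def Proj.map (φ : B →⋆ₐ[ℂ] A) (p : Proj B) : Proj A := ⟨p.n, amp _ φ p.p, p.proj.map _⟩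

omit [PartialOrder A] [StarOrderedRing A] [PartialOrder B] [StarOrderedRing B] in
/-- The image of a unitary. -/
def Uni.map (φ : B →⋆ₐ[ℂ] A) (u : Uni B) : Uni A := ⟨u.n, amp _ φ u.u, Unitary.map_mem _ u.uni⟩

open FreeAbelianGroup AddSubgroup in
lemma ADR.K0_equiv (R : ADR B C A) : ∃ e : K0 B ≃+ K0 A,
    (∀ p, e (cls p) = cls (p.map R.ι)) ∧ ∀ q, ∃ p, e (cls p) = cls q := by
  choose g hg hg' using fun q : Proj A => (R.mat q.n).proj_surj q.proj
  have rB : ∀ n p q hp hq, Eqv (amp _ R.ι p) (amp _ R.ι q) →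
      of (⟨n, p, hp⟩ : Proj B) - of ⟨n, q, hq⟩ ∈ closure (rel0 B) := fun n p q hp hq h =>
    subset_closure (Or.inl ⟨n, p, q, hp, hq, (R.mat n).proj_inj hp hq h, rfl⟩)
  have h4 : ∀ q : Proj A, of (Proj.map R.ι ⟨q.n, g q, hg q⟩) - of q ∈ closure (rel0 A) :=
    fun q => subset_closure (Or.inl ⟨q.n, _, _, _, q.proj, hg' q, rfl⟩)
  refine (quot_equiv (RP := rel0 B) (RQ := rel0 A) (Proj.map R.ι)
    (fun q => ⟨q.n, g q, hg q⟩) ?_ ?_ (fun p => rB _ _ _ _ p.proj (hg' (p.map R.ι))) h4).imp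
    fun e he => ⟨he, fun q => ⟨_, (he _).trans (QuotientAddGroup.eq_iff_sub_mem.2 (h4 q))⟩⟩
  · rintro z (⟨n, p, q, hp, hq, ⟨v, h1, h2⟩, rfl⟩ | ⟨p, hp, rfl⟩ | ⟨p, q, rfl⟩)
    · refine subset_closure (Or.inl ⟨n, _, _, hp.map (amp _ R.ι), hq.map (amp _ R.ι),
        ⟨amp _ R.ι v, ?_, ?_⟩, by simp [Proj.map]⟩)
      · rw [← h1, map_mul, map_star]
      · rw [← h2, map_mul, map_star]
    · exact subset_closure (Or.inr (Or.inl ⟨p.map R.ι,
        (congrArg (amp _ R.ι) hp).trans (map_zero _), rfl⟩))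
    · refine subset_closure (Or.inr (Or.inr ⟨p.map R.ι, q.map R.ι, ?_⟩))
      simp [Proj.map, Proj.sum, amp_dsum]
  · rintro z (⟨n, p, q, hp, hq, h, rfl⟩ | ⟨p, hp, rfl⟩ | ⟨p, q, rfl⟩)
    · simpa using rB n _ _ _ _ (((hg' ⟨n, p, hp⟩).trans hp h).trans hq (hg' ⟨n, q, hq⟩).symm)
    · obtain ⟨v, h1, h2⟩ := hg' p
      rw [hp, CStarRing.mul_star_self_eq_zero_iff] at h2
      refine subset_closure (Or.inr (Or.inl ⟨_, (R.mat p.n).inj ?_, rfl⟩))
      simpa [h2, ADR.ι] using h1.symm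
    · have a := rB _ _ _ (hg (p.sum q)) (Proj.sum ⟨_, _, hg p⟩ ⟨_, _, hg q⟩).proj
        ((hg' (p.sum q)).trans (p.sum q).proj
          (((hg' p).dsum (hg' q)).symm.imp fun _ h => ⟨h.1, h.2.trans (amp_dsum R.ι _ _).symm⟩))
      have b : of (Proj.sum ⟨_, _, hg p⟩ ⟨_, _, hg q⟩) - of ⟨_, _, hg p⟩ - of ⟨_, _, hg q⟩ ∈
        closure (rel0 B) := subset_closure (Or.inr (Or.inr ⟨_, _, rfl⟩))
      have c := add_mem a b
      simp only [map_sub, map_of_apply]
      convert c using 1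
      simp only [Proj.sum]
      abel

open FreeAbelianGroup AddSubgroup in
lemma ADR.K1_equiv (R : ADR B C A) : Nonempty (K1 B ≃+ K1 A) := by
  choose g hg hg' using fun q : Uni A => (R.mat q.n).uni_surj q.uni
  have rB : ∀ n p q hp hq, Homot (amp _ R.ι p) (amp _ R.ι q) →
      of (⟨n, p, hp⟩ : Uni B) - of ⟨n, q, hq⟩ ∈ closure (rel1 B) := fun n p q hp hq h =>
    subset_closure (Or.inl ⟨n, p, q, hp, hq, (R.mat n).uni_inj hp hq h, rfl⟩)
  have h4 : ∀ q : Uni A, of (Uni.map R.ι ⟨q.n, g q, hg q⟩) - of q ∈ closure (rel1 A) :=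
    fun q => subset_closure (Or.inl ⟨q.n, _, _, _, q.uni, hg' q, rfl⟩)
  refine (quot_equiv (RP := rel1 B) (RQ := rel1 A) (Uni.map R.ι)
    (fun q => ⟨q.n, g q, hg q⟩) ?_ ?_ (fun p => rB _ _ _ _ p.uni (hg' (p.map R.ι))) h4).nonempty
  · rintro z (⟨n, p, q, hp, hq, h, rfl⟩ | ⟨p, hp, rfl⟩ | ⟨p, q, rfl⟩)
    · exact subset_closure (Or.inl ⟨n, _, _, Unitary.map_mem (amp _ R.ι) hp,
        Unitary.map_mem (amp _ R.ι) hq, h.amp R.ι, by simp [Uni.map]⟩)
    · exact subset_closure (Or.inr (Or.inl ⟨p.map R.ι,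
        (congrArg (amp _ R.ι) hp).trans (map_one _), rfl⟩))
    · refine subset_closure (Or.inr (Or.inr ⟨p.map R.ι, q.map R.ι, ?_⟩))
      simp [Uni.map, Uni.sum, amp_dsum]
  · rintro z (⟨n, p, q, hp, hq, h, rfl⟩ | ⟨p, hp, rfl⟩ | ⟨p, q, rfl⟩)
    · simpa using rB n _ _ _ _ (((hg' ⟨n, p, hp⟩).trans h).trans (hg' ⟨n, q, hq⟩).symm)
    · have a := rB _ _ _ (hg p) (one_mem _) (by simpa [hp, Homot, ADR.mat_ι] using hg' p)
      have b : of (⟨p.n, 1, one_mem _⟩ : Uni B) ∈ closure (rel1 B) :=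
        subset_closure (Or.inr (Or.inl ⟨_, rfl, rfl⟩))
      simpa using add_mem a b
    · have a := rB _ _ _ (hg (p.sum q)) (Uni.sum ⟨_, _, hg p⟩ ⟨_, _, hg q⟩).uni
        ((hg' (p.sum q)).trans
          ((amp_dsum R.ι (g p) (g q)).symm ▸ (Homot.dsum (hg' p) (hg' q)).symm))
      have b : of (Uni.sum ⟨_, _, hg p⟩ ⟨_, _, hg q⟩) - of ⟨_, _, hg p⟩ - of ⟨_, _, hg q⟩ ∈
        closure (rel1 B) := subset_closure (Or.inr (Or.inr ⟨_, _, rfl⟩))
      have c := add_mem a b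
      simp only [map_sub, map_of_apply]
      convert c using 1
      simp only [Uni.sum]
      abel

omit [PartialOrder A] [StarOrderedRing A] [PartialOrder B] [StarOrderedRing B] in
lemma hom_cont (φ : B →⋆ₐ[ℂ] A) : Continuous φ :=
  (AddMonoidHomClass.lipschitz_of_bound φ 1 fun x => by
    simpa using NonUnitalStarAlgHom.norm_apply_le φ x).continuous

omit [PartialOrder A] [StarOrderedRing A] [PartialOrder B] [StarOrderedRing B] in
/-- Pulling back a tracial state. -/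
def TS.comap (φ : B →⋆ₐ[ℂ] A) (τ : TS A) : TS B :=
  ⟨StrongDual.toWeakDual ((WeakDual.toStrongDual τ.1).comp ⟨φ.toAlgHom.toLinearMap, hom_cont φ⟩),
    by change τ.1 (φ 1) = 1; rw [map_one, τ.2.1],
    fun x => by change 0 ≤ τ.1 (φ _); rw [map_mul, map_star]; exact τ.2.2.1 _,
    fun x y => by change τ.1 (φ _) = τ.1 (φ _); rw [map_mul φ, map_mul φ]; exact τ.2.2.2 _ _⟩

omit [PartialOrder A] [StarOrderedRing A] [PartialOrder B] [StarOrderedRing B] in
lemma TS.comap_ev (φ : B →⋆ₐ[ℂ] A) (τ : TS A) (b : B) : (τ.comap φ).ev b = τ.ev (φ b) := rfl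

theorem sameEll_of {C' A' : Type} [CStarAlgebra C'] [CStarAlgebra A'] [PartialOrder C']
    [StarOrderedRing C'] [PartialOrder A'] [StarOrderedRing A'] (R : ADR B C A) (R' : ADR B C' A')
    [Subsingleton (TS B)] (γ : TS A' ≃ₜ TS A)
    (hγ : ∀ (σ τ ω : TS A') (t : ℝ), 0 ≤ t → t ≤ 1 → IsComb t σ τ ω →
      IsComb t (γ σ) (γ τ) (γ ω)) : SameEll A A' := by
  obtain ⟨e, he, se⟩ := R.K0_equiv
  obtain ⟨e', he', se'⟩ := R'.K0_equiv
  obtain ⟨f⟩ := R.K1_equiv
  obtain ⟨f'⟩ := R'.K1_equiv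
  have one : ∀ {A : Type} [CStarAlgebra A] (φ : B →⋆ₐ[ℂ] A),
      cls (Proj.map φ ⟨1, 1, .one _⟩) = K0one A := fun φ => by simp [Proj.map, K0one]
  have pr : ∀ {A : Type} [CStarAlgebra A] (φ : B →⋆ₐ[ℂ] A) (e : K0 B ≃+ K0 A),
      (∀ p, e (cls p) = cls (p.map φ)) → ∀ τ g, pairing τ (e g) = pairing (τ.comap φ) g := by
    intro A _ φ e he τ g
    have : (pairing τ).comp e.toAddMonoidHom = pairing (τ.comap φ) := by
      ext p
      change pairing τ (e (cls p)) = pairing _ (cls p)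
      rw [he]
      simp [pairing, cls, pairing0, trM, Proj.map, TS.comap_ev]
    exact DFunLike.congr_fun this g
  refine ⟨⟨f.symm.trans f'⟩, e.symm.trans e', γ, ?_, ?_, hγ, fun τ g => ?_⟩
  · ext x
    constructor
    · rintro ⟨_, ⟨q, rfl⟩, rfl⟩
      obtain ⟨p, hp⟩ := se q
      exact ⟨p.map R'.ι, by simp [← hp, he']⟩
    · rintro ⟨q, rfl⟩
      obtain ⟨p, hp⟩ := se' q
      exact ⟨_, ⟨p.map R.ι, rfl⟩, by simp [← hp, ← he]⟩
  · rw [← one R.ι, ← he, ← one R'.ι, ← he']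
    simp
  · obtain ⟨g, rfl⟩ := e.surjective g
    rw [pr _ _ he, AddEquiv.trans_apply, AddEquiv.symm_apply_apply, pr _ _ he',
      Subsingleton.elim (τ.comap R'.ι)]

end

end Pool.Agent.P.MP_456758_an
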