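import Pool.Agent.P.MP_456758_an.Loc

/-! The approximate deformation retraction onto the odometer. -/

namespace Pool.Agent.P.MP_456758_an

open Filter Topology Finset Sys
open scoped Classical

noncomputable section

attribute [-simp] zpow_natCast zpow_neg

variable {S : Seed} {b : Prop}

lemma loc_unif {f : ℤ →₀ C(Sys S b, ℂ)} (hf : ∀ l, Loc (f l)) : ∀ᶠ N : ℕ in atTop,
    (∀ l ∈ f.support, |l| ≤ N) ∧ ∀ l, ∃ L, 0 ≤ L ∧ LocN N L (f l) := by
  have h1 := (eventually_all_finset f.support).2 fun l _ => eventually_ge_atTop l.natAbs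
  have h2 := (eventually_all_finset f.support).2 fun l _ => eventually_ge_atTop (hf l).choose
  filter_upwards [h1, h2] with N h1 h2
  refine ⟨fun l hl => by rw [← Int.natCast_natAbs]; exact_mod_cast h1 l hl, fun l => ?_⟩
  by_cases hl : l ∈ f.support
  · obtain ⟨L, hL, h⟩ := (hf l).choose_spec
    exact ⟨L, hL, h.mono (h2 l hl)⟩
  · exact ⟨0, le_rfl, fun p p' t _ _ _ => by simp [Finsupp.notMem_support_iff.1 hl]⟩

/-- The trivial seed. -/
def S0 : Seed := ⟨{0}, isCompact_singleton, rfl, by simp⟩

instance : Subsingleton S0.K := Set.subsingleton_singleton.coe_sort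

instance : Subsingleton (TS (CP (TT S0 False))) := ⟨fun σ τ => by
  refine (cpReg _).ext_is (hasTowers _ _) fun f => eq_of_forall_dist_le fun ε hε => ?_
  obtain ⟨g, ⟨N, L, -, hg⟩, h⟩ := exists_loc f (half_pos hε)
  let p₀ : Sys S0 False := ⟨0, fun l => ⟨le_rfl, qq_pos' l, Int.zero_emod _⟩, False.elim⟩
  have key : ∀ m : IS (TT S0 False), |m.μ g - (qq N : ℝ)⁻¹ * bs (TT S0 False) (qq N) g p₀| ≤ 0 := by
    intro m
    rw [← m.const (_ * _)]
    refine (tw S0 False N).abs_sub_le m fun p hp => ?_
    have : bs (TT S0 False) (qq N) g p = bs (TT S0 False) (qq N) g p₀ :=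
      sum_congr rfl fun i _ => hg.eq (by rw [TT_o, TT_o, show p.o N = p₀.o N from hp])
        fun _ _ => Subsingleton.elim _ _
    rw [this]
    simp [bs, (qq_pos N).ne']
  have h1 := abs_le.1 (key ((cpReg _).is σ))
  have h2 := abs_le.1 (key ((cpReg _).is τ))
  have h3 := abs_le.1 (((cpReg _).is σ).abs_sub_le h)
  have h4 := abs_le.1 (((cpReg _).is τ).abs_sub_le h)
  rw [Real.dist_eq, abs_le]
  constructor <;> linarith⟩

/-- A point of the full system with the same position. -/
def Sys.full {S' : Seed} (p : Sys S b) (z : ℤ → S'.K) : Sys S' False := ⟨(z, p.o), p.2.1, False.elim⟩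

/-- An equivariant map given by a local rule. -/
def rule {S' : Seed} (n : ℕ) (F : ℤ → C(S.K, S'.K)) : C(Sys S b, Sys S' False) :=
  ⟨fun p => p.full fun i => F (p.o n + i) (p.x i), cont_iff (fun i => cont_disc
    (a := fun p : Sys S b => p.o n + i) (by fun_prop) (F := fun k p => F k (p.x i))
    fun k => by fun_prop) o_cont⟩

lemma rule_equiv {S' : Seed} (n : ℕ) {F : ℤ → C(S.K, S'.K)}
    (hF : ∀ a a', a ≡ a' [ZMOD qq n] → F a = F a') (p : Sys S b) :
    rule n F (TT S b p) = TT S' False (rule n F p) :=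
  Sys.ext (fun i => congrArg (fun g : C(S.K, S'.K) => g (p.x (i + 1))) (hF _ _ (by
    change ((p.o n + 1) % qq n + i) % _ = (p.o n + (i + 1)) % _
    rw [Int.emod_add_emod]; congr 1; ring))) fun _ => rfl

/-- Scaling. -/
def Seed.scale (S : Seed) (t : ℝ) : C(S.K, S.K) :=
  ⟨fun κ => ⟨max 0 (min t 1) • κ, S.star _ κ.2 _ (le_max_left _ _) (by simp)⟩, by fun_prop⟩

lemma rule_cont (S : Seed) (n : ℕ) : Continuous fun t : ℝ =>
    rule (b := True) n fun a => if Free n a then S.scale t else .id _ := by
  refine ContinuousMap.continuous_of_continuous_uncurry _ (cont_iff (fun i => ?_) fun l => ?_)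
  · refine cont_disc (a := fun p : ℝ × Sys S True => p.2.o n + i) (by fun_prop)
      (F := fun k p => (if Free n k then S.scale p.1 else .id _ : C(S.K, S.K)) (p.2.x i)) fun k => ?_
    split_ifs
    · exact Continuous.subtype_mk (by fun_prop) _
    · exact (x_cont i).comp continuous_snd
  · change Continuous fun p : ℝ × Sys S True => p.2.o l
    fun_prop

/-- The approximate deformation retraction. -/
def adr (S : Seed) : ADR (CP (TT S0 False)) (CP (TT S False)) (CP (TT S True)) where
  s := pull (rule 0 fun _ => .const _ 0) (rule_equiv 0 fun _ _ _ => rfl)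
  ev := pull (rule 0 fun _ => .id _) (rule_equiv 0 fun _ _ _ => rfl)
  θ n t := pull (rule n fun a => if Free n a then S.scale t else .id _)
    (rule_equiv n fun _ _ h => if_congr (Free_congr h) rfl rfl)
  σ n := pull (rule n fun a => .const _ (if Free n a then 0 else sk S.w n a))
    (rule_equiv n fun _ _ h => by rw [if_congr (Free_congr h) rfl (sk_congr _ h)])
  K := 2
  dense := pull_dense _ _ (Function.Surjective.denseRange fun f =>
    ContinuousMap.exists_extension ((rule (b := True) 0 fun _ => .id S.K).continuous.isClosedEmbedding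
      fun _ _ h => Subtype.ext (congrArg Subtype.val h :)) f)
  inj a a' h := rep_ext fun y => by
    let p : Sys S True := ⟨(fun i => if h : ∃ n, ¬Free n (y.o n + i) then
      sk S.w (Nat.find h) (y.o (Nat.find h) + i) else 0, y.o), y.2.1, fun _ n i hi => by
        have h : ∃ n, ¬Free n (y.o n + i) := ⟨n, hi⟩
        have h1 : Nat.find h ≤ n := Nat.find_le hi
        have h2 : y.o (Nat.find h) + i ≡ y.o n + i [ZMOD qq (Nat.find h)] := by
          rw [← y.o_mod h1]; exact (Int.mod_modEq _ _).add_right i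
        exact (dif_pos h).trans ((sk_congr _ h2).trans
          (sk_mono _ h1 (mt (Free_congr h2).2 (Nat.find_spec h))).symm)⟩
    have h1 := congrArg (rep p) h
    simp only [rep_pull] at h1
    convert h1 using 2 <;> exact congrArg _ (Sys.ext (fun _ => Subsingleton.elim _ _) fun _ => rfl)
  one n d := rep_ext fun p => congrArg (rep · d) (Sys.ext (fun i => by
    change (if _ then _ else _ : C(S.K, S.K)) (p.x i) = p.x i
    split_ifs <;> simp [Seed.scale]) fun _ => rfl)
  zero n d := rep_ext fun p => congrArg (rep · d) (Sys.ext (fun i => by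
    change (if _ then _ else _ : C(S.K, S.K)) (p.x i) = if Free n (p.o n + i) then 0 else
      sk S.w n (p.o n + i)
    split_ifs with h
    exacts [Subtype.ext (by simp [Seed.scale]; rfl), p.x_eq h]) fun _ => rfl)
  ret n d := rep_ext fun p => congrArg (rep · d)
    (Sys.ext (fun _ => Subsingleton.elim _ _) fun _ => rfl)
  cont n d := pull_cont _ _ (rule_cont S n) d
  bound d ε hε := by
    obtain ⟨f, hf, hd⟩ := (cp _).dense_poly (cp_dense _) loc_dense loc_zero d
      (show 0 < ε / 3 by positivity)
    obtain ⟨N, hN0, hN, hN'⟩ := ((eventually_gt_atTop 0).and (loc_unif hf)).exists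
    filter_upwards [eventually_ge_atTop (N + N)] with n hn t
    have key : ∀ {D : Type} [CStarAlgebra D] (φ : CP (TT S False) →⋆ₐ[ℂ] D),
        |‖φ d‖ - ‖φ ((cp _).poly f)‖| ≤ ε / 3 := fun φ =>
      (abs_norm_sub_norm_le _ _).trans ((map_sub φ _ _ ▸
        NonUnitalStarAlgHom.norm_apply_le φ _).trans hd)
    refine (sub_le_iff_le_add'.1 (abs_le.1 (key _)).2).trans ?_
    refine (add_le_add_left (norm_le_of_rep (C := 2 * _) (by positivity) fun p => ?_) _).trans
      (?_ : 2 * ‖pull (T := TT S True) (rule 0 fun _ => .id _) (rule_equiv 0 fun _ _ _ => rfl)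
        ((cp _).poly f)‖ + _ ≤ _)
    swap
    · linarith [(abs_le.1 (key (pull (T := TT S True) (rule 0 fun _ => .id _)
        (rule_equiv 0 fun _ _ _ => rfl)))).1]
    rw [rep_pull]
    refine norm_le_of_windows hN0 hN (norm_nonneg _) fun s => ?_
    obtain ⟨z, r, -, h1, h2⟩ := window (n := n) (J := N + N)
      (p := rule n (fun a => if Free n a then S.scale t else .id _) p)
      (fun i hi => (congrArg (fun g : C(S.K, S.K) => g (p.x i)) (if_neg hi)).trans (p.x_eq hi))
      (by have := lt_qq n; omega) s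
    refine ⟨rule 0 (fun _ => .id _) ((TT S True ^ r) (pt z)), norm_rep_le _ (pull _ _ _),
      fun l _ k hk => ?_⟩
    obtain ⟨L, -, hL⟩ := hN' l
    refine hL.eq ?_ fun i hi => ?_
    · rw [TT_o, TT_o]
      exact congrArg (fun a => (a + (s + k)) % qq N)
        (o_eq (p' := p) (show N ≤ n by omega) h1).symm
    · rw [TT_x, TT_x, ← h2 _ (by rw [abs_le] at *; omega)]; rfl

end

end Pool.Agent.P.MP_456758_an
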