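import Pool.Agent.P.MP_456758_an.Sys

/-! Local functions, blocks and periodic traces. -/

namespace Pool.Agent.P.MP_456758_an

open Filter Topology Finset Sys
open scoped Classical

noncomputable section

attribute [-simp] zpow_natCast zpow_neg

variable {S : Seed} {b : Prop}

/-- Lipschitz dependence on a window. -/
def LocN (N : ℕ) (L : ℝ) {F : Type} [PseudoMetricSpace F] (f : Sys S b → F) : Prop :=
  ∀ p p' t, 0 ≤ t → p.o N = p'.o N → (∀ i : ℤ, |i| ≤ N → dist (p.x i) (p'.x i) ≤ t) →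
    dist (f p) (f p') ≤ L * t

lemma LocN.mono {N N' : ℕ} {L : ℝ} {F : Type} [PseudoMetricSpace F] {f : Sys S b → F}
    (h : LocN N L f) (hN : N ≤ N') : LocN N' L f := fun p p' t ht h1 h2 =>
  h p p' t ht (o_eq hN h1) fun i hi => h2 i (hi.trans (by exact_mod_cast hN))

lemma LocN.eq {N : ℕ} {L : ℝ} {F : Type} [MetricSpace F] {f : Sys S b → F} (h : LocN N L f)
    {p p' : Sys S b} (h1 : p.o N = p'.o N) (h2 : ∀ i : ℤ, |i| ≤ N → p.x i = p'.x i) :
    f p = f p' := by
  simpa using h p p' 0 le_rfl h1 fun i hi => by simp [h2 i hi]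

/-- Local functions. -/
def Loc {F : Type} [PseudoMetricSpace F] (f : Sys S b → F) : Prop := ∃ N L, 0 ≤ L ∧ LocN N L f

/-- The algebra of local functions. -/
def locSub (S : Seed) (b : Prop) : StarSubalgebra ℂ C(Sys S b, ℂ) where
  carrier := {f | Loc f}
  add_mem' := by
    rintro f g ⟨N, L, hL, h⟩ ⟨N', L', hL', h'⟩
    refine ⟨max N N', L + L', by positivity, fun p p' t ht h1 h2 => ?_⟩
    refine (dist_add_add_le _ _ _ _).trans ?_
    linarith [h.mono (le_max_left N N') p p' t ht h1 h2, h'.mono (le_max_right N N') p p' t ht h1 h2]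
  mul_mem' := by
    rintro f g ⟨N, L, hL, h⟩ ⟨N', L', hL', h'⟩
    refine ⟨max N N', ‖f‖ * L' + L * ‖g‖, by positivity, fun p p' t ht h1 h2 => ?_⟩
    have a := h.mono (le_max_left N N') p p' t ht h1 h2
    have c := h'.mono (le_max_right N N') p p' t ht h1 h2
    rw [dist_eq_norm] at *
    have e : (f * g) p - (f * g) p' = f p * (g p - g p') + (f p - f p') * g p' := by
      simp only [ContinuousMap.mul_apply]; ring
    rw [e, add_mul, mul_assoc, mul_right_comm]
    refine (norm_add_le _ _).trans ?_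
    rw [norm_mul, norm_mul]
    gcongr
    exacts [f.norm_coe_le_norm p, g.norm_coe_le_norm p']
  algebraMap_mem' r := ⟨0, 0, le_rfl, fun p p' t _ _ _ => by simp⟩
  star_mem' := by
    rintro f ⟨N, L, hL, h⟩
    exact ⟨N, L, hL, fun p p' t ht h1 h2 => by simpa using h p p' t ht h1 h2⟩

lemma loc_dense : Dense {f : C(Sys S b, ℂ) | Loc f} := by
  have := ContinuousMap.starSubalgebra_topologicalClosure_eq_top_of_separatesPoints (locSub S b) ?_
  · exact fun f => (this.ge (Set.mem_univ f) :)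
  intro p p' h
  by_contra hc
  have key : ∀ f : C(Sys S b, ℂ), Loc f → f p = f p' := fun f hf =>
    by_contra fun h => hc ⟨f, ⟨f, hf, rfl⟩, h⟩
  refine h (Sys.ext (fun i => ?_) fun l => ?_)
  · have : ∀ g : ℝ × ℝ → ℝ, LipschitzWith 1 g → g (p.x i) = g (p'.x i) := fun g hg => by
      have := hg.continuous
      refine Complex.ofReal_injective (key ⟨fun p => g (p.x i), by fun_prop⟩
        ⟨i.natAbs, 1, zero_le_one, fun p p' t _ _ h2 => ?_⟩)
      have h3 := hg.dist_le_mul (p.x i) (p'.x i)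
      have h4 := h2 i (by simp)
      rw [Subtype.dist_eq] at h4
      exact (Complex.isometry_ofReal.dist_eq _ _).trans_le (h3.trans (by simpa using h4))
    exact Subtype.ext (Prod.ext (this _ .prod_fst) (this _ .prod_snd))
  · exact Int.cast_injective (α := ℂ) (key ((tw S b l).fn Int.cast)
      ⟨l, 0, le_rfl, fun p p' t _ h1 _ => by simp [h1]⟩)

lemma loc_zero : Loc ((0 : C(Sys S b, ℂ)) : Sys S b → ℂ) := (locSub S b).zero_mem

lemma exists_loc (f : C(Sys S b, ℝ)) {ε : ℝ} (hε : 0 < ε) :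
    ∃ g : C(Sys S b, ℝ), Loc g ∧ ∀ p, |f p - g p| ≤ ε := by
  obtain ⟨g, ⟨N, L, hL, hg⟩, h⟩ := loc_dense.exists_dist_lt (cx f) hε
  refine ⟨rp g, ⟨N, L, hL, fun p p' t ht h1 h2 => le_trans ?_ (hg p p' t ht h1 h2)⟩, fun p => ?_⟩
  · simpa [dist_eq_norm] using Complex.abs_re_le_norm (g p - g p')
  · refine le_trans ?_ ((ContinuousMap.dist_apply_le_dist p).trans h.le)
    simpa [dist_eq_norm] using Complex.abs_re_le_norm (f p - g p)

/-- The free coordinates of a block. -/
abbrev Blk (S : Seed) (n : ℕ) : Type := FF n → S.K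

/-- The block of level `n` around the origin. -/
def bt (n : ℕ) : C(Sys S True, Blk S n) :=
  ⟨fun p a => p.x (a - p.o n), continuous_pi fun a =>
    cont_disc (o_cont n) (F := fun k p => p.x (a - k)) fun _ => x_cont _⟩

lemma bt_apply (n : ℕ) (p : Sys S True) (a : FF n) : bt n p a = p.x (a - p.o n) := rfl

lemma bt_zpow {n : ℕ} {p : Sys S True} (hp : p.o n = 0) {i : ℤ} (h0 : 0 ≤ i) (h1 : i < qq n) :
    bt n ((TT S True ^ i) p) = bt n p := by
  ext1 a
  simp [bt_apply, hp, Int.emod_eq_of_lt h0 h1]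

/-- The periodic extension of a block. -/
def per {n : ℕ} (y : Blk S n) (i : ℤ) : S.K :=
  if h : (i % qq n).toNat ∈ FF n then y ⟨_, h⟩ else 0

lemma per_apply {n : ℕ} (y : Blk S n) (a : FF n) {i : ℤ} (h : i % qq n = a) : per y i = y a := by
  simp [per, h]

lemma FF_lt {n : ℕ} (a : FF n) : (a : ℤ) < qq n := by
  exact_mod_cast mem_range.1 (mem_filter.1 a.2).1

lemma FF_free {n : ℕ} (a : FF n) : Free n a := (mem_filter.1 a.2).2

/-- The section. -/
def sc (n : ℕ) : C(Blk S n, Sys S True) :=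
  ⟨fun y => pt (per y), pt_cont.comp (continuous_pi fun i => by
    unfold per; split_ifs <;> fun_prop)⟩

@[simp] lemma sc_o (n : ℕ) (y : Blk S n) (l : ℕ) : (sc n y).o l = 0 := rfl

lemma sc_dist (n : ℕ) (y y' : Blk S n) (i : ℤ) : dist ((sc n y).x i) ((sc n y').x i) ≤ dist y y' :=
  pt_dist dist_nonneg (by
    unfold per
    split_ifs
    exacts [dist_le_pi_dist _ _ _, by simp])

lemma sc_bt {n : ℕ} {p : Sys S True} (hp : p.o n = 0) {i : ℤ} (h0 : 0 ≤ i) (h1 : i < qq n) :
    (sc n (bt n p)).x i = p.x i := by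
  change (pt _).x i = _
  rw [pt_x _ (by omega) h1]
  split_ifs with h
  · lift i to ℕ using h0
    rw [per_apply _ ⟨i, mem_filter.2 ⟨mem_range.2 (by omega), h⟩⟩
      (Int.emod_eq_of_lt (by omega) h1), bt_apply, hp, sub_zero]
  · rw [p.x_eq (n := n) (by simpa [hp] using h), hp, zero_add]

lemma bt_pt (z : ℤ → S.K) {n m : ℕ} {i : ℕ} (hi : i < qq m) (h : n ≤ m) (hb : ¬Bad n m i)
    (a : FF n) : bt n ((TT S True ^ (i : ℤ)) (pt z)) a = z (i / qq n * qq n + a) := by
  have h1 := FF_lt a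
  have h2 := qq_pos' n
  have e : (a : ℤ) - i % qq n + i = i / qq n * qq n + a := by
    have := Int.emod_add_ediv_mul (i : ℤ) (qq n); linarith
  have h3 : ((i : ℤ) / qq n * qq n + a) / qq n = i / qq n := by
    rw [add_comm, Int.add_mul_ediv_right _ _ h2.ne', Int.ediv_eq_zero_of_lt (by omega) h1, zero_add]
  have h4 : (i : ℤ) / qq n * qq n + a < qq m := by
    obtain ⟨c, hc⟩ := qq_dvd' h
    have : (i : ℤ) / qq n < c := Int.ediv_lt_of_lt_mul h2 (by rw [mul_comm, ← hc]; omega)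
    nlinarith
  have h5 : 0 ≤ (i : ℤ) / qq n * qq n := by positivity
  rw [bt_apply, TT_x, TT_o, pt_o, zero_add, e, pt_x z (by omega) h4]
  refine if_pos fun j hj hx => ?_
  rcases lt_or_ge j n with h6 | h6
  · exact FF_free a j h6 ((Fx_congr h6 (by simp [Int.ModEq])).1 hx)
  · exact hb ⟨j, h6, hj, (Fx_block h6 h3).1 hx⟩

lemma bt_sc {n : ℕ} (y : Blk S n) : bt n (sc n y) = y := by
  ext1 a
  have := bt_pt (per y) (qq_pos n) le_rfl (fun ⟨j, _, _, _⟩ => by omega) a
  simpa [per_apply y a (Int.emod_eq_of_lt (by omega) (FF_lt a)), sc] using this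

/-- The average of a function over a block. -/
def av (n : ℕ) (f : C(Sys S True, ℝ)) : C(Blk S n, ℝ) :=
  ⟨fun y => (qq n : ℝ)⁻¹ * bs (TT S True) (qq n) f (sc n y), by unfold bs; fun_prop⟩

lemma av_mul (n : ℕ) (f : C(Sys S True, ℝ)) (y : Blk S n) :
    qq n * av n f y = bs (TT S True) (qq n) f (sc n y) :=
  mul_inv_cancel_left₀ (qq_posR n).ne' _

lemma av_le (n : ℕ) (f : C(Sys S True, ℝ)) (y : Blk S n) : |av n f y| ≤ ‖f‖ := by
  refine le_of_mul_le_mul_left ?_ (qq_posR n)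
  rw [← abs_of_pos (qq_posR n), ← abs_mul, av_mul, abs_of_pos (qq_posR n)]
  simpa [bs] using norm_sum_le_of_le (range (qq n)) (n := fun _ => ‖f‖) fun i _ =>
    f.norm_coe_le_norm ((TT S True ^ (i : ℤ)) (sc n y))

lemma bs_bt {n : ℕ} (G : C(Blk S n, ℝ)) {p : Sys S True} (hp : p.o n = 0) :
    bs (TT S True) (qq n) (G.comp (bt n)) p = qq n * G (bt n p) := by
  refine (sum_congr rfl fun i hi => congrArg G (bt_zpow hp (by omega) (by simpa using hi))).trans ?_
  simp

lemma card_edge (q N : ℕ) : ∑ i ∈ range q, (if N ≤ i ∧ i + N < q then 0 else 1 : ℝ) ≤ 2 * N := by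
  have : {i ∈ range q | ¬(N ≤ i ∧ i + N < q)} ⊆ range N ∪ Ico (q - N) q := fun i hi => by
    simp only [mem_filter, mem_union, mem_range, mem_Ico] at *
    omega
  have h2 := (card_le_card this).trans (card_union_le _ _)
  rw [card_filter, card_range, Nat.card_Ico] at h2
  have h3 : ((∑ i ∈ range q, if ¬(N ≤ i ∧ i + N < q) then 1 else 0 : ℕ) : ℝ) ≤ (2 * N : ℕ) := by
    exact_mod_cast h2.trans (by omega)
  simpa only [Nat.cast_sum, ite_not, Nat.cast_ite, Nat.cast_zero, Nat.cast_one, Nat.cast_mul,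
    Nat.cast_ofNat] using h3

lemma block_approx (f : C(Sys S True, ℝ)) {ε : ℝ} (hε : 0 < ε) : ∀ᶠ n in atTop,
    ∀ p : Sys S True, p.o n = 0 →
      |bs (TT S True) (qq n) f p - qq n * av n f (bt n p)| ≤ qq n * ε := by
  obtain ⟨g, ⟨N, L, -, hg⟩, h⟩ := exists_loc f (show 0 < ε / 4 by positivity)
  filter_upwards [eventually_ge_atTop N, ev_qq (2 * ‖f‖ * (2 * N)) (show 0 < ε / 2 by positivity)]
    with n hn hq p hp
  rw [av_mul, bs, bs, ← sum_sub_distrib]
  refine (abs_sum_le_sum_abs _ _).trans ((sum_le_sum (g := fun i => ε / 2 + 2 * ‖f‖ *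
    (if N ≤ i ∧ i + N < qq n then 0 else 1)) fun i hi => ?_).trans ?_)
  · split_ifs with h1
    · have := hg.eq (p := (TT S True ^ (i : ℤ)) p) (p' := (TT S True ^ (i : ℤ)) (sc n (bt n p)))
        (o_eq hn (by simp [hp])) fun k hk => by
          rw [abs_le] at hk
          rw [TT_x, TT_x, sc_bt hp (by omega) (by omega)]
      have h2 := abs_le.1 (h ((TT S True ^ (i : ℤ)) p))
      have h3 := abs_le.1 (h ((TT S True ^ (i : ℤ)) (sc n (bt n p))))
      rw [abs_le]; constructor <;> linarith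
    · refine (norm_sub_le_of_le (f.norm_coe_le_norm _) (f.norm_coe_le_norm _)).trans (by linarith)
  · rw [sum_add_distrib, ← mul_sum, sum_const, card_range, nsmul_eq_mul]
    have := mul_le_mul_of_nonneg_left (card_edge (qq n) N) (show 0 ≤ 2 * ‖f‖ by positivity)
    linarith

lemma is_approx (f : C(Sys S True, ℝ)) {ε : ℝ} (hε : 0 < ε) : ∀ᶠ n in atTop,
    ∀ m : IS (TT S True), |m.μ f - m.μ ((av n f).comp (bt n))| ≤ ε :=
  (block_approx f hε).mono fun n h m => (tw S True n).abs_sub_le m fun p hp => by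
    rw [bs_bt _ hp]; exact h p hp

lemma bs_pt (z : ℤ → S.K) {n m : ℕ} (h : n ≤ m) (G : C(Blk S n, ℝ)) {C : ℝ} (hC : ∀ y, |G y| ≤ C) :
    |bs (TT S True) (qq m) (G.comp (bt n)) (pt z) -
      ∑ i ∈ range (qq m), G fun a => z (i / qq n * qq n + a)| ≤ qq m * (C * (1 / 2) ^ n) := by
  have h0 : 0 ≤ C := (abs_nonneg _).trans (hC 0)
  rw [bs, ← sum_sub_distrib]
  refine (abs_sum_le_sum_abs _ _).trans ((sum_le_sum (g := fun i : ℕ => 2 * C *
    (if Bad n m i then 1 else 0)) fun i hi => ?_).trans ?_)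
  · split_ifs with h1
    · exact (abs_sub _ _).trans ((add_le_add (hC _) (hC _)).trans (by linarith))
    · rw [ContinuousMap.comp_apply, funext (bt_pt z (mem_range.1 hi) h h1)]
      simp
  · rw [← mul_sum]
    refine (mul_le_mul_of_nonneg_left (sum_Bad n m) (by positivity)).trans_eq (by ring)

theorem exists_per {A : Type} [CStarAlgebra A] (R : Reg (TT S True) A) {n : ℕ} (y : Blk S n) :
    ∃ τ : TS A, ∀ (G : C(Blk S n, ℝ)) (C : ℝ), (∀ y, |G y| ≤ C) →
      |(R.is τ).μ (G.comp (bt n)) - G y| ≤ C * (1 / 2) ^ n := by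
  obtain ⟨τ, h⟩ := R.exists_trace (sc n y) qq_tendsto
  have key : ∀ (G : C(Blk S n, ℝ)) (C : ℝ), (∀ y, |G y| ≤ C) →
      (R.is τ).μ (G.comp (bt n)) ≤ G y + C * (1 / 2) ^ n := fun G C hC => by
    refine h _ _ ((eventually_ge_atTop n).mono fun m hm => ?_)
    have h1 := (abs_le.1 (bs_pt (per y) hm G hC)).2
    have h2 : ∀ i : ℕ, (fun a : FF n => per y (i / qq n * qq n + a)) = y := fun i => funext fun a =>
      per_apply y a (by rw [add_comm, Int.add_mul_emod_self_right, Int.emod_eq_of_lt (by omega) (FF_lt a)])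
    simp only [h2, sum_const, card_range, nsmul_eq_mul] at h1
    change bs _ _ _ (pt (per y)) ≤ _
    linarith
  refine ⟨τ, fun G C hC => abs_le.2 ⟨?_, by linarith [key G C hC]⟩⟩
  have := key (-G) C (by simpa using hC)
  rw [ContinuousMap.neg_comp, map_neg, ContinuousMap.neg_apply] at this
  linarith

end

end Pool.Agent.P.MP_456758_an
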