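import Pool.Agent.P.MP_456758_an.Emb

/-! The lower bound: failure of comparison. -/

namespace Pool.Agent.P.MP_456758_an

open Filter Topology Finset Sys
open scoped Classical ComplexOrder

noncomputable section

attribute [-simp] zpow_natCast zpow_neg

lemma IsQuasitrace.split {D : Type} [CStarAlgebra D] {σ : D → ℂ} (h : IsQuasitrace σ) {x e v : D}
    (hx : IsSelfAdjoint x) (he : IsStarProjection e) (hv : star v * v = 1 - e)
    (hc : Commute (x * e * x) (x * x)) :
    σ (x * x) = σ (e * (x * x) * e) + σ (v * (x * x) * star v) := by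
  have h1 := h.comm (e * x)
  have h2 := h.comm (v * x)
  rw [star_mul, hx.star_eq, he.2.star_eq, mul_assoc, ← mul_assoc e, he.1.eq, ← mul_assoc] at h1
  rw [star_mul, hx.star_eq, mul_assoc, ← mul_assoc (star v), hv, ← mul_assoc] at h2
  have e1 : x * (1 - e) * x = x * x - x * e * x := by noncomm_ring
  have := h.add (he.2.conjugate x) (he.one_sub.2.conjugate x) (by
    rw [hx.star_eq, e1]; exact hc.sub_right (.refl _))
  rw [hx.star_eq, h1, h2, ← h1, e1, add_sub_cancel, h1] at this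
  simpa only [mul_assoc] using this

lemma IsQuasitrace.le_dim {D : Type} [CStarAlgebra D] [PartialOrder D] [StarOrderedRing D]
    {σ : D → ℂ} (h : IsQuasitrace σ) {b : D} (h0 : 0 ≤ b) (h1 : b ≤ 1) : (σ b).re ≤ dimFun σ b := by
  have := h.LL_le_dim h0 (G := fun t => min t 1) (by fun_prop) (by simp) fun t => min_le_right _ _
  rwa [LL, cfc_congr (f := fun t : ℝ => min t 1) (g := id)
    fun t ht => min_eq_left ((CFC.le_one_iff b).1 h1 t ht), cfc_id ℝ b] at this

/-- The trace of the matrix function. -/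
def gg {X : Type} [TopologicalSpace X] (N t : C(X, ℝ)) : C(X, ℝ) :=
  ⟨fun p => 4 * N p ^ 2 + 2 * t p ^ 2, by fun_prop⟩

variable {A : Type} [CStarAlgebra A]

/-- The upper left corner. -/
def E0 : A →⋆ₙₐ[ℂ] Mat A 2 where
  toFun a := .ofMatrix !![a, 0; 0, 0]
  map_smul' c a := by ext i j; fin_cases i <;> fin_cases j <;> simp
  map_zero' := by ext i j; fin_cases i <;> fin_cases j <;> simp
  map_add' a b := by ext i j; fin_cases i <;> fin_cases j <;> simp
  map_mul' a b := by ext i j; fin_cases i <;> fin_cases j <;> simp [CStarMatrix.mul_apply]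
  map_star' a := by ext i j; fin_cases i <;> fin_cases j <;> simp [CStarMatrix.star_apply]

lemma E0_apply (a : A) : E0 a = .ofMatrix !![a, 0; 0, 0] := rfl

variable [PartialOrder A] [StarOrderedRing A]

lemma qt_sq {σ : Mat A 2 → ℂ} (h : IsQuasitrace σ) {x : Mat A 2} (hx : IsSelfAdjoint x)
    (hc : Commute (x * E0 1 * x) (x * x)) :
    σ (x * x) = σ (E0 ((x * x) 0 0)) + σ (E0 ((x * x) 1 1)) := by
  rw [h.split (v := .ofMatrix !![0, 1; 0, 0]) hx ((IsStarProjection.one A).map E0) ?_ hc]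
  · congr 2 <;> ext i j <;> fin_cases i <;> fin_cases j <;>
      simp [E0_apply, CStarMatrix.mul_apply, CStarMatrix.star_apply]
  · ext i j
    fin_cases i <;> fin_cases j <;> simp [E0_apply, CStarMatrix.mul_apply, CStarMatrix.star_apply]

lemma exists_b {X : Type} [TopologicalSpace X] [CompactSpace X] {T : X ≃ₜ X} (c : Cov T A)
    (N a t : C(X, ℝ)) (z : C(X, ℂ)) (h1 : ∀ p, a p ^ 2 + ‖z p‖ ^ 2 = N p ^ 2)
    (h2 : ∀ p, t p ^ 2 + 4 * N p ^ 2 ≤ 1) : ∃ b : CStarMatrix (Fin 2) (Fin 2) C(X, ℂ),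
      0 ≤ amp _ c.π b ∧ (∀ p (η : Fin 2 → ℂ), t p = 0 → (N p + a p) * η 0 + star (z p) * η 1 = 0 →
        z p * η 0 + (N p - a p) * η 1 = 0 → ∀ s, ∑ r, b s r p * η r = 0) ∧
      ∀ (σ : Mat A 2 → ℂ) (h : IsQuasitrace σ) (h' : σ (E0 1) = 1),
        (IS.ofQ h E0 h' c).μ (gg N t) ≤ dimFun σ (amp _ c.π b) := by
  let w : C(X, ℝ) := ⟨fun p => √(1 - (t p ^ 2 + 4 * N p ^ 2)), by fun_prop⟩
  have r1 : cx a * cx a + z * star z = cx N * cx N := by
    ext p
    simpa [Complex.mul_conj', sq] using congrArg Complex.ofReal (h1 p)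
  have r2 : cx t * cx t + 4 * (cx N * cx N) + cx w * cx w = 1 := by
    ext p
    have : t p * t p + 4 * (N p * N p) + w p * w p = 1 := by
      simp only [w, ContinuousMap.coe_mk, Real.mul_self_sqrt (sub_nonneg.2 (h2 p))]; ring
    change (t p * t p + 4 * (N p * N p) + w p * w p : ℂ) = 1
    exact_mod_cast this
  let x : Mat C(X, ℂ) 2 := .ofMatrix !![cx N + cx a, star z; z, cx N - cx a]
  let x' : Mat C(X, ℂ) 2 := .ofMatrix !![cx N - cx a, -star z; -z, cx N + cx a]
  let d : C(X, ℝ) → Mat C(X, ℂ) 2 := fun u => .ofMatrix !![cx u, 0; 0, cx u]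
  have sa : ∀ {u : Mat C(X, ℂ) 2}, IsSelfAdjoint u → 0 ≤ amp _ c.π (u * u) := fun hu => by
    rw [map_mul]; exact (hu.map _).mul_self_nonneg
  have hx : IsSelfAdjoint x := CStarMatrix.ext fun i j => by
    fin_cases i <;> fin_cases j <;> simp [x, CStarMatrix.star_apply, (cx_sa _).star_eq]
  have hx' : IsSelfAdjoint x' := CStarMatrix.ext fun i j => by
    fin_cases i <;> fin_cases j <;> simp [x', CStarMatrix.star_apply, (cx_sa _).star_eq]
  have hd : ∀ u, IsSelfAdjoint (d u) := fun u => CStarMatrix.ext fun i j => by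
    fin_cases i <;> fin_cases j <;> simp [d, CStarMatrix.star_apply, (cx_sa _).star_eq]
  have hb : 0 ≤ amp _ c.π (x * x + d t * d t) := by
    rw [map_add]; exact add_nonneg (sa hx) (sa (hd t))
  refine ⟨x * x + d t * d t, hb, fun p η e1 e2 e3 s => ?_, fun σ h h' => ?_⟩
  · rw [RCLike.star_def] at e2
    fin_cases s <;> simp [x, d, CStarMatrix.mul_apply, e1]
    · linear_combination (N p + a p : ℂ) * e2 + starRingEnd ℂ (z p) * e3
    · linear_combination z p * e2 + (N p - a p : ℂ) * e3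
  have e1 : x * x + d t * d t + (x' * x' + d w * d w) = 1 := CStarMatrix.ext fun i j => by
    fin_cases i <;> fin_cases j <;> simp [x, x', d, CStarMatrix.mul_apply]
    · linear_combination 2 * r1 + r2
    · ring
    · ring
    · linear_combination 2 * r1 + r2
  refine le_trans ?_ (h.le_dim hb (by
    rw [← map_one (amp _ c.π), ← e1, map_add _ (_ + _), le_add_iff_nonneg_right, map_add]
    exact add_nonneg (sa hx') (sa (hd w))))
  have e0 : amp _ c.π (E0 1) = E0 1 := CStarMatrix.ext fun i j => by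
    fin_cases i <;> fin_cases j <;> simp [E0_apply]
  have key : ∀ {u : Mat C(X, ℂ) 2}, IsSelfAdjoint u → Commute (u * E0 1 * u) (u * u) →
      σ (amp _ c.π (u * u)) = σ (E0 (c.π ((u * u) 0 0))) + σ (E0 (c.π ((u * u) 1 1))) :=
    fun {u} hu hc => by
      have := hc.map (amp _ c.π)
      rw [map_mul, map_mul, map_mul, e0] at this
      simpa only [← map_mul, amp_apply] using qt_sq h (hu.map _) this
  have c1 : Commute (x * E0 1 * x) (x * x) := by
    have : x * E0 1 * x = (cx N + cx a) • x := CStarMatrix.ext fun i j => by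
      fin_cases i <;> fin_cases j <;> simp [x, E0_apply, CStarMatrix.mul_apply]
      · ring
      · linear_combination r1
    rw [this]
    exact ((Commute.refl x).mul_right (.refl x)).smul_left _
  have c2 : ∀ u, Commute u (d t * d t) := fun u => CStarMatrix.ext fun i j => by
    fin_cases i <;> fin_cases j <;> simp [d, CStarMatrix.mul_apply, mul_comm]
  have f1 : (x * x) 0 0 = cx ((N + N) * (N + a)) := by
    have : cx ((N + N) * (N + a)) = (cx N + cx N) * (cx N + cx a) := by ext; simp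
    simp [this, x, CStarMatrix.mul_apply]
    linear_combination r1
  have f2 : (x * x) 1 1 = cx ((N + N) * (N - a)) := by
    have : cx ((N + N) * (N - a)) = (cx N + cx N) * (cx N - cx a) := by ext; simp
    simp [this, x, CStarMatrix.mul_apply]
    linear_combination r1
  have f3 : ∀ i, (d t * d t) i i = cx (t ^ 2) := fun i => by
    ext p
    fin_cases i <;> simp [d, CStarMatrix.mul_apply, sq]
  rw [map_add _ (x * x), h.add (sa hx).isSelfAdjoint (sa (hd t)).isSelfAdjoint ((c2 _).map _),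
    key hx c1, key (hd t) (c2 _), f1, f2, f3, f3]
  simp only [Complex.add_re, ← IS.ofQ_apply h E0 h' c, ← map_add]
  exact le_of_eq (congrArg _ (by ext; simp [gg]; ring))

variable {S : Seed}

lemma exists_data {n : ℕ} {V : Set (Blk S n)} (hV : IsOpen V) {ι : Finset ℕ} (hι : ι ⊆ range (qq n))
    {e : (ι → Sph) → Blk S n} (he : Continuous e) (hi : Function.Injective e) (heV : ∀ θ, e θ ∈ V) :
    ∃ (N a t : C(Sys S True, ℝ)) (z : C(Sys S True, ℂ)),
      (∀ p, a p ^ 2 + ‖z p‖ ^ 2 = N p ^ 2) ∧ (∀ p, t p ^ 2 + 4 * N p ^ 2 ≤ 1) ∧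
      (∀ p θ, bt n p = e θ → t p = 0 ∧ (N p, a p, z p) = if h : (p.o n).toNat ∈ ι then
        (1 / 2, (θ ⟨_, h⟩).1.1 / 2, (θ ⟨_, h⟩).1.2 / 2) else 0) ∧
      ∀ p, p.o n = 0 → (bt n p ∈ V ∧ ι.card ≤ bs (TT S True) (qq n) (gg N t) p) ∨
        2 * qq n ≤ bs (TT S True) (qq n) (gg N t) p := by
  choose P hP using fun r : ι => ContinuousMap.exists_extension (he.isClosedEmbedding hi)
    (⟨fun θ => (θ r).1, by fun_prop⟩ : C(ι → Sph, ℝ × ℂ))
  replace hP : ∀ r θ, P r (e θ) = (θ r).1 := fun r θ => congrArg (· θ) (hP r)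
  let ν : ι → Blk S n → ℝ := fun r y => √((P r y).1 ^ 2 + ‖(P r y).2‖ ^ 2)
  have hν : ∀ r θ, ν r (e θ) = 1 := fun r θ => by simp only [ν, hP, (θ r).2, Real.sqrt_one]
  obtain ⟨d, d0, d1, hd⟩ := exists_continuous_zero_one_of_isClosed (isCompact_range he).isClosed
    (hV.inter (isOpen_iInter_of_finite fun r => isOpen_lt (f := fun _ => 1 / 2) (g := ν r)
      continuous_const (by fun_prop))).isClosed_compl (Set.disjoint_compl_right_iff_subset.2 (by
        rintro _ ⟨θ, rfl⟩
        exact ⟨heV θ, Set.mem_iInter.2 fun r => by simp only [Set.mem_ofPred_eq, hν]; norm_num⟩))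
  let u : ι → Blk S n → ℝ := fun r y => √(1 - d y) / (2 * max (ν r y) (1 / 2))
  have hu : ∀ r, Continuous (u r) := fun r => Continuous.div (by fun_prop) (by fun_prop)
    fun y => by positivity
  let G : Sys S True → ℝ × ℝ × ℂ := fun p => if h : (p.o n).toNat ∈ ι then
    u ⟨_, h⟩ (bt n p) • (ν ⟨_, h⟩ (bt n p), P ⟨_, h⟩ (bt n p)) else 0
  have hG : Continuous G := cont_disc (o_cont n) (F := fun k p => if h : k.toNat ∈ ι then
    u ⟨_, h⟩ (bt n p) • (ν ⟨_, h⟩ (bt n p), P ⟨_, h⟩ (bt n p)) else 0) fun k => by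
      split_ifs <;> fun_prop
  have h4 : ∀ r y, 4 * (u r y * ν r y) ^ 2 = (1 - d y) * (ν r y / max (ν r y) (1 / 2)) ^ 2 :=
    fun r y => by
      simp only [u, mul_pow, div_pow, Real.sq_sqrt (sub_nonneg.2 (hd y).2)]
      ring
  refine ⟨⟨fun p => (G p).1, by fun_prop⟩, ⟨fun p => (G p).2.1, by fun_prop⟩,
    ⟨fun p => √(d (bt n p)), by fun_prop⟩, ⟨fun p => (G p).2.2, by fun_prop⟩, fun p => ?_,
    fun p => ?_, fun p θ h => ⟨by simp [h, d0 ⟨θ, rfl⟩], ?_⟩, fun p hp => ?_⟩
  · simp only [ContinuousMap.coe_mk, G]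
    split_ifs with h
    · simp only [Prod.smul_fst, Prod.smul_snd, smul_eq_mul, norm_smul, mul_pow, Real.norm_eq_abs,
        sq_abs, ν, ← mul_add]
      rw [Real.sq_sqrt (by positivity)]
    · simp
  · simp only [ContinuousMap.coe_mk, G, Real.sq_sqrt (hd _).1]
    split_ifs with h
    · simp only [Prod.smul_fst, smul_eq_mul, h4]
      have := pow_le_one₀ (n := 2) (by positivity) (div_le_one_of_le₀
        (le_max_left (ν ⟨_, h⟩ (bt n p)) (1 / 2)) (by positivity))
      nlinarith [(hd (bt n p)).2]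
    · simpa using (hd _).2
  · change G p = _
    simp only [G, h, u, hν, hP, d0 ⟨θ, rfl⟩]
    split_ifs
    · ext <;> norm_num <;> ring
    · rfl
  have h5 : ∀ i ∈ range (qq n), gg ⟨fun p => (G p).1, by fun_prop⟩
      ⟨fun p => √(d (bt n p)), by fun_prop⟩ ((TT S True ^ (i : ℤ)) p) =
      (if h : i ∈ ι then 4 * (u ⟨_, h⟩ (bt n p) * ν ⟨_, h⟩ (bt n p)) ^ 2 else 0) + 2 * d (bt n p) := by
    intro i hi
    have h6 : (i : ℤ) < qq n := by simpa using hi
    have h7 : (((TT S True ^ (i : ℤ)) p).o n).toNat = i := by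
      simp [hp, Int.emod_eq_of_lt _ h6]
    simp only [G, gg, h7, bt_zpow hp (Int.natCast_nonneg i) h6, ContinuousMap.coe_mk,
      Real.sq_sqrt (hd _).1]
    split_ifs <;> simp
  rw [bs, sum_congr rfl h5]
  by_cases h : bt n p ∈ V ∩ ⋂ r, {y | 1 / 2 < ν r y}
  · refine .inl ⟨h.1, ?_⟩
    rw [card_eq_sum_ones, Nat.cast_sum]
    refine (sum_le_sum fun i hi => ?_).trans (sum_le_sum_of_subset_of_nonneg hι fun i _ _ =>
      add_nonneg (by split_ifs; positivity) (mul_nonneg zero_le_two (hd _).1))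
    have h6 : 1 / 2 < ν ⟨i, hi⟩ (bt n p) := Set.mem_iInter.1 h.2 _
    rw [dif_pos hi, h4, max_eq_left h6.le, div_self (by linarith)]
    push_cast
    linarith [(hd (bt n p)).1]
  · refine .inr (le_trans (by simp [mul_comm]) (sum_le_sum (f := fun _ => 2) fun i _ => ?_))
    rw [d1 h, Pi.one_apply, mul_one, le_add_iff_nonneg_left]
    split_ifs <;> positivity

theorem Reg.lower (R : Reg (TT S True) A) {f : C(Sys S True, ℝ)} (hf : ∀ p, f p ≤ 3 / 2) {c : ℝ}
    (hc : c < rho) (H : ∀ᶠ n in atTop, ∃ (V : Set (Blk S n)) (u : FF n → ℝ × ℝ) (δ : ℝ),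
      IsOpen V ∧ 0 < δ ∧ (∀ v : FF n → ℝ × ℝ, (∀ i, ‖v i‖ ≤ 1) →
        ∃ y ∈ V, ∀ i, (y i).1 = u i + δ • v i) ∧
      ∀ p, p.o n = 0 → bt n p ∈ V → bs (TT S True) (qq n) f p ≤ qq n * c) :
    ∃ a b : Mat A 2, 0 ≤ a ∧ 0 ≤ b ∧ ¬CuntzLE a b ∧
      ∀ (σ : Mat A 2 → ℂ) (h : IsQuasitrace σ) (h' : σ (E0 1) = 1),
        dimFun σ a + (IS.ofQ h E0 h' R.toCov).μ f < dimFun σ b := by
  set γ := min ((rho - c) / 3) (1 / 6) with hγ
  have γ0 : 0 < γ := lt_min (by linarith) (by norm_num)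
  have γ1 : γ ≤ (rho - c) / 3 := min_le_left _ _
  have γ2 : γ ≤ 1 / 6 := min_le_right _ _
  obtain ⟨l, hl⟩ := (ev_qq 1 γ0).exists
  obtain ⟨n, ⟨V, u, δ, hV, hδ, H1, H2⟩, n1, n2⟩ :=
    (H.and ((ev_half (qq l) one_half_pos).and (ev_qq 1 γ0))).exists
  obtain ⟨e', e1, e2, e3⟩ := exists_emb (zero_mem_FF n)
  choose e e4 e5 using fun θ => H1 _ (e3 θ)
  have e6 : LocallyLipschitz e := ll_pi fun i θ => by
    have h1 : ContDiff ℝ 1 fun v : FF n → ℝ × ℝ => u i + δ • v i := by fun_prop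
    obtain ⟨K, t, h2, h3⟩ := h1.locallyLipschitz.comp e1 θ
    exact ⟨K, t, h2, fun a ha b hb => by simpa only [Subtype.edist_eq, e5, Function.comp] using h3 ha hb⟩
  obtain ⟨N, a, t, z, d1, d2, d3, d4⟩ := exists_data (ι := (FF n).erase 0) hV
    ((erase_subset _ _).trans (filter_subset _ _)) e6.continuous (fun θ θ' h => e2 (funext fun i =>
      smul_right_injective _ hδ.ne' (add_left_cancel ((e5 θ i).symm.trans (h ▸ e5 θ' i))))) e4
  obtain ⟨b, b1, b2, b3⟩ := exists_b R.toCov N a t z d1 d2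
  have hχ : IsStarProjection ((tw S True l).ch ℂ 0) := ⟨by ext p; simp, by ext p; simp⟩
  have ha := (hχ.map R.π).map E0
  refine ⟨_, _, ha.nonneg, b1, fun ⟨v, hv⟩ => ?_, fun σ h h' => lt_of_lt_of_le ?_ (b3 σ h h')⟩
  · obtain ⟨j, hj⟩ := (Metric.tendsto_nhds.1 hv _ one_half_pos).exists
    rw [dist_eq_norm] at hj
    refine ((CStarMatrix.norm_entry_le_norm (i := 0) (j := 0)).trans_lt hj).not_ge
      (R.obstruction n1 e6 b (fun p θ η h1 h2 => ?_) (v j 0))
    obtain ⟨h3, h4⟩ := d3 p θ h1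
    split_ifs at h4 with h5 <;> simp only [Prod.ext_iff, Prod.fst_zero, Prod.snd_zero] at h4 <;>
      refine b2 p η h3 ?_ ?_ <;> simp only [h4.1, h4.2.1, h4.2.2]
    · simp only [star_div₀, star_ofNat]
      push_cast
      linear_combination (h2 h5).1 / 2
    · push_cast
      linear_combination (h2 h5).2 / 2
    · simp
    · simp
  have h1 := (tw S True l).le_add (IS.ofQ h E0 h' R.toCov) (f := (tw S True l).ch ℝ 0) (g := 0)
    (c := γ) fun p hp => by
      rw [bs, sum_eq_single 0 (fun i hi h0 => by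
        rw [Tower.ch_apply, Tower.pos_base _ hp (by omega) (by simpa using hi), if_neg (by omega)])
        (by simp [(qq_pos l).ne'])]
      simpa [bs, show p.o l = 0 from hp] using hl
  have h2 := (tw S True n).le_add (IS.ofQ h E0 h' R.toCov) (f := f) (g := gg N t)
    (c := -(2 * γ)) fun p hp => by
      have := qq_posR n
      rcases d4 p hp with ⟨h3, h4⟩ | h3
      · rw [cast_card_erase_of_mem (zero_mem_FF n)] at h4
        have h5 := (le_div_iff₀ this).1 (rho_le n)
        nlinarith [H2 p hp h3]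
      · have : bs (TT S True) (qq n) f p ≤ qq n * (3 / 2) := by
          simpa [bs] using sum_le_sum (s := range (qq n)) fun i _ => hf ((TT S True ^ (i : ℤ)) p)
        nlinarith
  rw [dim_proj σ ha, show (tw S True l).ch ℂ 0 = cx ((tw S True l).ch ℝ 0) by
    ext p; simp [apply_ite Complex.ofReal], ← IS.ofQ_apply h E0 h']
  rw [map_zero] at h1
  linarith

end

end Pool.Agent.P.MP_456758_an
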