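import Pool.Agent.P.MP_456758_an.Comb

/-! The dynamical systems. -/

namespace Pool.Agent.P.MP_456758_an

open Filter Topology Finset
open scoped Classical

noncomputable section

attribute [-simp] zpow_natCast zpow_neg

lemma cont_disc {Y W : Type} [TopologicalSpace Y] [TopologicalSpace W] {a : Y → ℤ}
    (ha : Continuous a) {F : ℤ → Y → W} (hF : ∀ k, Continuous (F k)) :
    Continuous fun y => F (a y) y :=
  (continuous_prod_of_discrete_left (f := fun p : ℤ × Y => F p.1 p.2).2 hF).comp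
    (ha.prodMk continuous_id)

/-- A compact star-shaped subset of the plane. -/
structure Seed where
  /-- The set. -/
  K : Set (ℝ × ℝ)
  compact : IsCompact K
  zero : 0 ∈ K
  star : ∀ κ ∈ K, ∀ t : ℝ, 0 ≤ t → t ≤ 1 → t • κ ∈ K

variable (S : Seed) (b : Prop)

instance : CompactSpace S.K := isCompact_iff_compactSpace.1 S.compact

instance : Zero S.K := ⟨⟨0, S.zero⟩⟩

/-- A sequence all of whose tails are dense. -/
def Seed.w (j : ℕ) : ℤ → S.K := TopologicalSpace.denseSeq (ℤ → S.K) j.unpair.1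

lemma Seed.w_dense (z : ℤ → S.K) (n : ℕ) {ε : ℝ} (hε : 0 < ε) :
    ∃ j ≥ n, ∀ i : ℤ, -qq n ≤ i → i < qq n → dist (S.w j i) (z i) < ε := by
  have : IsOpen (⋂ i ∈ Finset.Ico (-qq n : ℤ) (qq n), {v : ℤ → S.K | dist (v i) (z i) < ε}) :=
    isOpen_biInter_finset fun i _ => isOpen_lt (by fun_prop) continuous_const
  obtain ⟨a, ha⟩ := (TopologicalSpace.denseRange_denseSeq (ℤ → S.K)).exists_mem_open this
    ⟨z, by simp [hε]⟩
  exact ⟨a.pair n, Nat.right_le_pair _ _, fun i h0 h1 => by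
    simpa [Seed.w] using Set.mem_iInter₂.1 ha i (mem_Ico.2 ⟨h0, h1⟩)⟩

/-- The condition of level `n`. -/
def In (n : ℕ) (p : (ℤ → S.K) × (ℕ → ℤ)) : Prop :=
  ∀ i, ¬Free n (p.2 n + i) → p.1 i = sk S.w n (p.2 n + i)

/-- The full system (`b` false) and the minimal system (`b` true). -/
def Sys : Type := {p : (ℤ → S.K) × (ℕ → ℤ) //
  (∀ l, 0 ≤ p.2 l ∧ p.2 l < qq l ∧ p.2 (l + 1) % qq l = p.2 l) ∧ (b → ∀ n, In S n p)}

instance : TopologicalSpace (Sys S b) := instTopologicalSpaceSubtype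

instance : T2Space (Sys S b) := inferInstanceAs (T2Space (Subtype _))

instance : SecondCountableTopology (Sys S b) := TopologicalSpace.Subtype.secondCountableTopology _

instance : CompactSpace (Sys S b) := by
  refine isCompact_iff_compactSpace.1 ((isCompact_univ.prod (isCompact_univ_pi fun l =>
    (Set.finite_Icc (0 : ℤ) (qq l)).isCompact)).of_isClosed_subset (IsClosed.and ?_ ?_) ?_)
  · simp only [Set.ofPred_forall]
    exact isClosed_iInter fun l => (isClosed_discrete {a : ℤ × ℤ | 0 ≤ a.1 ∧ a.1 < qq l ∧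
      a.2 % qq l = a.1}).preimage (f := fun p : (ℤ → S.K) × (ℕ → ℤ) => (p.2 l, p.2 (l + 1)))
      (by fun_prop)
  · simp only [In, Set.ofPred_forall (ι := b), Set.ofPred_forall (ι := ℕ), Set.ofPred_forall (ι := ℤ)]
    refine isClosed_iInter fun _ => isClosed_iInter fun n => isClosed_iInter fun i => ?_
    have := isClosed_eq (f := fun p : (ℤ → S.K) × (ℕ → ℤ) => p.1 i) (by fun_prop)
      (cont_disc (a := fun p => p.2 n + i) (by fun_prop)
        (F := fun k p => if Free n k then p.1 i else sk S.w n k) fun k => by split_ifs <;> fun_prop)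
    convert this using 1
    ext p
    by_cases h : Free n (p.2 n + i) <;> simp [h]
  · exact fun p hp => ⟨trivial, fun l _ => ⟨(hp.1 l).1, (hp.1 l).2.1.le⟩⟩

variable {S b}

namespace Sys

/-- The coordinates. -/
def x (p : Sys S b) (i : ℤ) : S.K := p.1.1 i

/-- The positions. -/
def o (p : Sys S b) (l : ℕ) : ℤ := p.1.2 l

@[fun_prop] lemma x_cont (i : ℤ) : Continuous fun p : Sys S b => p.x i :=
  (continuous_apply i).comp (continuous_fst.comp continuous_subtype_val)

@[fun_prop] lemma o_cont (l : ℕ) : Continuous fun p : Sys S b => p.o l :=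
  (continuous_apply l).comp (continuous_snd.comp continuous_subtype_val)

lemma cont_iff {Y : Type} [TopologicalSpace Y] {f : Y → Sys S b} (h1 : ∀ i, Continuous fun y => (f y).x i)
    (h2 : ∀ l, Continuous fun y => (f y).o l) : Continuous f :=
  Continuous.subtype_mk (f := fun y => (f y).1) ((continuous_pi h1).prodMk (continuous_pi h2)) _

lemma ext {p p' : Sys S b} (h1 : ∀ i, p.x i = p'.x i) (h2 : ∀ l, p.o l = p'.o l) : p = p' :=
  Subtype.ext (Prod.ext (funext h1) (funext h2))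

lemma o_nonneg (p : Sys S b) (l : ℕ) : 0 ≤ p.o l := (p.2.1 l).1

lemma o_lt (p : Sys S b) (l : ℕ) : p.o l < qq l := (p.2.1 l).2.1

lemma o_mod (p : Sys S b) {l m : ℕ} (h : l ≤ m) : p.o m % qq l = p.o l := by
  induction h with
  | refl => exact Int.emod_eq_of_lt (p.o_nonneg l) (p.o_lt l)
  | step h ih => rw [← ih, ← Int.emod_emod_of_dvd _ (qq_dvd' h)]; exact congrArg (· % _) (p.2.1 _).2.2

lemma o_eq {p p' : Sys S b} {l m : ℕ} (h : l ≤ m) (h' : p.o m = p'.o m) : p.o l = p'.o l := by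
  rw [← p.o_mod h, h', p'.o_mod h]

lemma x_eq (p : Sys S True) {n : ℕ} {i : ℤ} (h : ¬Free n (p.o n + i)) :
    p.x i = sk S.w n (p.o n + i) := p.2.2 trivial n i h

/-- The shift by `n`. -/
def mv (n : ℤ) (p : Sys S b) : Sys S b :=
  ⟨(fun i => p.x (i + n), fun l => (p.o l + n) % qq l), fun l =>
    ⟨Int.emod_nonneg _ (qq_pos' l).ne', Int.emod_lt_of_pos _ (qq_pos' l), by
      simp only
      rw [Int.emod_emod_of_dvd _ (qq_dvd' l.le_succ), ← p.o_mod l.le_succ, Int.emod_add_emod]⟩,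
    fun hb m i hi => by
      have : (p.o m + n) % qq m + i ≡ p.o m + (i + n) [ZMOD qq m] := by
        rw [Int.ModEq, Int.emod_add_emod]; congr 1; ring
      exact (p.2.2 hb m (i + n) (mt (Free_congr this).2 hi)).trans (sk_congr _ this.symm)⟩

lemma mv_mv (m n : ℤ) (p : Sys S b) : mv m (mv n p) = mv (m + n) p :=
  ext (fun i => congrArg p.x (add_assoc _ _ _)) fun l =>
    (Int.emod_add_emod _ _ _).trans (by congr 1; ring)

lemma mv_zero (p : Sys S b) : mv 0 p = p :=
  ext (fun _ => congrArg p.x (add_zero _)) fun _ => (congrArg (· % _) (add_zero _)).trans (p.o_mod le_rfl)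

lemma mv_cont (n : ℤ) : Continuous (mv n : Sys S b → Sys S b) :=
  cont_iff (fun _ => x_cont _) fun l =>
    (continuous_of_discreteTopology (f := fun a : ℤ => (a + n) % qq l)).comp (o_cont l)

end Sys

open Sys

/-- The homeomorphism. -/
def TT (S : Seed) (b : Prop) : Sys S b ≃ₜ Sys S b where
  toFun := mv 1
  invFun := mv (-1)
  left_inv p := by rw [mv_mv, neg_add_cancel, mv_zero]
  right_inv p := by rw [mv_mv, add_neg_cancel, mv_zero]
  continuous_toFun := mv_cont 1
  continuous_invFun := mv_cont (-1)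

lemma TT_zpow (n : ℤ) (p : Sys S b) : (TT S b ^ n) p = mv n p := by
  induction n using Int.induction_on with
  | zero => exact (mv_zero p).symm
  | succ n ih => rw [add_comm, ← zpow_zpow, ih, ← mv_mv]; rfl
  | pred n ih => rw [sub_eq_neg_add, ← zpow_zpow, ih, ← mv_mv]; rfl

@[simp] lemma TT_x (n : ℤ) (p : Sys S b) (i : ℤ) : ((TT S b ^ n) p).x i = p.x (i + n) := by
  rw [TT_zpow]; rfl

@[simp] lemma TT_o (n : ℤ) (p : Sys S b) (l : ℕ) : ((TT S b ^ n) p).o l = (p.o l + n) % qq l := by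
  rw [TT_zpow]; rfl

/-- The tower of level `l`. -/
def tw (S : Seed) (b : Prop) (l : ℕ) : Tower (TT S b) (qq l) :=
  ⟨⟨fun p => p.o l, o_cont l⟩, fun p => p.o_nonneg l, fun p => p.o_lt l, fun _ => rfl⟩

@[simp] lemma tw_pos (l : ℕ) (p : Sys S b) : (tw S b l).pos p = p.o l := rfl

lemma hasTowers (S : Seed) (b : Prop) : HasTowers (TT S b) := fun N =>
  ⟨qq N, by have := lt_qq N; omega, ⟨tw S b N⟩⟩

lemma fill_eq (z : ℤ → S.K) {n m : ℕ} (h : n ≤ m) {i : ℤ} (h0 : -qq n ≤ i) (h1 : i < qq n) :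
    (if Free m i then z i else sk S.w m i) = if Free n i then z i else sk S.w n i := by
  rw [if_congr (Free_small h h0 h1) rfl rfl]
  split_ifs with h'
  exacts [rfl, sk_mono _ h h']

lemma fill_eq' (z : ℤ → S.K) {n : ℕ} {i : ℤ} (h0 : -qq n ≤ i) (h1 : i < qq n) :
    (if Free i.natAbs i then z i else sk S.w i.natAbs i) = if Free n i then z i else sk S.w n i := by
  have := lt_qq i.natAbs
  rw [← fill_eq z (le_max_left n i.natAbs) h0 h1,
    fill_eq z (le_max_right n i.natAbs) (by omega) (by omega)]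

/-- The point with position `0` and prescribed free coordinates. -/
def pt (z : ℤ → S.K) : Sys S True :=
  ⟨(fun i => if Free i.natAbs i then z i else sk S.w i.natAbs i, 0),
    fun l => ⟨le_rfl, qq_pos' l, Int.zero_emod _⟩, fun _ n i hi => by
      have h1 := lt_qq i.natAbs
      have h2 := qq_mono (le_max_right n i.natAbs)
      simp only [Pi.zero_apply, zero_add] at hi ⊢
      rw [fill_eq' z (n := max n i.natAbs) (by omega) (by omega),
        if_neg fun h => hi (h.mono (le_max_left _ _)), sk_mono _ (le_max_left _ _) hi]⟩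

@[simp] lemma pt_o (z : ℤ → S.K) (l : ℕ) : (pt z).o l = 0 := rfl

lemma pt_x (z : ℤ → S.K) {n : ℕ} {i : ℤ} (h0 : -qq n ≤ i) (h1 : i < qq n) :
    (pt z).x i = if Free n i then z i else sk S.w n i := fill_eq' z h0 h1

lemma pt_cont : Continuous (pt : (ℤ → S.K) → Sys S True) :=
  cont_iff (fun i => by
    change Continuous fun z : ℤ → S.K => if Free i.natAbs i then z i else sk S.w i.natAbs i
    split_ifs <;> fun_prop) fun _ => continuous_const

lemma pt_dist {z z' : ℤ → S.K} {i : ℤ} {t : ℝ} (ht : 0 ≤ t) (h : dist (z i) (z' i) ≤ t) :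
    dist ((pt z).x i) ((pt z').x i) ≤ t := by
  change dist (if _ then _ else _) (if _ then _ else _) ≤ t
  split_ifs
  exacts [h, by simpa using ht]

lemma window {p : Sys S b} {n : ℕ} (hp : In S n p.1) {J : ℕ} (hJ : 2 * J < qq n) (s : ℤ) :
    ∃ (z : ℤ → S.K) (r : ℤ), (∀ i, |i - s| ≤ J → -qq n ≤ i + r ∧ i + r < qq n) ∧
      ((TT S True ^ r) (pt z)).o n = p.o n ∧
      ∀ i, |i - s| ≤ J → ((TT S True ^ r) (pt z)).x i = p.x i := by
  have h0 := Int.emod_nonneg (p.o n + s) (qq_pos' n).ne'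
  have h1 := Int.emod_lt_of_pos (p.o n + s) (qq_pos' n)
  obtain ⟨r, hr, hr'⟩ : ∃ r : ℤ, r ≡ p.o n [ZMOD qq n] ∧
      ∀ i, |i - s| ≤ J → -qq n ≤ i + r ∧ i + r < qq n := by
    have : (p.o n + s) % qq n - s ≡ p.o n [ZMOD qq n] := by
      simpa using (Int.mod_modEq (p.o n + s) (qq n)).sub_right s
    by_cases h : (p.o n + s) % qq n + J < qq n
    · exact ⟨_, this, fun i hi => by rw [abs_le] at hi; omega⟩
    · exact ⟨_ - qq n, by simpa using this, fun i hi => by rw [abs_le] at hi; omega⟩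
  refine ⟨fun k => p.x (k - r), r, hr', by simpa using hr.eq.trans (p.o_mod le_rfl), fun i hi => ?_⟩
  have h2 : i + r ≡ p.o n + i [ZMOD qq n] := by rw [add_comm]; exact hr.add_right i
  rw [TT_x, pt_x _ (hr' i hi).1 (hr' i hi).2, add_sub_cancel_right]
  split_ifs with h
  exacts [rfl, (sk_congr _ h2).trans (hp i (mt (Free_congr h2).2 h)).symm]

lemma approx (p : Sys S True) (z : ℤ → S.K) (n : ℕ) {ε : ℝ} (hε : 0 < ε) : ∃ m : ℤ,
    (p.o n + m) % qq n = 0 ∧ ∀ i : ℤ, -qq n ≤ i → i < qq n → dist (p.x (i + m)) ((pt z).x i) < ε := by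
  obtain ⟨j, hj, h⟩ := S.w_dense z n hε
  refine ⟨2 * qq j - p.o (j + 1), ?_, fun i h0 h1 => ?_⟩
  · rw [← p.o_mod (hj.trans j.le_succ), Int.emod_add_emod, add_sub_cancel]
    exact Int.emod_eq_zero_of_dvd ((qq_dvd' hj).mul_left 2)
  have h2 := qq_mono hj
  have h3 : 8 * qq j ≤ qq (j + 1) := Nat.mul_le_mul_right _ (kk_ge j)
  have h4 : p.o (j + 1) + (i + (2 * qq j - p.o (j + 1))) = i + 2 * qq j := by ring
  have h5 : i + 2 * qq j ≡ i [ZMOD qq j] := by simp [Int.ModEq]
  rw [p.x_eq (n := j + 1) (h4 ▸ fun h => h j j.lt_succ_self (Fx_slot (by omega) (by omega))), h4,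
    sk, pt_x z h0 h1, Int.emod_eq_of_lt (by omega) (by omega), add_sub_cancel_right,
    if_congr ((Free_congr h5).trans (Free_small hj h0 h1)) rfl (sk_congr _ h5)]
  split_ifs with h6
  exacts [h i h0 h1, by simpa [sk_mono _ hj h6] using hε]

theorem minimal (p : Sys S True) : DenseRange fun n : ℤ => (TT S True ^ n) p := by
  intro p'
  have key : ∀ k : ℕ, ∃ m : ℤ, ((TT S True ^ m) p).o k = p'.o k ∧
      ∀ i : ℤ, |i| ≤ k → dist (((TT S True ^ m) p).x i) (p'.x i) < 1 / (k + 1) := fun k => by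
    obtain ⟨z, r, h1, h2, h3⟩ := window (p'.2.2 trivial k) (lt_qq k) 0
    obtain ⟨m, h4, h5⟩ := approx p z k (Nat.one_div_pos_of_nat (n := k))
    refine ⟨r + m, ?_, fun i hi => ?_⟩
    · rw [← h2, TT_o, TT_o, pt_o, ← h4, Int.emod_add_emod]
      congr 1; ring
    · rw [← h3 i (by simpa using hi), TT_x, TT_x, ← add_assoc]
      exact h5 _ (h1 i (by simpa using hi)).1 (h1 i (by simpa using hi)).2
  choose m h1 h2 using key
  refine mem_closure_of_tendsto (b := atTop) (f := fun k => (TT S True ^ m k) p) ?_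
    (Eventually.of_forall fun k => ⟨_, rfl⟩)
  refine tendsto_subtype_rng.2 (Prod.tendsto_iff _ _ |>.2 ⟨tendsto_pi_nhds.2 fun i => ?_,
    tendsto_pi_nhds.2 fun l => ?_⟩)
  · refine tendsto_iff_dist_tendsto_zero.2 (squeeze_zero' (Eventually.of_forall fun _ => dist_nonneg)
      ((eventually_ge_atTop i.natAbs).mono fun k hk => (h2 k i ?_).le)
      tendsto_one_div_add_atTop_nhds_zero_nat)
    rw [← Int.natCast_natAbs]; exact_mod_cast hk
  · exact tendsto_const_nhds.congr' ((eventually_ge_atTop l).mono fun k hk => (o_eq hk (h1 k)).symm)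

instance : Infinite (Sys S True) :=
  Infinite.of_injective (fun n : ℕ => (TT S True ^ (n : ℤ)) (pt 0)) fun a b h => by
    have h1 := congrArg (·.o (a + b)) h
    have h2 := lt_qq (a + b)
    simp only [TT_o, pt_o, zero_add] at h1
    rw [Int.emod_eq_of_lt (by omega) (by omega), Int.emod_eq_of_lt (by omega) (by omega)] at h1
    exact_mod_cast h1

end

end Pool.Agent.P.MP_456758_an
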