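import Pool.Agent.P.MP_456758_an.CP

/-! The universal property of the concrete crossed product. -/

namespace Pool.Agent.P.MP_456758_an

open scoped ENNReal BoundedContinuousFunction ComplexOrder
open Filter Topology

noncomputable section

lemma norm_sum_conj_le {B ι : Type} [CStarAlgebra B] [PartialOrder B] [StarOrderedRing B]
    [Fintype ι] [DecidableEq ι] (v : ι → B) (hv : ∀ i, v i * star (v i) = 1)
    (M : CStarMatrix ι ι B) : ‖∑ i, ∑ j, v i * M i j * star (v j)‖ ≤ Fintype.card ι * ‖M‖ := by
  rcases isEmpty_or_nonempty ι with h | ⟨⟨k⟩⟩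
  · simp
  let V : CStarMatrix ι ι B := CStarMatrix.ofMatrix fun a i => if a = k then v i else 0
  let E : CStarMatrix ι ι B := CStarMatrix.ofMatrix fun a b => if a = k ∧ b = k then 1 else 0
  have hE : IsStarProjection E := by
    constructor
    · ext a b
      by_cases h1 : a = k <;> by_cases h2 : b = k <;> simp [E, CStarMatrix.mul_apply, h1, h2]
    · ext a b
      simp [E, CStarMatrix.star_apply, apply_ite star, and_comm]
  have h1 : V * star V = Fintype.card ι • E := by
    ext a b
    by_cases h1 : a = k <;> by_cases h2 : b = k <;>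
      simp [V, E, CStarMatrix.mul_apply, CStarMatrix.star_apply, h1, h2, hv]
  have h2 : ‖V‖ * ‖V‖ ≤ Fintype.card ι := by
    rw [← CStarRing.norm_self_mul_star, h1]
    exact norm_nsmul_le.trans (mul_le_of_le_one_right (by positivity) hE.norm_le)
  have h3 : (V * M * star V) k k = ∑ i, ∑ j, v i * M i j * star (v j) := by
    rw [Finset.sum_comm]
    simp [V, CStarMatrix.mul_apply, CStarMatrix.star_apply, Finset.sum_mul]
  rw [← h3]
  refine CStarMatrix.norm_entry_le_norm.trans (norm_mul₃_le.trans ?_)
  rw [norm_star]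
  nlinarith [norm_nonneg M]

/-- The indicator function of an integer. -/
def ind (i : ℤ) : ℤ →ᵇ ℂ :=
  BoundedContinuousFunction.ofNormedAddCommGroupDiscrete (fun n => if n = i then 1 else 0) 1
    fun n => by split_ifs <;> simp

@[simp] lemma ind_apply (i n : ℤ) : ind i n = if n = i then 1 else 0 := rfl

lemma star_wop_ind (i : ℤ) : star (wop (ind i) i) = wop (ind 0) (-i) :=
  star_wop fun n => by simp [apply_ite star]

variable {X : Type} [TopologicalSpace X] [CompactSpace X] {T : X ≃ₜ X}

/-- The matrix units of the regular representation. -/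
def ambMU (X : Type) [TopologicalSpace X] [CompactSpace X] (s : Finset ℤ) :
    MU s C(X, ℂ) (Amb X) where
  w i := Amb.const X (wop (ind i) i)
  e := Amb.const X (mop (ind 0))
  ψ := Amb.lift fun x => (StarAlgHom.ofId ℂ _).comp (ContinuousMap.evalStarAlgHom ℂ ℂ x)
  orth i j := by
    rw [← map_star, ← map_mul, star_wop_ind, ← map_zero (Amb.const X), ← apply_ite (Amb.const X)]
    congr 1
    ext ξ n
    by_cases h : i = j
    · by_cases h' : n = 0 <;> simp [h, h']
    · by_cases h' : n = 0 <;> simp [h, h']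
  comm a := lp.ext (funext fun x => (Algebra.commutes (a x) (mop (ind 0))).symm)
  mul_e i := by
    rw [← map_mul]
    congr 1
    ext ξ n
    by_cases h : n = i <;> simp [h]

lemma norm_window_le (s : Finset ℤ) (f : ℤ →₀ C(X, ℂ)) :
    ‖(CStarMatrix.ofMatrix fun i j : s => sh T i (f (i - j)) : CStarMatrix s s C(X, ℂ))‖ ≤
      ‖(cp T).poly f‖ := by
  have hi : Function.Injective (ambMU X s).hom := by
    refine (injective_iff_map_eq_zero _).2 fun M hM => ?_
    ext i j x
    have := (ambMU X s).hom_entry M i j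
    rw [hM, mul_zero, zero_mul] at this
    have h1 : (0 : H →L[ℂ] H) = mop (ind 0) * algebraMap ℂ _ (M i j x) * mop (ind 0) :=
      congrArg (fun a : Amb X => a x) this
    simpa [Algebra.algebraMap_eq_smul_one] using congrArg (fun a : H →L[ℂ] H => a (dl 0) 0) h1.symm
  rw [← NonUnitalStarAlgHom.norm_map _ hi]
  refine lp.norm_le_of_forall_le (norm_nonneg _) fun x => ?_
  let g : ℤ →ᵇ ℂ := BoundedContinuousFunction.ofNormedAddCommGroupDiscrete
    (fun n => if n ∈ s then 1 else 0) 1 fun n => by split_ifs <;> simp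
  have hg : ‖mop g‖ ≤ 1 := (NonUnitalStarAlgHom.norm_apply_le _ _).trans
    (BoundedContinuousFunction.norm_ofNormedAddCommGroup_le _ zero_le_one _)
  have : (ambMU X s).hom (CStarMatrix.ofMatrix fun i j : s => sh T i (f (i - j))) x =
      mop g * rep x ((cp T).poly f) * mop g := by
    have h1 : (ambMU X s).hom (CStarMatrix.ofMatrix fun i j : s => sh T i (f (i - j))) x =
        ∑ i : s, ∑ j : s, wop (ind i) i * algebraMap ℂ _ (f (i - j) ((T ^ (i : ℤ)) x)) *
          star (wop (ind j) j) := by
      change Amb.ev x _ = _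
      simp only [MU.hom_apply, map_sum, map_mul, map_star]
      rfl
    rw [h1]
    ext ξ n
    simp only [star_wop_ind, sum_apply, lp.coeFn_sum, Finset.sum_apply,
      mul_apply_eq_comp, mop_apply, rep_poly, wop_apply, ind_apply,
      Algebra.algebraMap_eq_smul_one, smul_apply, lp.coeFn_smul, Pi.smul_apply]
    by_cases hn : n ∈ s
    swap
    · have : ∀ i : s, n ≠ i := fun i h => hn (h ▸ i.2)
      simp [this, g, hn]
    rw [Finset.sum_eq_single ⟨n, hn⟩ (fun i _ hi => by simp [show n ≠ i from fun h => hi (Subtype.ext h.symm)]) (by simp)]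
    have hg : ∀ n, g n = if n ∈ s then 1 else 0 := fun _ => rfl
    simp only [hg, hn, if_true, one_mul, one_apply_eq_self, wop_apply, ind_apply, sub_self, sub_neg_eq_add, zero_add,
      smul_eq_mul]
    refine Finset.sum_bij_ne_zero (fun j _ _ => n - j) (fun j _ h => ?_) (fun i _ _ j _ _ h => ?_)
      (fun l _ h => ⟨⟨n - l, by_contra fun h' => h (by simp [h'])⟩, by simp, fun h' => h ?_, by simp⟩) fun j _ _ => by simp
    · exact Finsupp.mem_support_iff.2 fun h' => h (by simp [h'])
    · exact Subtype.ext (by simpa using h)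
    · split_ifs
      · simpa using h'
      · simp
  rw [this]
  refine norm_mul₃_le.trans ?_
  have := norm_rep_le x ((cp T).poly f)
  calc _ ≤ 1 * ‖(cp T).poly f‖ * 1 := by gcongr
    _ = _ := by simp

lemma Cov.norm_poly_le {B : Type} [CStarAlgebra B] (c : Cov T B) (f : ℤ →₀ C(X, ℂ)) :
    ‖c.poly f‖ ≤ ‖(cp T).poly f‖ := by
  let := CStarAlgebra.spectralOrder B
  have := CStarAlgebra.spectralOrderedRing B
  have h1 : ∀ N : ℕ, ‖∑ l ∈ f.support, (((Finset.Ico (0 : ℤ) N).filter
      fun i => i - l ∈ Finset.Ico (0 : ℤ) N).card : ℂ) • (c.π (f l) * c.zu l)‖ ≤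
      N * ‖(cp T).poly f‖ := fun N => by
    have := norm_sum_conj_le (fun i : Finset.Ico (0 : ℤ) N => c.zu i)
      (fun i => by rw [c.star_zu, ← c.zu_add, add_neg_cancel, c.zu_zero])
      (amp _ c.π (CStarMatrix.ofMatrix fun i j => sh T i (f (i - j))))
    refine le_trans (le_of_eq (congrArg _ ?_)) (this.trans (mul_le_mul (by simp)
      ((NonUnitalStarAlgHom.norm_apply_le _ _).trans (norm_window_le _ f)) (norm_nonneg _)
      (by positivity)))
    simp only [amp_apply, CStarMatrix.ofMatrix_apply, ← c.π_mul_zu, c.star_zu, mul_assoc,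
      ← c.zu_add, Finset.card_filter, Nat.cast_sum, Finset.sum_smul]
    rw [Finset.sum_comm, ← Finset.sum_coe_sort]
    refine Finset.sum_congr rfl fun i _ => ?_
    symm
    refine Finset.sum_bij_ne_zero (fun j _ _ => (i : ℤ) - j) (fun j _ h => ?_)
      (fun i _ _ j _ _ h => ?_)
      (fun l _ h => ⟨⟨i - l, by_contra fun h' => h (by simp only [h']; simp)⟩, Finset.mem_univ _,
        fun h' => h ?_, by simp⟩) fun j _ _ => ?_
    · exact Finsupp.mem_support_iff.2 fun h' => h (by simp [h'])
    · exact Subtype.ext (by simpa using h)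
    · rw [show c.π (f l) * c.zu l = 0 by simpa using h', smul_zero]
    · rw [sub_sub_cancel, if_pos j.2, sub_eq_add_neg]; simp
  have h2 : Tendsto (fun N : ℕ => ∑ l ∈ f.support, (((((Finset.Ico (0 : ℤ) N).filter
      fun i => i - l ∈ Finset.Ico (0 : ℤ) N).card : ℝ) / N : ℝ) : ℂ) • (c.π (f l) * c.zu l))
      atTop (𝓝 (c.poly f)) := by
    rw [c.poly_eq]
    refine tendsto_finsetSum _ fun l _ => ?_
    conv => enter [3, 1]; rw [← one_smul ℂ (c.π (f l) * c.zu l)]
    refine Tendsto.smul_const ((Complex.continuous_ofReal.tendsto 1).comp ?_) _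
    have h3 : Tendsto (fun N : ℕ => 1 - (|l| : ℝ) / N) atTop (𝓝 1) := by
      simpa using (tendsto_const_div_atTop_nhds_zero_nat (|l| : ℝ)).const_sub 1
    refine h3.congr' ?_
    filter_upwards [eventually_gt_atTop l.natAbs] with N hN
    have h4 : ((Finset.Ico (0 : ℤ) N).filter fun i => i - l ∈ Finset.Ico (0 : ℤ) N) =
        Finset.Ico (max 0 l) (min N (N + l)) := by
      ext i; simp only [Finset.mem_filter, Finset.mem_Ico, max_le_iff, lt_min_iff]; omega
    have h5 : ((Finset.Ico (max 0 l) (min N (N + l))).card : ℤ) = N - |l| := by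
      rw [Int.card_Ico]
      rcases abs_cases l with h | h <;> omega
    have h6 : ((Finset.Ico (max 0 l) (min N (N + l))).card : ℝ) = N - |l| := by exact_mod_cast h5
    have h7 : (N : ℝ) ≠ 0 := by exact_mod_cast (by omega : N ≠ 0)
    rw [h4, h6]
    push_cast
    field_simp
  refine le_of_tendsto h2.norm ?_
  filter_upwards [eventually_gt_atTop 0] with N hN
  have hN' : (0 : ℝ) < N := by exact_mod_cast hN
  refine le_of_mul_le_mul_left (le_of_eq_of_le ?_ (h1 N)) hN'
  conv_lhs => enter [1]; rw [← Complex.norm_natCast]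
  rw [← norm_smul, Finset.smul_sum]
  congr 2
  ext l
  rw [smul_smul]
  congr 1
  have : (N : ℂ) ≠ 0 := by exact_mod_cast hN.ne'
  push_cast
  field_simp

theorem isCrossedProduct (T : X ≃ₜ X) : IsCrossedProduct T (CP T) := by
  refine ⟨(cp T).π, (cp T).u, ⟨(cp T).u.2, (cp T).cov⟩, fun B _ ρ v h => ?_⟩
  let c : Cov T B := ⟨ρ, ⟨v, h.1⟩, h.2⟩
  let φ : CP T →L[ℂ] B := c.poly.extendOfNorm (cp T).poly
  have hφ : ∀ f, φ ((cp T).poly f) = c.poly f :=
    LinearMap.extendOfNorm_eq (cp_dense T) ⟨1, fun f => (c.norm_poly_le f).trans_eq (one_mul _).symm⟩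
  have h1 : ∀ l a, φ ((cp T).π a * (cp T).zu l) = c.π a * c.zu l := fun l a => by
    simpa using hφ (.single l a)
  have hm : ∀ a b, φ (a * b) = φ a * φ b := fun a b => by
    refine (cp_dense T).induction_on₂ (p := fun a b => φ (a * b) = φ a * φ b)
      (isClosed_eq (by fun_prop) (by fun_prop)) (fun f g => ?_) a b
    induction f using Finsupp.induction_linear with
    | zero => simp
    | add f f' h h' => simp only [map_add, add_mul, h, h']
    | single l a =>
      induction g using Finsupp.induction_linear with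
      | zero => simp
      | add g g' h h' => simp only [map_add, mul_add, h, h']
      | single m b =>
        have e : ∀ {D : Type} [CStarAlgebra D] (c : Cov T D), c.π a * c.zu l * (c.π b * c.zu m) =
            c.π (a * sh T (-l) b) * c.zu (l + m) := fun c => by
          rw [map_mul, c.zu_add, mul_assoc, mul_assoc, ← mul_assoc (c.zu l), c.zu_mul_π, mul_assoc]
        simp only [Cov.poly_single, e, h1]
  have hs : ∀ a, φ (star a) = star (φ a) := fun a => by
    refine (cp_dense T).induction_on (p := fun a => φ (star a) = star (φ a)) a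
      (isClosed_eq (by fun_prop) (by fun_prop)) fun f => ?_
    induction f using Finsupp.induction_linear with
    | zero => simp
    | add f f' h h' => simp only [map_add, star_add, h, h']
    | single l a =>
      simp only [Cov.poly_single, h1, star_mul, Cov.star_zu, ← map_star, Cov.zu_mul_π]
  have h2 : ∀ a, φ ((cp T).π a) = ρ a := fun a => by simpa using h1 0 a
  refine ⟨{ toFun := φ, map_one' := by simpa using h2 1, map_mul' := hm, map_zero' := map_zero φ
            map_add' := map_add φ, commutes' := fun r => ?_, map_star' := hs }, ⟨h2, ?_⟩, ?_⟩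
  · simpa [AlgHomClass.commutes] using h2 (algebraMap ℂ _ r)
  · simpa [Cov.zu_one] using h1 1 1
  · rintro ψ ⟨h3, h4⟩
    refine DFunLike.coe_injective ((cp_dense T).equalizer (hom_cont ψ) φ.continuous ?_)
    exact funext fun f => (Cov.map_poly _ c ψ h3 (Cov.map_zu _ c ψ h4) f).trans (hφ f).symm

end

end Pool.Agent.P.MP_456758_an
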